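import Pool.Agent.K4H49.KT.SumB

/-! The base case n = 3. -/

namespace Pool.Agent.K4H49.KT

noncomputable section

open Multiset

def mk3 (a b c : ℕ) : Multiset (Fin 3) := replicate a 0 + replicate b 1 + replicate c 2

lemma mk3_cons0 (a b c : ℕ) : (0 : Fin 3) ::ₘ mk3 a b c = mk3 (a + 1) b c := by
  ext x; fin_cases x <;> simp [mk3, Multiset.count_replicate]
lemma mk3_cons1 (a b c : ℕ) : (1 : Fin 3) ::ₘ mk3 a b c = mk3 a (b + 1) c := by
  ext x; fin_cases x <;> simp [mk3, Multiset.count_replicate]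
lemma mk3_cons2 (a b c : ℕ) : (2 : Fin 3) ::ₘ mk3 a b c = mk3 a b (c + 1) := by
  ext x; fin_cases x <;> simp [mk3, Multiset.count_replicate]
lemma mk3_count0 (a b c : ℕ) : (mk3 a b c).count 0 = a := by simp [mk3, Multiset.count_replicate]
lemma mk3_count1 (a b c : ℕ) : (mk3 a b c).count 1 = b := by simp [mk3, Multiset.count_replicate]
lemma mk3_count2 (a b c : ℕ) : (mk3 a b c).count 2 = c := by simp [mk3, Multiset.count_replicate]
lemma mk3_erase0 (a b c : ℕ) : (mk3 a b c).erase 0 = mk3 (a - 1) b c := by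
  ext x
  by_cases h : x = 0
  · subst h; rw [Multiset.count_erase_self, mk3_count0, mk3_count0]
  · rw [Multiset.count_erase_of_ne h]; fin_cases x <;> simp_all [mk3, Multiset.count_replicate]
lemma mk3_erase1 (a b c : ℕ) : (mk3 a b c).erase 1 = mk3 a (b - 1) c := by
  ext x
  by_cases h : x = 1
  · subst h; rw [Multiset.count_erase_self, mk3_count1, mk3_count1]
  · rw [Multiset.count_erase_of_ne h]; fin_cases x <;> simp_all [mk3, Multiset.count_replicate]
lemma mk3_erase2 (a b c : ℕ) : (mk3 a b c).erase 2 = mk3 a b (c - 1) := by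
  ext x
  by_cases h : x = 2
  · subst h; rw [Multiset.count_erase_self, mk3_count2, mk3_count2]
  · rw [Multiset.count_erase_of_ne h]; fin_cases x <;> simp_all [mk3, Multiset.count_replicate]
lemma mk3_card (a b c : ℕ) : card (mk3 a b c) = a + b + c := by simp [mk3]
lemma eq_mk3 (m : Multiset (Fin 3)) : m = mk3 (m.count 0) (m.count 1) (m.count 2) := by
  ext x; fin_cases x <;> simp [mk3, Multiset.count_replicate]

def T3 : TL (Fin 3) := [(1/2, (none, 1), (none, 1)), (-1/2, (none, 2), (none, 2)), (1/2, (some 0, 1), (some 0, 1)), (-1, (none, 1), (some 0, 2))]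

lemma E3 {u : Jet (Fin 3)} (h : Sol 7 (kT T3) u) (a b c : ℕ) (h5 : a + b + c ≤ 5) (i j : Fin 3) :
    ∑ s, kop T3 s j (sh s u) (i ::ₘ mk3 a b c) - ∑ s, kop T3 s i (sh s u) (j ::ₘ mk3 a b c) = 0 := by
  have := h i j (mk3 a b c).toList (by simp [mk3_card]; omega)
  rw [eqn_kT] at this
  simpa using this

set_option linter.unusedSimpArgs false

lemma kop3_00 (v : Jet (Fin 3)) (m : Multiset (Fin 3)) : kop T3 0 0 v m = (mulx 1 (mulx 1 v) m) := by
  simp [kop, T3, Xop, mulx]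
  try ring
lemma kop3_01 (v : Jet (Fin 3)) (m : Multiset (Fin 3)) : kop T3 0 1 v m = (mulx 2 v m) - (mulx 1 (mulx 0 v) m) := by
  simp [kop, T3, Xop, mulx]
  try ring
lemma kop3_02 (v : Jet (Fin 3)) (m : Multiset (Fin 3)) : kop T3 0 2 v m = 0 := by
  simp [kop, T3, Xop, mulx]
  try ring
lemma kop3_10 (v : Jet (Fin 3)) (m : Multiset (Fin 3)) : kop T3 1 0 v m = (mulx 2 v m) - (mulx 0 (mulx 1 v) m) := by
  simp [kop, T3, Xop, mulx]
  try ring
lemma kop3_11 (v : Jet (Fin 3)) (m : Multiset (Fin 3)) : kop T3 1 1 v m = (v m) + (mulx 0 (mulx 0 v) m) := by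
  simp [kop, T3, Xop, mulx]
  try ring
lemma kop3_12 (v : Jet (Fin 3)) (m : Multiset (Fin 3)) : kop T3 1 2 v m = -(mulx 0 v m) := by
  simp [kop, T3, Xop, mulx]
  try ring
lemma kop3_20 (v : Jet (Fin 3)) (m : Multiset (Fin 3)) : kop T3 2 0 v m = 0 := by
  simp [kop, T3, Xop, mulx]
  try ring
lemma kop3_21 (v : Jet (Fin 3)) (m : Multiset (Fin 3)) : kop T3 2 1 v m = -(mulx 0 v m) := by
  simp [kop, T3, Xop, mulx]
  try ring
lemma kop3_22 (v : Jet (Fin 3)) (m : Multiset (Fin 3)) : kop T3 2 2 v m = -(v m) := by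
  simp [kop, T3, Xop, mulx]
  try ring

lemma cover3 {P : ℕ → ℕ → ℕ → Prop} (t_100 : P 1 0 0) (t_010 : P 0 1 0) (t_001 : P 0 0 1) (t_200 : P 2 0 0) (t_110 : P 1 1 0) (t_101 : P 1 0 1) (t_020 : P 0 2 0) (t_011 : P 0 1 1) (t_002 : P 0 0 2) (t_300 : P 3 0 0) (t_210 : P 2 1 0) (t_201 : P 2 0 1) (t_120 : P 1 2 0) (t_111 : P 1 1 1) (t_102 : P 1 0 2) (t_030 : P 0 3 0) (t_021 : P 0 2 1) (t_012 : P 0 1 2) (t_003 : P 0 0 3) (t_400 : P 4 0 0) (t_310 : P 3 1 0) (t_301 : P 3 0 1) (t_220 : P 2 2 0) (t_211 : P 2 1 1) (t_202 : P 2 0 2) (t_130 : P 1 3 0) (t_121 : P 1 2 1) (t_112 : P 1 1 2) (t_103 : P 1 0 3) (t_040 : P 0 4 0) (t_031 : P 0 3 1) (t_022 : P 0 2 2) (t_013 : P 0 1 3) (t_004 : P 0 0 4) (t_500 : P 5 0 0) (t_410 : P 4 1 0) (t_401 : P 4 0 1) (t_320 : P 3 2 0) (t_311 : P 3 1 1) (t_302 : P 3 0 2) (t_230 : P 2 3 0) (t_221 : P 2 2 1) (t_212 : P 2 1 2) (t_203 : P 2 0 3) (t_140 : P 1 4 0) (t_131 : P 1 3 1) (t_122 : P 1 2 2) (t_113 : P 1 1 3)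 (t_104 : P 1 0 4) (t_050 : P 0 5 0) (t_041 : P 0 4 1) (t_032 : P 0 3 2) (t_023 : P 0 2 3) (t_014 : P 0 1 4) (t_005 : P 0 0 5) (t_600 : P 6 0 0) (t_510 : P 5 1 0) (t_501 : P 5 0 1) (t_420 : P 4 2 0) (t_411 : P 4 1 1) (t_402 : P 4 0 2) (t_330 : P 3 3 0) (t_321 : P 3 2 1) (t_312 : P 3 1 2) (t_303 : P 3 0 3) (t_240 : P 2 4 0) (t_231 : P 2 3 1) (t_222 : P 2 2 2) (t_213 : P 2 1 3) (t_204 : P 2 0 4) (t_150 : P 1 5 0) (t_141 : P 1 4 1) (t_132 : P 1 3 2) (t_123 : P 1 2 3) (t_114 : P 1 1 4) (t_105 : P 1 0 5) (t_060 : P 0 6 0) (t_051 : P 0 5 1) (t_042 : P 0 4 2) (t_033 : P 0 3 3) (t_024 : P 0 2 4) (t_015 : P 0 1 5) (t_006 : P 0 0 6) :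
    ∀ a b c : ℕ, 1 ≤ a + b + c → a + b + c < 7 → P a b c := by
  intro a b c h1 h2
  rcases (by omega : a = 0 ∨ a = 1 ∨ a = 2 ∨ a = 3 ∨ a = 4 ∨ a = 5 ∨ a = 6) with rfl | rfl | rfl | rfl | rfl | rfl | rfl
  ·
    rcases (by omega : b = 0 ∨ b = 1 ∨ b = 2 ∨ b = 3 ∨ b = 4 ∨ b = 5 ∨ b = 6) with rfl | rfl | rfl | rfl | rfl | rfl | rfl
    ·
      rcases (by omega : c = 1 ∨ c = 2 ∨ c = 3 ∨ c = 4 ∨ c = 5 ∨ c = 6) with rfl | rfl | rfl | rfl | rfl | rfl
      ·
        exact t_001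
      ·
        exact t_002
      ·
        exact t_003
      ·
        exact t_004
      ·
        exact t_005
      ·
        exact t_006
    ·
      rcases (by omega : c = 0 ∨ c = 1 ∨ c = 2 ∨ c = 3 ∨ c = 4 ∨ c = 5) with rfl | rfl | rfl | rfl | rfl | rfl
      ·
        exact t_010
      ·
        exact t_011
      ·
        exact t_012
      ·
        exact t_013
      ·
        exact t_014
      ·
        exact t_015
    ·
      rcases (by omega : c = 0 ∨ c = 1 ∨ c = 2 ∨ c = 3 ∨ c = 4) with rfl | rfl | rfl | rfl | rfl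
      ·
        exact t_020
      ·
        exact t_021
      ·
        exact t_022
      ·
        exact t_023
      ·
        exact t_024
    ·
      rcases (by omega : c = 0 ∨ c = 1 ∨ c = 2 ∨ c = 3) with rfl | rfl | rfl | rfl
      ·
        exact t_030
      ·
        exact t_031
      ·
        exact t_032
      ·
        exact t_033
    ·
      rcases (by omega : c = 0 ∨ c = 1 ∨ c = 2) with rfl | rfl | rfl
      ·
        exact t_040
      ·
        exact t_041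
      ·
        exact t_042
    ·
      rcases (by omega : c = 0 ∨ c = 1) with rfl | rfl
      ·
        exact t_050
      ·
        exact t_051
    ·
      obtain rfl : c = 0 := by omega
      exact t_060
  ·
    rcases (by omega : b = 0 ∨ b = 1 ∨ b = 2 ∨ b = 3 ∨ b = 4 ∨ b = 5) with rfl | rfl | rfl | rfl | rfl | rfl
    ·
      rcases (by omega : c = 0 ∨ c = 1 ∨ c = 2 ∨ c = 3 ∨ c = 4 ∨ c = 5) with rfl | rfl | rfl | rfl | rfl | rfl
      ·
        exact t_100
      ·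
        exact t_101
      ·
        exact t_102
      ·
        exact t_103
      ·
        exact t_104
      ·
        exact t_105
    ·
      rcases (by omega : c = 0 ∨ c = 1 ∨ c = 2 ∨ c = 3 ∨ c = 4) with rfl | rfl | rfl | rfl | rfl
      ·
        exact t_110
      ·
        exact t_111
      ·
        exact t_112
      ·
        exact t_113
      ·
        exact t_114
    ·
      rcases (by omega : c = 0 ∨ c = 1 ∨ c = 2 ∨ c = 3) with rfl | rfl | rfl | rfl
      ·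
        exact t_120
      ·
        exact t_121
      ·
        exact t_122
      ·
        exact t_123
    ·
      rcases (by omega : c = 0 ∨ c = 1 ∨ c = 2) with rfl | rfl | rfl
      ·
        exact t_130
      ·
        exact t_131
      ·
        exact t_132
    ·
      rcases (by omega : c = 0 ∨ c = 1) with rfl | rfl
      ·
        exact t_140
      ·
        exact t_141
    ·
      obtain rfl : c = 0 := by omega
      exact t_150
  ·
    rcases (by omega : b = 0 ∨ b = 1 ∨ b = 2 ∨ b = 3 ∨ b = 4) with rfl | rfl | rfl | rfl | rfl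
    ·
      rcases (by omega : c = 0 ∨ c = 1 ∨ c = 2 ∨ c = 3 ∨ c = 4) with rfl | rfl | rfl | rfl | rfl
      ·
        exact t_200
      ·
        exact t_201
      ·
        exact t_202
      ·
        exact t_203
      ·
        exact t_204
    ·
      rcases (by omega : c = 0 ∨ c = 1 ∨ c = 2 ∨ c = 3) with rfl | rfl | rfl | rfl
      ·
        exact t_210
      ·
        exact t_211
      ·
        exact t_212
      ·
        exact t_213
    ·
      rcases (by omega : c = 0 ∨ c = 1 ∨ c = 2) with rfl | rfl | rfl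
      ·
        exact t_220
      ·
        exact t_221
      ·
        exact t_222
    ·
      rcases (by omega : c = 0 ∨ c = 1) with rfl | rfl
      ·
        exact t_230
      ·
        exact t_231
    ·
      obtain rfl : c = 0 := by omega
      exact t_240
  ·
    rcases (by omega : b = 0 ∨ b = 1 ∨ b = 2 ∨ b = 3) with rfl | rfl | rfl | rfl
    ·
      rcases (by omega : c = 0 ∨ c = 1 ∨ c = 2 ∨ c = 3) with rfl | rfl | rfl | rfl
      ·
        exact t_300
      ·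
        exact t_301
      ·
        exact t_302
      ·
        exact t_303
    ·
      rcases (by omega : c = 0 ∨ c = 1 ∨ c = 2) with rfl | rfl | rfl
      ·
        exact t_310
      ·
        exact t_311
      ·
        exact t_312
    ·
      rcases (by omega : c = 0 ∨ c = 1) with rfl | rfl
      ·
        exact t_320
      ·
        exact t_321
    ·
      obtain rfl : c = 0 := by omega
      exact t_330
  ·
    rcases (by omega : b = 0 ∨ b = 1 ∨ b = 2) with rfl | rfl | rfl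
    ·
      rcases (by omega : c = 0 ∨ c = 1 ∨ c = 2) with rfl | rfl | rfl
      ·
        exact t_400
      ·
        exact t_401
      ·
        exact t_402
    ·
      rcases (by omega : c = 0 ∨ c = 1) with rfl | rfl
      ·
        exact t_410
      ·
        exact t_411
    ·
      obtain rfl : c = 0 := by omega
      exact t_420
  ·
    rcases (by omega : b = 0 ∨ b = 1) with rfl | rfl
    ·
      rcases (by omega : c = 0 ∨ c = 1) with rfl | rfl
      ·
        exact t_500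
      ·
        exact t_501
    ·
      obtain rfl : c = 0 := by omega
      exact t_510
  ·
    obtain rfl : b = 0 := by omega
    obtain rfl : c = 0 := by omega
    exact t_600

lemma base3_low {u : Jet (Fin 3)} (h : Sol 7 (kT T3) u) :
    ∀ a b c : ℕ, 1 ≤ a + b + c → a + b + c < 7 → u (mk3 a b c) = 0 := by
  have e01_000 : u (mk3 1 1 0) - u (mk3 0 0 1) = 0 := by
    have h1 := E3 h 0 0 0 (by norm_num) 0 1
    simp [Fin.sum_univ_three, kop3_00, kop3_01, kop3_02, kop3_10, kop3_11, kop3_12, kop3_20, kop3_21, kop3_22, sh_apply, mulx, mk3_cons0, mk3_cons1, mk3_cons2, mk3_count0, mk3_count1, mk3_count2, mk3_erase0, mk3_erase1, mk3_erase2] at h1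
    linarith
  have e02_000 : -u (mk3 1 0 1) - 2 * u (mk3 0 1 0) = 0 := by
    have h1 := E3 h 0 0 0 (by norm_num) 0 2
    simp [Fin.sum_univ_three, kop3_00, kop3_01, kop3_02, kop3_10, kop3_11, kop3_12, kop3_20, kop3_21, kop3_22, sh_apply, mulx, mk3_cons0, mk3_cons1, mk3_cons2, mk3_count0, mk3_count1, mk3_count2, mk3_erase0, mk3_erase1, mk3_erase2] at h1
    linarith
  have e12_000 : -2 * u (mk3 0 1 1) - u (mk3 1 0 0) = 0 := by
    have h1 := E3 h 0 0 0 (by norm_num) 1 2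
    simp [Fin.sum_univ_three, kop3_00, kop3_01, kop3_02, kop3_10, kop3_11, kop3_12, kop3_20, kop3_21, kop3_22, sh_apply, mulx, mk3_cons0, mk3_cons1, mk3_cons2, mk3_count0, mk3_count1, mk3_count2, mk3_erase0, mk3_erase1, mk3_erase2] at h1
    linarith
  have e01_100 : u (mk3 2 1 0) - 2 * u (mk3 1 0 1) + 3 * u (mk3 0 1 0) = 0 := by
    have h1 := E3 h 1 0 0 (by norm_num) 0 1
    simp [Fin.sum_univ_three, kop3_00, kop3_01, kop3_02, kop3_10, kop3_11, kop3_12, kop3_20, kop3_21, kop3_22, sh_apply, mulx, mk3_cons0, mk3_cons1, mk3_cons2, mk3_count0, mk3_count1, mk3_count2, mk3_erase0, mk3_erase1, mk3_erase2] at h1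
    linarith
  have e02_100 : -u (mk3 2 0 1) - 3 * u (mk3 1 1 0) = 0 := by
    have h1 := E3 h 1 0 0 (by norm_num) 0 2
    simp [Fin.sum_univ_three, kop3_00, kop3_01, kop3_02, kop3_10, kop3_11, kop3_12, kop3_20, kop3_21, kop3_22, sh_apply, mulx, mk3_cons0, mk3_cons1, mk3_cons2, mk3_count0, mk3_count1, mk3_count2, mk3_erase0, mk3_erase1, mk3_erase2] at h1
    linarith
  have e12_100 : -2 * u (mk3 1 1 1) + u (mk3 0 0 2) - u (mk3 0 2 0) - u (mk3 2 0 0) = 0 := by
    have h1 := E3 h 1 0 0 (by norm_num) 1 2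
    simp [Fin.sum_univ_three, kop3_00, kop3_01, kop3_02, kop3_10, kop3_11, kop3_12, kop3_20, kop3_21, kop3_22, sh_apply, mulx, mk3_cons0, mk3_cons1, mk3_cons2, mk3_count0, mk3_count1, mk3_count2, mk3_erase0, mk3_erase1, mk3_erase2] at h1
    linarith
  have e01_010 : u (mk3 1 2 0) - u (mk3 0 1 1) - 3 * u (mk3 1 0 0) = 0 := by
    have h1 := E3 h 0 1 0 (by norm_num) 0 1
    simp [Fin.sum_univ_three, kop3_00, kop3_01, kop3_02, kop3_10, kop3_11, kop3_12, kop3_20, kop3_21, kop3_22, sh_apply, mulx, mk3_cons0, mk3_cons1, mk3_cons2, mk3_count0, mk3_count1, mk3_count2, mk3_erase0, mk3_erase1, mk3_erase2] at h1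
    linarith
  have e02_010 : -u (mk3 1 1 1) - 2 * u (mk3 0 2 0) = 0 := by
    have h1 := E3 h 0 1 0 (by norm_num) 0 2
    simp [Fin.sum_univ_three, kop3_00, kop3_01, kop3_02, kop3_10, kop3_11, kop3_12, kop3_20, kop3_21, kop3_22, sh_apply, mulx, mk3_cons0, mk3_cons1, mk3_cons2, mk3_count0, mk3_count1, mk3_count2, mk3_erase0, mk3_erase1, mk3_erase2] at h1
    linarith
  have e12_010 : -2 * u (mk3 0 2 1) - u (mk3 1 1 0) = 0 := by
    have h1 := E3 h 0 1 0 (by norm_num) 1 2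
    simp [Fin.sum_univ_three, kop3_00, kop3_01, kop3_02, kop3_10, kop3_11, kop3_12, kop3_20, kop3_21, kop3_22, sh_apply, mulx, mk3_cons0, mk3_cons1, mk3_cons2, mk3_count0, mk3_count1, mk3_count2, mk3_erase0, mk3_erase1, mk3_erase2] at h1
    linarith
  have e02_001 : -u (mk3 1 0 2) - 3 * u (mk3 0 1 1) = 0 := by
    have h1 := E3 h 0 0 1 (by norm_num) 0 2
    simp [Fin.sum_univ_three, kop3_00, kop3_01, kop3_02, kop3_10, kop3_11, kop3_12, kop3_20, kop3_21, kop3_22, sh_apply, mulx, mk3_cons0, mk3_cons1, mk3_cons2, mk3_count0, mk3_count1, mk3_count2, mk3_erase0, mk3_erase1, mk3_erase2] at h1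
    linarith
  have e12_001 : -2 * u (mk3 0 1 2) - 2 * u (mk3 1 0 1) = 0 := by
    have h1 := E3 h 0 0 1 (by norm_num) 1 2
    simp [Fin.sum_univ_three, kop3_00, kop3_01, kop3_02, kop3_10, kop3_11, kop3_12, kop3_20, kop3_21, kop3_22, sh_apply, mulx, mk3_cons0, mk3_cons1, mk3_cons2, mk3_count0, mk3_count1, mk3_count2, mk3_erase0, mk3_erase1, mk3_erase2] at h1
    linarith
  have e01_200 : u (mk3 3 1 0) - 3 * u (mk3 2 0 1) + 8 * u (mk3 1 1 0) = 0 := by
    have h1 := E3 h 2 0 0 (by norm_num) 0 1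
    simp [Fin.sum_univ_three, kop3_00, kop3_01, kop3_02, kop3_10, kop3_11, kop3_12, kop3_20, kop3_21, kop3_22, sh_apply, mulx, mk3_cons0, mk3_cons1, mk3_cons2, mk3_count0, mk3_count1, mk3_count2, mk3_erase0, mk3_erase1, mk3_erase2] at h1
    linarith
  have e02_200 : -u (mk3 3 0 1) - 4 * u (mk3 2 1 0) = 0 := by
    have h1 := E3 h 2 0 0 (by norm_num) 0 2
    simp [Fin.sum_univ_three, kop3_00, kop3_01, kop3_02, kop3_10, kop3_11, kop3_12, kop3_20, kop3_21, kop3_22, sh_apply, mulx, mk3_cons0, mk3_cons1, mk3_cons2, mk3_count0, mk3_count1, mk3_count2, mk3_erase0, mk3_erase1, mk3_erase2] at h1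
    linarith
  have e12_200 : -2 * u (mk3 2 1 1) + 2 * u (mk3 1 0 2) - 2 * u (mk3 1 2 0) - u (mk3 3 0 0) - 2 * u (mk3 0 1 1) = 0 := by
    have h1 := E3 h 2 0 0 (by norm_num) 1 2
    simp [Fin.sum_univ_three, kop3_00, kop3_01, kop3_02, kop3_10, kop3_11, kop3_12, kop3_20, kop3_21, kop3_22, sh_apply, mulx, mk3_cons0, mk3_cons1, mk3_cons2, mk3_count0, mk3_count1, mk3_count2, mk3_erase0, mk3_erase1, mk3_erase2] at h1
    linarith
  have e01_110 : u (mk3 2 2 0) - 2 * u (mk3 1 1 1) + 4 * u (mk3 0 2 0) - 4 * u (mk3 2 0 0) = 0 := by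
    have h1 := E3 h 1 1 0 (by norm_num) 0 1
    simp [Fin.sum_univ_three, kop3_00, kop3_01, kop3_02, kop3_10, kop3_11, kop3_12, kop3_20, kop3_21, kop3_22, sh_apply, mulx, mk3_cons0, mk3_cons1, mk3_cons2, mk3_count0, mk3_count1, mk3_count2, mk3_erase0, mk3_erase1, mk3_erase2] at h1
    linarith
  have e02_110 : -u (mk3 2 1 1) - 3 * u (mk3 1 2 0) + u (mk3 0 1 1) = 0 := by
    have h1 := E3 h 1 1 0 (by norm_num) 0 2
    simp [Fin.sum_univ_three, kop3_00, kop3_01, kop3_02, kop3_10, kop3_11, kop3_12, kop3_20, kop3_21, kop3_22, sh_apply, mulx, mk3_cons0, mk3_cons1, mk3_cons2, mk3_count0, mk3_count1, mk3_count2, mk3_erase0, mk3_erase1, mk3_erase2] at h1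
    linarith
  have e12_110 : -2 * u (mk3 1 2 1) + u (mk3 0 1 2) - u (mk3 0 3 0) - u (mk3 2 1 0) + u (mk3 1 0 1) = 0 := by
    have h1 := E3 h 1 1 0 (by norm_num) 1 2
    simp [Fin.sum_univ_three, kop3_00, kop3_01, kop3_02, kop3_10, kop3_11, kop3_12, kop3_20, kop3_21, kop3_22, sh_apply, mulx, mk3_cons0, mk3_cons1, mk3_cons2, mk3_count0, mk3_count1, mk3_count2, mk3_erase0, mk3_erase1, mk3_erase2] at h1
    linarith
  have e02_101 : -u (mk3 2 0 2) - 4 * u (mk3 1 1 1) = 0 := by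
    have h1 := E3 h 1 0 1 (by norm_num) 0 2
    simp [Fin.sum_univ_three, kop3_00, kop3_01, kop3_02, kop3_10, kop3_11, kop3_12, kop3_20, kop3_21, kop3_22, sh_apply, mulx, mk3_cons0, mk3_cons1, mk3_cons2, mk3_count0, mk3_count1, mk3_count2, mk3_erase0, mk3_erase1, mk3_erase2] at h1
    linarith
  have e12_101 : -2 * u (mk3 1 1 2) + u (mk3 0 0 3) - u (mk3 0 2 1) - 2 * u (mk3 2 0 1) = 0 := by
    have h1 := E3 h 1 0 1 (by norm_num) 1 2
    simp [Fin.sum_univ_three, kop3_00, kop3_01, kop3_02, kop3_10, kop3_11, kop3_12, kop3_20, kop3_21, kop3_22, sh_apply, mulx, mk3_cons0, mk3_cons1, mk3_cons2, mk3_count0, mk3_count1, mk3_count2, mk3_erase0, mk3_erase1, mk3_erase2] at h1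
    linarith
  have e01_020 : u (mk3 1 3 0) - u (mk3 0 2 1) - 8 * u (mk3 1 1 0) = 0 := by
    have h1 := E3 h 0 2 0 (by norm_num) 0 1
    simp [Fin.sum_univ_three, kop3_00, kop3_01, kop3_02, kop3_10, kop3_11, kop3_12, kop3_20, kop3_21, kop3_22, sh_apply, mulx, mk3_cons0, mk3_cons1, mk3_cons2, mk3_count0, mk3_count1, mk3_count2, mk3_erase0, mk3_erase1, mk3_erase2] at h1
    linarith
  have e02_020 : -u (mk3 1 2 1) - 2 * u (mk3 0 3 0) - 2 * u (mk3 1 0 1) = 0 := by
    have h1 := E3 h 0 2 0 (by norm_num) 0 2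
    simp [Fin.sum_univ_three, kop3_00, kop3_01, kop3_02, kop3_10, kop3_11, kop3_12, kop3_20, kop3_21, kop3_22, sh_apply, mulx, mk3_cons0, mk3_cons1, mk3_cons2, mk3_count0, mk3_count1, mk3_count2, mk3_erase0, mk3_erase1, mk3_erase2] at h1
    linarith
  have e12_020 : -2 * u (mk3 0 3 1) - u (mk3 1 2 0) = 0 := by
    have h1 := E3 h 0 2 0 (by norm_num) 1 2
    simp [Fin.sum_univ_three, kop3_00, kop3_01, kop3_02, kop3_10, kop3_11, kop3_12, kop3_20, kop3_21, kop3_22, sh_apply, mulx, mk3_cons0, mk3_cons1, mk3_cons2, mk3_count0, mk3_count1, mk3_count2, mk3_erase0, mk3_erase1, mk3_erase2] at h1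
    linarith
  have e02_011 : -u (mk3 1 1 2) - 3 * u (mk3 0 2 1) = 0 := by
    have h1 := E3 h 0 1 1 (by norm_num) 0 2
    simp [Fin.sum_univ_three, kop3_00, kop3_01, kop3_02, kop3_10, kop3_11, kop3_12, kop3_20, kop3_21, kop3_22, sh_apply, mulx, mk3_cons0, mk3_cons1, mk3_cons2, mk3_count0, mk3_count1, mk3_count2, mk3_erase0, mk3_erase1, mk3_erase2] at h1
    linarith
  have e12_011 : -2 * u (mk3 0 2 2) - 2 * u (mk3 1 1 1) = 0 := by
    have h1 := E3 h 0 1 1 (by norm_num) 1 2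
    simp [Fin.sum_univ_three, kop3_00, kop3_01, kop3_02, kop3_10, kop3_11, kop3_12, kop3_20, kop3_21, kop3_22, sh_apply, mulx, mk3_cons0, mk3_cons1, mk3_cons2, mk3_count0, mk3_count1, mk3_count2, mk3_erase0, mk3_erase1, mk3_erase2] at h1
    linarith
  have e02_002 : -u (mk3 1 0 3) - 4 * u (mk3 0 1 2) = 0 := by
    have h1 := E3 h 0 0 2 (by norm_num) 0 2
    simp [Fin.sum_univ_three, kop3_00, kop3_01, kop3_02, kop3_10, kop3_11, kop3_12, kop3_20, kop3_21, kop3_22, sh_apply, mulx, mk3_cons0, mk3_cons1, mk3_cons2, mk3_count0, mk3_count1, mk3_count2, mk3_erase0, mk3_erase1, mk3_erase2] at h1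
    linarith
  have e12_002 : -2 * u (mk3 0 1 3) - 3 * u (mk3 1 0 2) = 0 := by
    have h1 := E3 h 0 0 2 (by norm_num) 1 2
    simp [Fin.sum_univ_three, kop3_00, kop3_01, kop3_02, kop3_10, kop3_11, kop3_12, kop3_20, kop3_21, kop3_22, sh_apply, mulx, mk3_cons0, mk3_cons1, mk3_cons2, mk3_count0, mk3_count1, mk3_count2, mk3_erase0, mk3_erase1, mk3_erase2] at h1
    linarith
  have e01_300 : u (mk3 4 1 0) - 4 * u (mk3 3 0 1) + 15 * u (mk3 2 1 0) = 0 := by
    have h1 := E3 h 3 0 0 (by norm_num) 0 1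
    simp [Fin.sum_univ_three, kop3_00, kop3_01, kop3_02, kop3_10, kop3_11, kop3_12, kop3_20, kop3_21, kop3_22, sh_apply, mulx, mk3_cons0, mk3_cons1, mk3_cons2, mk3_count0, mk3_count1, mk3_count2, mk3_erase0, mk3_erase1, mk3_erase2] at h1
    linarith
  have e02_300 : -u (mk3 4 0 1) - 5 * u (mk3 3 1 0) = 0 := by
    have h1 := E3 h 3 0 0 (by norm_num) 0 2
    simp [Fin.sum_univ_three, kop3_00, kop3_01, kop3_02, kop3_10, kop3_11, kop3_12, kop3_20, kop3_21, kop3_22, sh_apply, mulx, mk3_cons0, mk3_cons1, mk3_cons2, mk3_count0, mk3_count1, mk3_count2, mk3_erase0, mk3_erase1, mk3_erase2] at h1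
    linarith
  have e12_300 : -2 * u (mk3 3 1 1) + 3 * u (mk3 2 0 2) - 3 * u (mk3 2 2 0) - u (mk3 4 0 0) - 6 * u (mk3 1 1 1) = 0 := by
    have h1 := E3 h 3 0 0 (by norm_num) 1 2
    simp [Fin.sum_univ_three, kop3_00, kop3_01, kop3_02, kop3_10, kop3_11, kop3_12, kop3_20, kop3_21, kop3_22, sh_apply, mulx, mk3_cons0, mk3_cons1, mk3_cons2, mk3_count0, mk3_count1, mk3_count2, mk3_erase0, mk3_erase1, mk3_erase2] at h1
    linarith
  have e01_210 : u (mk3 3 2 0) - 3 * u (mk3 2 1 1) + 10 * u (mk3 1 2 0) - 5 * u (mk3 3 0 0) = 0 := by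
    have h1 := E3 h 2 1 0 (by norm_num) 0 1
    simp [Fin.sum_univ_three, kop3_00, kop3_01, kop3_02, kop3_10, kop3_11, kop3_12, kop3_20, kop3_21, kop3_22, sh_apply, mulx, mk3_cons0, mk3_cons1, mk3_cons2, mk3_count0, mk3_count1, mk3_count2, mk3_erase0, mk3_erase1, mk3_erase2] at h1
    linarith
  have e02_210 : -u (mk3 3 1 1) - 4 * u (mk3 2 2 0) + 2 * u (mk3 1 1 1) = 0 := by
    have h1 := E3 h 2 1 0 (by norm_num) 0 2
    simp [Fin.sum_univ_three, kop3_00, kop3_01, kop3_02, kop3_10, kop3_11, kop3_12, kop3_20, kop3_21, kop3_22, sh_apply, mulx, mk3_cons0, mk3_cons1, mk3_cons2, mk3_count0, mk3_count1, mk3_count2, mk3_erase0, mk3_erase1, mk3_erase2] at h1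
    linarith
  have e12_210 : -2 * u (mk3 2 2 1) + 2 * u (mk3 1 1 2) - 2 * u (mk3 1 3 0) - u (mk3 3 1 0) - 2 * u (mk3 0 2 1) + 2 * u (mk3 2 0 1) = 0 := by
    have h1 := E3 h 2 1 0 (by norm_num) 1 2
    simp [Fin.sum_univ_three, kop3_00, kop3_01, kop3_02, kop3_10, kop3_11, kop3_12, kop3_20, kop3_21, kop3_22, sh_apply, mulx, mk3_cons0, mk3_cons1, mk3_cons2, mk3_count0, mk3_count1, mk3_count2, mk3_erase0, mk3_erase1, mk3_erase2] at h1
    linarith
  have e02_201 : -u (mk3 3 0 2) - 5 * u (mk3 2 1 1) = 0 := by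
    have h1 := E3 h 2 0 1 (by norm_num) 0 2
    simp [Fin.sum_univ_three, kop3_00, kop3_01, kop3_02, kop3_10, kop3_11, kop3_12, kop3_20, kop3_21, kop3_22, sh_apply, mulx, mk3_cons0, mk3_cons1, mk3_cons2, mk3_count0, mk3_count1, mk3_count2, mk3_erase0, mk3_erase1, mk3_erase2] at h1
    linarith
  have e12_201 : -2 * u (mk3 2 1 2) + 2 * u (mk3 1 0 3) - 2 * u (mk3 1 2 1) - 2 * u (mk3 3 0 1) - 2 * u (mk3 0 1 2) = 0 := by
    have h1 := E3 h 2 0 1 (by norm_num) 1 2
    simp [Fin.sum_univ_three, kop3_00, kop3_01, kop3_02, kop3_10, kop3_11, kop3_12, kop3_20, kop3_21, kop3_22, sh_apply, mulx, mk3_cons0, mk3_cons1, mk3_cons2, mk3_count0, mk3_count1, mk3_count2, mk3_erase0, mk3_erase1, mk3_erase2] at h1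
    linarith
  have e01_120 : u (mk3 2 3 0) - 2 * u (mk3 1 2 1) + 5 * u (mk3 0 3 0) - 10 * u (mk3 2 1 0) = 0 := by
    have h1 := E3 h 1 2 0 (by norm_num) 0 1
    simp [Fin.sum_univ_three, kop3_00, kop3_01, kop3_02, kop3_10, kop3_11, kop3_12, kop3_20, kop3_21, kop3_22, sh_apply, mulx, mk3_cons0, mk3_cons1, mk3_cons2, mk3_count0, mk3_count1, mk3_count2, mk3_erase0, mk3_erase1, mk3_erase2] at h1
    linarith
  have e02_120 : -u (mk3 2 2 1) - 3 * u (mk3 1 3 0) + 2 * u (mk3 0 2 1) - 2 * u (mk3 2 0 1) = 0 := by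
    have h1 := E3 h 1 2 0 (by norm_num) 0 2
    simp [Fin.sum_univ_three, kop3_00, kop3_01, kop3_02, kop3_10, kop3_11, kop3_12, kop3_20, kop3_21, kop3_22, sh_apply, mulx, mk3_cons0, mk3_cons1, mk3_cons2, mk3_count0, mk3_count1, mk3_count2, mk3_erase0, mk3_erase1, mk3_erase2] at h1
    linarith
  have e12_120 : -2 * u (mk3 1 3 1) + u (mk3 0 2 2) - u (mk3 0 4 0) - u (mk3 2 2 0) + 2 * u (mk3 1 1 1) = 0 := by
    have h1 := E3 h 1 2 0 (by norm_num) 1 2
    simp [Fin.sum_univ_three, kop3_00, kop3_01, kop3_02, kop3_10, kop3_11, kop3_12, kop3_20, kop3_21, kop3_22, sh_apply, mulx, mk3_cons0, mk3_cons1, mk3_cons2, mk3_count0, mk3_count1, mk3_count2, mk3_erase0, mk3_erase1, mk3_erase2] at h1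
    linarith
  have e02_111 : -u (mk3 2 1 2) - 4 * u (mk3 1 2 1) + u (mk3 0 1 2) = 0 := by
    have h1 := E3 h 1 1 1 (by norm_num) 0 2
    simp [Fin.sum_univ_three, kop3_00, kop3_01, kop3_02, kop3_10, kop3_11, kop3_12, kop3_20, kop3_21, kop3_22, sh_apply, mulx, mk3_cons0, mk3_cons1, mk3_cons2, mk3_count0, mk3_count1, mk3_count2, mk3_erase0, mk3_erase1, mk3_erase2] at h1
    linarith
  have e12_111 : -2 * u (mk3 1 2 2) + u (mk3 0 1 3) - u (mk3 0 3 1) - 2 * u (mk3 2 1 1) + u (mk3 1 0 2) = 0 := by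
    have h1 := E3 h 1 1 1 (by norm_num) 1 2
    simp [Fin.sum_univ_three, kop3_00, kop3_01, kop3_02, kop3_10, kop3_11, kop3_12, kop3_20, kop3_21, kop3_22, sh_apply, mulx, mk3_cons0, mk3_cons1, mk3_cons2, mk3_count0, mk3_count1, mk3_count2, mk3_erase0, mk3_erase1, mk3_erase2] at h1
    linarith
  have e02_102 : -u (mk3 2 0 3) - 5 * u (mk3 1 1 2) = 0 := by
    have h1 := E3 h 1 0 2 (by norm_num) 0 2
    simp [Fin.sum_univ_three, kop3_00, kop3_01, kop3_02, kop3_10, kop3_11, kop3_12, kop3_20, kop3_21, kop3_22, sh_apply, mulx, mk3_cons0, mk3_cons1, mk3_cons2, mk3_count0, mk3_count1, mk3_count2, mk3_erase0, mk3_erase1, mk3_erase2] at h1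
    linarith
  have e12_102 : -2 * u (mk3 1 1 3) + u (mk3 0 0 4) - u (mk3 0 2 2) - 3 * u (mk3 2 0 2) = 0 := by
    have h1 := E3 h 1 0 2 (by norm_num) 1 2
    simp [Fin.sum_univ_three, kop3_00, kop3_01, kop3_02, kop3_10, kop3_11, kop3_12, kop3_20, kop3_21, kop3_22, sh_apply, mulx, mk3_cons0, mk3_cons1, mk3_cons2, mk3_count0, mk3_count1, mk3_count2, mk3_erase0, mk3_erase1, mk3_erase2] at h1
    linarith
  have e01_030 : u (mk3 1 4 0) - u (mk3 0 3 1) - 15 * u (mk3 1 2 0) = 0 := by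
    have h1 := E3 h 0 3 0 (by norm_num) 0 1
    simp [Fin.sum_univ_three, kop3_00, kop3_01, kop3_02, kop3_10, kop3_11, kop3_12, kop3_20, kop3_21, kop3_22, sh_apply, mulx, mk3_cons0, mk3_cons1, mk3_cons2, mk3_count0, mk3_count1, mk3_count2, mk3_erase0, mk3_erase1, mk3_erase2] at h1
    linarith
  have e02_030 : -u (mk3 1 3 1) - 2 * u (mk3 0 4 0) - 6 * u (mk3 1 1 1) = 0 := by
    have h1 := E3 h 0 3 0 (by norm_num) 0 2
    simp [Fin.sum_univ_three, kop3_00, kop3_01, kop3_02, kop3_10, kop3_11, kop3_12, kop3_20, kop3_21, kop3_22, sh_apply, mulx, mk3_cons0, mk3_cons1, mk3_cons2, mk3_count0, mk3_count1, mk3_count2, mk3_erase0, mk3_erase1, mk3_erase2] at h1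
    linarith
  have e12_030 : -2 * u (mk3 0 4 1) - u (mk3 1 3 0) = 0 := by
    have h1 := E3 h 0 3 0 (by norm_num) 1 2
    simp [Fin.sum_univ_three, kop3_00, kop3_01, kop3_02, kop3_10, kop3_11, kop3_12, kop3_20, kop3_21, kop3_22, sh_apply, mulx, mk3_cons0, mk3_cons1, mk3_cons2, mk3_count0, mk3_count1, mk3_count2, mk3_erase0, mk3_erase1, mk3_erase2] at h1
    linarith
  have e02_021 : -u (mk3 1 2 2) - 3 * u (mk3 0 3 1) - 2 * u (mk3 1 0 2) = 0 := by
    have h1 := E3 h 0 2 1 (by norm_num) 0 2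
    simp [Fin.sum_univ_three, kop3_00, kop3_01, kop3_02, kop3_10, kop3_11, kop3_12, kop3_20, kop3_21, kop3_22, sh_apply, mulx, mk3_cons0, mk3_cons1, mk3_cons2, mk3_count0, mk3_count1, mk3_count2, mk3_erase0, mk3_erase1, mk3_erase2] at h1
    linarith
  have e12_021 : -2 * u (mk3 0 3 2) - 2 * u (mk3 1 2 1) = 0 := by
    have h1 := E3 h 0 2 1 (by norm_num) 1 2
    simp [Fin.sum_univ_three, kop3_00, kop3_01, kop3_02, kop3_10, kop3_11, kop3_12, kop3_20, kop3_21, kop3_22, sh_apply, mulx, mk3_cons0, mk3_cons1, mk3_cons2, mk3_count0, mk3_count1, mk3_count2, mk3_erase0, mk3_erase1, mk3_erase2] at h1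
    linarith
  have e02_012 : -u (mk3 1 1 3) - 4 * u (mk3 0 2 2) = 0 := by
    have h1 := E3 h 0 1 2 (by norm_num) 0 2
    simp [Fin.sum_univ_three, kop3_00, kop3_01, kop3_02, kop3_10, kop3_11, kop3_12, kop3_20, kop3_21, kop3_22, sh_apply, mulx, mk3_cons0, mk3_cons1, mk3_cons2, mk3_count0, mk3_count1, mk3_count2, mk3_erase0, mk3_erase1, mk3_erase2] at h1
    linarith
  have e12_012 : -2 * u (mk3 0 2 3) - 3 * u (mk3 1 1 2) = 0 := by
    have h1 := E3 h 0 1 2 (by norm_num) 1 2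
    simp [Fin.sum_univ_three, kop3_00, kop3_01, kop3_02, kop3_10, kop3_11, kop3_12, kop3_20, kop3_21, kop3_22, sh_apply, mulx, mk3_cons0, mk3_cons1, mk3_cons2, mk3_count0, mk3_count1, mk3_count2, mk3_erase0, mk3_erase1, mk3_erase2] at h1
    linarith
  have e02_003 : -u (mk3 1 0 4) - 5 * u (mk3 0 1 3) = 0 := by
    have h1 := E3 h 0 0 3 (by norm_num) 0 2
    simp [Fin.sum_univ_three, kop3_00, kop3_01, kop3_02, kop3_10, kop3_11, kop3_12, kop3_20, kop3_21, kop3_22, sh_apply, mulx, mk3_cons0, mk3_cons1, mk3_cons2, mk3_count0, mk3_count1, mk3_count2, mk3_erase0, mk3_erase1, mk3_erase2] at h1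
    linarith
  have e12_003 : -2 * u (mk3 0 1 4) - 4 * u (mk3 1 0 3) = 0 := by
    have h1 := E3 h 0 0 3 (by norm_num) 1 2
    simp [Fin.sum_univ_three, kop3_00, kop3_01, kop3_02, kop3_10, kop3_11, kop3_12, kop3_20, kop3_21, kop3_22, sh_apply, mulx, mk3_cons0, mk3_cons1, mk3_cons2, mk3_count0, mk3_count1, mk3_count2, mk3_erase0, mk3_erase1, mk3_erase2] at h1
    linarith
  have e01_400 : u (mk3 5 1 0) - 5 * u (mk3 4 0 1) + 24 * u (mk3 3 1 0) = 0 := by
    have h1 := E3 h 4 0 0 (by norm_num) 0 1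
    simp [Fin.sum_univ_three, kop3_00, kop3_01, kop3_02, kop3_10, kop3_11, kop3_12, kop3_20, kop3_21, kop3_22, sh_apply, mulx, mk3_cons0, mk3_cons1, mk3_cons2, mk3_count0, mk3_count1, mk3_count2, mk3_erase0, mk3_erase1, mk3_erase2] at h1
    linarith
  have e02_400 : -u (mk3 5 0 1) - 6 * u (mk3 4 1 0) = 0 := by
    have h1 := E3 h 4 0 0 (by norm_num) 0 2
    simp [Fin.sum_univ_three, kop3_00, kop3_01, kop3_02, kop3_10, kop3_11, kop3_12, kop3_20, kop3_21, kop3_22, sh_apply, mulx, mk3_cons0, mk3_cons1, mk3_cons2, mk3_count0, mk3_count1, mk3_count2, mk3_erase0, mk3_erase1, mk3_erase2] at h1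
    linarith
  have e12_400 : -2 * u (mk3 4 1 1) + 4 * u (mk3 3 0 2) - 4 * u (mk3 3 2 0) - u (mk3 5 0 0) - 12 * u (mk3 2 1 1) = 0 := by
    have h1 := E3 h 4 0 0 (by norm_num) 1 2
    simp [Fin.sum_univ_three, kop3_00, kop3_01, kop3_02, kop3_10, kop3_11, kop3_12, kop3_20, kop3_21, kop3_22, sh_apply, mulx, mk3_cons0, mk3_cons1, mk3_cons2, mk3_count0, mk3_count1, mk3_count2, mk3_erase0, mk3_erase1, mk3_erase2] at h1
    linarith
  have e01_310 : u (mk3 4 2 0) - 4 * u (mk3 3 1 1) + 18 * u (mk3 2 2 0) - 6 * u (mk3 4 0 0) = 0 := by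
    have h1 := E3 h 3 1 0 (by norm_num) 0 1
    simp [Fin.sum_univ_three, kop3_00, kop3_01, kop3_02, kop3_10, kop3_11, kop3_12, kop3_20, kop3_21, kop3_22, sh_apply, mulx, mk3_cons0, mk3_cons1, mk3_cons2, mk3_count0, mk3_count1, mk3_count2, mk3_erase0, mk3_erase1, mk3_erase2] at h1
    linarith
  have e02_310 : -u (mk3 4 1 1) - 5 * u (mk3 3 2 0) + 3 * u (mk3 2 1 1) = 0 := by
    have h1 := E3 h 3 1 0 (by norm_num) 0 2
    simp [Fin.sum_univ_three, kop3_00, kop3_01, kop3_02, kop3_10, kop3_11, kop3_12, kop3_20, kop3_21, kop3_22, sh_apply, mulx, mk3_cons0, mk3_cons1, mk3_cons2, mk3_count0, mk3_count1, mk3_count2, mk3_erase0, mk3_erase1, mk3_erase2] at h1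
    linarith
  have e02_301 : -u (mk3 4 0 2) - 6 * u (mk3 3 1 1) = 0 := by
    have h1 := E3 h 3 0 1 (by norm_num) 0 2
    simp [Fin.sum_univ_three, kop3_00, kop3_01, kop3_02, kop3_10, kop3_11, kop3_12, kop3_20, kop3_21, kop3_22, sh_apply, mulx, mk3_cons0, mk3_cons1, mk3_cons2, mk3_count0, mk3_count1, mk3_count2, mk3_erase0, mk3_erase1, mk3_erase2] at h1
    linarith
  have e01_220 : u (mk3 3 3 0) - 3 * u (mk3 2 2 1) + 12 * u (mk3 1 3 0) - 12 * u (mk3 3 1 0) = 0 := by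
    have h1 := E3 h 2 2 0 (by norm_num) 0 1
    simp [Fin.sum_univ_three, kop3_00, kop3_01, kop3_02, kop3_10, kop3_11, kop3_12, kop3_20, kop3_21, kop3_22, sh_apply, mulx, mk3_cons0, mk3_cons1, mk3_cons2, mk3_count0, mk3_count1, mk3_count2, mk3_erase0, mk3_erase1, mk3_erase2] at h1
    linarith
  have e02_220 : -u (mk3 3 2 1) - 4 * u (mk3 2 3 0) + 4 * u (mk3 1 2 1) - 2 * u (mk3 3 0 1) = 0 := by
    have h1 := E3 h 2 2 0 (by norm_num) 0 2
    simp [Fin.sum_univ_three, kop3_00, kop3_01, kop3_02, kop3_10, kop3_11, kop3_12, kop3_20, kop3_21, kop3_22, sh_apply, mulx, mk3_cons0, mk3_cons1, mk3_cons2, mk3_count0, mk3_count1, mk3_count2, mk3_erase0, mk3_erase1, mk3_erase2] at h1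
    linarith
  have e02_211 : -u (mk3 3 1 2) - 5 * u (mk3 2 2 1) + 2 * u (mk3 1 1 2) = 0 := by
    have h1 := E3 h 2 1 1 (by norm_num) 0 2
    simp [Fin.sum_univ_three, kop3_00, kop3_01, kop3_02, kop3_10, kop3_11, kop3_12, kop3_20, kop3_21, kop3_22, sh_apply, mulx, mk3_cons0, mk3_cons1, mk3_cons2, mk3_count0, mk3_count1, mk3_count2, mk3_erase0, mk3_erase1, mk3_erase2] at h1
    linarith
  have e12_211 : -2 * u (mk3 2 2 2) + 2 * u (mk3 1 1 3) - 2 * u (mk3 1 3 1) - 2 * u (mk3 3 1 1) - 2 * u (mk3 0 2 2) + 2 * u (mk3 2 0 2) = 0 := by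
    have h1 := E3 h 2 1 1 (by norm_num) 1 2
    simp [Fin.sum_univ_three, kop3_00, kop3_01, kop3_02, kop3_10, kop3_11, kop3_12, kop3_20, kop3_21, kop3_22, sh_apply, mulx, mk3_cons0, mk3_cons1, mk3_cons2, mk3_count0, mk3_count1, mk3_count2, mk3_erase0, mk3_erase1, mk3_erase2] at h1
    linarith
  have e02_202 : -u (mk3 3 0 3) - 6 * u (mk3 2 1 2) = 0 := by
    have h1 := E3 h 2 0 2 (by norm_num) 0 2
    simp [Fin.sum_univ_three, kop3_00, kop3_01, kop3_02, kop3_10, kop3_11, kop3_12, kop3_20, kop3_21, kop3_22, sh_apply, mulx, mk3_cons0, mk3_cons1, mk3_cons2, mk3_count0, mk3_count1, mk3_count2, mk3_erase0, mk3_erase1, mk3_erase2] at h1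
    linarith
  have e01_130 : u (mk3 2 4 0) - 2 * u (mk3 1 3 1) + 6 * u (mk3 0 4 0) - 18 * u (mk3 2 2 0) = 0 := by
    have h1 := E3 h 1 3 0 (by norm_num) 0 1
    simp [Fin.sum_univ_three, kop3_00, kop3_01, kop3_02, kop3_10, kop3_11, kop3_12, kop3_20, kop3_21, kop3_22, sh_apply, mulx, mk3_cons0, mk3_cons1, mk3_cons2, mk3_count0, mk3_count1, mk3_count2, mk3_erase0, mk3_erase1, mk3_erase2] at h1
    linarith
  have e02_130 : -u (mk3 2 3 1) - 3 * u (mk3 1 4 0) + 3 * u (mk3 0 3 1) - 6 * u (mk3 2 1 1) = 0 := by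
    have h1 := E3 h 1 3 0 (by norm_num) 0 2
    simp [Fin.sum_univ_three, kop3_00, kop3_01, kop3_02, kop3_10, kop3_11, kop3_12, kop3_20, kop3_21, kop3_22, sh_apply, mulx, mk3_cons0, mk3_cons1, mk3_cons2, mk3_count0, mk3_count1, mk3_count2, mk3_erase0, mk3_erase1, mk3_erase2] at h1
    linarith
  have e12_130 : -2 * u (mk3 1 4 1) + u (mk3 0 3 2) - u (mk3 0 5 0) - u (mk3 2 3 0) + 3 * u (mk3 1 2 1) = 0 := by
    have h1 := E3 h 1 3 0 (by norm_num) 1 2
    simp [Fin.sum_univ_three, kop3_00, kop3_01, kop3_02, kop3_10, kop3_11, kop3_12, kop3_20, kop3_21, kop3_22, sh_apply, mulx, mk3_cons0, mk3_cons1, mk3_cons2, mk3_count0, mk3_count1, mk3_count2, mk3_erase0, mk3_erase1, mk3_erase2] at h1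
    linarith
  have e02_121 : -u (mk3 2 2 2) - 4 * u (mk3 1 3 1) + 2 * u (mk3 0 2 2) - 2 * u (mk3 2 0 2) = 0 := by
    have h1 := E3 h 1 2 1 (by norm_num) 0 2
    simp [Fin.sum_univ_three, kop3_00, kop3_01, kop3_02, kop3_10, kop3_11, kop3_12, kop3_20, kop3_21, kop3_22, sh_apply, mulx, mk3_cons0, mk3_cons1, mk3_cons2, mk3_count0, mk3_count1, mk3_count2, mk3_erase0, mk3_erase1, mk3_erase2] at h1
    linarith
  have e02_112 : -u (mk3 2 1 3) - 5 * u (mk3 1 2 2) + u (mk3 0 1 3) = 0 := by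
    have h1 := E3 h 1 1 2 (by norm_num) 0 2
    simp [Fin.sum_univ_three, kop3_00, kop3_01, kop3_02, kop3_10, kop3_11, kop3_12, kop3_20, kop3_21, kop3_22, sh_apply, mulx, mk3_cons0, mk3_cons1, mk3_cons2, mk3_count0, mk3_count1, mk3_count2, mk3_erase0, mk3_erase1, mk3_erase2] at h1
    linarith
  have e02_103 : -u (mk3 2 0 4) - 6 * u (mk3 1 1 3) = 0 := by
    have h1 := E3 h 1 0 3 (by norm_num) 0 2
    simp [Fin.sum_univ_three, kop3_00, kop3_01, kop3_02, kop3_10, kop3_11, kop3_12, kop3_20, kop3_21, kop3_22, sh_apply, mulx, mk3_cons0, mk3_cons1, mk3_cons2, mk3_count0, mk3_count1, mk3_count2, mk3_erase0, mk3_erase1, mk3_erase2] at h1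
    linarith
  have e12_103 : -2 * u (mk3 1 1 4) + u (mk3 0 0 5) - u (mk3 0 2 3) - 4 * u (mk3 2 0 3) = 0 := by
    have h1 := E3 h 1 0 3 (by norm_num) 1 2
    simp [Fin.sum_univ_three, kop3_00, kop3_01, kop3_02, kop3_10, kop3_11, kop3_12, kop3_20, kop3_21, kop3_22, sh_apply, mulx, mk3_cons0, mk3_cons1, mk3_cons2, mk3_count0, mk3_count1, mk3_count2, mk3_erase0, mk3_erase1, mk3_erase2] at h1
    linarith
  have e01_040 : u (mk3 1 5 0) - u (mk3 0 4 1) - 24 * u (mk3 1 3 0) = 0 := by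
    have h1 := E3 h 0 4 0 (by norm_num) 0 1
    simp [Fin.sum_univ_three, kop3_00, kop3_01, kop3_02, kop3_10, kop3_11, kop3_12, kop3_20, kop3_21, kop3_22, sh_apply, mulx, mk3_cons0, mk3_cons1, mk3_cons2, mk3_count0, mk3_count1, mk3_count2, mk3_erase0, mk3_erase1, mk3_erase2] at h1
    linarith
  have e02_040 : -u (mk3 1 4 1) - 2 * u (mk3 0 5 0) - 12 * u (mk3 1 2 1) = 0 := by
    have h1 := E3 h 0 4 0 (by norm_num) 0 2
    simp [Fin.sum_univ_three, kop3_00, kop3_01, kop3_02, kop3_10, kop3_11, kop3_12, kop3_20, kop3_21, kop3_22, sh_apply, mulx, mk3_cons0, mk3_cons1, mk3_cons2, mk3_count0, mk3_count1, mk3_count2, mk3_erase0, mk3_erase1, mk3_erase2] at h1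
    linarith
  have e12_040 : -2 * u (mk3 0 5 1) - u (mk3 1 4 0) = 0 := by
    have h1 := E3 h 0 4 0 (by norm_num) 1 2
    simp [Fin.sum_univ_three, kop3_00, kop3_01, kop3_02, kop3_10, kop3_11, kop3_12, kop3_20, kop3_21, kop3_22, sh_apply, mulx, mk3_cons0, mk3_cons1, mk3_cons2, mk3_count0, mk3_count1, mk3_count2, mk3_erase0, mk3_erase1, mk3_erase2] at h1
    linarith
  have e02_031 : -u (mk3 1 3 2) - 3 * u (mk3 0 4 1) - 6 * u (mk3 1 1 2) = 0 := by
    have h1 := E3 h 0 3 1 (by norm_num) 0 2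
    simp [Fin.sum_univ_three, kop3_00, kop3_01, kop3_02, kop3_10, kop3_11, kop3_12, kop3_20, kop3_21, kop3_22, sh_apply, mulx, mk3_cons0, mk3_cons1, mk3_cons2, mk3_count0, mk3_count1, mk3_count2, mk3_erase0, mk3_erase1, mk3_erase2] at h1
    linarith
  have e12_031 : -2 * u (mk3 0 4 2) - 2 * u (mk3 1 3 1) = 0 := by
    have h1 := E3 h 0 3 1 (by norm_num) 1 2
    simp [Fin.sum_univ_three, kop3_00, kop3_01, kop3_02, kop3_10, kop3_11, kop3_12, kop3_20, kop3_21, kop3_22, sh_apply, mulx, mk3_cons0, mk3_cons1, mk3_cons2, mk3_count0, mk3_count1, mk3_count2, mk3_erase0, mk3_erase1, mk3_erase2] at h1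
    linarith
  have e02_022 : -u (mk3 1 2 3) - 4 * u (mk3 0 3 2) - 2 * u (mk3 1 0 3) = 0 := by
    have h1 := E3 h 0 2 2 (by norm_num) 0 2
    simp [Fin.sum_univ_three, kop3_00, kop3_01, kop3_02, kop3_10, kop3_11, kop3_12, kop3_20, kop3_21, kop3_22, sh_apply, mulx, mk3_cons0, mk3_cons1, mk3_cons2, mk3_count0, mk3_count1, mk3_count2, mk3_erase0, mk3_erase1, mk3_erase2] at h1
    linarith
  have e12_022 : -2 * u (mk3 0 3 3) - 3 * u (mk3 1 2 2) = 0 := by
    have h1 := E3 h 0 2 2 (by norm_num) 1 2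
    simp [Fin.sum_univ_three, kop3_00, kop3_01, kop3_02, kop3_10, kop3_11, kop3_12, kop3_20, kop3_21, kop3_22, sh_apply, mulx, mk3_cons0, mk3_cons1, mk3_cons2, mk3_count0, mk3_count1, mk3_count2, mk3_erase0, mk3_erase1, mk3_erase2] at h1
    linarith
  have e02_013 : -u (mk3 1 1 4) - 5 * u (mk3 0 2 3) = 0 := by
    have h1 := E3 h 0 1 3 (by norm_num) 0 2
    simp [Fin.sum_univ_three, kop3_00, kop3_01, kop3_02, kop3_10, kop3_11, kop3_12, kop3_20, kop3_21, kop3_22, sh_apply, mulx, mk3_cons0, mk3_cons1, mk3_cons2, mk3_count0, mk3_count1, mk3_count2, mk3_erase0, mk3_erase1, mk3_erase2] at h1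
    linarith
  have e12_013 : -2 * u (mk3 0 2 4) - 4 * u (mk3 1 1 3) = 0 := by
    have h1 := E3 h 0 1 3 (by norm_num) 1 2
    simp [Fin.sum_univ_three, kop3_00, kop3_01, kop3_02, kop3_10, kop3_11, kop3_12, kop3_20, kop3_21, kop3_22, sh_apply, mulx, mk3_cons0, mk3_cons1, mk3_cons2, mk3_count0, mk3_count1, mk3_count2, mk3_erase0, mk3_erase1, mk3_erase2] at h1
    linarith
  have e02_004 : -u (mk3 1 0 5) - 6 * u (mk3 0 1 4) = 0 := by
    have h1 := E3 h 0 0 4 (by norm_num) 0 2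
    simp [Fin.sum_univ_three, kop3_00, kop3_01, kop3_02, kop3_10, kop3_11, kop3_12, kop3_20, kop3_21, kop3_22, sh_apply, mulx, mk3_cons0, mk3_cons1, mk3_cons2, mk3_count0, mk3_count1, mk3_count2, mk3_erase0, mk3_erase1, mk3_erase2] at h1
    linarith
  have e12_004 : -2 * u (mk3 0 1 5) - 5 * u (mk3 1 0 4) = 0 := by
    have h1 := E3 h 0 0 4 (by norm_num) 1 2
    simp [Fin.sum_univ_three, kop3_00, kop3_01, kop3_02, kop3_10, kop3_11, kop3_12, kop3_20, kop3_21, kop3_22, sh_apply, mulx, mk3_cons0, mk3_cons1, mk3_cons2, mk3_count0, mk3_count1, mk3_count2, mk3_erase0, mk3_erase1, mk3_erase2] at h1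
    linarith
  have e12_500 : -2 * u (mk3 5 1 1) + 5 * u (mk3 4 0 2) - 5 * u (mk3 4 2 0) - u (mk3 6 0 0) - 20 * u (mk3 3 1 1) = 0 := by
    have h1 := E3 h 5 0 0 (by norm_num) 1 2
    simp [Fin.sum_univ_three, kop3_00, kop3_01, kop3_02, kop3_10, kop3_11, kop3_12, kop3_20, kop3_21, kop3_22, sh_apply, mulx, mk3_cons0, mk3_cons1, mk3_cons2, mk3_count0, mk3_count1, mk3_count2, mk3_erase0, mk3_erase1, mk3_erase2] at h1
    linarith
  have e02_410 : -u (mk3 5 1 1) - 6 * u (mk3 4 2 0) + 4 * u (mk3 3 1 1) = 0 := by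
    have h1 := E3 h 4 1 0 (by norm_num) 0 2
    simp [Fin.sum_univ_three, kop3_00, kop3_01, kop3_02, kop3_10, kop3_11, kop3_12, kop3_20, kop3_21, kop3_22, sh_apply, mulx, mk3_cons0, mk3_cons1, mk3_cons2, mk3_count0, mk3_count1, mk3_count2, mk3_erase0, mk3_erase1, mk3_erase2] at h1
    linarith
  have e12_140 : -2 * u (mk3 1 5 1) + u (mk3 0 4 2) - u (mk3 0 6 0) - u (mk3 2 4 0) + 4 * u (mk3 1 3 1) = 0 := by
    have h1 := E3 h 1 4 0 (by norm_num) 1 2
    simp [Fin.sum_univ_three, kop3_00, kop3_01, kop3_02, kop3_10, kop3_11, kop3_12, kop3_20, kop3_21, kop3_22, sh_apply, mulx, mk3_cons0, mk3_cons1, mk3_cons2, mk3_count0, mk3_count1, mk3_count2, mk3_erase0, mk3_erase1, mk3_erase2] at h1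
    linarith
  have e12_122 : -2 * u (mk3 1 3 3) + u (mk3 0 2 4) - u (mk3 0 4 2) - 3 * u (mk3 2 2 2) + 2 * u (mk3 1 1 3) = 0 := by
    have h1 := E3 h 1 2 2 (by norm_num) 1 2
    simp [Fin.sum_univ_three, kop3_00, kop3_01, kop3_02, kop3_10, kop3_11, kop3_12, kop3_20, kop3_21, kop3_22, sh_apply, mulx, mk3_cons0, mk3_cons1, mk3_cons2, mk3_count0, mk3_count1, mk3_count2, mk3_erase0, mk3_erase1, mk3_erase2] at h1
    linarith
  have e12_104 : -2 * u (mk3 1 1 5) + u (mk3 0 0 6) - u (mk3 0 2 4) - 5 * u (mk3 2 0 4) = 0 := by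
    have h1 := E3 h 1 0 4 (by norm_num) 1 2
    simp [Fin.sum_univ_three, kop3_00, kop3_01, kop3_02, kop3_10, kop3_11, kop3_12, kop3_20, kop3_21, kop3_22, sh_apply, mulx, mk3_cons0, mk3_cons1, mk3_cons2, mk3_count0, mk3_count1, mk3_count2, mk3_erase0, mk3_erase1, mk3_erase2] at h1
    linarith
  have e02_050 : -u (mk3 1 5 1) - 2 * u (mk3 0 6 0) - 20 * u (mk3 1 3 1) = 0 := by
    have h1 := E3 h 0 5 0 (by norm_num) 0 2
    simp [Fin.sum_univ_three, kop3_00, kop3_01, kop3_02, kop3_10, kop3_11, kop3_12, kop3_20, kop3_21, kop3_22, sh_apply, mulx, mk3_cons0, mk3_cons1, mk3_cons2, mk3_count0, mk3_count1, mk3_count2, mk3_erase0, mk3_erase1, mk3_erase2] at h1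
    linarith
  have e02_032 : -u (mk3 1 3 3) - 4 * u (mk3 0 4 2) - 6 * u (mk3 1 1 3) = 0 := by
    have h1 := E3 h 0 3 2 (by norm_num) 0 2
    simp [Fin.sum_univ_three, kop3_00, kop3_01, kop3_02, kop3_10, kop3_11, kop3_12, kop3_20, kop3_21, kop3_22, sh_apply, mulx, mk3_cons0, mk3_cons1, mk3_cons2, mk3_count0, mk3_count1, mk3_count2, mk3_erase0, mk3_erase1, mk3_erase2] at h1
    linarith
  have e02_014 : -u (mk3 1 1 5) - 6 * u (mk3 0 2 4) = 0 := by
    have h1 := E3 h 0 1 4 (by norm_num) 0 2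
    simp [Fin.sum_univ_three, kop3_00, kop3_01, kop3_02, kop3_10, kop3_11, kop3_12, kop3_20, kop3_21, kop3_22, sh_apply, mulx, mk3_cons0, mk3_cons1, mk3_cons2, mk3_count0, mk3_count1, mk3_count2, mk3_erase0, mk3_erase1, mk3_erase2] at h1
    linarith
  have t_001 : u (mk3 0 0 1) = 0 := by
    linear_combination -e01_000 + (3 / 35) * e02_100 - (4 / 35) * e12_010 + (1 / 35) * e01_200 - (4 / 35) * e01_020 + (2 / 35) * e02_011 + (1 / 35) * e12_210 - (2 / 35) * e02_120
  have t_010 : u (mk3 0 1 0) = 0 := by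
    linear_combination -(2 / 5) * e02_000 + (1 / 15) * e01_100 + (1 / 15) * e12_001 + (1 / 30) * e02_200 - (1 / 15) * e12_110 + (1 / 30) * e02_020 - (1 / 30) * e02_002 - (1 / 60) * e12_201 + (1 / 30) * e02_111
  have t_100 : u (mk3 1 0 0) = 0 := by
    linear_combination -(3 / 10) * e12_000 - (7 / 30) * e01_010 + (7 / 30) * e02_001 - (2 / 15) * e02_110 + (1 / 6) * e12_020 + (1 / 30) * e12_002 + (1 / 15) * e12_111 - (2 / 15) * e02_021
  have t_002 : u (mk3 0 0 2) = 0 := by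
    linear_combination e12_100 - e02_010 - (1 / 4) * e01_110 + (7 / 15) * e02_101 - (67 / 120) * e12_011 - (5 / 36) * e02_210 + (11 / 36) * e12_120 - (11 / 72) * e02_030 + (43 / 180) * e02_012 + (5 / 72) * e12_211 - (59 / 360) * e02_121 + (7 / 240) * e12_031 + (1 / 240) * e12_013 + (1 / 120) * e12_122 - (1 / 60) * e02_032
  have t_011 : u (mk3 0 1 1) = 0 := by
    linear_combination -(7 / 20) * e12_000 + (7 / 60) * e01_010 - (7 / 60) * e02_001 + (1 / 15) * e02_110 - (1 / 12) * e12_020 - (1 / 60) * e12_002 - (1 / 30) * e12_111 + (1 / 15) * e02_021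
  have t_020 : u (mk3 0 2 0) = 0 := by
    linear_combination -(1 / 2) * e02_010 - (11 / 90) * e02_101 + (59 / 180) * e12_011 + (1 / 54) * e02_210 - (2 / 27) * e12_120 + (1 / 27) * e02_030 - (41 / 270) * e02_012 - (1 / 108) * e12_211 + (7 / 135) * e02_121 - (7 / 180) * e12_031 - (1 / 180) * e12_013 - (1 / 90) * e12_122 + (1 / 45) * e02_032
  have t_101 : u (mk3 1 0 1) = 0 := by
    linear_combination -(1 / 5) * e02_000 - (2 / 15) * e01_100 - (2 / 15) * e12_001 - (1 / 15) * e02_200 + (2 / 15) * e12_110 - (1 / 15) * e02_020 + (1 / 15) * e02_002 + (1 / 30) * e12_201 - (1 / 15) * e02_111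
  have t_110 : u (mk3 1 1 0) = 0 := by
    linear_combination (3 / 35) * e02_100 - (4 / 35) * e12_010 + (1 / 35) * e01_200 - (4 / 35) * e01_020 + (2 / 35) * e02_011 + (1 / 35) * e12_210 - (2 / 35) * e02_120
  have t_200 : u (mk3 2 0 0) = 0 := by
    linear_combination -(1 / 2) * e02_010 - (1 / 4) * e01_110 + (1 / 10) * e02_101 + (17 / 40) * e12_011 - (1 / 12) * e02_210 + (1 / 12) * e12_120 - (1 / 24) * e02_030 - (13 / 60) * e02_012 + (1 / 24) * e12_211 - (1 / 120) * e02_121 - (7 / 80) * e12_031 - (1 / 80) * e12_013 - (1 / 40) * e12_122 + (1 / 20) * e02_032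
  have t_003 : u (mk3 0 0 3) = 0 := by
    linear_combination -(23 / 10) * e02_100 + (29 / 10) * e12_010 - (1 / 10) * e01_200 + e12_101 + (2 / 5) * e01_020 - (11 / 5) * e02_011 - (1 / 10) * e12_210 + (1 / 5) * e02_120
  have t_012 : u (mk3 0 1 2) = 0 := by
    linear_combination (1 / 5) * e02_000 + (2 / 15) * e01_100 - (11 / 30) * e12_001 + (1 / 15) * e02_200 - (2 / 15) * e12_110 + (1 / 15) * e02_020 - (1 / 15) * e02_002 - (1 / 30) * e12_201 + (1 / 15) * e02_111
  have t_021 : u (mk3 0 2 1) = 0 := by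
    linear_combination -(3 / 70) * e02_100 - (31 / 70) * e12_010 - (1 / 70) * e01_200 + (2 / 35) * e01_020 - (1 / 35) * e02_011 - (1 / 70) * e12_210 + (1 / 35) * e02_120
  have t_030 : u (mk3 0 3 0) = 0 := by
    linear_combination (8 / 15) * e02_000 + (16 / 45) * e01_100 + (17 / 90) * e12_001 + (1 / 90) * e02_200 + (14 / 45) * e12_110 - (59 / 90) * e02_020 - (1 / 90) * e02_002 - (1 / 180) * e12_201 + (1 / 90) * e02_111
  have t_102 : u (mk3 1 0 2) = 0 := by
    linear_combination (21 / 20) * e12_000 - (7 / 20) * e01_010 - (13 / 20) * e02_001 - (1 / 5) * e02_110 + (1 / 4) * e12_020 + (1 / 20) * e12_002 + (1 / 10) * e12_111 - (1 / 5) * e02_021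
  have t_111 : u (mk3 1 1 1) = 0 := by
    linear_combination (11 / 45) * e02_101 - (59 / 90) * e12_011 - (1 / 27) * e02_210 + (4 / 27) * e12_120 - (2 / 27) * e02_030 + (41 / 135) * e02_012 + (1 / 54) * e12_211 - (14 / 135) * e02_121 + (7 / 90) * e12_031 + (1 / 90) * e12_013 + (1 / 45) * e12_122 - (2 / 45) * e02_032
  have t_120 : u (mk3 1 2 0) = 0 := by
    linear_combination -(5 / 4) * e12_000 + (5 / 12) * e01_010 + (7 / 12) * e02_001 - (1 / 3) * e02_110 + (5 / 12) * e12_020 + (1 / 12) * e12_002 + (1 / 6) * e12_111 - (1 / 3) * e02_021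
  have t_201 : u (mk3 2 0 1) = 0 := by
    linear_combination -(44 / 35) * e02_100 + (12 / 35) * e12_010 - (3 / 35) * e01_200 + (12 / 35) * e01_020 - (6 / 35) * e02_011 - (3 / 35) * e12_210 + (6 / 35) * e02_120
  have t_210 : u (mk3 2 1 0) = 0 := by
    linear_combination (4 / 5) * e02_000 + (8 / 15) * e01_100 - (7 / 15) * e12_001 - (7 / 30) * e02_200 + (7 / 15) * e12_110 - (7 / 30) * e02_020 + (7 / 30) * e02_002 + (7 / 60) * e12_201 - (7 / 30) * e02_111
  have t_300 : u (mk3 3 0 0) = 0 := by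
    linear_combination -(3 / 2) * e12_000 + (1 / 2) * e01_010 + (3 / 2) * e02_001 - e12_200 + (5 / 2) * e12_020 + (1 / 2) * e12_002 + e12_111 - 2 * e02_021
  have t_004 : u (mk3 0 0 4) = 0 := by
    linear_combination -(38 / 9) * e02_101 + (61 / 9) * e12_011 + (5 / 27) * e02_210 - (20 / 27) * e12_120 + e12_102 + (10 / 27) * e02_030 - (95 / 27) * e02_012 - (5 / 54) * e12_211 + (14 / 27) * e02_121 - (7 / 18) * e12_031 - (1 / 18) * e12_013 - (1 / 9) * e12_122 + (2 / 9) * e02_032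
  have t_013 : u (mk3 0 1 3) = 0 := by
    linear_combination -(63 / 40) * e12_000 + (21 / 40) * e01_010 + (39 / 40) * e02_001 + (3 / 10) * e02_110 - (3 / 8) * e12_020 - (23 / 40) * e12_002 - (3 / 20) * e12_111 + (3 / 10) * e02_021
  have t_022 : u (mk3 0 2 2) = 0 := by
    linear_combination -(11 / 45) * e02_101 + (7 / 45) * e12_011 + (1 / 27) * e02_210 - (4 / 27) * e12_120 + (2 / 27) * e02_030 - (41 / 135) * e02_012 - (1 / 54) * e12_211 + (14 / 135) * e02_121 - (7 / 90) * e12_031 - (1 / 90) * e12_013 - (1 / 45) * e12_122 + (2 / 45) * e02_032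
  have t_031 : u (mk3 0 3 1) = 0 := by
    linear_combination (5 / 8) * e12_000 - (5 / 24) * e01_010 - (7 / 24) * e02_001 + (1 / 6) * e02_110 - (17 / 24) * e12_020 - (1 / 24) * e12_002 - (1 / 12) * e12_111 + (1 / 6) * e02_021
  have t_040 : u (mk3 0 4 0) = 0 := by
    linear_combination -(3 / 5) * e02_101 + (27 / 10) * e12_011 - (1 / 2) * e02_030 - (6 / 5) * e02_012 + (3 / 10) * e02_121 - (7 / 20) * e12_031 - (1 / 20) * e12_013 - (1 / 10) * e12_122 + (1 / 5) * e02_032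
  have t_103 : u (mk3 1 0 3) = 0 := by
    linear_combination -(4 / 5) * e02_000 - (8 / 15) * e01_100 + (22 / 15) * e12_001 - (4 / 15) * e02_200 + (8 / 15) * e12_110 - (4 / 15) * e02_020 - (11 / 15) * e02_002 + (2 / 15) * e12_201 - (4 / 15) * e02_111
  have t_112 : u (mk3 1 1 2) = 0 := by
    linear_combination (9 / 70) * e02_100 + (93 / 70) * e12_010 + (3 / 70) * e01_200 - (6 / 35) * e01_020 - (32 / 35) * e02_011 + (3 / 70) * e12_210 - (3 / 35) * e02_120
  have t_121 : u (mk3 1 2 1) = 0 := by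
    linear_combination -(2 / 3) * e02_000 - (4 / 9) * e01_100 - (1 / 9) * e12_001 + (1 / 9) * e02_200 - (8 / 9) * e12_110 + (4 / 9) * e02_020 - (1 / 9) * e02_002 - (1 / 18) * e12_201 + (1 / 9) * e02_111
  have t_130 : u (mk3 1 3 0) = 0 := by
    linear_combination (9 / 14) * e02_100 - (19 / 14) * e12_010 + (3 / 14) * e01_200 + (1 / 7) * e01_020 + (3 / 7) * e02_011 + (3 / 14) * e12_210 - (3 / 7) * e02_120
  have t_202 : u (mk3 2 0 2) = 0 := by
    linear_combination -(89 / 45) * e02_101 + (118 / 45) * e12_011 + (4 / 27) * e02_210 - (16 / 27) * e12_120 + (8 / 27) * e02_030 - (164 / 135) * e02_012 - (2 / 27) * e12_211 + (56 / 135) * e02_121 - (14 / 45) * e12_031 - (2 / 45) * e12_013 - (4 / 45) * e12_122 + (8 / 45) * e02_032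
  have t_211 : u (mk3 2 1 1) = 0 := by
    linear_combination (17 / 5) * e12_000 - (17 / 15) * e01_010 - (28 / 15) * e02_001 + (1 / 15) * e02_110 - (4 / 3) * e12_020 - (4 / 15) * e12_002 - (8 / 15) * e12_111 + (16 / 15) * e02_021
  have t_220 : u (mk3 2 2 0) = 0 := by
    linear_combination (62 / 45) * e02_101 - (83 / 90) * e12_011 - (13 / 27) * e02_210 + (25 / 27) * e12_120 - (25 / 54) * e02_030 + (47 / 135) * e02_012 + (13 / 54) * e12_211 - (121 / 270) * e02_121 - (7 / 180) * e12_031 - (1 / 180) * e12_013 - (1 / 90) * e12_122 + (1 / 45) * e02_032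
  have t_301 : u (mk3 3 0 1) = 0 := by
    linear_combination -(16 / 5) * e02_000 - (32 / 15) * e01_100 + (28 / 15) * e12_001 - (1 / 15) * e02_200 - (28 / 15) * e12_110 + (14 / 15) * e02_020 - (14 / 15) * e02_002 - (7 / 15) * e12_201 + (14 / 15) * e02_111
  have t_310 : u (mk3 3 1 0) = 0 := by
    linear_combination -(156 / 35) * e02_100 + (68 / 35) * e12_010 + (18 / 35) * e01_200 + (68 / 35) * e01_020 - (34 / 35) * e02_011 - (17 / 35) * e12_210 + (34 / 35) * e02_120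
  have t_400 : u (mk3 4 0 0) = 0 := by
    linear_combination -(67 / 45) * e02_101 + (883 / 90) * e12_011 - e12_300 + (11 / 27) * e02_210 + (37 / 27) * e12_120 - (37 / 54) * e02_030 - (667 / 135) * e02_012 + (43 / 54) * e12_211 + (11 / 270) * e02_121 - (343 / 180) * e12_031 - (49 / 180) * e12_013 - (49 / 90) * e12_122 + (49 / 45) * e02_032
  have t_005 : u (mk3 0 0 5) = 0 := by
    linear_combination -(117 / 140) * e02_100 - (1209 / 140) * e12_010 - (39 / 140) * e01_200 + (39 / 35) * e01_020 + (208 / 35) * e02_011 - (39 / 140) * e12_210 + (39 / 70) * e02_120 - 4 * e02_102 + (9 / 2) * e12_012 + e12_103 - 2 * e02_013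
  have t_014 : u (mk3 0 1 4) = 0 := by
    linear_combination (8 / 5) * e02_000 + (16 / 15) * e01_100 - (44 / 15) * e12_001 + (8 / 15) * e02_200 - (16 / 15) * e12_110 + (8 / 15) * e02_020 + (22 / 15) * e02_002 - (4 / 15) * e12_201 + (8 / 15) * e02_111 - (1 / 2) * e12_003
  have t_023 : u (mk3 0 2 3) = 0 := by
    linear_combination -(27 / 140) * e02_100 - (279 / 140) * e12_010 - (9 / 140) * e01_200 + (9 / 35) * e01_020 + (48 / 35) * e02_011 - (9 / 140) * e12_210 + (9 / 70) * e02_120 - (1 / 2) * e12_012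
  have t_032 : u (mk3 0 3 2) = 0 := by
    linear_combination (2 / 3) * e02_000 + (4 / 9) * e01_100 + (1 / 9) * e12_001 - (1 / 9) * e02_200 + (8 / 9) * e12_110 - (4 / 9) * e02_020 + (1 / 9) * e02_002 + (1 / 18) * e12_201 - (1 / 9) * e02_111 - (1 / 2) * e12_021
  have t_041 : u (mk3 0 4 1) = 0 := by
    linear_combination -(9 / 28) * e02_100 + (19 / 28) * e12_010 - (3 / 28) * e01_200 - (1 / 14) * e01_020 - (3 / 14) * e02_011 - (3 / 28) * e12_210 + (3 / 14) * e02_120 - (1 / 2) * e12_030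
  have t_050 : u (mk3 0 5 0) = 0 := by
    linear_combination (64 / 9) * e02_000 + (128 / 27) * e01_100 - (53 / 54) * e12_001 - (91 / 54) * e02_200 + (220 / 27) * e12_110 - (175 / 54) * e02_020 + (91 / 54) * e02_002 + (91 / 108) * e12_201 + (1 / 3) * e01_120 - (91 / 54) * e02_111 + (1 / 6) * e12_021 + (1 / 3) * e12_130 - (2 / 3) * e02_040
  have t_104 : u (mk3 1 0 4) = 0 := by
    linear_combination (63 / 8) * e12_000 - (21 / 8) * e01_010 - (39 / 8) * e02_001 - (3 / 2) * e02_110 + (15 / 8) * e12_020 + (23 / 8) * e12_002 + (3 / 4) * e12_111 - (3 / 2) * e02_021 - e02_003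
  have t_113 : u (mk3 1 1 3) = 0 := by
    linear_combination (44 / 45) * e02_101 - (28 / 45) * e12_011 - (4 / 27) * e02_210 + (16 / 27) * e12_120 - (8 / 27) * e02_030 + (29 / 135) * e02_012 + (2 / 27) * e12_211 - (56 / 135) * e02_121 + (14 / 45) * e12_031 + (2 / 45) * e12_013 + (4 / 45) * e12_122 - (8 / 45) * e02_032
  have t_122 : u (mk3 1 2 2) = 0 := by
    linear_combination -(159 / 40) * e12_000 + (53 / 40) * e01_010 + (87 / 40) * e02_001 - (1 / 10) * e02_110 + (13 / 8) * e12_020 + (1 / 40) * e12_002 + (1 / 20) * e12_111 - (11 / 10) * e02_021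
  have t_131 : u (mk3 1 3 1) = 0 := by
    linear_combination -(4 / 15) * e02_101 - (22 / 15) * e12_011 + (2 / 9) * e02_210 - (8 / 9) * e12_120 + (4 / 9) * e02_030 + (26 / 45) * e02_012 - (1 / 9) * e12_211 + (1 / 45) * e02_121 + (7 / 30) * e12_031 + (1 / 30) * e12_013 + (1 / 15) * e12_122 - (2 / 15) * e02_032
  have t_140 : u (mk3 1 4 0) = 0 := by
    linear_combination -(145 / 8) * e12_000 + (145 / 24) * e01_010 + (203 / 24) * e02_001 - (29 / 6) * e02_110 + (133 / 24) * e12_020 + (29 / 24) * e12_002 + (29 / 12) * e12_111 + e01_030 - (29 / 6) * e02_021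
  have t_203 : u (mk3 2 0 3) = 0 := by
    linear_combination -(9 / 14) * e02_100 - (93 / 14) * e12_010 - (3 / 14) * e01_200 + (6 / 7) * e01_020 + (32 / 7) * e02_011 - (3 / 14) * e12_210 + (3 / 7) * e02_120 - e02_102
  have t_212 : u (mk3 2 1 2) = 0 := by
    linear_combination (43 / 15) * e02_000 + (86 / 45) * e01_100 + (7 / 90) * e12_001 - (17 / 45) * e02_200 + (154 / 45) * e12_110 - (77 / 45) * e02_020 + (17 / 45) * e02_002 + (17 / 90) * e12_201 - (62 / 45) * e02_111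
  have t_221 : u (mk3 2 2 1) = 0 := by
    linear_combination (1 / 2) * e02_100 + (5 / 2) * e12_010 - (1 / 2) * e01_200 - e01_020 - e02_011 - (1 / 2) * e12_210
  have t_230 : u (mk3 2 3 0) = 0 := by
    linear_combination 4 * e02_000 + (8 / 3) * e01_100 - (35 / 6) * e12_001 - (13 / 6) * e02_200 + (4 / 3) * e12_110 + (11 / 6) * e02_020 + (13 / 6) * e02_002 + (13 / 12) * e12_201 + e01_120 - (13 / 6) * e02_111
  have t_302 : u (mk3 3 0 2) = 0 := by
    linear_combination -17 * e12_000 + (17 / 3) * e01_010 + (28 / 3) * e02_001 - (1 / 3) * e02_110 + (20 / 3) * e12_020 + (4 / 3) * e12_002 - e02_201 + (8 / 3) * e12_111 - (16 / 3) * e02_021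
  have t_311 : u (mk3 3 1 1) = 0 := by
    linear_combination -(226 / 45) * e02_101 + (107 / 45) * e12_011 + (23 / 27) * e02_210 - (92 / 27) * e12_120 + (46 / 27) * e02_030 - (106 / 135) * e02_012 - (25 / 27) * e12_211 + (214 / 135) * e02_121 + (14 / 45) * e12_031 + (2 / 45) * e12_013 + (4 / 45) * e12_122 - (8 / 45) * e02_032
  have t_320 : u (mk3 3 2 0) = 0 := by
    linear_combination (76 / 5) * e12_000 - (76 / 15) * e01_010 - (59 / 15) * e02_001 - 5 * e12_200 + (53 / 15) * e02_110 + (13 / 3) * e12_020 + (13 / 15) * e12_002 + e01_210 + (26 / 15) * e12_111 - (52 / 15) * e02_021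
  have t_401 : u (mk3 4 0 1) = 0 := by
    linear_combination (156 / 7) * e02_100 - (68 / 7) * e12_010 - (18 / 7) * e01_200 - (68 / 7) * e01_020 + (34 / 7) * e02_011 - e02_300 + (17 / 7) * e12_210 - (34 / 7) * e02_120
  have t_410 : u (mk3 4 1 0) = 0 := by
    linear_combination -(124 / 5) * e02_000 - (248 / 15) * e01_100 + (217 / 15) * e12_001 + (97 / 30) * e02_200 - (217 / 15) * e12_110 + (217 / 30) * e02_020 - (217 / 30) * e02_002 + e01_300 - (217 / 60) * e12_201 + (217 / 30) * e02_111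
  have t_500 : u (mk3 5 0 0) = 0 := by
    linear_combination -38 * e12_000 + (38 / 3) * e01_010 + (142 / 3) * e02_001 - 30 * e12_200 + (56 / 3) * e02_110 + (230 / 3) * e12_020 + (46 / 3) * e12_002 + 6 * e01_210 - 4 * e02_201 + (92 / 3) * e12_111 - (184 / 3) * e02_021 - e12_400 + 2 * e02_310
  have t_006 : u (mk3 0 0 6) = 0 := by
    linear_combination -(352 / 45) * e02_101 + (224 / 45) * e12_011 + (32 / 27) * e02_210 - (128 / 27) * e12_120 + (64 / 27) * e02_030 - (232 / 135) * e02_012 - (16 / 27) * e12_211 + (448 / 135) * e02_121 - 5 * e02_103 - (112 / 45) * e12_031 + (463 / 90) * e12_013 - (32 / 45) * e12_122 + e12_104 + (64 / 45) * e02_032 - 2 * e02_014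
  have t_015 : u (mk3 0 1 5) = 0 := by
    linear_combination -(315 / 16) * e12_000 + (105 / 16) * e01_010 + (195 / 16) * e02_001 + (15 / 4) * e02_110 - (75 / 16) * e12_020 - (115 / 16) * e12_002 - (15 / 8) * e12_111 + (15 / 4) * e02_021 + (5 / 2) * e02_003 - (1 / 2) * e12_004
  have t_024 : u (mk3 0 2 4) = 0 := by
    linear_combination -(88 / 45) * e02_101 + (56 / 45) * e12_011 + (8 / 27) * e02_210 - (32 / 27) * e12_120 + (16 / 27) * e02_030 - (58 / 135) * e02_012 - (4 / 27) * e12_211 + (112 / 135) * e02_121 - (28 / 45) * e12_031 - (53 / 90) * e12_013 - (8 / 45) * e12_122 + (16 / 45) * e02_032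
  have t_033 : u (mk3 0 3 3) = 0 := by
    linear_combination (477 / 80) * e12_000 - (159 / 80) * e01_010 - (261 / 80) * e02_001 + (3 / 20) * e02_110 - (39 / 16) * e12_020 - (3 / 80) * e12_002 - (3 / 40) * e12_111 + (33 / 20) * e02_021 - (1 / 2) * e12_022
  have t_042 : u (mk3 0 4 2) = 0 := by
    linear_combination (4 / 15) * e02_101 + (22 / 15) * e12_011 - (2 / 9) * e02_210 + (8 / 9) * e12_120 - (4 / 9) * e02_030 - (26 / 45) * e02_012 + (1 / 9) * e12_211 - (1 / 45) * e02_121 - (11 / 15) * e12_031 - (1 / 30) * e12_013 - (1 / 15) * e12_122 + (2 / 15) * e02_032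
  have t_051 : u (mk3 0 5 1) = 0 := by
    linear_combination (145 / 16) * e12_000 - (145 / 48) * e01_010 - (203 / 48) * e02_001 + (29 / 12) * e02_110 - (133 / 48) * e12_020 - (29 / 48) * e12_002 - (29 / 24) * e12_111 - (1 / 2) * e01_030 + (29 / 12) * e02_021 - (1 / 2) * e12_040
  have t_060 : u (mk3 0 6 0) = 0 := by
    linear_combination (118 / 9) * e02_101 + (82 / 9) * e12_011 - (160 / 27) * e02_210 + (478 / 27) * e12_120 - (212 / 27) * e02_030 - (92 / 27) * e02_012 + (80 / 27) * e12_211 + (1 / 3) * e01_130 - (97 / 27) * e02_121 - (23 / 9) * e12_031 - (7 / 18) * e12_013 + (1 / 3) * e12_140 - (7 / 9) * e12_122 - (2 / 3) * e02_050 + (14 / 9) * e02_032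
  have t_105 : u (mk3 1 0 5) = 0 := by
    linear_combination -(48 / 5) * e02_000 - (32 / 5) * e01_100 + (88 / 5) * e12_001 - (16 / 5) * e02_200 + (32 / 5) * e12_110 - (16 / 5) * e02_020 - (44 / 5) * e02_002 + (8 / 5) * e12_201 - (16 / 5) * e02_111 + 3 * e12_003 - e02_004
  have t_114 : u (mk3 1 1 4) = 0 := by
    linear_combination (27 / 28) * e02_100 + (279 / 28) * e12_010 + (9 / 28) * e01_200 - (9 / 7) * e01_020 - (48 / 7) * e02_011 + (9 / 28) * e12_210 - (9 / 14) * e02_120 + (5 / 2) * e12_012 - e02_013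
  have t_123 : u (mk3 1 2 3) = 0 := by
    linear_combination -(16 / 15) * e02_000 - (32 / 45) * e01_100 - (152 / 45) * e12_001 + (44 / 45) * e02_200 - (208 / 45) * e12_110 + (104 / 45) * e02_020 + (46 / 45) * e02_002 - (22 / 45) * e12_201 + (44 / 45) * e02_111 + 2 * e12_021 - e02_022
  have t_132 : u (mk3 1 3 2) = 0 := by
    linear_combination (27 / 140) * e02_100 - (1401 / 140) * e12_010 + (9 / 140) * e01_200 + (87 / 70) * e01_020 + (429 / 70) * e02_011 + (9 / 140) * e12_210 - (9 / 70) * e02_120 + (3 / 2) * e12_030 - e02_031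
  have t_141 : u (mk3 1 4 1) = 0 := by
    linear_combination -(56 / 9) * e02_000 - (112 / 27) * e01_100 + (89 / 27) * e12_001 + (55 / 27) * e02_200 - (152 / 27) * e12_110 + (31 / 27) * e02_020 - (55 / 27) * e02_002 - (55 / 54) * e12_201 - (2 / 3) * e01_120 + (55 / 27) * e02_111 - (1 / 3) * e12_021 - (2 / 3) * e12_130 + (1 / 3) * e02_040
  have t_150 : u (mk3 1 5 0) = 0 := by
    linear_combination (423 / 28) * e02_100 - (893 / 28) * e12_010 + (141 / 28) * e01_200 + (47 / 14) * e01_020 + (141 / 14) * e02_011 + (141 / 28) * e12_210 - (141 / 14) * e02_120 - (1 / 2) * e12_030 + e01_040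
  have t_204 : u (mk3 2 0 4) = 0 := by
    linear_combination -(88 / 15) * e02_101 + (56 / 15) * e12_011 + (8 / 9) * e02_210 - (32 / 9) * e12_120 + (16 / 9) * e02_030 - (58 / 45) * e02_012 - (4 / 9) * e12_211 + (112 / 45) * e02_121 - e02_103 - (28 / 15) * e12_031 - (4 / 15) * e12_013 - (8 / 15) * e12_122 + (16 / 15) * e02_032
  have t_213 : u (mk3 2 1 3) = 0 := by
    linear_combination (183 / 10) * e12_000 - (61 / 10) * e01_010 - (99 / 10) * e02_001 + (4 / 5) * e02_110 - (17 / 2) * e12_020 - (7 / 10) * e12_002 - (2 / 5) * e12_111 + (29 / 5) * e02_021 - e02_112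
  have t_222 : u (mk3 2 2 2) = 0 := by
    linear_combination (68 / 15) * e02_101 + (14 / 15) * e12_011 - (10 / 9) * e02_210 + (40 / 9) * e12_120 - (20 / 9) * e02_030 - (22 / 45) * e02_012 + (5 / 9) * e12_211 - (77 / 45) * e02_121 - (7 / 15) * e12_031 - (1 / 15) * e12_013 - (2 / 15) * e12_122 + (4 / 15) * e02_032
  have t_231 : u (mk3 2 3 1) = 0 := by
    linear_combination (717 / 20) * e12_000 - (239 / 20) * e01_010 - (301 / 20) * e02_001 + (73 / 5) * e02_110 - (43 / 4) * e12_020 - (43 / 20) * e12_002 - (43 / 10) * e12_111 - 3 * e01_030 + (43 / 5) * e02_021 - e02_130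
  have t_240 : u (mk3 2 4 0) = 0 := by
    linear_combination (418 / 15) * e02_101 - (536 / 15) * e12_011 - (74 / 9) * e02_210 + (134 / 9) * e12_120 - (40 / 9) * e02_030 + (658 / 45) * e02_012 + (37 / 9) * e12_211 + e01_130 - (442 / 45) * e02_121 + (28 / 15) * e12_031 + (4 / 15) * e12_013 + (8 / 15) * e12_122 - (16 / 15) * e02_032
  have t_303 : u (mk3 3 0 3) = 0 := by
    linear_combination -(86 / 5) * e02_000 - (172 / 15) * e01_100 - (7 / 15) * e12_001 + (34 / 15) * e02_200 - (308 / 15) * e12_110 + (154 / 15) * e02_020 - (34 / 15) * e02_002 - (17 / 15) * e12_201 + (124 / 15) * e02_111 - e02_202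
  have t_312 : u (mk3 3 1 2) = 0 := by
    linear_combination -(157 / 70) * e02_100 - (689 / 70) * e12_010 + (181 / 70) * e01_200 + (163 / 35) * e01_020 + (111 / 35) * e02_011 + (181 / 70) * e12_210 - (6 / 35) * e02_120 - e02_211
  have t_321 : u (mk3 3 2 1) = 0 := by
    linear_combination -(184 / 15) * e02_000 - (368 / 45) * e01_100 + (862 / 45) * e12_001 + (416 / 45) * e02_200 - (232 / 45) * e12_110 - (334 / 45) * e02_020 - (326 / 45) * e02_002 - (163 / 45) * e12_201 - 4 * e01_120 + (326 / 45) * e02_111 - e02_220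
  have t_330 : u (mk3 3 3 0) = 0 := by
    linear_combination -(597 / 10) * e02_100 + (471 / 10) * e12_010 + (21 / 10) * e01_200 + (93 / 5) * e01_020 - (99 / 5) * e02_011 - (99 / 10) * e12_210 + (84 / 5) * e02_120 + e01_220
  have t_402 : u (mk3 4 0 2) = 0 := by
    linear_combination (452 / 15) * e02_101 - (214 / 15) * e12_011 - (46 / 9) * e02_210 + (184 / 9) * e12_120 - (92 / 9) * e02_030 + (212 / 45) * e02_012 - e02_301 + (50 / 9) * e12_211 - (428 / 45) * e02_121 - (28 / 15) * e12_031 - (4 / 15) * e12_013 - (8 / 15) * e12_122 + (16 / 15) * e02_032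
  have t_411 : u (mk3 4 1 1) = 0 := by
    linear_combination -(329 / 5) * e12_000 + (329 / 15) * e01_010 + (211 / 15) * e02_001 + 25 * e12_200 - (262 / 15) * e02_110 - (77 / 3) * e12_020 - (77 / 15) * e12_002 - 5 * e01_210 - (154 / 15) * e12_111 + (308 / 15) * e02_021 - e02_310
  have t_420 : u (mk3 4 2 0) = 0 := by
    linear_combination -(2422 / 45) * e02_101 + (3824 / 45) * e12_011 - 6 * e12_300 + (392 / 27) * e02_210 - (596 / 27) * e12_120 + (298 / 27) * e02_030 - (5272 / 135) * e02_012 + e01_310 - (88 / 27) * e12_211 + (1978 / 135) * e02_121 - (427 / 45) * e12_031 - (61 / 45) * e12_013 - (122 / 45) * e12_122 + (244 / 45) * e02_032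
  have t_501 : u (mk3 5 0 1) = 0 := by
    linear_combination (744 / 5) * e02_000 + (496 / 5) * e01_100 - (434 / 5) * e12_001 - (97 / 5) * e02_200 + (434 / 5) * e12_110 - (217 / 5) * e02_020 + (217 / 5) * e02_002 - 6 * e01_300 + (217 / 10) * e12_201 - (217 / 5) * e02_111 - e02_400
  have t_510 : u (mk3 5 1 0) = 0 := by
    linear_combination (1092 / 5) * e02_100 - (476 / 5) * e12_010 - (126 / 5) * e01_200 - (476 / 5) * e01_020 + (238 / 5) * e02_011 - 5 * e02_300 + (119 / 5) * e12_210 - (238 / 5) * e02_120 + e01_400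
  have t_600 : u (mk3 6 0 0) = 0 := by
    linear_combination -(1282 / 15) * e02_101 + (6854 / 15) * e12_011 - 42 * e12_300 + (470 / 9) * e02_210 + (388 / 9) * e12_120 - (194 / 9) * e02_030 - (10252 / 45) * e02_012 + 7 * e01_310 - 5 * e02_301 + (278 / 9) * e12_211 + (478 / 45) * e02_121 - (1267 / 15) * e12_031 - (181 / 15) * e12_013 - e12_500 + 2 * e02_410 - (362 / 15) * e12_122 + (724 / 15) * e02_032
  exact cover3 (P := fun a b c => u (mk3 a b c) = 0) t_100 t_010 t_001 t_200 t_110 t_101 t_020 t_011 t_002 t_300 t_210 t_201 t_120 t_111 t_102 t_030 t_021 t_012 t_003 t_400 t_310 t_301 t_220 t_211 t_202 t_130 t_121 t_112 t_103 t_040 t_031 t_022 t_013 t_004 t_500 t_410 t_401 t_320 t_311 t_302 t_230 t_221 t_212 t_203 t_140 t_131 t_122 t_113 t_104 t_050 t_041 t_032 t_023 t_014 t_005 t_600 t_510 t_501 t_420 t_411 t_402 t_330 t_321 t_312 t_303 t_240 t_231 t_222 t_213 t_204 t_150 t_141 t_132 t_123 t_114 t_105 t_060 t_051 t_042 t_033 t_024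 t_015 t_006

lemma T3_kT (i j : Fin 3) (m : Multiset (Fin 3)) : kT T3 i j m =
    (T3.map fun t => t.1 * (Xop t.2.1 i (xj t.2.2 j) m + Xop t.2.2 i (xj t.2.1 j) m)).sum := by
  simp only [kT, mulJ_xj]

def lam3 : Fin 3 → ℝ := ![0, 1, -1]

lemma diag3 : Diag (kT T3) lam3 := by
  intro i j
  rw [T3_kT]
  fin_cases i <;> fin_cases j <;> simp [T3, Xop, xj, mulx, lam3] <;> norm_num

lemma lam3_inj : Function.Injective lam3 := by
  intro i j
  fin_cases i <;> fin_cases j <;> simp [lam3] <;> norm_num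

theorem low3 : Low 7 (kT T3) := by
  intro u hu m h0 hm
  rw [eq_mk3 m]
  have hc : card m = m.count 0 + m.count 1 + m.count 2 := by
    conv_lhs => rw [eq_mk3 m]
    exact mk3_card _ _ _
  have h1 : 1 ≤ card m := Multiset.card_pos.2 h0
  exact base3_low hu _ _ _ (by omega) (by omega)

theorem flat3 : FlatEx (Fin 3) := ⟨T3, lam3, lam3_inj, diag3, low3⟩

end

end Pool.Agent.K4H49.KT

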