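import Pool.Agent.K4H49.KT.SumB

/-! The base case n = 4. -/

namespace Pool.Agent.K4H49.KT

noncomputable section

open Multiset

def mk4 (a b c d : ℕ) : Multiset (Fin 4) := replicate a 0 + replicate b 1 + replicate c 2 + replicate d 3

lemma mk4_cons0 (a b c d : ℕ) : (0 : Fin 4) ::ₘ mk4 a b c d = mk4 (a + 1) b c d := by
  ext x; fin_cases x <;> simp [mk4, Multiset.count_replicate]
lemma mk4_cons1 (a b c d : ℕ) : (1 : Fin 4) ::ₘ mk4 a b c d = mk4 a (b + 1) c d := by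
  ext x; fin_cases x <;> simp [mk4, Multiset.count_replicate]
lemma mk4_cons2 (a b c d : ℕ) : (2 : Fin 4) ::ₘ mk4 a b c d = mk4 a b (c + 1) d := by
  ext x; fin_cases x <;> simp [mk4, Multiset.count_replicate]
lemma mk4_cons3 (a b c d : ℕ) : (3 : Fin 4) ::ₘ mk4 a b c d = mk4 a b c (d + 1) := by
  ext x; fin_cases x <;> simp [mk4, Multiset.count_replicate]
lemma mk4_count0 (a b c d : ℕ) : (mk4 a b c d).count 0 = a := by simp [mk4, Multiset.count_replicate]
lemma mk4_count1 (a b c d : ℕ) : (mk4 a b c d).count 1 = b := by simp [mk4, Multiset.count_replicate]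
lemma mk4_count2 (a b c d : ℕ) : (mk4 a b c d).count 2 = c := by simp [mk4, Multiset.count_replicate]
lemma mk4_count3 (a b c d : ℕ) : (mk4 a b c d).count 3 = d := by simp [mk4, Multiset.count_replicate]
lemma mk4_erase0 (a b c d : ℕ) : (mk4 a b c d).erase 0 = mk4 (a - 1) b c d := by
  ext x
  by_cases h : x = 0
  · subst h; rw [Multiset.count_erase_self, mk4_count0, mk4_count0]
  · rw [Multiset.count_erase_of_ne h]; fin_cases x <;> simp_all [mk4, Multiset.count_replicate]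
lemma mk4_erase1 (a b c d : ℕ) : (mk4 a b c d).erase 1 = mk4 a (b - 1) c d := by
  ext x
  by_cases h : x = 1
  · subst h; rw [Multiset.count_erase_self, mk4_count1, mk4_count1]
  · rw [Multiset.count_erase_of_ne h]; fin_cases x <;> simp_all [mk4, Multiset.count_replicate]
lemma mk4_erase2 (a b c d : ℕ) : (mk4 a b c d).erase 2 = mk4 a b (c - 1) d := by
  ext x
  by_cases h : x = 2
  · subst h; rw [Multiset.count_erase_self, mk4_count2, mk4_count2]
  · rw [Multiset.count_erase_of_ne h]; fin_cases x <;> simp_all [mk4, Multiset.count_replicate]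
lemma mk4_erase3 (a b c d : ℕ) : (mk4 a b c d).erase 3 = mk4 a b c (d - 1) := by
  ext x
  by_cases h : x = 3
  · subst h; rw [Multiset.count_erase_self, mk4_count3, mk4_count3]
  · rw [Multiset.count_erase_of_ne h]; fin_cases x <;> simp_all [mk4, Multiset.count_replicate]
lemma mk4_card (a b c d : ℕ) : card (mk4 a b c d) = a + b + c + d := by simp [mk4]
lemma eq_mk4 (m : Multiset (Fin 4)) : m = mk4 (m.count 0) (m.count 1) (m.count 2) (m.count 3) := by
  ext x; fin_cases x <;> simp [mk4, Multiset.count_replicate]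

def T4 : TL (Fin 4) := [(1/2, (none, 1), (none, 1)), (-1/2, (none, 2), (none, 2)), (1, (none, 3), (none, 3)), (1, (none, 0), (some 1, 2)), (-1, (none, 0), (some 2, 3)), (-1, (none, 3), (some 2, 3))]

lemma E4 {u : Jet (Fin 4)} (h : Sol 4 (kT T4) u) (a b c d : ℕ) (h5 : a + b + c + d ≤ 2) (i j : Fin 4) :
    ∑ s, kop T4 s j (sh s u) (i ::ₘ mk4 a b c d) - ∑ s, kop T4 s i (sh s u) (j ::ₘ mk4 a b c d) = 0 := by
  have := h i j (mk4 a b c d).toList (by simp [mk4_card]; omega)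
  rw [eqn_kT] at this
  simpa using this

set_option linter.unusedSimpArgs false

lemma kop4_00 (v : Jet (Fin 4)) (m : Multiset (Fin 4)) : kop T4 0 0 v m = 0 := by
  simp [kop, T4, Xop, mulx]
  try ring
lemma kop4_01 (v : Jet (Fin 4)) (m : Multiset (Fin 4)) : kop T4 0 1 v m = -(mulx 2 v m) := by
  simp [kop, T4, Xop, mulx]
  try ring
lemma kop4_02 (v : Jet (Fin 4)) (m : Multiset (Fin 4)) : kop T4 0 2 v m = (mulx 1 v m) + (mulx 3 v m) := by
  simp [kop, T4, Xop, mulx]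
  try ring
lemma kop4_03 (v : Jet (Fin 4)) (m : Multiset (Fin 4)) : kop T4 0 3 v m = -(mulx 2 v m) := by
  simp [kop, T4, Xop, mulx]
  try ring
lemma kop4_10 (v : Jet (Fin 4)) (m : Multiset (Fin 4)) : kop T4 1 0 v m = -(mulx 2 v m) := by
  simp [kop, T4, Xop, mulx]
  try ring
lemma kop4_11 (v : Jet (Fin 4)) (m : Multiset (Fin 4)) : kop T4 1 1 v m = (v m) := by
  simp [kop, T4, Xop, mulx]
  try ring
lemma kop4_12 (v : Jet (Fin 4)) (m : Multiset (Fin 4)) : kop T4 1 2 v m = 0 := by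
  simp [kop, T4, Xop, mulx]
  try ring
lemma kop4_13 (v : Jet (Fin 4)) (m : Multiset (Fin 4)) : kop T4 1 3 v m = 0 := by
  simp [kop, T4, Xop, mulx]
  try ring
lemma kop4_20 (v : Jet (Fin 4)) (m : Multiset (Fin 4)) : kop T4 2 0 v m = (mulx 1 v m) + (mulx 3 v m) := by
  simp [kop, T4, Xop, mulx]
  try ring
lemma kop4_21 (v : Jet (Fin 4)) (m : Multiset (Fin 4)) : kop T4 2 1 v m = 0 := by
  simp [kop, T4, Xop, mulx]
  try ring
lemma kop4_22 (v : Jet (Fin 4)) (m : Multiset (Fin 4)) : kop T4 2 2 v m = -(v m) := by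
  simp [kop, T4, Xop, mulx]
  try ring
lemma kop4_23 (v : Jet (Fin 4)) (m : Multiset (Fin 4)) : kop T4 2 3 v m = (mulx 3 v m) := by
  simp [kop, T4, Xop, mulx]
  try ring
lemma kop4_30 (v : Jet (Fin 4)) (m : Multiset (Fin 4)) : kop T4 3 0 v m = -(mulx 2 v m) := by
  simp [kop, T4, Xop, mulx]
  try ring
lemma kop4_31 (v : Jet (Fin 4)) (m : Multiset (Fin 4)) : kop T4 3 1 v m = 0 := by
  simp [kop, T4, Xop, mulx]
  try ring
lemma kop4_32 (v : Jet (Fin 4)) (m : Multiset (Fin 4)) : kop T4 3 2 v m = (mulx 3 v m) := by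
  simp [kop, T4, Xop, mulx]
  try ring
lemma kop4_33 (v : Jet (Fin 4)) (m : Multiset (Fin 4)) : kop T4 3 3 v m = 2 * (v m) - 2 * (mulx 2 v m) := by
  simp [kop, T4, Xop, mulx]
  try ring

lemma cover4 {P : ℕ → ℕ → ℕ → ℕ → Prop} (t_1000 : P 1 0 0 0) (t_0100 : P 0 1 0 0) (t_0010 : P 0 0 1 0) (t_0001 : P 0 0 0 1) (t_2000 : P 2 0 0 0) (t_1100 : P 1 1 0 0) (t_1010 : P 1 0 1 0) (t_1001 : P 1 0 0 1) (t_0200 : P 0 2 0 0) (t_0110 : P 0 1 1 0) (t_0101 : P 0 1 0 1) (t_0020 : P 0 0 2 0) (t_0011 : P 0 0 1 1) (t_0002 : P 0 0 0 2) (t_3000 : P 3 0 0 0) (t_2100 : P 2 1 0 0) (t_2010 : P 2 0 1 0) (t_2001 : P 2 0 0 1) (t_1200 : P 1 2 0 0) (t_1110 : P 1 1 1 0) (t_1101 : P 1 1 0 1) (t_1020 : P 1 0 2 0) (t_1011 : P 1 0 1 1) (t_1002 : P 1 0 0 2) (t_0300 : P 0 3 0 0) (t_0210 : P 0 2 1 0) (t_0201 : P 0 2 0 1) (t_0120 : P 0 1 2 0) (t_0111 : P 0 1 1 1) (t_0102 : P 0 1 0 2) (t_0030 : P 0 0 3 0) (t_0021 : P 0 0 2 1) (t_0012 : P 0 0 1 2) (t_0003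 : P 0 0 0 3) :
    ∀ a b c d : ℕ, 1 ≤ a + b + c + d → a + b + c + d < 4 → P a b c d := by
  intro a b c d h1 h2
  rcases (by omega : a = 0 ∨ a = 1 ∨ a = 2 ∨ a = 3) with rfl | rfl | rfl | rfl
  ·
    rcases (by omega : b = 0 ∨ b = 1 ∨ b = 2 ∨ b = 3) with rfl | rfl | rfl | rfl
    ·
      rcases (by omega : c = 0 ∨ c = 1 ∨ c = 2 ∨ c = 3) with rfl | rfl | rfl | rfl
      ·
        rcases (by omega : d = 1 ∨ d = 2 ∨ d = 3) with rfl | rfl | rfl
        ·
          exact t_0001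
        ·
          exact t_0002
        ·
          exact t_0003
      ·
        rcases (by omega : d = 0 ∨ d = 1 ∨ d = 2) with rfl | rfl | rfl
        ·
          exact t_0010
        ·
          exact t_0011
        ·
          exact t_0012
      ·
        rcases (by omega : d = 0 ∨ d = 1) with rfl | rfl
        ·
          exact t_0020
        ·
          exact t_0021
      ·
        obtain rfl : d = 0 := by omega
        exact t_0030
    ·
      rcases (by omega : c = 0 ∨ c = 1 ∨ c = 2) with rfl | rfl | rfl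
      ·
        rcases (by omega : d = 0 ∨ d = 1 ∨ d = 2) with rfl | rfl | rfl
        ·
          exact t_0100
        ·
          exact t_0101
        ·
          exact t_0102
      ·
        rcases (by omega : d = 0 ∨ d = 1) with rfl | rfl
        ·
          exact t_0110
        ·
          exact t_0111
      ·
        obtain rfl : d = 0 := by omega
        exact t_0120
    ·
      rcases (by omega : c = 0 ∨ c = 1) with rfl | rfl
      ·
        rcases (by omega : d = 0 ∨ d = 1) with rfl | rfl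
        ·
          exact t_0200
        ·
          exact t_0201
      ·
        obtain rfl : d = 0 := by omega
        exact t_0210
    ·
      obtain rfl : c = 0 := by omega
      obtain rfl : d = 0 := by omega
      exact t_0300
  ·
    rcases (by omega : b = 0 ∨ b = 1 ∨ b = 2) with rfl | rfl | rfl
    ·
      rcases (by omega : c = 0 ∨ c = 1 ∨ c = 2) with rfl | rfl | rfl
      ·
        rcases (by omega : d = 0 ∨ d = 1 ∨ d = 2) with rfl | rfl | rfl
        ·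
          exact t_1000
        ·
          exact t_1001
        ·
          exact t_1002
      ·
        rcases (by omega : d = 0 ∨ d = 1) with rfl | rfl
        ·
          exact t_1010
        ·
          exact t_1011
      ·
        obtain rfl : d = 0 := by omega
        exact t_1020
    ·
      rcases (by omega : c = 0 ∨ c = 1) with rfl | rfl
      ·
        rcases (by omega : d = 0 ∨ d = 1) with rfl | rfl
        ·
          exact t_1100
        ·
          exact t_1101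
      ·
        obtain rfl : d = 0 := by omega
        exact t_1110
    ·
      obtain rfl : c = 0 := by omega
      obtain rfl : d = 0 := by omega
      exact t_1200
  ·
    rcases (by omega : b = 0 ∨ b = 1) with rfl | rfl
    ·
      rcases (by omega : c = 0 ∨ c = 1) with rfl | rfl
      ·
        rcases (by omega : d = 0 ∨ d = 1) with rfl | rfl
        ·
          exact t_2000
        ·
          exact t_2001
      ·
        obtain rfl : d = 0 := by omega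
        exact t_2010
    ·
      obtain rfl : c = 0 := by omega
      obtain rfl : d = 0 := by omega
      exact t_2100
  ·
    obtain rfl : b = 0 := by omega
    obtain rfl : c = 0 := by omega
    obtain rfl : d = 0 := by omega
    exact t_3000

lemma base4_low {u : Jet (Fin 4)} (h : Sol 4 (kT T4) u) :
    ∀ a b c d : ℕ, 1 ≤ a + b + c + d → a + b + c + d < 4 → u (mk4 a b c d) = 0 := by
  have e01_0000 : u (mk4 1 1 0 0) - u (mk4 0 0 1 0) = 0 := by
    have h1 := E4 h 0 0 0 0 (by norm_num) 0 1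
    simp [Fin.sum_univ_four, kop4_00, kop4_01, kop4_02, kop4_03, kop4_10, kop4_11, kop4_12, kop4_13, kop4_20, kop4_21, kop4_22, kop4_23, kop4_30, kop4_31, kop4_32, kop4_33, sh_apply, mulx, mk4_cons0, mk4_cons1, mk4_cons2, mk4_cons3, mk4_count0, mk4_count1, mk4_count2, mk4_count3, mk4_erase0, mk4_erase1, mk4_erase2, mk4_erase3] at h1
    linarith
  have e02_0000 : -u (mk4 1 0 1 0) + u (mk4 0 0 0 1) + u (mk4 0 1 0 0) = 0 := by
    have h1 := E4 h 0 0 0 0 (by norm_num) 0 2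
    simp [Fin.sum_univ_four, kop4_00, kop4_01, kop4_02, kop4_03, kop4_10, kop4_11, kop4_12, kop4_13, kop4_20, kop4_21, kop4_22, kop4_23, kop4_30, kop4_31, kop4_32, kop4_33, sh_apply, mulx, mk4_cons0, mk4_cons1, mk4_cons2, mk4_cons3, mk4_count0, mk4_count1, mk4_count2, mk4_count3, mk4_erase0, mk4_erase1, mk4_erase2, mk4_erase3] at h1
    linarith
  have e03_0000 : 2 * u (mk4 1 0 0 1) - u (mk4 0 0 1 0) = 0 := by
    have h1 := E4 h 0 0 0 0 (by norm_num) 0 3
    simp [Fin.sum_univ_four, kop4_00, kop4_01, kop4_02, kop4_03, kop4_10, kop4_11, kop4_12, kop4_13, kop4_20, kop4_21, kop4_22, kop4_23, kop4_30, kop4_31, kop4_32, kop4_33, sh_apply, mulx, mk4_cons0, mk4_cons1, mk4_cons2, mk4_cons3, mk4_count0, mk4_count1, mk4_count2, mk4_count3, mk4_erase0, mk4_erase1, mk4_erase2, mk4_erase3] at h1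
    linarith
  have e12_0000 : -2 * u (mk4 0 1 1 0) + 2 * u (mk4 1 0 0 0) = 0 := by
    have h1 := E4 h 0 0 0 0 (by norm_num) 1 2
    simp [Fin.sum_univ_four, kop4_00, kop4_01, kop4_02, kop4_03, kop4_10, kop4_11, kop4_12, kop4_13, kop4_20, kop4_21, kop4_22, kop4_23, kop4_30, kop4_31, kop4_32, kop4_33, sh_apply, mulx, mk4_cons0, mk4_cons1, mk4_cons2, mk4_cons3, mk4_count0, mk4_count1, mk4_count2, mk4_count3, mk4_erase0, mk4_erase1, mk4_erase2, mk4_erase3] at h1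
    linarith
  have e13_0000 : u (mk4 0 1 0 1) = 0 := by
    have h1 := E4 h 0 0 0 0 (by norm_num) 1 3
    simp [Fin.sum_univ_four, kop4_00, kop4_01, kop4_02, kop4_03, kop4_10, kop4_11, kop4_12, kop4_13, kop4_20, kop4_21, kop4_22, kop4_23, kop4_30, kop4_31, kop4_32, kop4_33, sh_apply, mulx, mk4_cons0, mk4_cons1, mk4_cons2, mk4_cons3, mk4_count0, mk4_count1, mk4_count2, mk4_count3, mk4_erase0, mk4_erase1, mk4_erase2, mk4_erase3] at h1
    linarith
  have e23_0000 : 3 * u (mk4 0 0 1 1) - 3 * u (mk4 0 0 0 1) - 2 * u (mk4 1 0 0 0) = 0 := by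
    have h1 := E4 h 0 0 0 0 (by norm_num) 2 3
    simp [Fin.sum_univ_four, kop4_00, kop4_01, kop4_02, kop4_03, kop4_10, kop4_11, kop4_12, kop4_13, kop4_20, kop4_21, kop4_22, kop4_23, kop4_30, kop4_31, kop4_32, kop4_33, sh_apply, mulx, mk4_cons0, mk4_cons1, mk4_cons2, mk4_cons3, mk4_count0, mk4_count1, mk4_count2, mk4_count3, mk4_erase0, mk4_erase1, mk4_erase2, mk4_erase3] at h1
    linarith
  have e01_1000 : u (mk4 2 1 0 0) - u (mk4 1 0 1 0) = 0 := by
    have h1 := E4 h 1 0 0 0 (by norm_num) 0 1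
    simp [Fin.sum_univ_four, kop4_00, kop4_01, kop4_02, kop4_03, kop4_10, kop4_11, kop4_12, kop4_13, kop4_20, kop4_21, kop4_22, kop4_23, kop4_30, kop4_31, kop4_32, kop4_33, sh_apply, mulx, mk4_cons0, mk4_cons1, mk4_cons2, mk4_cons3, mk4_count0, mk4_count1, mk4_count2, mk4_count3, mk4_erase0, mk4_erase1, mk4_erase2, mk4_erase3] at h1
    linarith
  have e02_1000 : -u (mk4 2 0 1 0) + u (mk4 1 0 0 1) + u (mk4 1 1 0 0) = 0 := by
    have h1 := E4 h 1 0 0 0 (by norm_num) 0 2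
    simp [Fin.sum_univ_four, kop4_00, kop4_01, kop4_02, kop4_03, kop4_10, kop4_11, kop4_12, kop4_13, kop4_20, kop4_21, kop4_22, kop4_23, kop4_30, kop4_31, kop4_32, kop4_33, sh_apply, mulx, mk4_cons0, mk4_cons1, mk4_cons2, mk4_cons3, mk4_count0, mk4_count1, mk4_count2, mk4_count3, mk4_erase0, mk4_erase1, mk4_erase2, mk4_erase3] at h1
    linarith
  have e03_1000 : 2 * u (mk4 2 0 0 1) - u (mk4 1 0 1 0) = 0 := by
    have h1 := E4 h 1 0 0 0 (by norm_num) 0 3
    simp [Fin.sum_univ_four, kop4_00, kop4_01, kop4_02, kop4_03, kop4_10, kop4_11, kop4_12, kop4_13, kop4_20, kop4_21, kop4_22, kop4_23, kop4_30, kop4_31, kop4_32, kop4_33, sh_apply, mulx, mk4_cons0, mk4_cons1, mk4_cons2, mk4_cons3, mk4_count0, mk4_count1, mk4_count2, mk4_count3, mk4_erase0, mk4_erase1, mk4_erase2, mk4_erase3] at h1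
    linarith
  have e12_1000 : -2 * u (mk4 1 1 1 0) + 2 * u (mk4 2 0 0 0) = 0 := by
    have h1 := E4 h 1 0 0 0 (by norm_num) 1 2
    simp [Fin.sum_univ_four, kop4_00, kop4_01, kop4_02, kop4_03, kop4_10, kop4_11, kop4_12, kop4_13, kop4_20, kop4_21, kop4_22, kop4_23, kop4_30, kop4_31, kop4_32, kop4_33, sh_apply, mulx, mk4_cons0, mk4_cons1, mk4_cons2, mk4_cons3, mk4_count0, mk4_count1, mk4_count2, mk4_count3, mk4_erase0, mk4_erase1, mk4_erase2, mk4_erase3] at h1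
    linarith
  have e13_1000 : u (mk4 1 1 0 1) = 0 := by
    have h1 := E4 h 1 0 0 0 (by norm_num) 1 3
    simp [Fin.sum_univ_four, kop4_00, kop4_01, kop4_02, kop4_03, kop4_10, kop4_11, kop4_12, kop4_13, kop4_20, kop4_21, kop4_22, kop4_23, kop4_30, kop4_31, kop4_32, kop4_33, sh_apply, mulx, mk4_cons0, mk4_cons1, mk4_cons2, mk4_cons3, mk4_count0, mk4_count1, mk4_count2, mk4_count3, mk4_erase0, mk4_erase1, mk4_erase2, mk4_erase3] at h1
    linarith
  have e23_1000 : 3 * u (mk4 1 0 1 1) - 3 * u (mk4 1 0 0 1) - 2 * u (mk4 2 0 0 0) = 0 := by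
    have h1 := E4 h 1 0 0 0 (by norm_num) 2 3
    simp [Fin.sum_univ_four, kop4_00, kop4_01, kop4_02, kop4_03, kop4_10, kop4_11, kop4_12, kop4_13, kop4_20, kop4_21, kop4_22, kop4_23, kop4_30, kop4_31, kop4_32, kop4_33, sh_apply, mulx, mk4_cons0, mk4_cons1, mk4_cons2, mk4_cons3, mk4_count0, mk4_count1, mk4_count2, mk4_count3, mk4_erase0, mk4_erase1, mk4_erase2, mk4_erase3] at h1
    linarith
  have e01_0100 : u (mk4 1 2 0 0) - 2 * u (mk4 0 1 1 0) = 0 := by
    have h1 := E4 h 0 1 0 0 (by norm_num) 0 1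
    simp [Fin.sum_univ_four, kop4_00, kop4_01, kop4_02, kop4_03, kop4_10, kop4_11, kop4_12, kop4_13, kop4_20, kop4_21, kop4_22, kop4_23, kop4_30, kop4_31, kop4_32, kop4_33, sh_apply, mulx, mk4_cons0, mk4_cons1, mk4_cons2, mk4_cons3, mk4_count0, mk4_count1, mk4_count2, mk4_count3, mk4_erase0, mk4_erase1, mk4_erase2, mk4_erase3] at h1
    linarith
  have e02_0100 : -u (mk4 1 1 1 0) - u (mk4 0 0 2 0) + u (mk4 0 1 0 1) + u (mk4 0 2 0 0) + u (mk4 2 0 0 0) = 0 := by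
    have h1 := E4 h 0 1 0 0 (by norm_num) 0 2
    simp [Fin.sum_univ_four, kop4_00, kop4_01, kop4_02, kop4_03, kop4_10, kop4_11, kop4_12, kop4_13, kop4_20, kop4_21, kop4_22, kop4_23, kop4_30, kop4_31, kop4_32, kop4_33, sh_apply, mulx, mk4_cons0, mk4_cons1, mk4_cons2, mk4_cons3, mk4_count0, mk4_count1, mk4_count2, mk4_count3, mk4_erase0, mk4_erase1, mk4_erase2, mk4_erase3] at h1
    linarith
  have e03_0100 : 2 * u (mk4 1 1 0 1) - u (mk4 0 0 1 1) - u (mk4 0 1 1 0) = 0 := by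
    have h1 := E4 h 0 1 0 0 (by norm_num) 0 3
    simp [Fin.sum_univ_four, kop4_00, kop4_01, kop4_02, kop4_03, kop4_10, kop4_11, kop4_12, kop4_13, kop4_20, kop4_21, kop4_22, kop4_23, kop4_30, kop4_31, kop4_32, kop4_33, sh_apply, mulx, mk4_cons0, mk4_cons1, mk4_cons2, mk4_cons3, mk4_count0, mk4_count1, mk4_count2, mk4_count3, mk4_erase0, mk4_erase1, mk4_erase2, mk4_erase3] at h1
    linarith
  have e12_0100 : -2 * u (mk4 0 2 1 0) + 3 * u (mk4 1 1 0 0) = 0 := by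
    have h1 := E4 h 0 1 0 0 (by norm_num) 1 2
    simp [Fin.sum_univ_four, kop4_00, kop4_01, kop4_02, kop4_03, kop4_10, kop4_11, kop4_12, kop4_13, kop4_20, kop4_21, kop4_22, kop4_23, kop4_30, kop4_31, kop4_32, kop4_33, sh_apply, mulx, mk4_cons0, mk4_cons1, mk4_cons2, mk4_cons3, mk4_count0, mk4_count1, mk4_count2, mk4_count3, mk4_erase0, mk4_erase1, mk4_erase2, mk4_erase3] at h1
    linarith
  have e13_0100 : u (mk4 0 2 0 1) = 0 := by
    have h1 := E4 h 0 1 0 0 (by norm_num) 1 3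
    simp [Fin.sum_univ_four, kop4_00, kop4_01, kop4_02, kop4_03, kop4_10, kop4_11, kop4_12, kop4_13, kop4_20, kop4_21, kop4_22, kop4_23, kop4_30, kop4_31, kop4_32, kop4_33, sh_apply, mulx, mk4_cons0, mk4_cons1, mk4_cons2, mk4_cons3, mk4_count0, mk4_count1, mk4_count2, mk4_count3, mk4_erase0, mk4_erase1, mk4_erase2, mk4_erase3] at h1
    linarith
  have e02_0010 : -u (mk4 1 0 2 0) + 2 * u (mk4 0 0 1 1) + 2 * u (mk4 0 1 1 0) = 0 := by
    have h1 := E4 h 0 0 1 0 (by norm_num) 0 2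
    simp [Fin.sum_univ_four, kop4_00, kop4_01, kop4_02, kop4_03, kop4_10, kop4_11, kop4_12, kop4_13, kop4_20, kop4_21, kop4_22, kop4_23, kop4_30, kop4_31, kop4_32, kop4_33, sh_apply, mulx, mk4_cons0, mk4_cons1, mk4_cons2, mk4_cons3, mk4_count0, mk4_count1, mk4_count2, mk4_count3, mk4_erase0, mk4_erase1, mk4_erase2, mk4_erase3] at h1
    linarith
  have e12_0010 : -2 * u (mk4 0 1 2 0) + 3 * u (mk4 1 0 1 0) = 0 := by
    have h1 := E4 h 0 0 1 0 (by norm_num) 1 2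
    simp [Fin.sum_univ_four, kop4_00, kop4_01, kop4_02, kop4_03, kop4_10, kop4_11, kop4_12, kop4_13, kop4_20, kop4_21, kop4_22, kop4_23, kop4_30, kop4_31, kop4_32, kop4_33, sh_apply, mulx, mk4_cons0, mk4_cons1, mk4_cons2, mk4_cons3, mk4_count0, mk4_count1, mk4_count2, mk4_count3, mk4_erase0, mk4_erase1, mk4_erase2, mk4_erase3] at h1
    linarith
  have e13_0010 : u (mk4 0 1 1 1) - 2 * u (mk4 0 1 0 1) + u (mk4 1 0 0 1) - u (mk4 1 1 0 0) = 0 := by
    have h1 := E4 h 0 0 1 0 (by norm_num) 1 3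
    simp [Fin.sum_univ_four, kop4_00, kop4_01, kop4_02, kop4_03, kop4_10, kop4_11, kop4_12, kop4_13, kop4_20, kop4_21, kop4_22, kop4_23, kop4_30, kop4_31, kop4_32, kop4_33, sh_apply, mulx, mk4_cons0, mk4_cons1, mk4_cons2, mk4_cons3, mk4_count0, mk4_count1, mk4_count2, mk4_count3, mk4_erase0, mk4_erase1, mk4_erase2, mk4_erase3] at h1
    linarith
  have e23_0010 : 3 * u (mk4 0 0 2 1) - 5 * u (mk4 0 0 1 1) - 3 * u (mk4 1 0 1 0) = 0 := by
    have h1 := E4 h 0 0 1 0 (by norm_num) 2 3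
    simp [Fin.sum_univ_four, kop4_00, kop4_01, kop4_02, kop4_03, kop4_10, kop4_11, kop4_12, kop4_13, kop4_20, kop4_21, kop4_22, kop4_23, kop4_30, kop4_31, kop4_32, kop4_33, sh_apply, mulx, mk4_cons0, mk4_cons1, mk4_cons2, mk4_cons3, mk4_count0, mk4_count1, mk4_count2, mk4_count3, mk4_erase0, mk4_erase1, mk4_erase2, mk4_erase3] at h1
    linarith
  have e02_0001 : -u (mk4 1 0 1 1) + u (mk4 0 0 0 2) - u (mk4 0 0 2 0) + u (mk4 0 1 0 1) + u (mk4 1 0 0 1) + u (mk4 2 0 0 0) = 0 := by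
    have h1 := E4 h 0 0 0 1 (by norm_num) 0 2
    simp [Fin.sum_univ_four, kop4_00, kop4_01, kop4_02, kop4_03, kop4_10, kop4_11, kop4_12, kop4_13, kop4_20, kop4_21, kop4_22, kop4_23, kop4_30, kop4_31, kop4_32, kop4_33, sh_apply, mulx, mk4_cons0, mk4_cons1, mk4_cons2, mk4_cons3, mk4_count0, mk4_count1, mk4_count2, mk4_count3, mk4_erase0, mk4_erase1, mk4_erase2, mk4_erase3] at h1
    linarith
  have e03_0001 : 2 * u (mk4 1 0 0 2) - 2 * u (mk4 0 0 1 1) + u (mk4 1 0 1 0) = 0 := by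
    have h1 := E4 h 0 0 0 1 (by norm_num) 0 3
    simp [Fin.sum_univ_four, kop4_00, kop4_01, kop4_02, kop4_03, kop4_10, kop4_11, kop4_12, kop4_13, kop4_20, kop4_21, kop4_22, kop4_23, kop4_30, kop4_31, kop4_32, kop4_33, sh_apply, mulx, mk4_cons0, mk4_cons1, mk4_cons2, mk4_cons3, mk4_count0, mk4_count1, mk4_count2, mk4_count3, mk4_erase0, mk4_erase1, mk4_erase2, mk4_erase3] at h1
    linarith
  have e13_0001 : u (mk4 0 1 0 2) + u (mk4 0 1 1 0) = 0 := by
    have h1 := E4 h 0 0 0 1 (by norm_num) 1 3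
    simp [Fin.sum_univ_four, kop4_00, kop4_01, kop4_02, kop4_03, kop4_10, kop4_11, kop4_12, kop4_13, kop4_20, kop4_21, kop4_22, kop4_23, kop4_30, kop4_31, kop4_32, kop4_33, sh_apply, mulx, mk4_cons0, mk4_cons1, mk4_cons2, mk4_cons3, mk4_count0, mk4_count1, mk4_count2, mk4_count3, mk4_erase0, mk4_erase1, mk4_erase2, mk4_erase3] at h1
    linarith
  have e23_0001 : 3 * u (mk4 0 0 1 2) - 4 * u (mk4 0 0 0 2) + u (mk4 0 0 2 0) - 3 * u (mk4 1 0 0 1) = 0 := by
    have h1 := E4 h 0 0 0 1 (by norm_num) 2 3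
    simp [Fin.sum_univ_four, kop4_00, kop4_01, kop4_02, kop4_03, kop4_10, kop4_11, kop4_12, kop4_13, kop4_20, kop4_21, kop4_22, kop4_23, kop4_30, kop4_31, kop4_32, kop4_33, sh_apply, mulx, mk4_cons0, mk4_cons1, mk4_cons2, mk4_cons3, mk4_count0, mk4_count1, mk4_count2, mk4_count3, mk4_erase0, mk4_erase1, mk4_erase2, mk4_erase3] at h1
    linarith
  have e13_2000 : u (mk4 2 1 0 1) = 0 := by
    have h1 := E4 h 2 0 0 0 (by norm_num) 1 3
    simp [Fin.sum_univ_four, kop4_00, kop4_01, kop4_02, kop4_03, kop4_10, kop4_11, kop4_12, kop4_13, kop4_20, kop4_21, kop4_22, kop4_23, kop4_30, kop4_31, kop4_32, kop4_33, sh_apply, mulx, mk4_cons0, mk4_cons1, mk4_cons2, mk4_cons3, mk4_count0, mk4_count1, mk4_count2, mk4_count3, mk4_erase0, mk4_erase1, mk4_erase2, mk4_erase3] at h1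
    linarith
  have e23_2000 : 3 * u (mk4 2 0 1 1) - 3 * u (mk4 2 0 0 1) - 2 * u (mk4 3 0 0 0) = 0 := by
    have h1 := E4 h 2 0 0 0 (by norm_num) 2 3
    simp [Fin.sum_univ_four, kop4_00, kop4_01, kop4_02, kop4_03, kop4_10, kop4_11, kop4_12, kop4_13, kop4_20, kop4_21, kop4_22, kop4_23, kop4_30, kop4_31, kop4_32, kop4_33, sh_apply, mulx, mk4_cons0, mk4_cons1, mk4_cons2, mk4_cons3, mk4_count0, mk4_count1, mk4_count2, mk4_count3, mk4_erase0, mk4_erase1, mk4_erase2, mk4_erase3] at h1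
    linarith
  have e03_1100 : 2 * u (mk4 2 1 0 1) - u (mk4 1 0 1 1) - u (mk4 1 1 1 0) = 0 := by
    have h1 := E4 h 1 1 0 0 (by norm_num) 0 3
    simp [Fin.sum_univ_four, kop4_00, kop4_01, kop4_02, kop4_03, kop4_10, kop4_11, kop4_12, kop4_13, kop4_20, kop4_21, kop4_22, kop4_23, kop4_30, kop4_31, kop4_32, kop4_33, sh_apply, mulx, mk4_cons0, mk4_cons1, mk4_cons2, mk4_cons3, mk4_count0, mk4_count1, mk4_count2, mk4_count3, mk4_erase0, mk4_erase1, mk4_erase2, mk4_erase3] at h1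
    linarith
  have e12_1100 : -2 * u (mk4 1 2 1 0) + 3 * u (mk4 2 1 0 0) = 0 := by
    have h1 := E4 h 1 1 0 0 (by norm_num) 1 2
    simp [Fin.sum_univ_four, kop4_00, kop4_01, kop4_02, kop4_03, kop4_10, kop4_11, kop4_12, kop4_13, kop4_20, kop4_21, kop4_22, kop4_23, kop4_30, kop4_31, kop4_32, kop4_33, sh_apply, mulx, mk4_cons0, mk4_cons1, mk4_cons2, mk4_cons3, mk4_count0, mk4_count1, mk4_count2, mk4_count3, mk4_erase0, mk4_erase1, mk4_erase2, mk4_erase3] at h1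
    linarith
  have e13_1100 : u (mk4 1 2 0 1) = 0 := by
    have h1 := E4 h 1 1 0 0 (by norm_num) 1 3
    simp [Fin.sum_univ_four, kop4_00, kop4_01, kop4_02, kop4_03, kop4_10, kop4_11, kop4_12, kop4_13, kop4_20, kop4_21, kop4_22, kop4_23, kop4_30, kop4_31, kop4_32, kop4_33, sh_apply, mulx, mk4_cons0, mk4_cons1, mk4_cons2, mk4_cons3, mk4_count0, mk4_count1, mk4_count2, mk4_count3, mk4_erase0, mk4_erase1, mk4_erase2, mk4_erase3] at h1
    linarith
  have e23_1100 : 3 * u (mk4 1 1 1 1) - 3 * u (mk4 1 1 0 1) - u (mk4 2 0 0 1) - 2 * u (mk4 2 1 0 0) = 0 := by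
    have h1 := E4 h 1 1 0 0 (by norm_num) 2 3
    simp [Fin.sum_univ_four, kop4_00, kop4_01, kop4_02, kop4_03, kop4_10, kop4_11, kop4_12, kop4_13, kop4_20, kop4_21, kop4_22, kop4_23, kop4_30, kop4_31, kop4_32, kop4_33, sh_apply, mulx, mk4_cons0, mk4_cons1, mk4_cons2, mk4_cons3, mk4_count0, mk4_count1, mk4_count2, mk4_count3, mk4_erase0, mk4_erase1, mk4_erase2, mk4_erase3] at h1
    linarith
  have e03_1010 : 2 * u (mk4 2 0 1 1) + u (mk4 1 0 0 2) - u (mk4 1 0 2 0) + u (mk4 1 1 0 1) - 2 * u (mk4 2 0 0 1) - u (mk4 3 0 0 0) = 0 := by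
    have h1 := E4 h 1 0 1 0 (by norm_num) 0 3
    simp [Fin.sum_univ_four, kop4_00, kop4_01, kop4_02, kop4_03, kop4_10, kop4_11, kop4_12, kop4_13, kop4_20, kop4_21, kop4_22, kop4_23, kop4_30, kop4_31, kop4_32, kop4_33, sh_apply, mulx, mk4_cons0, mk4_cons1, mk4_cons2, mk4_cons3, mk4_count0, mk4_count1, mk4_count2, mk4_count3, mk4_erase0, mk4_erase1, mk4_erase2, mk4_erase3] at h1
    linarith
  have e12_1010 : -2 * u (mk4 1 1 2 0) + 3 * u (mk4 2 0 1 0) = 0 := by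
    have h1 := E4 h 1 0 1 0 (by norm_num) 1 2
    simp [Fin.sum_univ_four, kop4_00, kop4_01, kop4_02, kop4_03, kop4_10, kop4_11, kop4_12, kop4_13, kop4_20, kop4_21, kop4_22, kop4_23, kop4_30, kop4_31, kop4_32, kop4_33, sh_apply, mulx, mk4_cons0, mk4_cons1, mk4_cons2, mk4_cons3, mk4_count0, mk4_count1, mk4_count2, mk4_count3, mk4_erase0, mk4_erase1, mk4_erase2, mk4_erase3] at h1
    linarith
  have e13_1010 : u (mk4 1 1 1 1) - 2 * u (mk4 1 1 0 1) + u (mk4 2 0 0 1) - u (mk4 2 1 0 0) = 0 := by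
    have h1 := E4 h 1 0 1 0 (by norm_num) 1 3
    simp [Fin.sum_univ_four, kop4_00, kop4_01, kop4_02, kop4_03, kop4_10, kop4_11, kop4_12, kop4_13, kop4_20, kop4_21, kop4_22, kop4_23, kop4_30, kop4_31, kop4_32, kop4_33, sh_apply, mulx, mk4_cons0, mk4_cons1, mk4_cons2, mk4_cons3, mk4_count0, mk4_count1, mk4_count2, mk4_count3, mk4_erase0, mk4_erase1, mk4_erase2, mk4_erase3] at h1
    linarith
  have e13_1001 : u (mk4 1 1 0 2) + u (mk4 1 1 1 0) = 0 := by
    have h1 := E4 h 1 0 0 1 (by norm_num) 1 3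
    simp [Fin.sum_univ_four, kop4_00, kop4_01, kop4_02, kop4_03, kop4_10, kop4_11, kop4_12, kop4_13, kop4_20, kop4_21, kop4_22, kop4_23, kop4_30, kop4_31, kop4_32, kop4_33, sh_apply, mulx, mk4_cons0, mk4_cons1, mk4_cons2, mk4_cons3, mk4_count0, mk4_count1, mk4_count2, mk4_count3, mk4_erase0, mk4_erase1, mk4_erase2, mk4_erase3] at h1
    linarith
  have e23_1001 : 3 * u (mk4 1 0 1 2) - 4 * u (mk4 1 0 0 2) + u (mk4 1 0 2 0) - 3 * u (mk4 2 0 0 1) = 0 := by
    have h1 := E4 h 1 0 0 1 (by norm_num) 2 3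
    simp [Fin.sum_univ_four, kop4_00, kop4_01, kop4_02, kop4_03, kop4_10, kop4_11, kop4_12, kop4_13, kop4_20, kop4_21, kop4_22, kop4_23, kop4_30, kop4_31, kop4_32, kop4_33, sh_apply, mulx, mk4_cons0, mk4_cons1, mk4_cons2, mk4_cons3, mk4_count0, mk4_count1, mk4_count2, mk4_count3, mk4_erase0, mk4_erase1, mk4_erase2, mk4_erase3] at h1
    linarith
  have e02_0200 : -u (mk4 1 2 1 0) - 2 * u (mk4 0 1 2 0) + u (mk4 0 2 0 1) + u (mk4 0 3 0 0) + 2 * u (mk4 2 1 0 0) = 0 := by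
    have h1 := E4 h 0 2 0 0 (by norm_num) 0 2
    simp [Fin.sum_univ_four, kop4_00, kop4_01, kop4_02, kop4_03, kop4_10, kop4_11, kop4_12, kop4_13, kop4_20, kop4_21, kop4_22, kop4_23, kop4_30, kop4_31, kop4_32, kop4_33, sh_apply, mulx, mk4_cons0, mk4_cons1, mk4_cons2, mk4_cons3, mk4_count0, mk4_count1, mk4_count2, mk4_count3, mk4_erase0, mk4_erase1, mk4_erase2, mk4_erase3] at h1
    linarith
  have e03_0200 : 2 * u (mk4 1 2 0 1) - 2 * u (mk4 0 1 1 1) - u (mk4 0 2 1 0) = 0 := by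
    have h1 := E4 h 0 2 0 0 (by norm_num) 0 3
    simp [Fin.sum_univ_four, kop4_00, kop4_01, kop4_02, kop4_03, kop4_10, kop4_11, kop4_12, kop4_13, kop4_20, kop4_21, kop4_22, kop4_23, kop4_30, kop4_31, kop4_32, kop4_33, sh_apply, mulx, mk4_cons0, mk4_cons1, mk4_cons2, mk4_cons3, mk4_count0, mk4_count1, mk4_count2, mk4_count3, mk4_erase0, mk4_erase1, mk4_erase2, mk4_erase3] at h1
    linarith
  have e23_0200 : 3 * u (mk4 0 2 1 1) - 3 * u (mk4 0 2 0 1) - 2 * u (mk4 1 1 0 1) - 2 * u (mk4 1 2 0 0) = 0 := by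
    have h1 := E4 h 0 2 0 0 (by norm_num) 2 3
    simp [Fin.sum_univ_four, kop4_00, kop4_01, kop4_02, kop4_03, kop4_10, kop4_11, kop4_12, kop4_13, kop4_20, kop4_21, kop4_22, kop4_23, kop4_30, kop4_31, kop4_32, kop4_33, sh_apply, mulx, mk4_cons0, mk4_cons1, mk4_cons2, mk4_cons3, mk4_count0, mk4_count1, mk4_count2, mk4_count3, mk4_erase0, mk4_erase1, mk4_erase2, mk4_erase3] at h1
    linarith
  have e02_0110 : -u (mk4 1 1 2 0) - u (mk4 0 0 3 0) + 2 * u (mk4 0 1 1 1) + 2 * u (mk4 0 2 1 0) + u (mk4 2 0 1 0) = 0 := by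
    have h1 := E4 h 0 1 1 0 (by norm_num) 0 2
    simp [Fin.sum_univ_four, kop4_00, kop4_01, kop4_02, kop4_03, kop4_10, kop4_11, kop4_12, kop4_13, kop4_20, kop4_21, kop4_22, kop4_23, kop4_30, kop4_31, kop4_32, kop4_33, sh_apply, mulx, mk4_cons0, mk4_cons1, mk4_cons2, mk4_cons3, mk4_count0, mk4_count1, mk4_count2, mk4_count3, mk4_erase0, mk4_erase1, mk4_erase2, mk4_erase3] at h1
    linarith
  have e13_0110 : u (mk4 0 2 1 1) - 2 * u (mk4 0 2 0 1) + u (mk4 1 1 0 1) - u (mk4 1 2 0 0) = 0 := by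
    have h1 := E4 h 0 1 1 0 (by norm_num) 1 3
    simp [Fin.sum_univ_four, kop4_00, kop4_01, kop4_02, kop4_03, kop4_10, kop4_11, kop4_12, kop4_13, kop4_20, kop4_21, kop4_22, kop4_23, kop4_30, kop4_31, kop4_32, kop4_33, sh_apply, mulx, mk4_cons0, mk4_cons1, mk4_cons2, mk4_cons3, mk4_count0, mk4_count1, mk4_count2, mk4_count3, mk4_erase0, mk4_erase1, mk4_erase2, mk4_erase3] at h1
    linarith
  have e03_0101 : 2 * u (mk4 1 1 0 2) - u (mk4 0 0 1 2) - 2 * u (mk4 0 1 1 1) + u (mk4 1 1 1 0) = 0 := by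
    have h1 := E4 h 0 1 0 1 (by norm_num) 0 3
    simp [Fin.sum_univ_four, kop4_00, kop4_01, kop4_02, kop4_03, kop4_10, kop4_11, kop4_12, kop4_13, kop4_20, kop4_21, kop4_22, kop4_23, kop4_30, kop4_31, kop4_32, kop4_33, sh_apply, mulx, mk4_cons0, mk4_cons1, mk4_cons2, mk4_cons3, mk4_count0, mk4_count1, mk4_count2, mk4_count3, mk4_erase0, mk4_erase1, mk4_erase2, mk4_erase3] at h1
    linarith
  have e03_0011 : 2 * u (mk4 1 0 1 2) + u (mk4 0 0 0 3) - 2 * u (mk4 0 0 2 1) + u (mk4 0 1 0 2) - 2 * u (mk4 1 0 0 2) + u (mk4 1 0 2 0) - u (mk4 2 0 0 1) = 0 := by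
    have h1 := E4 h 0 0 1 1 (by norm_num) 0 3
    simp [Fin.sum_univ_four, kop4_00, kop4_01, kop4_02, kop4_03, kop4_10, kop4_11, kop4_12, kop4_13, kop4_20, kop4_21, kop4_22, kop4_23, kop4_30, kop4_31, kop4_32, kop4_33, sh_apply, mulx, mk4_cons0, mk4_cons1, mk4_cons2, mk4_cons3, mk4_count0, mk4_count1, mk4_count2, mk4_count3, mk4_erase0, mk4_erase1, mk4_erase2, mk4_erase3] at h1
    linarith
  have t_0001 : u (mk4 0 0 0 1) = 0 := by
    linear_combination -(1 / 3) * e12_0000 - (1 / 3) * e23_0000 - (13 / 6) * e13_1000 + (5 / 6) * e01_0100 - e03_0100 + (5 / 2) * e13_0100 - (5 / 6) * e23_0200 + (5 / 2) * e13_0110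
  have t_0010 : u (mk4 0 0 1 0) = 0 := by
    linear_combination -(7 / 5) * e01_0000 + (2 / 5) * e03_0000 - (8 / 5) * e13_0000 + (1 / 5) * e12_0100 - (4 / 5) * e13_0010 + (4 / 5) * e13_1100 - (2 / 5) * e03_0200
  have t_0100 : u (mk4 0 1 0 0) = 0 := by
    linear_combination e02_0000 + (1 / 3) * e12_0000 + (1 / 3) * e23_0000 + e01_1000 - 2 * e03_1000 + (31 / 6) * e13_1000 - (5 / 6) * e01_0100 + e03_0100 - (5 / 2) * e13_0100 - e23_1100 + 3 * e13_1010 + (5 / 6) * e23_0200 - (5 / 2) * e13_0110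
  have t_1000 : u (mk4 1 0 0 0) = 0 := by
    linear_combination (1 / 2) * e12_0000 + (5 / 2) * e13_1000 - (1 / 2) * e01_0100 - (3 / 2) * e13_0100 + (1 / 2) * e23_0200 - (3 / 2) * e13_0110
  have t_0002 : u (mk4 0 0 0 2) = 0 := by
    linear_combination -(41 / 150) * e01_0000 + (41 / 150) * e03_0000 - (127 / 75) * e13_0000 + (7 / 30) * e12_1000 + (1 / 15) * e23_1000 - (37 / 150) * e12_0100 - (76 / 75) * e13_0010 - (1 / 3) * e02_0001 - (1 / 3) * e23_0001 - (16 / 15) * e13_2000 + (8 / 15) * e03_1100 - (74 / 75) * e13_1100 + 2 * e13_1001 + (37 / 75) * e03_0200 - e03_0101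
  have t_0011 : u (mk4 0 0 1 1) = 0 := by
    linear_combination -(1 / 2) * e13_1000 + (1 / 2) * e01_0100 - e03_0100 + (3 / 2) * e13_0100 - (1 / 2) * e23_0200 + (3 / 2) * e13_0110
  have t_0020 : u (mk4 0 0 2 0) = 0 := by
    linear_combination -(2 / 15) * e01_0000 + (2 / 15) * e03_0000 - (8 / 15) * e13_0000 + (1 / 3) * e12_1000 - (1 / 3) * e23_1000 - (4 / 15) * e12_0100 - (14 / 15) * e13_0010 - (4 / 3) * e02_0001 - (1 / 3) * e23_0001 - (2 / 3) * e13_2000 + (1 / 3) * e03_1100 - (16 / 15) * e13_1100 + 2 * e13_1001 + (8 / 15) * e03_0200 - e03_0101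
  have t_0101 : u (mk4 0 1 0 1) = 0 := by
    linear_combination e13_0000
  have t_0110 : u (mk4 0 1 1 0) = 0 := by
    linear_combination (5 / 2) * e13_1000 - (1 / 2) * e01_0100 - (3 / 2) * e13_0100 + (1 / 2) * e23_0200 - (3 / 2) * e13_0110
  have t_0200 : u (mk4 0 2 0 0) = 0 := by
    linear_combination -(2 / 15) * e01_0000 + (2 / 15) * e03_0000 - (23 / 15) * e13_0000 - (1 / 6) * e12_1000 - (1 / 3) * e23_1000 + e02_0100 - (4 / 15) * e12_0100 - (14 / 15) * e13_0010 - (4 / 3) * e02_0001 - (1 / 3) * e23_0001 - (2 / 3) * e13_2000 + (1 / 3) * e03_1100 - (16 / 15) * e13_1100 + 2 * e13_1001 + (8 / 15) * e03_0200 - e03_0101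
  have t_1001 : u (mk4 1 0 0 1) = 0 := by
    linear_combination -(7 / 10) * e01_0000 + (7 / 10) * e03_0000 - (4 / 5) * e13_0000 + (1 / 10) * e12_0100 - (2 / 5) * e13_0010 + (2 / 5) * e13_1100 - (1 / 5) * e03_0200
  have t_1010 : u (mk4 1 0 1 0) = 0 := by
    linear_combination e01_1000 - 2 * e03_1000 + 3 * e13_1000 - e23_1100 + 3 * e13_1010
  have t_1100 : u (mk4 1 1 0 0) = 0 := by
    linear_combination -(2 / 5) * e01_0000 + (2 / 5) * e03_0000 - (8 / 5) * e13_0000 + (1 / 5) * e12_0100 - (4 / 5) * e13_0010 + (4 / 5) * e13_1100 - (2 / 5) * e03_0200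
  have t_2000 : u (mk4 2 0 0 0) = 0 := by
    linear_combination (21 / 50) * e01_0000 - (21 / 50) * e03_0000 + (12 / 25) * e13_0000 + (3 / 10) * e12_1000 - (1 / 5) * e23_1000 - (3 / 50) * e12_0100 + (6 / 25) * e13_0010 + (6 / 5) * e13_2000 - (3 / 5) * e03_1100 - (6 / 25) * e13_1100 + (3 / 25) * e03_0200
  have t_0003 : u (mk4 0 0 0 3) = 0 := by
    linear_combination (11 / 6) * e01_1000 - (25 / 6) * e03_1000 + (16 / 3) * e13_1000 + (5 / 6) * e01_0100 - 2 * e03_0100 + (5 / 2) * e13_0100 + (1 / 3) * e02_0010 + (2 / 3) * e23_0010 - (1 / 3) * e03_0001 - e13_0001 - (11 / 6) * e23_1100 + (11 / 2) * e13_1010 - (2 / 3) * e23_1001 - (5 / 6) * e23_0200 + (5 / 2) * e13_0110 + e03_0011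
  have t_0012 : u (mk4 0 0 1 2) = 0 := by
    linear_combination -(51 / 50) * e01_0000 + (51 / 50) * e03_0000 - (72 / 25) * e13_0000 + (1 / 5) * e12_1000 + (1 / 5) * e23_1000 - (7 / 50) * e12_0100 - (36 / 25) * e13_0010 - (6 / 5) * e13_2000 + (3 / 5) * e03_1100 - (14 / 25) * e13_1100 + 2 * e13_1001 + (7 / 25) * e03_0200 - e03_0101
  have t_0021 : u (mk4 0 0 2 1) = 0 := by
    linear_combination e01_1000 - 2 * e03_1000 + (13 / 6) * e13_1000 + (5 / 6) * e01_0100 - (5 / 3) * e03_0100 + (5 / 2) * e13_0100 + (1 / 3) * e23_0010 - e23_1100 + 3 * e13_1010 - (5 / 6) * e23_0200 + (5 / 2) * e13_0110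
  have t_0030 : u (mk4 0 0 3 0) = 0 := by
    linear_combination -(1 / 20) * e01_0000 + (1 / 20) * e03_0000 - (6 / 5) * e13_0000 + (1 / 2) * e02_1000 - (7 / 20) * e12_0100 - (3 / 5) * e13_0010 + (13 / 5) * e13_1100 + (1 / 2) * e12_1010 - (13 / 10) * e03_0200 - e02_0110
  have t_0102 : u (mk4 0 1 0 2) = 0 := by
    linear_combination -(5 / 2) * e13_1000 + (1 / 2) * e01_0100 + (3 / 2) * e13_0100 + e13_0001 - (1 / 2) * e23_0200 + (3 / 2) * e13_0110
  have t_0111 : u (mk4 0 1 1 1) = 0 := by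
    linear_combination (3 / 10) * e01_0000 - (3 / 10) * e03_0000 + (6 / 5) * e13_0000 + (1 / 10) * e12_0100 + (3 / 5) * e13_0010 + (2 / 5) * e13_1100 - (1 / 5) * e03_0200
  have t_0120 : u (mk4 0 1 2 0) = 0 := by
    linear_combination (3 / 2) * e01_1000 - 3 * e03_1000 + (9 / 2) * e13_1000 - (1 / 2) * e12_0010 - (3 / 2) * e23_1100 + (9 / 2) * e13_1010
  have t_0201 : u (mk4 0 2 0 1) = 0 := by
    linear_combination e13_0100
  have t_0210 : u (mk4 0 2 1 0) = 0 := by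
    linear_combination -(3 / 5) * e01_0000 + (3 / 5) * e03_0000 - (12 / 5) * e13_0000 - (1 / 5) * e12_0100 - (6 / 5) * e13_0010 + (6 / 5) * e13_1100 - (3 / 5) * e03_0200
  have t_0300 : u (mk4 0 3 0 0) = 0 := by
    linear_combination 2 * e01_1000 - 5 * e03_1000 + (15 / 2) * e13_1000 - e13_0100 - e12_0010 - (1 / 2) * e12_1100 - (5 / 2) * e23_1100 + (15 / 2) * e13_1010 + e02_0200
  have t_1002 : u (mk4 1 0 0 2) = 0 := by
    linear_combination -(1 / 2) * e01_1000 + e03_1000 - 2 * e13_1000 + (1 / 2) * e01_0100 - e03_0100 + (3 / 2) * e13_0100 + (1 / 2) * e03_0001 + (1 / 2) * e23_1100 - (3 / 2) * e13_1010 - (1 / 2) * e23_0200 + (3 / 2) * e13_0110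
  have t_1011 : u (mk4 1 0 1 1) = 0 := by
    linear_combination -(21 / 50) * e01_0000 + (21 / 50) * e03_0000 - (12 / 25) * e13_0000 + (1 / 5) * e12_1000 + (1 / 5) * e23_1000 + (3 / 50) * e12_0100 - (6 / 25) * e13_0010 + (4 / 5) * e13_2000 - (2 / 5) * e03_1100 + (6 / 25) * e13_1100 - (3 / 25) * e03_0200
  have t_1020 : u (mk4 1 0 2 0) = 0 := by
    linear_combination 4 * e13_1000 - 2 * e03_0100 - e02_0010
  have t_1101 : u (mk4 1 1 0 1) = 0 := by
    linear_combination e13_1000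
  have t_1110 : u (mk4 1 1 1 0) = 0 := by
    linear_combination (21 / 50) * e01_0000 - (21 / 50) * e03_0000 + (12 / 25) * e13_0000 - (1 / 5) * e12_1000 - (1 / 5) * e23_1000 - (3 / 50) * e12_0100 + (6 / 25) * e13_0010 + (6 / 5) * e13_2000 - (3 / 5) * e03_1100 - (6 / 25) * e13_1100 + (3 / 25) * e03_0200
  have t_1200 : u (mk4 1 2 0 0) = 0 := by
    linear_combination 5 * e13_1000 - 3 * e13_0100 + e23_0200 - 3 * e13_0110
  have t_2001 : u (mk4 2 0 0 1) = 0 := by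
    linear_combination (1 / 2) * e01_1000 - (1 / 2) * e03_1000 + (3 / 2) * e13_1000 - (1 / 2) * e23_1100 + (3 / 2) * e13_1010
  have t_2010 : u (mk4 2 0 1 0) = 0 := by
    linear_combination -(11 / 10) * e01_0000 + (11 / 10) * e03_0000 - (12 / 5) * e13_0000 - e02_1000 + (3 / 10) * e12_0100 - (6 / 5) * e13_0010 + (6 / 5) * e13_1100 - (3 / 5) * e03_0200
  have t_2100 : u (mk4 2 1 0 0) = 0 := by
    linear_combination 2 * e01_1000 - 2 * e03_1000 + 3 * e13_1000 - e23_1100 + 3 * e13_1010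
  have t_3000 : u (mk4 3 0 0 0) = 0 := by
    linear_combination (3 / 2) * e01_1000 - 3 * e03_1000 + 15 * e13_1000 - (3 / 2) * e01_0100 - 3 * e03_0100 - (9 / 2) * e13_0100 - 3 * e02_0010 - (3 / 2) * e03_0001 - 2 * e23_2000 - (3 / 2) * e23_1100 + 3 * e03_1010 + (9 / 2) * e13_1010 + (3 / 2) * e23_0200 - (9 / 2) * e13_0110
  exact cover4 (P := fun a b c d => u (mk4 a b c d) = 0) t_1000 t_0100 t_0010 t_0001 t_2000 t_1100 t_1010 t_1001 t_0200 t_0110 t_0101 t_0020 t_0011 t_0002 t_3000 t_2100 t_2010 t_2001 t_1200 t_1110 t_1101 t_1020 t_1011 t_1002 t_0300 t_0210 t_0201 t_0120 t_0111 t_0102 t_0030 t_0021 t_0012 t_0003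

lemma T4_kT (i j : Fin 4) (m : Multiset (Fin 4)) : kT T4 i j m =
    (T4.map fun t => t.1 * (Xop t.2.1 i (xj t.2.2 j) m + Xop t.2.2 i (xj t.2.1 j) m)).sum := by
  simp only [kT, mulJ_xj]

def lam4 : Fin 4 → ℝ := ![0, 1, -1, 2]

lemma diag4 : Diag (kT T4) lam4 := by
  intro i j
  rw [T4_kT]
  fin_cases i <;> fin_cases j <;> simp [T4, Xop, xj, mulx, lam4] <;> norm_num

lemma lam4_inj : Function.Injective lam4 := by
  intro i j
  fin_cases i <;> fin_cases j <;> simp [lam4] <;> norm_num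

theorem low4_0 : Low 4 (kT T4) := by
  intro u hu m h0 hm
  rw [eq_mk4 m]
  have hc : card m = m.count 0 + m.count 1 + m.count 2 + m.count 3 := by
    conv_lhs => rw [eq_mk4 m]
    exact mk4_card _ _ _ _
  have h1 : 1 ≤ card m := Multiset.card_pos.2 h0
  exact base4_low hu _ _ _ _ (by omega) (by omega)

lemma haan4 : Haan (kT T4) lam4 := by
  intro i
  have key : ∀ p q : Fin 4, kT T4 i p {q} = (T4.map fun t => t.1 *
      (Xop t.2.1 i (xj t.2.2 p) {q} + Xop t.2.2 i (xj t.2.1 p) {q})).sum := fun p q => T4_kT i p {q}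
  fin_cases i
  · refine ⟨2, 3, by decide, by decide, by decide, ?_⟩
    rw [key, key]
    simp [T4, Xop, xj, mulx, lam4]
    try norm_num
  · refine ⟨0, 2, by decide, by decide, by decide, ?_⟩
    rw [key, key]
    simp [T4, Xop, xj, mulx, lam4]
    try norm_num
  · refine ⟨0, 1, by decide, by decide, by decide, ?_⟩
    rw [key, key]
    simp [T4, Xop, xj, mulx, lam4]
    try norm_num
  · refine ⟨0, 2, by decide, by decide, by decide, ?_⟩
    rw [key, key]
    simp [T4, Xop, xj, mulx, lam4]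
    try norm_num

theorem flat4 : FlatEx (Fin 4) := ⟨T4, lam4, lam4_inj, diag4, low_succ (by norm_num) diag4 lam4_inj haan4 (low_succ (by norm_num) diag4 lam4_inj haan4 (low_succ (by norm_num) diag4 lam4_inj haan4 (low4_0)))⟩

end

end Pool.Agent.K4H49.KT

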