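import Pool.Agent.K4H49.KT.SumB

/-! The base case n = 5. -/

namespace Pool.Agent.K4H49.KT

noncomputable section

open Multiset

def mk5 (a b c d e : ℕ) : Multiset (Fin 5) := replicate a 0 + replicate b 1 + replicate c 2 + replicate d 3 + replicate e 4

lemma mk5_cons0 (a b c d e : ℕ) : (0 : Fin 5) ::ₘ mk5 a b c d e = mk5 (a + 1) b c d e := by
  ext x; fin_cases x <;> simp [mk5, Multiset.count_replicate]
lemma mk5_cons1 (a b c d e : ℕ) : (1 : Fin 5) ::ₘ mk5 a b c d e = mk5 a (b + 1) c d e := by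
  ext x; fin_cases x <;> simp [mk5, Multiset.count_replicate]
lemma mk5_cons2 (a b c d e : ℕ) : (2 : Fin 5) ::ₘ mk5 a b c d e = mk5 a b (c + 1) d e := by
  ext x; fin_cases x <;> simp [mk5, Multiset.count_replicate]
lemma mk5_cons3 (a b c d e : ℕ) : (3 : Fin 5) ::ₘ mk5 a b c d e = mk5 a b c (d + 1) e := by
  ext x; fin_cases x <;> simp [mk5, Multiset.count_replicate]
lemma mk5_cons4 (a b c d e : ℕ) : (4 : Fin 5) ::ₘ mk5 a b c d e = mk5 a b c d (e + 1) := by
  ext x; fin_cases x <;> simp [mk5, Multiset.count_replicate]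
lemma mk5_count0 (a b c d e : ℕ) : (mk5 a b c d e).count 0 = a := by simp [mk5, Multiset.count_replicate]
lemma mk5_count1 (a b c d e : ℕ) : (mk5 a b c d e).count 1 = b := by simp [mk5, Multiset.count_replicate]
lemma mk5_count2 (a b c d e : ℕ) : (mk5 a b c d e).count 2 = c := by simp [mk5, Multiset.count_replicate]
lemma mk5_count3 (a b c d e : ℕ) : (mk5 a b c d e).count 3 = d := by simp [mk5, Multiset.count_replicate]
lemma mk5_count4 (a b c d e : ℕ) : (mk5 a b c d e).count 4 = e := by simp [mk5, Multiset.count_replicate]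
lemma mk5_erase0 (a b c d e : ℕ) : (mk5 a b c d e).erase 0 = mk5 (a - 1) b c d e := by
  ext x
  by_cases h : x = 0
  · subst h; rw [Multiset.count_erase_self, mk5_count0, mk5_count0]
  · rw [Multiset.count_erase_of_ne h]; fin_cases x <;> simp_all [mk5, Multiset.count_replicate]
lemma mk5_erase1 (a b c d e : ℕ) : (mk5 a b c d e).erase 1 = mk5 a (b - 1) c d e := by
  ext x
  by_cases h : x = 1
  · subst h; rw [Multiset.count_erase_self, mk5_count1, mk5_count1]
  · rw [Multiset.count_erase_of_ne h]; fin_cases x <;> simp_all [mk5, Multiset.count_replicate]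
lemma mk5_erase2 (a b c d e : ℕ) : (mk5 a b c d e).erase 2 = mk5 a b (c - 1) d e := by
  ext x
  by_cases h : x = 2
  · subst h; rw [Multiset.count_erase_self, mk5_count2, mk5_count2]
  · rw [Multiset.count_erase_of_ne h]; fin_cases x <;> simp_all [mk5, Multiset.count_replicate]
lemma mk5_erase3 (a b c d e : ℕ) : (mk5 a b c d e).erase 3 = mk5 a b c (d - 1) e := by
  ext x
  by_cases h : x = 3
  · subst h; rw [Multiset.count_erase_self, mk5_count3, mk5_count3]
  · rw [Multiset.count_erase_of_ne h]; fin_cases x <;> simp_all [mk5, Multiset.count_replicate]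
lemma mk5_erase4 (a b c d e : ℕ) : (mk5 a b c d e).erase 4 = mk5 a b c d (e - 1) := by
  ext x
  by_cases h : x = 4
  · subst h; rw [Multiset.count_erase_self, mk5_count4, mk5_count4]
  · rw [Multiset.count_erase_of_ne h]; fin_cases x <;> simp_all [mk5, Multiset.count_replicate]
lemma mk5_card (a b c d e : ℕ) : card (mk5 a b c d e) = a + b + c + d + e := by simp [mk5]
lemma eq_mk5 (m : Multiset (Fin 5)) : m = mk5 (m.count 0) (m.count 1) (m.count 2) (m.count 3) (m.count 4) := by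
  ext x; fin_cases x <;> simp [mk5, Multiset.count_replicate]

def T5 : TL (Fin 5) := [(1/2, (none, 1), (none, 1)), (-1/2, (none, 2), (none, 2)), (1, (none, 3), (none, 3)), (-1, (none, 4), (none, 4)), (1, (none, 1), (some 0, 3)), (-1, (none, 1), (some 3, 4)), (1, (none, 0), (some 2, 3))]

lemma E5 {u : Jet (Fin 5)} (h : Sol 4 (kT T5) u) (a b c d e : ℕ) (h5 : a + b + c + d + e ≤ 2) (i j : Fin 5) :
    ∑ s, kop T5 s j (sh s u) (i ::ₘ mk5 a b c d e) - ∑ s, kop T5 s i (sh s u) (j ::ₘ mk5 a b c d e) = 0 := by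
  have := h i j (mk5 a b c d e).toList (by simp [mk5_card]; omega)
  rw [eqn_kT] at this
  simpa using this

set_option linter.unusedSimpArgs false

lemma kop5_00 (v : Jet (Fin 5)) (m : Multiset (Fin 5)) : kop T5 0 0 v m = 0 := by
  simp [kop, T5, Xop, mulx]
  try ring
lemma kop5_01 (v : Jet (Fin 5)) (m : Multiset (Fin 5)) : kop T5 0 1 v m = -(mulx 3 v m) := by
  simp [kop, T5, Xop, mulx]
  try ring
lemma kop5_02 (v : Jet (Fin 5)) (m : Multiset (Fin 5)) : kop T5 0 2 v m = -(mulx 3 v m) := by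
  simp [kop, T5, Xop, mulx]
  try ring
lemma kop5_03 (v : Jet (Fin 5)) (m : Multiset (Fin 5)) : kop T5 0 3 v m = (mulx 2 v m) := by
  simp [kop, T5, Xop, mulx]
  try ring
lemma kop5_04 (v : Jet (Fin 5)) (m : Multiset (Fin 5)) : kop T5 0 4 v m = 0 := by
  simp [kop, T5, Xop, mulx]
  try ring
lemma kop5_10 (v : Jet (Fin 5)) (m : Multiset (Fin 5)) : kop T5 1 0 v m = -(mulx 3 v m) := by
  simp [kop, T5, Xop, mulx]
  try ring
lemma kop5_11 (v : Jet (Fin 5)) (m : Multiset (Fin 5)) : kop T5 1 1 v m = (v m) := by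
  simp [kop, T5, Xop, mulx]
  try ring
lemma kop5_12 (v : Jet (Fin 5)) (m : Multiset (Fin 5)) : kop T5 1 2 v m = 0 := by
  simp [kop, T5, Xop, mulx]
  try ring
lemma kop5_13 (v : Jet (Fin 5)) (m : Multiset (Fin 5)) : kop T5 1 3 v m = (mulx 0 v m) + (mulx 4 v m) := by
  simp [kop, T5, Xop, mulx]
  try ring
lemma kop5_14 (v : Jet (Fin 5)) (m : Multiset (Fin 5)) : kop T5 1 4 v m = -(mulx 3 v m) := by
  simp [kop, T5, Xop, mulx]
  try ring
lemma kop5_20 (v : Jet (Fin 5)) (m : Multiset (Fin 5)) : kop T5 2 0 v m = -(mulx 3 v m) := by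
  simp [kop, T5, Xop, mulx]
  try ring
lemma kop5_21 (v : Jet (Fin 5)) (m : Multiset (Fin 5)) : kop T5 2 1 v m = 0 := by
  simp [kop, T5, Xop, mulx]
  try ring
lemma kop5_22 (v : Jet (Fin 5)) (m : Multiset (Fin 5)) : kop T5 2 2 v m = -(v m) := by
  simp [kop, T5, Xop, mulx]
  try ring
lemma kop5_23 (v : Jet (Fin 5)) (m : Multiset (Fin 5)) : kop T5 2 3 v m = 0 := by
  simp [kop, T5, Xop, mulx]
  try ring
lemma kop5_24 (v : Jet (Fin 5)) (m : Multiset (Fin 5)) : kop T5 2 4 v m = 0 := by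
  simp [kop, T5, Xop, mulx]
  try ring
lemma kop5_30 (v : Jet (Fin 5)) (m : Multiset (Fin 5)) : kop T5 3 0 v m = (mulx 2 v m) := by
  simp [kop, T5, Xop, mulx]
  try ring
lemma kop5_31 (v : Jet (Fin 5)) (m : Multiset (Fin 5)) : kop T5 3 1 v m = (mulx 0 v m) + (mulx 4 v m) := by
  simp [kop, T5, Xop, mulx]
  try ring
lemma kop5_32 (v : Jet (Fin 5)) (m : Multiset (Fin 5)) : kop T5 3 2 v m = 0 := by
  simp [kop, T5, Xop, mulx]
  try ring
lemma kop5_33 (v : Jet (Fin 5)) (m : Multiset (Fin 5)) : kop T5 3 3 v m = 2 * (v m) := by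
  simp [kop, T5, Xop, mulx]
  try ring
lemma kop5_34 (v : Jet (Fin 5)) (m : Multiset (Fin 5)) : kop T5 3 4 v m = 0 := by
  simp [kop, T5, Xop, mulx]
  try ring
lemma kop5_40 (v : Jet (Fin 5)) (m : Multiset (Fin 5)) : kop T5 4 0 v m = 0 := by
  simp [kop, T5, Xop, mulx]
  try ring
lemma kop5_41 (v : Jet (Fin 5)) (m : Multiset (Fin 5)) : kop T5 4 1 v m = -(mulx 3 v m) := by
  simp [kop, T5, Xop, mulx]
  try ring
lemma kop5_42 (v : Jet (Fin 5)) (m : Multiset (Fin 5)) : kop T5 4 2 v m = 0 := by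
  simp [kop, T5, Xop, mulx]
  try ring
lemma kop5_43 (v : Jet (Fin 5)) (m : Multiset (Fin 5)) : kop T5 4 3 v m = 0 := by
  simp [kop, T5, Xop, mulx]
  try ring
lemma kop5_44 (v : Jet (Fin 5)) (m : Multiset (Fin 5)) : kop T5 4 4 v m = -2 * (v m) := by
  simp [kop, T5, Xop, mulx]
  try ring

lemma cover5 {P : ℕ → ℕ → ℕ → ℕ → ℕ → Prop} (t_10000 : P 1 0 0 0 0) (t_01000 : P 0 1 0 0 0) (t_00100 : P 0 0 1 0 0) (t_00010 : P 0 0 0 1 0) (t_00001 : P 0 0 0 0 1) (t_20000 : P 2 0 0 0 0) (t_11000 : P 1 1 0 0 0) (t_10100 : P 1 0 1 0 0) (t_10010 : P 1 0 0 1 0) (t_10001 : P 1 0 0 0 1) (t_02000 : P 0 2 0 0 0) (t_01100 : P 0 1 1 0 0) (t_01010 : P 0 1 0 1 0) (t_01001 : P 0 1 0 0 1) (t_00200 : P 0 0 2 0 0) (t_00110 : P 0 0 1 1 0) (t_00101 : P 0 0 1 0 1) (t_00020 : P 0 0 0 2 0) (t_00011 : P 0 0 0 1 1) (t_00002 : P 0 0 0 0 2) (t_30000 : P 3 0 0 0 0) (t_21000 : P 2 1 0 0 0) (t_20100 : P 2 0 1 0 0) (t_20010 : P 2 0 0 1 0) (t_20001 : P 2 0 0 0 1) (t_12000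 : P 1 2 0 0 0) (t_11100 : P 1 1 1 0 0) (t_11010 : P 1 1 0 1 0) (t_11001 : P 1 1 0 0 1) (t_10200 : P 1 0 2 0 0) (t_10110 : P 1 0 1 1 0) (t_10101 : P 1 0 1 0 1) (t_10020 : P 1 0 0 2 0) (t_10011 : P 1 0 0 1 1) (t_10002 : P 1 0 0 0 2) (t_03000 : P 0 3 0 0 0) (t_02100 : P 0 2 1 0 0) (t_02010 : P 0 2 0 1 0) (t_02001 : P 0 2 0 0 1) (t_01200 : P 0 1 2 0 0) (t_01110 : P 0 1 1 1 0) (t_01101 : P 0 1 1 0 1) (t_01020 : P 0 1 0 2 0) (t_01011 : P 0 1 0 1 1) (t_01002 : P 0 1 0 0 2) (t_00300 : P 0 0 3 0 0) (t_00210 : P 0 0 2 1 0) (t_00201 : P 0 0 2 0 1) (t_00120 : P 0 0 1 2 0) (t_00111 : P 0 0 1 1 1) (t_00102 : P 0 0 1 0 2) (t_00030 : P 0 0 0 3 0) (t_00021 : P 0 0 0 2 1) (t_00012 : P 0 0 0 1 2) (t_00003 : P 0 0 0 0 3) :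
    ∀ a b c d e : ℕ, 1 ≤ a + b + c + d + e → a + b + c + d + e < 4 → P a b c d e := by
  intro a b c d e h1 h2
  rcases (by omega : a = 0 ∨ a = 1 ∨ a = 2 ∨ a = 3) with rfl | rfl | rfl | rfl
  ·
    rcases (by omega : b = 0 ∨ b = 1 ∨ b = 2 ∨ b = 3) with rfl | rfl | rfl | rfl
    ·
      rcases (by omega : c = 0 ∨ c = 1 ∨ c = 2 ∨ c = 3) with rfl | rfl | rfl | rfl
      ·
        rcases (by omega : d = 0 ∨ d = 1 ∨ d = 2 ∨ d = 3) with rfl | rfl | rfl | rfl
        ·
          rcases (by omega : e = 1 ∨ e = 2 ∨ e = 3) with rfl | rfl | rfl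
          ·
            exact t_00001
          ·
            exact t_00002
          ·
            exact t_00003
        ·
          rcases (by omega : e = 0 ∨ e = 1 ∨ e = 2) with rfl | rfl | rfl
          ·
            exact t_00010
          ·
            exact t_00011
          ·
            exact t_00012
        ·
          rcases (by omega : e = 0 ∨ e = 1) with rfl | rfl
          ·
            exact t_00020
          ·
            exact t_00021
        ·
          obtain rfl : e = 0 := by omega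
          exact t_00030
      ·
        rcases (by omega : d = 0 ∨ d = 1 ∨ d = 2) with rfl | rfl | rfl
        ·
          rcases (by omega : e = 0 ∨ e = 1 ∨ e = 2) with rfl | rfl | rfl
          ·
            exact t_00100
          ·
            exact t_00101
          ·
            exact t_00102
        ·
          rcases (by omega : e = 0 ∨ e = 1) with rfl | rfl
          ·
            exact t_00110
          ·
            exact t_00111
        ·
          obtain rfl : e = 0 := by omega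
          exact t_00120
      ·
        rcases (by omega : d = 0 ∨ d = 1) with rfl | rfl
        ·
          rcases (by omega : e = 0 ∨ e = 1) with rfl | rfl
          ·
            exact t_00200
          ·
            exact t_00201
        ·
          obtain rfl : e = 0 := by omega
          exact t_00210
      ·
        obtain rfl : d = 0 := by omega
        obtain rfl : e = 0 := by omega
        exact t_00300
    ·
      rcases (by omega : c = 0 ∨ c = 1 ∨ c = 2) with rfl | rfl | rfl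
      ·
        rcases (by omega : d = 0 ∨ d = 1 ∨ d = 2) with rfl | rfl | rfl
        ·
          rcases (by omega : e = 0 ∨ e = 1 ∨ e = 2) with rfl | rfl | rfl
          ·
            exact t_01000
          ·
            exact t_01001
          ·
            exact t_01002
        ·
          rcases (by omega : e = 0 ∨ e = 1) with rfl | rfl
          ·
            exact t_01010
          ·
            exact t_01011
        ·
          obtain rfl : e = 0 := by omega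
          exact t_01020
      ·
        rcases (by omega : d = 0 ∨ d = 1) with rfl | rfl
        ·
          rcases (by omega : e = 0 ∨ e = 1) with rfl | rfl
          ·
            exact t_01100
          ·
            exact t_01101
        ·
          obtain rfl : e = 0 := by omega
          exact t_01110
      ·
        obtain rfl : d = 0 := by omega
        obtain rfl : e = 0 := by omega
        exact t_01200
    ·
      rcases (by omega : c = 0 ∨ c = 1) with rfl | rfl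
      ·
        rcases (by omega : d = 0 ∨ d = 1) with rfl | rfl
        ·
          rcases (by omega : e = 0 ∨ e = 1) with rfl | rfl
          ·
            exact t_02000
          ·
            exact t_02001
        ·
          obtain rfl : e = 0 := by omega
          exact t_02010
      ·
        obtain rfl : d = 0 := by omega
        obtain rfl : e = 0 := by omega
        exact t_02100
    ·
      obtain rfl : c = 0 := by omega
      obtain rfl : d = 0 := by omega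
      obtain rfl : e = 0 := by omega
      exact t_03000
  ·
    rcases (by omega : b = 0 ∨ b = 1 ∨ b = 2) with rfl | rfl | rfl
    ·
      rcases (by omega : c = 0 ∨ c = 1 ∨ c = 2) with rfl | rfl | rfl
      ·
        rcases (by omega : d = 0 ∨ d = 1 ∨ d = 2) with rfl | rfl | rfl
        ·
          rcases (by omega : e = 0 ∨ e = 1 ∨ e = 2) with rfl | rfl | rfl
          ·
            exact t_10000
          ·
            exact t_10001
          ·
            exact t_10002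
        ·
          rcases (by omega : e = 0 ∨ e = 1) with rfl | rfl
          ·
            exact t_10010
          ·
            exact t_10011
        ·
          obtain rfl : e = 0 := by omega
          exact t_10020
      ·
        rcases (by omega : d = 0 ∨ d = 1) with rfl | rfl
        ·
          rcases (by omega : e = 0 ∨ e = 1) with rfl | rfl
          ·
            exact t_10100
          ·
            exact t_10101
        ·
          obtain rfl : e = 0 := by omega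
          exact t_10110
      ·
        obtain rfl : d = 0 := by omega
        obtain rfl : e = 0 := by omega
        exact t_10200
    ·
      rcases (by omega : c = 0 ∨ c = 1) with rfl | rfl
      ·
        rcases (by omega : d = 0 ∨ d = 1) with rfl | rfl
        ·
          rcases (by omega : e = 0 ∨ e = 1) with rfl | rfl
          ·
            exact t_11000
          ·
            exact t_11001
        ·
          obtain rfl : e = 0 := by omega
          exact t_11010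
      ·
        obtain rfl : d = 0 := by omega
        obtain rfl : e = 0 := by omega
        exact t_11100
    ·
      obtain rfl : c = 0 := by omega
      obtain rfl : d = 0 := by omega
      obtain rfl : e = 0 := by omega
      exact t_12000
  ·
    rcases (by omega : b = 0 ∨ b = 1) with rfl | rfl
    ·
      rcases (by omega : c = 0 ∨ c = 1) with rfl | rfl
      ·
        rcases (by omega : d = 0 ∨ d = 1) with rfl | rfl
        ·
          rcases (by omega : e = 0 ∨ e = 1) with rfl | rfl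
          ·
            exact t_20000
          ·
            exact t_20001
        ·
          obtain rfl : e = 0 := by omega
          exact t_20010
      ·
        obtain rfl : d = 0 := by omega
        obtain rfl : e = 0 := by omega
        exact t_20100
    ·
      obtain rfl : c = 0 := by omega
      obtain rfl : d = 0 := by omega
      obtain rfl : e = 0 := by omega
      exact t_21000
  ·
    obtain rfl : b = 0 := by omega
    obtain rfl : c = 0 := by omega
    obtain rfl : d = 0 := by omega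
    obtain rfl : e = 0 := by omega
    exact t_30000

lemma base5_low {u : Jet (Fin 5)} (h : Sol 4 (kT T5) u) :
    ∀ a b c d e : ℕ, 1 ≤ a + b + c + d + e → a + b + c + d + e < 4 → u (mk5 a b c d e) = 0 := by
  have e01_00000 : u (mk5 1 1 0 0 0) + u (mk5 0 0 0 1 0) = 0 := by
    have h1 := E5 h 0 0 0 0 0 (by norm_num) 0 1
    simp [Fin.sum_univ_five, kop5_00, kop5_01, kop5_02, kop5_03, kop5_04, kop5_10, kop5_11, kop5_12, kop5_13, kop5_14, kop5_20, kop5_21, kop5_22, kop5_23, kop5_24, kop5_30, kop5_31, kop5_32, kop5_33, kop5_34, kop5_40, kop5_41, kop5_42, kop5_43, kop5_44, sh_apply, mulx, mk5_cons0, mk5_cons1, mk5_cons2, mk5_cons3, mk5_cons4, mk5_count0, mk5_count1, mk5_count2, mk5_count3, mk5_count4, mk5_erase0, mk5_erase1, mk5_erase2, mk5_erase3, mk5_erase4] at h1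
    linarith
  have e02_00000 : -u (mk5 1 0 1 0 0) - u (mk5 0 0 0 1 0) = 0 := by
    have h1 := E5 h 0 0 0 0 0 (by norm_num) 0 2
    simp [Fin.sum_univ_five, kop5_00, kop5_01, kop5_02, kop5_03, kop5_04, kop5_10, kop5_11, kop5_12, kop5_13, kop5_14, kop5_20, kop5_21, kop5_22, kop5_23, kop5_24, kop5_30, kop5_31, kop5_32, kop5_33, kop5_34, kop5_40, kop5_41, kop5_42, kop5_43, kop5_44, sh_apply, mulx, mk5_cons0, mk5_cons1, mk5_cons2, mk5_cons3, mk5_cons4, mk5_count0, mk5_count1, mk5_count2, mk5_count3, mk5_count4, mk5_erase0, mk5_erase1, mk5_erase2, mk5_erase3, mk5_erase4] at h1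
    linarith
  have e03_00000 : 2 * u (mk5 1 0 0 1 0) + u (mk5 0 0 1 0 0) + 2 * u (mk5 0 1 0 0 0) = 0 := by
    have h1 := E5 h 0 0 0 0 0 (by norm_num) 0 3
    simp [Fin.sum_univ_five, kop5_00, kop5_01, kop5_02, kop5_03, kop5_04, kop5_10, kop5_11, kop5_12, kop5_13, kop5_14, kop5_20, kop5_21, kop5_22, kop5_23, kop5_24, kop5_30, kop5_31, kop5_32, kop5_33, kop5_34, kop5_40, kop5_41, kop5_42, kop5_43, kop5_44, sh_apply, mulx, mk5_cons0, mk5_cons1, mk5_cons2, mk5_cons3, mk5_cons4, mk5_count0, mk5_count1, mk5_count2, mk5_count3, mk5_count4, mk5_erase0, mk5_erase1, mk5_erase2, mk5_erase3, mk5_erase4] at h1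
    linarith
  have e04_00000 : -2 * u (mk5 1 0 0 0 1) = 0 := by
    have h1 := E5 h 0 0 0 0 0 (by norm_num) 0 4
    simp [Fin.sum_univ_five, kop5_00, kop5_01, kop5_02, kop5_03, kop5_04, kop5_10, kop5_11, kop5_12, kop5_13, kop5_14, kop5_20, kop5_21, kop5_22, kop5_23, kop5_24, kop5_30, kop5_31, kop5_32, kop5_33, kop5_34, kop5_40, kop5_41, kop5_42, kop5_43, kop5_44, sh_apply, mulx, mk5_cons0, mk5_cons1, mk5_cons2, mk5_cons3, mk5_cons4, mk5_count0, mk5_count1, mk5_count2, mk5_count3, mk5_count4, mk5_erase0, mk5_erase1, mk5_erase2, mk5_erase3, mk5_erase4] at h1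
    linarith
  have e12_00000 : -2 * u (mk5 0 1 1 0 0) = 0 := by
    have h1 := E5 h 0 0 0 0 0 (by norm_num) 1 2
    simp [Fin.sum_univ_five, kop5_00, kop5_01, kop5_02, kop5_03, kop5_04, kop5_10, kop5_11, kop5_12, kop5_13, kop5_14, kop5_20, kop5_21, kop5_22, kop5_23, kop5_24, kop5_30, kop5_31, kop5_32, kop5_33, kop5_34, kop5_40, kop5_41, kop5_42, kop5_43, kop5_44, sh_apply, mulx, mk5_cons0, mk5_cons1, mk5_cons2, mk5_cons3, mk5_cons4, mk5_count0, mk5_count1, mk5_count2, mk5_count3, mk5_count4, mk5_erase0, mk5_erase1, mk5_erase2, mk5_erase3, mk5_erase4] at h1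
    linarith
  have e13_00000 : u (mk5 0 1 0 1 0) + u (mk5 0 0 0 0 1) + u (mk5 1 0 0 0 0) = 0 := by
    have h1 := E5 h 0 0 0 0 0 (by norm_num) 1 3
    simp [Fin.sum_univ_five, kop5_00, kop5_01, kop5_02, kop5_03, kop5_04, kop5_10, kop5_11, kop5_12, kop5_13, kop5_14, kop5_20, kop5_21, kop5_22, kop5_23, kop5_24, kop5_30, kop5_31, kop5_32, kop5_33, kop5_34, kop5_40, kop5_41, kop5_42, kop5_43, kop5_44, sh_apply, mulx, mk5_cons0, mk5_cons1, mk5_cons2, mk5_cons3, mk5_cons4, mk5_count0, mk5_count1, mk5_count2, mk5_count3, mk5_count4, mk5_erase0, mk5_erase1, mk5_erase2, mk5_erase3, mk5_erase4] at h1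
    linarith
  have e14_00000 : -3 * u (mk5 0 1 0 0 1) - u (mk5 0 0 0 1 0) = 0 := by
    have h1 := E5 h 0 0 0 0 0 (by norm_num) 1 4
    simp [Fin.sum_univ_five, kop5_00, kop5_01, kop5_02, kop5_03, kop5_04, kop5_10, kop5_11, kop5_12, kop5_13, kop5_14, kop5_20, kop5_21, kop5_22, kop5_23, kop5_24, kop5_30, kop5_31, kop5_32, kop5_33, kop5_34, kop5_40, kop5_41, kop5_42, kop5_43, kop5_44, sh_apply, mulx, mk5_cons0, mk5_cons1, mk5_cons2, mk5_cons3, mk5_cons4, mk5_count0, mk5_count1, mk5_count2, mk5_count3, mk5_count4, mk5_erase0, mk5_erase1, mk5_erase2, mk5_erase3, mk5_erase4] at h1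
    linarith
  have e23_00000 : 3 * u (mk5 0 0 1 1 0) + 2 * u (mk5 1 0 0 0 0) = 0 := by
    have h1 := E5 h 0 0 0 0 0 (by norm_num) 2 3
    simp [Fin.sum_univ_five, kop5_00, kop5_01, kop5_02, kop5_03, kop5_04, kop5_10, kop5_11, kop5_12, kop5_13, kop5_14, kop5_20, kop5_21, kop5_22, kop5_23, kop5_24, kop5_30, kop5_31, kop5_32, kop5_33, kop5_34, kop5_40, kop5_41, kop5_42, kop5_43, kop5_44, sh_apply, mulx, mk5_cons0, mk5_cons1, mk5_cons2, mk5_cons3, mk5_cons4, mk5_count0, mk5_count1, mk5_count2, mk5_count3, mk5_count4, mk5_erase0, mk5_erase1, mk5_erase2, mk5_erase3, mk5_erase4] at h1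
    linarith
  have e24_00000 : -u (mk5 0 0 1 0 1) = 0 := by
    have h1 := E5 h 0 0 0 0 0 (by norm_num) 2 4
    simp [Fin.sum_univ_five, kop5_00, kop5_01, kop5_02, kop5_03, kop5_04, kop5_10, kop5_11, kop5_12, kop5_13, kop5_14, kop5_20, kop5_21, kop5_22, kop5_23, kop5_24, kop5_30, kop5_31, kop5_32, kop5_33, kop5_34, kop5_40, kop5_41, kop5_42, kop5_43, kop5_44, sh_apply, mulx, mk5_cons0, mk5_cons1, mk5_cons2, mk5_cons3, mk5_cons4, mk5_count0, mk5_count1, mk5_count2, mk5_count3, mk5_count4, mk5_erase0, mk5_erase1, mk5_erase2, mk5_erase3, mk5_erase4] at h1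
    linarith
  have e34_00000 : -4 * u (mk5 0 0 0 1 1) - 2 * u (mk5 0 1 0 0 0) = 0 := by
    have h1 := E5 h 0 0 0 0 0 (by norm_num) 3 4
    simp [Fin.sum_univ_five, kop5_00, kop5_01, kop5_02, kop5_03, kop5_04, kop5_10, kop5_11, kop5_12, kop5_13, kop5_14, kop5_20, kop5_21, kop5_22, kop5_23, kop5_24, kop5_30, kop5_31, kop5_32, kop5_33, kop5_34, kop5_40, kop5_41, kop5_42, kop5_43, kop5_44, sh_apply, mulx, mk5_cons0, mk5_cons1, mk5_cons2, mk5_cons3, mk5_cons4, mk5_count0, mk5_count1, mk5_count2, mk5_count3, mk5_count4, mk5_erase0, mk5_erase1, mk5_erase2, mk5_erase3, mk5_erase4] at h1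
    linarith
  have e01_10000 : u (mk5 2 1 0 0 0) + 2 * u (mk5 1 0 0 1 0) = 0 := by
    have h1 := E5 h 1 0 0 0 0 (by norm_num) 0 1
    simp [Fin.sum_univ_five, kop5_00, kop5_01, kop5_02, kop5_03, kop5_04, kop5_10, kop5_11, kop5_12, kop5_13, kop5_14, kop5_20, kop5_21, kop5_22, kop5_23, kop5_24, kop5_30, kop5_31, kop5_32, kop5_33, kop5_34, kop5_40, kop5_41, kop5_42, kop5_43, kop5_44, sh_apply, mulx, mk5_cons0, mk5_cons1, mk5_cons2, mk5_cons3, mk5_cons4, mk5_count0, mk5_count1, mk5_count2, mk5_count3, mk5_count4, mk5_erase0, mk5_erase1, mk5_erase2, mk5_erase3, mk5_erase4] at h1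
    linarith
  have e02_10000 : -u (mk5 2 0 1 0 0) - u (mk5 1 0 0 1 0) = 0 := by
    have h1 := E5 h 1 0 0 0 0 (by norm_num) 0 2
    simp [Fin.sum_univ_five, kop5_00, kop5_01, kop5_02, kop5_03, kop5_04, kop5_10, kop5_11, kop5_12, kop5_13, kop5_14, kop5_20, kop5_21, kop5_22, kop5_23, kop5_24, kop5_30, kop5_31, kop5_32, kop5_33, kop5_34, kop5_40, kop5_41, kop5_42, kop5_43, kop5_44, sh_apply, mulx, mk5_cons0, mk5_cons1, mk5_cons2, mk5_cons3, mk5_cons4, mk5_count0, mk5_count1, mk5_count2, mk5_count3, mk5_count4, mk5_erase0, mk5_erase1, mk5_erase2, mk5_erase3, mk5_erase4] at h1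
    linarith
  have e03_10000 : 2 * u (mk5 2 0 0 1 0) + u (mk5 1 0 1 0 0) + 3 * u (mk5 1 1 0 0 0) = 0 := by
    have h1 := E5 h 1 0 0 0 0 (by norm_num) 0 3
    simp [Fin.sum_univ_five, kop5_00, kop5_01, kop5_02, kop5_03, kop5_04, kop5_10, kop5_11, kop5_12, kop5_13, kop5_14, kop5_20, kop5_21, kop5_22, kop5_23, kop5_24, kop5_30, kop5_31, kop5_32, kop5_33, kop5_34, kop5_40, kop5_41, kop5_42, kop5_43, kop5_44, sh_apply, mulx, mk5_cons0, mk5_cons1, mk5_cons2, mk5_cons3, mk5_cons4, mk5_count0, mk5_count1, mk5_count2, mk5_count3, mk5_count4, mk5_erase0, mk5_erase1, mk5_erase2, mk5_erase3, mk5_erase4] at h1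
    linarith
  have e04_10000 : -2 * u (mk5 2 0 0 0 1) = 0 := by
    have h1 := E5 h 1 0 0 0 0 (by norm_num) 0 4
    simp [Fin.sum_univ_five, kop5_00, kop5_01, kop5_02, kop5_03, kop5_04, kop5_10, kop5_11, kop5_12, kop5_13, kop5_14, kop5_20, kop5_21, kop5_22, kop5_23, kop5_24, kop5_30, kop5_31, kop5_32, kop5_33, kop5_34, kop5_40, kop5_41, kop5_42, kop5_43, kop5_44, sh_apply, mulx, mk5_cons0, mk5_cons1, mk5_cons2, mk5_cons3, mk5_cons4, mk5_count0, mk5_count1, mk5_count2, mk5_count3, mk5_count4, mk5_erase0, mk5_erase1, mk5_erase2, mk5_erase3, mk5_erase4] at h1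
    linarith
  have e12_10000 : -2 * u (mk5 1 1 1 0 0) - u (mk5 0 0 1 1 0) = 0 := by
    have h1 := E5 h 1 0 0 0 0 (by norm_num) 1 2
    simp [Fin.sum_univ_five, kop5_00, kop5_01, kop5_02, kop5_03, kop5_04, kop5_10, kop5_11, kop5_12, kop5_13, kop5_14, kop5_20, kop5_21, kop5_22, kop5_23, kop5_24, kop5_30, kop5_31, kop5_32, kop5_33, kop5_34, kop5_40, kop5_41, kop5_42, kop5_43, kop5_44, sh_apply, mulx, mk5_cons0, mk5_cons1, mk5_cons2, mk5_cons3, mk5_cons4, mk5_count0, mk5_count1, mk5_count2, mk5_count3, mk5_count4, mk5_erase0, mk5_erase1, mk5_erase2, mk5_erase3, mk5_erase4] at h1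
    linarith
  have e13_10000 : u (mk5 1 1 0 1 0) - u (mk5 0 0 0 2 0) + u (mk5 0 2 0 0 0) + u (mk5 1 0 0 0 1) + u (mk5 2 0 0 0 0) = 0 := by
    have h1 := E5 h 1 0 0 0 0 (by norm_num) 1 3
    simp [Fin.sum_univ_five, kop5_00, kop5_01, kop5_02, kop5_03, kop5_04, kop5_10, kop5_11, kop5_12, kop5_13, kop5_14, kop5_20, kop5_21, kop5_22, kop5_23, kop5_24, kop5_30, kop5_31, kop5_32, kop5_33, kop5_34, kop5_40, kop5_41, kop5_42, kop5_43, kop5_44, sh_apply, mulx, mk5_cons0, mk5_cons1, mk5_cons2, mk5_cons3, mk5_cons4, mk5_count0, mk5_count1, mk5_count2, mk5_count3, mk5_count4, mk5_erase0, mk5_erase1, mk5_erase2, mk5_erase3, mk5_erase4] at h1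
    linarith
  have e14_10000 : -3 * u (mk5 1 1 0 0 1) - u (mk5 0 0 0 1 1) - u (mk5 1 0 0 1 0) = 0 := by
    have h1 := E5 h 1 0 0 0 0 (by norm_num) 1 4
    simp [Fin.sum_univ_five, kop5_00, kop5_01, kop5_02, kop5_03, kop5_04, kop5_10, kop5_11, kop5_12, kop5_13, kop5_14, kop5_20, kop5_21, kop5_22, kop5_23, kop5_24, kop5_30, kop5_31, kop5_32, kop5_33, kop5_34, kop5_40, kop5_41, kop5_42, kop5_43, kop5_44, sh_apply, mulx, mk5_cons0, mk5_cons1, mk5_cons2, mk5_cons3, mk5_cons4, mk5_count0, mk5_count1, mk5_count2, mk5_count3, mk5_count4, mk5_erase0, mk5_erase1, mk5_erase2, mk5_erase3, mk5_erase4] at h1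
    linarith
  have e23_10000 : 3 * u (mk5 1 0 1 1 0) + u (mk5 0 1 1 0 0) + 2 * u (mk5 2 0 0 0 0) = 0 := by
    have h1 := E5 h 1 0 0 0 0 (by norm_num) 2 3
    simp [Fin.sum_univ_five, kop5_00, kop5_01, kop5_02, kop5_03, kop5_04, kop5_10, kop5_11, kop5_12, kop5_13, kop5_14, kop5_20, kop5_21, kop5_22, kop5_23, kop5_24, kop5_30, kop5_31, kop5_32, kop5_33, kop5_34, kop5_40, kop5_41, kop5_42, kop5_43, kop5_44, sh_apply, mulx, mk5_cons0, mk5_cons1, mk5_cons2, mk5_cons3, mk5_cons4, mk5_count0, mk5_count1, mk5_count2, mk5_count3, mk5_count4, mk5_erase0, mk5_erase1, mk5_erase2, mk5_erase3, mk5_erase4] at h1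
    linarith
  have e24_10000 : -u (mk5 1 0 1 0 1) = 0 := by
    have h1 := E5 h 1 0 0 0 0 (by norm_num) 2 4
    simp [Fin.sum_univ_five, kop5_00, kop5_01, kop5_02, kop5_03, kop5_04, kop5_10, kop5_11, kop5_12, kop5_13, kop5_14, kop5_20, kop5_21, kop5_22, kop5_23, kop5_24, kop5_30, kop5_31, kop5_32, kop5_33, kop5_34, kop5_40, kop5_41, kop5_42, kop5_43, kop5_44, sh_apply, mulx, mk5_cons0, mk5_cons1, mk5_cons2, mk5_cons3, mk5_cons4, mk5_count0, mk5_count1, mk5_count2, mk5_count3, mk5_count4, mk5_erase0, mk5_erase1, mk5_erase2, mk5_erase3, mk5_erase4] at h1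
    linarith
  have e01_01000 : u (mk5 1 2 0 0 0) + u (mk5 0 1 0 1 0) = 0 := by
    have h1 := E5 h 0 1 0 0 0 (by norm_num) 0 1
    simp [Fin.sum_univ_five, kop5_00, kop5_01, kop5_02, kop5_03, kop5_04, kop5_10, kop5_11, kop5_12, kop5_13, kop5_14, kop5_20, kop5_21, kop5_22, kop5_23, kop5_24, kop5_30, kop5_31, kop5_32, kop5_33, kop5_34, kop5_40, kop5_41, kop5_42, kop5_43, kop5_44, sh_apply, mulx, mk5_cons0, mk5_cons1, mk5_cons2, mk5_cons3, mk5_cons4, mk5_count0, mk5_count1, mk5_count2, mk5_count3, mk5_count4, mk5_erase0, mk5_erase1, mk5_erase2, mk5_erase3, mk5_erase4] at h1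
    linarith
  have e02_01000 : -u (mk5 1 1 1 0 0) - u (mk5 0 1 0 1 0) = 0 := by
    have h1 := E5 h 0 1 0 0 0 (by norm_num) 0 2
    simp [Fin.sum_univ_five, kop5_00, kop5_01, kop5_02, kop5_03, kop5_04, kop5_10, kop5_11, kop5_12, kop5_13, kop5_14, kop5_20, kop5_21, kop5_22, kop5_23, kop5_24, kop5_30, kop5_31, kop5_32, kop5_33, kop5_34, kop5_40, kop5_41, kop5_42, kop5_43, kop5_44, sh_apply, mulx, mk5_cons0, mk5_cons1, mk5_cons2, mk5_cons3, mk5_cons4, mk5_count0, mk5_count1, mk5_count2, mk5_count3, mk5_count4, mk5_erase0, mk5_erase1, mk5_erase2, mk5_erase3, mk5_erase4] at h1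
    linarith
  have e03_01000 : 2 * u (mk5 1 1 0 1 0) + u (mk5 0 1 1 0 0) + 2 * u (mk5 0 2 0 0 0) = 0 := by
    have h1 := E5 h 0 1 0 0 0 (by norm_num) 0 3
    simp [Fin.sum_univ_five, kop5_00, kop5_01, kop5_02, kop5_03, kop5_04, kop5_10, kop5_11, kop5_12, kop5_13, kop5_14, kop5_20, kop5_21, kop5_22, kop5_23, kop5_24, kop5_30, kop5_31, kop5_32, kop5_33, kop5_34, kop5_40, kop5_41, kop5_42, kop5_43, kop5_44, sh_apply, mulx, mk5_cons0, mk5_cons1, mk5_cons2, mk5_cons3, mk5_cons4, mk5_count0, mk5_count1, mk5_count2, mk5_count3, mk5_count4, mk5_erase0, mk5_erase1, mk5_erase2, mk5_erase3, mk5_erase4] at h1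
    linarith
  have e04_01000 : -2 * u (mk5 1 1 0 0 1) = 0 := by
    have h1 := E5 h 0 1 0 0 0 (by norm_num) 0 4
    simp [Fin.sum_univ_five, kop5_00, kop5_01, kop5_02, kop5_03, kop5_04, kop5_10, kop5_11, kop5_12, kop5_13, kop5_14, kop5_20, kop5_21, kop5_22, kop5_23, kop5_24, kop5_30, kop5_31, kop5_32, kop5_33, kop5_34, kop5_40, kop5_41, kop5_42, kop5_43, kop5_44, sh_apply, mulx, mk5_cons0, mk5_cons1, mk5_cons2, mk5_cons3, mk5_cons4, mk5_count0, mk5_count1, mk5_count2, mk5_count3, mk5_count4, mk5_erase0, mk5_erase1, mk5_erase2, mk5_erase3, mk5_erase4] at h1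
    linarith
  have e12_01000 : -2 * u (mk5 0 2 1 0 0) = 0 := by
    have h1 := E5 h 0 1 0 0 0 (by norm_num) 1 2
    simp [Fin.sum_univ_five, kop5_00, kop5_01, kop5_02, kop5_03, kop5_04, kop5_10, kop5_11, kop5_12, kop5_13, kop5_14, kop5_20, kop5_21, kop5_22, kop5_23, kop5_24, kop5_30, kop5_31, kop5_32, kop5_33, kop5_34, kop5_40, kop5_41, kop5_42, kop5_43, kop5_44, sh_apply, mulx, mk5_cons0, mk5_cons1, mk5_cons2, mk5_cons3, mk5_cons4, mk5_count0, mk5_count1, mk5_count2, mk5_count3, mk5_count4, mk5_erase0, mk5_erase1, mk5_erase2, mk5_erase3, mk5_erase4] at h1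
    linarith
  have e13_01000 : u (mk5 0 2 0 1 0) + u (mk5 0 1 0 0 1) + u (mk5 1 1 0 0 0) = 0 := by
    have h1 := E5 h 0 1 0 0 0 (by norm_num) 1 3
    simp [Fin.sum_univ_five, kop5_00, kop5_01, kop5_02, kop5_03, kop5_04, kop5_10, kop5_11, kop5_12, kop5_13, kop5_14, kop5_20, kop5_21, kop5_22, kop5_23, kop5_24, kop5_30, kop5_31, kop5_32, kop5_33, kop5_34, kop5_40, kop5_41, kop5_42, kop5_43, kop5_44, sh_apply, mulx, mk5_cons0, mk5_cons1, mk5_cons2, mk5_cons3, mk5_cons4, mk5_count0, mk5_count1, mk5_count2, mk5_count3, mk5_count4, mk5_erase0, mk5_erase1, mk5_erase2, mk5_erase3, mk5_erase4] at h1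
    linarith
  have e14_01000 : -3 * u (mk5 0 2 0 0 1) - u (mk5 0 1 0 1 0) = 0 := by
    have h1 := E5 h 0 1 0 0 0 (by norm_num) 1 4
    simp [Fin.sum_univ_five, kop5_00, kop5_01, kop5_02, kop5_03, kop5_04, kop5_10, kop5_11, kop5_12, kop5_13, kop5_14, kop5_20, kop5_21, kop5_22, kop5_23, kop5_24, kop5_30, kop5_31, kop5_32, kop5_33, kop5_34, kop5_40, kop5_41, kop5_42, kop5_43, kop5_44, sh_apply, mulx, mk5_cons0, mk5_cons1, mk5_cons2, mk5_cons3, mk5_cons4, mk5_count0, mk5_count1, mk5_count2, mk5_count3, mk5_count4, mk5_erase0, mk5_erase1, mk5_erase2, mk5_erase3, mk5_erase4] at h1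
    linarith
  have e24_01000 : -u (mk5 0 1 1 0 1) = 0 := by
    have h1 := E5 h 0 1 0 0 0 (by norm_num) 2 4
    simp [Fin.sum_univ_five, kop5_00, kop5_01, kop5_02, kop5_03, kop5_04, kop5_10, kop5_11, kop5_12, kop5_13, kop5_14, kop5_20, kop5_21, kop5_22, kop5_23, kop5_24, kop5_30, kop5_31, kop5_32, kop5_33, kop5_34, kop5_40, kop5_41, kop5_42, kop5_43, kop5_44, sh_apply, mulx, mk5_cons0, mk5_cons1, mk5_cons2, mk5_cons3, mk5_cons4, mk5_count0, mk5_count1, mk5_count2, mk5_count3, mk5_count4, mk5_erase0, mk5_erase1, mk5_erase2, mk5_erase3, mk5_erase4] at h1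
    linarith
  have e34_01000 : -4 * u (mk5 0 1 0 1 1) - 2 * u (mk5 0 2 0 0 0) = 0 := by
    have h1 := E5 h 0 1 0 0 0 (by norm_num) 3 4
    simp [Fin.sum_univ_five, kop5_00, kop5_01, kop5_02, kop5_03, kop5_04, kop5_10, kop5_11, kop5_12, kop5_13, kop5_14, kop5_20, kop5_21, kop5_22, kop5_23, kop5_24, kop5_30, kop5_31, kop5_32, kop5_33, kop5_34, kop5_40, kop5_41, kop5_42, kop5_43, kop5_44, sh_apply, mulx, mk5_cons0, mk5_cons1, mk5_cons2, mk5_cons3, mk5_cons4, mk5_count0, mk5_count1, mk5_count2, mk5_count3, mk5_count4, mk5_erase0, mk5_erase1, mk5_erase2, mk5_erase3, mk5_erase4] at h1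
    linarith
  have e02_00100 : -u (mk5 1 0 2 0 0) - 2 * u (mk5 0 0 1 1 0) = 0 := by
    have h1 := E5 h 0 0 1 0 0 (by norm_num) 0 2
    simp [Fin.sum_univ_five, kop5_00, kop5_01, kop5_02, kop5_03, kop5_04, kop5_10, kop5_11, kop5_12, kop5_13, kop5_14, kop5_20, kop5_21, kop5_22, kop5_23, kop5_24, kop5_30, kop5_31, kop5_32, kop5_33, kop5_34, kop5_40, kop5_41, kop5_42, kop5_43, kop5_44, sh_apply, mulx, mk5_cons0, mk5_cons1, mk5_cons2, mk5_cons3, mk5_cons4, mk5_count0, mk5_count1, mk5_count2, mk5_count3, mk5_count4, mk5_erase0, mk5_erase1, mk5_erase2, mk5_erase3, mk5_erase4] at h1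
    linarith
  have e03_00100 : 2 * u (mk5 1 0 1 1 0) - u (mk5 0 0 0 2 0) + u (mk5 0 0 2 0 0) + 2 * u (mk5 0 1 1 0 0) + u (mk5 2 0 0 0 0) = 0 := by
    have h1 := E5 h 0 0 1 0 0 (by norm_num) 0 3
    simp [Fin.sum_univ_five, kop5_00, kop5_01, kop5_02, kop5_03, kop5_04, kop5_10, kop5_11, kop5_12, kop5_13, kop5_14, kop5_20, kop5_21, kop5_22, kop5_23, kop5_24, kop5_30, kop5_31, kop5_32, kop5_33, kop5_34, kop5_40, kop5_41, kop5_42, kop5_43, kop5_44, sh_apply, mulx, mk5_cons0, mk5_cons1, mk5_cons2, mk5_cons3, mk5_cons4, mk5_count0, mk5_count1, mk5_count2, mk5_count3, mk5_count4, mk5_erase0, mk5_erase1, mk5_erase2, mk5_erase3, mk5_erase4] at h1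
    linarith
  have e04_00100 : -2 * u (mk5 1 0 1 0 1) - u (mk5 0 0 0 1 1) = 0 := by
    have h1 := E5 h 0 0 1 0 0 (by norm_num) 0 4
    simp [Fin.sum_univ_five, kop5_00, kop5_01, kop5_02, kop5_03, kop5_04, kop5_10, kop5_11, kop5_12, kop5_13, kop5_14, kop5_20, kop5_21, kop5_22, kop5_23, kop5_24, kop5_30, kop5_31, kop5_32, kop5_33, kop5_34, kop5_40, kop5_41, kop5_42, kop5_43, kop5_44, sh_apply, mulx, mk5_cons0, mk5_cons1, mk5_cons2, mk5_cons3, mk5_cons4, mk5_count0, mk5_count1, mk5_count2, mk5_count3, mk5_count4, mk5_erase0, mk5_erase1, mk5_erase2, mk5_erase3, mk5_erase4] at h1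
    linarith
  have e12_00100 : -2 * u (mk5 0 1 2 0 0) = 0 := by
    have h1 := E5 h 0 0 1 0 0 (by norm_num) 1 2
    simp [Fin.sum_univ_five, kop5_00, kop5_01, kop5_02, kop5_03, kop5_04, kop5_10, kop5_11, kop5_12, kop5_13, kop5_14, kop5_20, kop5_21, kop5_22, kop5_23, kop5_24, kop5_30, kop5_31, kop5_32, kop5_33, kop5_34, kop5_40, kop5_41, kop5_42, kop5_43, kop5_44, sh_apply, mulx, mk5_cons0, mk5_cons1, mk5_cons2, mk5_cons3, mk5_cons4, mk5_count0, mk5_count1, mk5_count2, mk5_count3, mk5_count4, mk5_erase0, mk5_erase1, mk5_erase2, mk5_erase3, mk5_erase4] at h1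
    linarith
  have e14_00100 : -3 * u (mk5 0 1 1 0 1) - u (mk5 0 0 1 1 0) = 0 := by
    have h1 := E5 h 0 0 1 0 0 (by norm_num) 1 4
    simp [Fin.sum_univ_five, kop5_00, kop5_01, kop5_02, kop5_03, kop5_04, kop5_10, kop5_11, kop5_12, kop5_13, kop5_14, kop5_20, kop5_21, kop5_22, kop5_23, kop5_24, kop5_30, kop5_31, kop5_32, kop5_33, kop5_34, kop5_40, kop5_41, kop5_42, kop5_43, kop5_44, sh_apply, mulx, mk5_cons0, mk5_cons1, mk5_cons2, mk5_cons3, mk5_cons4, mk5_count0, mk5_count1, mk5_count2, mk5_count3, mk5_count4, mk5_erase0, mk5_erase1, mk5_erase2, mk5_erase3, mk5_erase4] at h1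
    linarith
  have e24_00100 : -u (mk5 0 0 2 0 1) = 0 := by
    have h1 := E5 h 0 0 1 0 0 (by norm_num) 2 4
    simp [Fin.sum_univ_five, kop5_00, kop5_01, kop5_02, kop5_03, kop5_04, kop5_10, kop5_11, kop5_12, kop5_13, kop5_14, kop5_20, kop5_21, kop5_22, kop5_23, kop5_24, kop5_30, kop5_31, kop5_32, kop5_33, kop5_34, kop5_40, kop5_41, kop5_42, kop5_43, kop5_44, sh_apply, mulx, mk5_cons0, mk5_cons1, mk5_cons2, mk5_cons3, mk5_cons4, mk5_count0, mk5_count1, mk5_count2, mk5_count3, mk5_count4, mk5_erase0, mk5_erase1, mk5_erase2, mk5_erase3, mk5_erase4] at h1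
    linarith
  have e03_00010 : 2 * u (mk5 1 0 0 2 0) + 2 * u (mk5 0 0 1 1 0) + 3 * u (mk5 0 1 0 1 0) = 0 := by
    have h1 := E5 h 0 0 0 1 0 (by norm_num) 0 3
    simp [Fin.sum_univ_five, kop5_00, kop5_01, kop5_02, kop5_03, kop5_04, kop5_10, kop5_11, kop5_12, kop5_13, kop5_14, kop5_20, kop5_21, kop5_22, kop5_23, kop5_24, kop5_30, kop5_31, kop5_32, kop5_33, kop5_34, kop5_40, kop5_41, kop5_42, kop5_43, kop5_44, sh_apply, mulx, mk5_cons0, mk5_cons1, mk5_cons2, mk5_cons3, mk5_cons4, mk5_count0, mk5_count1, mk5_count2, mk5_count3, mk5_count4, mk5_erase0, mk5_erase1, mk5_erase2, mk5_erase3, mk5_erase4] at h1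
    linarith
  have e13_00010 : u (mk5 0 1 0 2 0) + 2 * u (mk5 0 0 0 1 1) + 2 * u (mk5 1 0 0 1 0) = 0 := by
    have h1 := E5 h 0 0 0 1 0 (by norm_num) 1 3
    simp [Fin.sum_univ_five, kop5_00, kop5_01, kop5_02, kop5_03, kop5_04, kop5_10, kop5_11, kop5_12, kop5_13, kop5_14, kop5_20, kop5_21, kop5_22, kop5_23, kop5_24, kop5_30, kop5_31, kop5_32, kop5_33, kop5_34, kop5_40, kop5_41, kop5_42, kop5_43, kop5_44, sh_apply, mulx, mk5_cons0, mk5_cons1, mk5_cons2, mk5_cons3, mk5_cons4, mk5_count0, mk5_count1, mk5_count2, mk5_count3, mk5_count4, mk5_erase0, mk5_erase1, mk5_erase2, mk5_erase3, mk5_erase4] at h1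
    linarith
  have e14_00010 : -3 * u (mk5 0 1 0 1 1) + u (mk5 0 0 0 0 2) - u (mk5 0 0 0 2 0) - u (mk5 0 2 0 0 0) + u (mk5 1 0 0 0 1) = 0 := by
    have h1 := E5 h 0 0 0 1 0 (by norm_num) 1 4
    simp [Fin.sum_univ_five, kop5_00, kop5_01, kop5_02, kop5_03, kop5_04, kop5_10, kop5_11, kop5_12, kop5_13, kop5_14, kop5_20, kop5_21, kop5_22, kop5_23, kop5_24, kop5_30, kop5_31, kop5_32, kop5_33, kop5_34, kop5_40, kop5_41, kop5_42, kop5_43, kop5_44, sh_apply, mulx, mk5_cons0, mk5_cons1, mk5_cons2, mk5_cons3, mk5_cons4, mk5_count0, mk5_count1, mk5_count2, mk5_count3, mk5_count4, mk5_erase0, mk5_erase1, mk5_erase2, mk5_erase3, mk5_erase4] at h1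
    linarith
  have e23_00010 : 3 * u (mk5 0 0 1 2 0) + 3 * u (mk5 1 0 0 1 0) = 0 := by
    have h1 := E5 h 0 0 0 1 0 (by norm_num) 2 3
    simp [Fin.sum_univ_five, kop5_00, kop5_01, kop5_02, kop5_03, kop5_04, kop5_10, kop5_11, kop5_12, kop5_13, kop5_14, kop5_20, kop5_21, kop5_22, kop5_23, kop5_24, kop5_30, kop5_31, kop5_32, kop5_33, kop5_34, kop5_40, kop5_41, kop5_42, kop5_43, kop5_44, sh_apply, mulx, mk5_cons0, mk5_cons1, mk5_cons2, mk5_cons3, mk5_cons4, mk5_count0, mk5_count1, mk5_count2, mk5_count3, mk5_count4, mk5_erase0, mk5_erase1, mk5_erase2, mk5_erase3, mk5_erase4] at h1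
    linarith
  have e34_00010 : -4 * u (mk5 0 0 0 2 1) - 3 * u (mk5 0 1 0 1 0) = 0 := by
    have h1 := E5 h 0 0 0 1 0 (by norm_num) 3 4
    simp [Fin.sum_univ_five, kop5_00, kop5_01, kop5_02, kop5_03, kop5_04, kop5_10, kop5_11, kop5_12, kop5_13, kop5_14, kop5_20, kop5_21, kop5_22, kop5_23, kop5_24, kop5_30, kop5_31, kop5_32, kop5_33, kop5_34, kop5_40, kop5_41, kop5_42, kop5_43, kop5_44, sh_apply, mulx, mk5_cons0, mk5_cons1, mk5_cons2, mk5_cons3, mk5_cons4, mk5_count0, mk5_count1, mk5_count2, mk5_count3, mk5_count4, mk5_erase0, mk5_erase1, mk5_erase2, mk5_erase3, mk5_erase4] at h1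
    linarith
  have e04_00001 : -2 * u (mk5 1 0 0 0 2) = 0 := by
    have h1 := E5 h 0 0 0 0 1 (by norm_num) 0 4
    simp [Fin.sum_univ_five, kop5_00, kop5_01, kop5_02, kop5_03, kop5_04, kop5_10, kop5_11, kop5_12, kop5_13, kop5_14, kop5_20, kop5_21, kop5_22, kop5_23, kop5_24, kop5_30, kop5_31, kop5_32, kop5_33, kop5_34, kop5_40, kop5_41, kop5_42, kop5_43, kop5_44, sh_apply, mulx, mk5_cons0, mk5_cons1, mk5_cons2, mk5_cons3, mk5_cons4, mk5_count0, mk5_count1, mk5_count2, mk5_count3, mk5_count4, mk5_erase0, mk5_erase1, mk5_erase2, mk5_erase3, mk5_erase4] at h1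
    linarith
  have e14_00001 : -3 * u (mk5 0 1 0 0 2) - 2 * u (mk5 0 0 0 1 1) = 0 := by
    have h1 := E5 h 0 0 0 0 1 (by norm_num) 1 4
    simp [Fin.sum_univ_five, kop5_00, kop5_01, kop5_02, kop5_03, kop5_04, kop5_10, kop5_11, kop5_12, kop5_13, kop5_14, kop5_20, kop5_21, kop5_22, kop5_23, kop5_24, kop5_30, kop5_31, kop5_32, kop5_33, kop5_34, kop5_40, kop5_41, kop5_42, kop5_43, kop5_44, sh_apply, mulx, mk5_cons0, mk5_cons1, mk5_cons2, mk5_cons3, mk5_cons4, mk5_count0, mk5_count1, mk5_count2, mk5_count3, mk5_count4, mk5_erase0, mk5_erase1, mk5_erase2, mk5_erase3, mk5_erase4] at h1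
    linarith
  have e24_00001 : -u (mk5 0 0 1 0 2) = 0 := by
    have h1 := E5 h 0 0 0 0 1 (by norm_num) 2 4
    simp [Fin.sum_univ_five, kop5_00, kop5_01, kop5_02, kop5_03, kop5_04, kop5_10, kop5_11, kop5_12, kop5_13, kop5_14, kop5_20, kop5_21, kop5_22, kop5_23, kop5_24, kop5_30, kop5_31, kop5_32, kop5_33, kop5_34, kop5_40, kop5_41, kop5_42, kop5_43, kop5_44, sh_apply, mulx, mk5_cons0, mk5_cons1, mk5_cons2, mk5_cons3, mk5_cons4, mk5_count0, mk5_count1, mk5_count2, mk5_count3, mk5_count4, mk5_erase0, mk5_erase1, mk5_erase2, mk5_erase3, mk5_erase4] at h1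
    linarith
  have e34_00001 : -4 * u (mk5 0 0 0 1 2) - 3 * u (mk5 0 1 0 0 1) = 0 := by
    have h1 := E5 h 0 0 0 0 1 (by norm_num) 3 4
    simp [Fin.sum_univ_five, kop5_00, kop5_01, kop5_02, kop5_03, kop5_04, kop5_10, kop5_11, kop5_12, kop5_13, kop5_14, kop5_20, kop5_21, kop5_22, kop5_23, kop5_24, kop5_30, kop5_31, kop5_32, kop5_33, kop5_34, kop5_40, kop5_41, kop5_42, kop5_43, kop5_44, sh_apply, mulx, mk5_cons0, mk5_cons1, mk5_cons2, mk5_cons3, mk5_cons4, mk5_count0, mk5_count1, mk5_count2, mk5_count3, mk5_count4, mk5_erase0, mk5_erase1, mk5_erase2, mk5_erase3, mk5_erase4] at h1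
    linarith
  have e12_20000 : -2 * u (mk5 2 1 1 0 0) - 2 * u (mk5 1 0 1 1 0) = 0 := by
    have h1 := E5 h 2 0 0 0 0 (by norm_num) 1 2
    simp [Fin.sum_univ_five, kop5_00, kop5_01, kop5_02, kop5_03, kop5_04, kop5_10, kop5_11, kop5_12, kop5_13, kop5_14, kop5_20, kop5_21, kop5_22, kop5_23, kop5_24, kop5_30, kop5_31, kop5_32, kop5_33, kop5_34, kop5_40, kop5_41, kop5_42, kop5_43, kop5_44, sh_apply, mulx, mk5_cons0, mk5_cons1, mk5_cons2, mk5_cons3, mk5_cons4, mk5_count0, mk5_count1, mk5_count2, mk5_count3, mk5_count4, mk5_erase0, mk5_erase1, mk5_erase2, mk5_erase3, mk5_erase4] at h1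
    linarith
  have e23_20000 : 3 * u (mk5 2 0 1 1 0) + 2 * u (mk5 1 1 1 0 0) + 2 * u (mk5 3 0 0 0 0) = 0 := by
    have h1 := E5 h 2 0 0 0 0 (by norm_num) 2 3
    simp [Fin.sum_univ_five, kop5_00, kop5_01, kop5_02, kop5_03, kop5_04, kop5_10, kop5_11, kop5_12, kop5_13, kop5_14, kop5_20, kop5_21, kop5_22, kop5_23, kop5_24, kop5_30, kop5_31, kop5_32, kop5_33, kop5_34, kop5_40, kop5_41, kop5_42, kop5_43, kop5_44, sh_apply, mulx, mk5_cons0, mk5_cons1, mk5_cons2, mk5_cons3, mk5_cons4, mk5_count0, mk5_count1, mk5_count2, mk5_count3, mk5_count4, mk5_erase0, mk5_erase1, mk5_erase2, mk5_erase3, mk5_erase4] at h1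
    linarith
  have e24_20000 : -u (mk5 2 0 1 0 1) = 0 := by
    have h1 := E5 h 2 0 0 0 0 (by norm_num) 2 4
    simp [Fin.sum_univ_five, kop5_00, kop5_01, kop5_02, kop5_03, kop5_04, kop5_10, kop5_11, kop5_12, kop5_13, kop5_14, kop5_20, kop5_21, kop5_22, kop5_23, kop5_24, kop5_30, kop5_31, kop5_32, kop5_33, kop5_34, kop5_40, kop5_41, kop5_42, kop5_43, kop5_44, sh_apply, mulx, mk5_cons0, mk5_cons1, mk5_cons2, mk5_cons3, mk5_cons4, mk5_count0, mk5_count1, mk5_count2, mk5_count3, mk5_count4, mk5_erase0, mk5_erase1, mk5_erase2, mk5_erase3, mk5_erase4] at h1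
    linarith
  have e02_11000 : -u (mk5 2 1 1 0 0) - u (mk5 1 1 0 1 0) = 0 := by
    have h1 := E5 h 1 1 0 0 0 (by norm_num) 0 2
    simp [Fin.sum_univ_five, kop5_00, kop5_01, kop5_02, kop5_03, kop5_04, kop5_10, kop5_11, kop5_12, kop5_13, kop5_14, kop5_20, kop5_21, kop5_22, kop5_23, kop5_24, kop5_30, kop5_31, kop5_32, kop5_33, kop5_34, kop5_40, kop5_41, kop5_42, kop5_43, kop5_44, sh_apply, mulx, mk5_cons0, mk5_cons1, mk5_cons2, mk5_cons3, mk5_cons4, mk5_count0, mk5_count1, mk5_count2, mk5_count3, mk5_count4, mk5_erase0, mk5_erase1, mk5_erase2, mk5_erase3, mk5_erase4] at h1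
    linarith
  have e24_11000 : -u (mk5 1 1 1 0 1) = 0 := by
    have h1 := E5 h 1 1 0 0 0 (by norm_num) 2 4
    simp [Fin.sum_univ_five, kop5_00, kop5_01, kop5_02, kop5_03, kop5_04, kop5_10, kop5_11, kop5_12, kop5_13, kop5_14, kop5_20, kop5_21, kop5_22, kop5_23, kop5_24, kop5_30, kop5_31, kop5_32, kop5_33, kop5_34, kop5_40, kop5_41, kop5_42, kop5_43, kop5_44, sh_apply, mulx, mk5_cons0, mk5_cons1, mk5_cons2, mk5_cons3, mk5_cons4, mk5_count0, mk5_count1, mk5_count2, mk5_count3, mk5_count4, mk5_erase0, mk5_erase1, mk5_erase2, mk5_erase3, mk5_erase4] at h1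
    linarith
  have e03_10100 : 2 * u (mk5 2 0 1 1 0) - u (mk5 1 0 0 2 0) + u (mk5 1 0 2 0 0) + 3 * u (mk5 1 1 1 0 0) + u (mk5 3 0 0 0 0) = 0 := by
    have h1 := E5 h 1 0 1 0 0 (by norm_num) 0 3
    simp [Fin.sum_univ_five, kop5_00, kop5_01, kop5_02, kop5_03, kop5_04, kop5_10, kop5_11, kop5_12, kop5_13, kop5_14, kop5_20, kop5_21, kop5_22, kop5_23, kop5_24, kop5_30, kop5_31, kop5_32, kop5_33, kop5_34, kop5_40, kop5_41, kop5_42, kop5_43, kop5_44, sh_apply, mulx, mk5_cons0, mk5_cons1, mk5_cons2, mk5_cons3, mk5_cons4, mk5_count0, mk5_count1, mk5_count2, mk5_count3, mk5_count4, mk5_erase0, mk5_erase1, mk5_erase2, mk5_erase3, mk5_erase4] at h1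
    linarith
  have e04_10100 : -2 * u (mk5 2 0 1 0 1) - u (mk5 1 0 0 1 1) = 0 := by
    have h1 := E5 h 1 0 1 0 0 (by norm_num) 0 4
    simp [Fin.sum_univ_five, kop5_00, kop5_01, kop5_02, kop5_03, kop5_04, kop5_10, kop5_11, kop5_12, kop5_13, kop5_14, kop5_20, kop5_21, kop5_22, kop5_23, kop5_24, kop5_30, kop5_31, kop5_32, kop5_33, kop5_34, kop5_40, kop5_41, kop5_42, kop5_43, kop5_44, sh_apply, mulx, mk5_cons0, mk5_cons1, mk5_cons2, mk5_cons3, mk5_cons4, mk5_count0, mk5_count1, mk5_count2, mk5_count3, mk5_count4, mk5_erase0, mk5_erase1, mk5_erase2, mk5_erase3, mk5_erase4] at h1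
    linarith
  have e23_10100 : 3 * u (mk5 1 0 2 1 0) + u (mk5 0 1 2 0 0) + 3 * u (mk5 2 0 1 0 0) = 0 := by
    have h1 := E5 h 1 0 1 0 0 (by norm_num) 2 3
    simp [Fin.sum_univ_five, kop5_00, kop5_01, kop5_02, kop5_03, kop5_04, kop5_10, kop5_11, kop5_12, kop5_13, kop5_14, kop5_20, kop5_21, kop5_22, kop5_23, kop5_24, kop5_30, kop5_31, kop5_32, kop5_33, kop5_34, kop5_40, kop5_41, kop5_42, kop5_43, kop5_44, sh_apply, mulx, mk5_cons0, mk5_cons1, mk5_cons2, mk5_cons3, mk5_cons4, mk5_count0, mk5_count1, mk5_count2, mk5_count3, mk5_count4, mk5_erase0, mk5_erase1, mk5_erase2, mk5_erase3, mk5_erase4] at h1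
    linarith
  have e24_10100 : -u (mk5 1 0 2 0 1) = 0 := by
    have h1 := E5 h 1 0 1 0 0 (by norm_num) 2 4
    simp [Fin.sum_univ_five, kop5_00, kop5_01, kop5_02, kop5_03, kop5_04, kop5_10, kop5_11, kop5_12, kop5_13, kop5_14, kop5_20, kop5_21, kop5_22, kop5_23, kop5_24, kop5_30, kop5_31, kop5_32, kop5_33, kop5_34, kop5_40, kop5_41, kop5_42, kop5_43, kop5_44, sh_apply, mulx, mk5_cons0, mk5_cons1, mk5_cons2, mk5_cons3, mk5_cons4, mk5_count0, mk5_count1, mk5_count2, mk5_count3, mk5_count4, mk5_erase0, mk5_erase1, mk5_erase2, mk5_erase3, mk5_erase4] at h1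
    linarith
  have e23_10010 : 3 * u (mk5 1 0 1 2 0) + u (mk5 0 1 1 1 0) + 3 * u (mk5 2 0 0 1 0) = 0 := by
    have h1 := E5 h 1 0 0 1 0 (by norm_num) 2 3
    simp [Fin.sum_univ_five, kop5_00, kop5_01, kop5_02, kop5_03, kop5_04, kop5_10, kop5_11, kop5_12, kop5_13, kop5_14, kop5_20, kop5_21, kop5_22, kop5_23, kop5_24, kop5_30, kop5_31, kop5_32, kop5_33, kop5_34, kop5_40, kop5_41, kop5_42, kop5_43, kop5_44, sh_apply, mulx, mk5_cons0, mk5_cons1, mk5_cons2, mk5_cons3, mk5_cons4, mk5_count0, mk5_count1, mk5_count2, mk5_count3, mk5_count4, mk5_erase0, mk5_erase1, mk5_erase2, mk5_erase3, mk5_erase4] at h1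
    linarith
  have e24_10001 : -u (mk5 1 0 1 0 2) = 0 := by
    have h1 := E5 h 1 0 0 0 1 (by norm_num) 2 4
    simp [Fin.sum_univ_five, kop5_00, kop5_01, kop5_02, kop5_03, kop5_04, kop5_10, kop5_11, kop5_12, kop5_13, kop5_14, kop5_20, kop5_21, kop5_22, kop5_23, kop5_24, kop5_30, kop5_31, kop5_32, kop5_33, kop5_34, kop5_40, kop5_41, kop5_42, kop5_43, kop5_44, sh_apply, mulx, mk5_cons0, mk5_cons1, mk5_cons2, mk5_cons3, mk5_cons4, mk5_count0, mk5_count1, mk5_count2, mk5_count3, mk5_count4, mk5_erase0, mk5_erase1, mk5_erase2, mk5_erase3, mk5_erase4] at h1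
    linarith
  have e24_02000 : -u (mk5 0 2 1 0 1) = 0 := by
    have h1 := E5 h 0 2 0 0 0 (by norm_num) 2 4
    simp [Fin.sum_univ_five, kop5_00, kop5_01, kop5_02, kop5_03, kop5_04, kop5_10, kop5_11, kop5_12, kop5_13, kop5_14, kop5_20, kop5_21, kop5_22, kop5_23, kop5_24, kop5_30, kop5_31, kop5_32, kop5_33, kop5_34, kop5_40, kop5_41, kop5_42, kop5_43, kop5_44, sh_apply, mulx, mk5_cons0, mk5_cons1, mk5_cons2, mk5_cons3, mk5_cons4, mk5_count0, mk5_count1, mk5_count2, mk5_count3, mk5_count4, mk5_erase0, mk5_erase1, mk5_erase2, mk5_erase3, mk5_erase4] at h1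
    linarith
  have e34_02000 : -4 * u (mk5 0 2 0 1 1) - 2 * u (mk5 0 3 0 0 0) = 0 := by
    have h1 := E5 h 0 2 0 0 0 (by norm_num) 3 4
    simp [Fin.sum_univ_five, kop5_00, kop5_01, kop5_02, kop5_03, kop5_04, kop5_10, kop5_11, kop5_12, kop5_13, kop5_14, kop5_20, kop5_21, kop5_22, kop5_23, kop5_24, kop5_30, kop5_31, kop5_32, kop5_33, kop5_34, kop5_40, kop5_41, kop5_42, kop5_43, kop5_44, sh_apply, mulx, mk5_cons0, mk5_cons1, mk5_cons2, mk5_cons3, mk5_cons4, mk5_count0, mk5_count1, mk5_count2, mk5_count3, mk5_count4, mk5_erase0, mk5_erase1, mk5_erase2, mk5_erase3, mk5_erase4] at h1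
    linarith
  have e04_01100 : -2 * u (mk5 1 1 1 0 1) - u (mk5 0 1 0 1 1) = 0 := by
    have h1 := E5 h 0 1 1 0 0 (by norm_num) 0 4
    simp [Fin.sum_univ_five, kop5_00, kop5_01, kop5_02, kop5_03, kop5_04, kop5_10, kop5_11, kop5_12, kop5_13, kop5_14, kop5_20, kop5_21, kop5_22, kop5_23, kop5_24, kop5_30, kop5_31, kop5_32, kop5_33, kop5_34, kop5_40, kop5_41, kop5_42, kop5_43, kop5_44, sh_apply, mulx, mk5_cons0, mk5_cons1, mk5_cons2, mk5_cons3, mk5_cons4, mk5_count0, mk5_count1, mk5_count2, mk5_count3, mk5_count4, mk5_erase0, mk5_erase1, mk5_erase2, mk5_erase3, mk5_erase4] at h1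
    linarith
  have e14_01100 : -3 * u (mk5 0 2 1 0 1) - u (mk5 0 1 1 1 0) = 0 := by
    have h1 := E5 h 0 1 1 0 0 (by norm_num) 1 4
    simp [Fin.sum_univ_five, kop5_00, kop5_01, kop5_02, kop5_03, kop5_04, kop5_10, kop5_11, kop5_12, kop5_13, kop5_14, kop5_20, kop5_21, kop5_22, kop5_23, kop5_24, kop5_30, kop5_31, kop5_32, kop5_33, kop5_34, kop5_40, kop5_41, kop5_42, kop5_43, kop5_44, sh_apply, mulx, mk5_cons0, mk5_cons1, mk5_cons2, mk5_cons3, mk5_cons4, mk5_count0, mk5_count1, mk5_count2, mk5_count3, mk5_count4, mk5_erase0, mk5_erase1, mk5_erase2, mk5_erase3, mk5_erase4] at h1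
    linarith
  have e24_01100 : -u (mk5 0 1 2 0 1) = 0 := by
    have h1 := E5 h 0 1 1 0 0 (by norm_num) 2 4
    simp [Fin.sum_univ_five, kop5_00, kop5_01, kop5_02, kop5_03, kop5_04, kop5_10, kop5_11, kop5_12, kop5_13, kop5_14, kop5_20, kop5_21, kop5_22, kop5_23, kop5_24, kop5_30, kop5_31, kop5_32, kop5_33, kop5_34, kop5_40, kop5_41, kop5_42, kop5_43, kop5_44, sh_apply, mulx, mk5_cons0, mk5_cons1, mk5_cons2, mk5_cons3, mk5_cons4, mk5_count0, mk5_count1, mk5_count2, mk5_count3, mk5_count4, mk5_erase0, mk5_erase1, mk5_erase2, mk5_erase3, mk5_erase4] at h1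
    linarith
  have e14_01010 : -3 * u (mk5 0 2 0 1 1) + u (mk5 0 1 0 0 2) - u (mk5 0 1 0 2 0) - u (mk5 0 3 0 0 0) + u (mk5 1 1 0 0 1) = 0 := by
    have h1 := E5 h 0 1 0 1 0 (by norm_num) 1 4
    simp [Fin.sum_univ_five, kop5_00, kop5_01, kop5_02, kop5_03, kop5_04, kop5_10, kop5_11, kop5_12, kop5_13, kop5_14, kop5_20, kop5_21, kop5_22, kop5_23, kop5_24, kop5_30, kop5_31, kop5_32, kop5_33, kop5_34, kop5_40, kop5_41, kop5_42, kop5_43, kop5_44, sh_apply, mulx, mk5_cons0, mk5_cons1, mk5_cons2, mk5_cons3, mk5_cons4, mk5_count0, mk5_count1, mk5_count2, mk5_count3, mk5_count4, mk5_erase0, mk5_erase1, mk5_erase2, mk5_erase3, mk5_erase4] at h1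
    linarith
  have e34_01001 : -4 * u (mk5 0 1 0 1 2) - 3 * u (mk5 0 2 0 0 1) = 0 := by
    have h1 := E5 h 0 1 0 0 1 (by norm_num) 3 4
    simp [Fin.sum_univ_five, kop5_00, kop5_01, kop5_02, kop5_03, kop5_04, kop5_10, kop5_11, kop5_12, kop5_13, kop5_14, kop5_20, kop5_21, kop5_22, kop5_23, kop5_24, kop5_30, kop5_31, kop5_32, kop5_33, kop5_34, kop5_40, kop5_41, kop5_42, kop5_43, kop5_44, sh_apply, mulx, mk5_cons0, mk5_cons1, mk5_cons2, mk5_cons3, mk5_cons4, mk5_count0, mk5_count1, mk5_count2, mk5_count3, mk5_count4, mk5_erase0, mk5_erase1, mk5_erase2, mk5_erase3, mk5_erase4] at h1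
    linarith
  have e03_00200 : 2 * u (mk5 1 0 2 1 0) - 2 * u (mk5 0 0 1 2 0) + u (mk5 0 0 3 0 0) + 2 * u (mk5 0 1 2 0 0) + 2 * u (mk5 2 0 1 0 0) = 0 := by
    have h1 := E5 h 0 0 2 0 0 (by norm_num) 0 3
    simp [Fin.sum_univ_five, kop5_00, kop5_01, kop5_02, kop5_03, kop5_04, kop5_10, kop5_11, kop5_12, kop5_13, kop5_14, kop5_20, kop5_21, kop5_22, kop5_23, kop5_24, kop5_30, kop5_31, kop5_32, kop5_33, kop5_34, kop5_40, kop5_41, kop5_42, kop5_43, kop5_44, sh_apply, mulx, mk5_cons0, mk5_cons1, mk5_cons2, mk5_cons3, mk5_cons4, mk5_count0, mk5_count1, mk5_count2, mk5_count3, mk5_count4, mk5_erase0, mk5_erase1, mk5_erase2, mk5_erase3, mk5_erase4] at h1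
    linarith
  have e04_00200 : -2 * u (mk5 1 0 2 0 1) - 2 * u (mk5 0 0 1 1 1) = 0 := by
    have h1 := E5 h 0 0 2 0 0 (by norm_num) 0 4
    simp [Fin.sum_univ_five, kop5_00, kop5_01, kop5_02, kop5_03, kop5_04, kop5_10, kop5_11, kop5_12, kop5_13, kop5_14, kop5_20, kop5_21, kop5_22, kop5_23, kop5_24, kop5_30, kop5_31, kop5_32, kop5_33, kop5_34, kop5_40, kop5_41, kop5_42, kop5_43, kop5_44, sh_apply, mulx, mk5_cons0, mk5_cons1, mk5_cons2, mk5_cons3, mk5_cons4, mk5_count0, mk5_count1, mk5_count2, mk5_count3, mk5_count4, mk5_erase0, mk5_erase1, mk5_erase2, mk5_erase3, mk5_erase4] at h1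
    linarith
  have e14_00200 : -3 * u (mk5 0 1 2 0 1) - u (mk5 0 0 2 1 0) = 0 := by
    have h1 := E5 h 0 0 2 0 0 (by norm_num) 1 4
    simp [Fin.sum_univ_five, kop5_00, kop5_01, kop5_02, kop5_03, kop5_04, kop5_10, kop5_11, kop5_12, kop5_13, kop5_14, kop5_20, kop5_21, kop5_22, kop5_23, kop5_24, kop5_30, kop5_31, kop5_32, kop5_33, kop5_34, kop5_40, kop5_41, kop5_42, kop5_43, kop5_44, sh_apply, mulx, mk5_cons0, mk5_cons1, mk5_cons2, mk5_cons3, mk5_cons4, mk5_count0, mk5_count1, mk5_count2, mk5_count3, mk5_count4, mk5_erase0, mk5_erase1, mk5_erase2, mk5_erase3, mk5_erase4] at h1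
    linarith
  have e03_00110 : 2 * u (mk5 1 0 1 2 0) - u (mk5 0 0 0 3 0) + 2 * u (mk5 0 0 2 1 0) + 3 * u (mk5 0 1 1 1 0) + u (mk5 2 0 0 1 0) = 0 := by
    have h1 := E5 h 0 0 1 1 0 (by norm_num) 0 3
    simp [Fin.sum_univ_five, kop5_00, kop5_01, kop5_02, kop5_03, kop5_04, kop5_10, kop5_11, kop5_12, kop5_13, kop5_14, kop5_20, kop5_21, kop5_22, kop5_23, kop5_24, kop5_30, kop5_31, kop5_32, kop5_33, kop5_34, kop5_40, kop5_41, kop5_42, kop5_43, kop5_44, sh_apply, mulx, mk5_cons0, mk5_cons1, mk5_cons2, mk5_cons3, mk5_cons4, mk5_count0, mk5_count1, mk5_count2, mk5_count3, mk5_count4, mk5_erase0, mk5_erase1, mk5_erase2, mk5_erase3, mk5_erase4] at h1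
    linarith
  have e04_00101 : -2 * u (mk5 1 0 1 0 2) - u (mk5 0 0 0 1 2) = 0 := by
    have h1 := E5 h 0 0 1 0 1 (by norm_num) 0 4
    simp [Fin.sum_univ_five, kop5_00, kop5_01, kop5_02, kop5_03, kop5_04, kop5_10, kop5_11, kop5_12, kop5_13, kop5_14, kop5_20, kop5_21, kop5_22, kop5_23, kop5_24, kop5_30, kop5_31, kop5_32, kop5_33, kop5_34, kop5_40, kop5_41, kop5_42, kop5_43, kop5_44, sh_apply, mulx, mk5_cons0, mk5_cons1, mk5_cons2, mk5_cons3, mk5_cons4, mk5_count0, mk5_count1, mk5_count2, mk5_count3, mk5_count4, mk5_erase0, mk5_erase1, mk5_erase2, mk5_erase3, mk5_erase4] at h1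
    linarith
  have e14_00011 : -3 * u (mk5 0 1 0 1 2) + u (mk5 0 0 0 0 3) - 2 * u (mk5 0 0 0 2 1) - u (mk5 0 2 0 0 1) + u (mk5 1 0 0 0 2) = 0 := by
    have h1 := E5 h 0 0 0 1 1 (by norm_num) 1 4
    simp [Fin.sum_univ_five, kop5_00, kop5_01, kop5_02, kop5_03, kop5_04, kop5_10, kop5_11, kop5_12, kop5_13, kop5_14, kop5_20, kop5_21, kop5_22, kop5_23, kop5_24, kop5_30, kop5_31, kop5_32, kop5_33, kop5_34, kop5_40, kop5_41, kop5_42, kop5_43, kop5_44, sh_apply, mulx, mk5_cons0, mk5_cons1, mk5_cons2, mk5_cons3, mk5_cons4, mk5_count0, mk5_count1, mk5_count2, mk5_count3, mk5_count4, mk5_erase0, mk5_erase1, mk5_erase2, mk5_erase3, mk5_erase4] at h1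
    linarith
  have t_00001 : u (mk5 0 0 0 0 1) = 0 := by
    linear_combination e13_00000 - (1 / 2) * e23_00000 - (1 / 2) * e12_10000 + e02_01000 + 3 * e24_01000 - e14_00100
  have t_00010 : u (mk5 0 0 0 1 0) = 0 := by
    linear_combination -e14_00000 + e34_00001 + 8 * e24_10001 - 4 * e04_00101
  have t_00100 : u (mk5 0 0 1 0 0) = 0 := by
    linear_combination e03_00000 + e34_00000 + 2 * e14_10000 + 12 * e24_10000 - 3 * e04_01000 - 6 * e04_00100
  have t_01000 : u (mk5 0 1 0 0 0) = 0 := by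
    linear_combination -(1 / 2) * e34_00000 - 4 * e24_10000 + 2 * e04_00100
  have t_10000 : u (mk5 1 0 0 0 0) = 0 := by
    linear_combination (1 / 2) * e23_00000 - (9 / 2) * e24_01000 + (3 / 2) * e14_00100
  have t_00002 : u (mk5 0 0 0 0 2) = 0 := by
    linear_combination (1 / 8) * e12_00000 - e13_10000 + (1 / 2) * e23_10000 - (1 / 4) * e03_01000 - (5 / 4) * e34_01000 + e14_00010 + (3 / 4) * e12_20000 - (3 / 2) * e02_11000 - 4 * e24_11000 + 2 * e04_01100
  have t_00011 : u (mk5 0 0 0 1 1) = 0 := by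
    linear_combination 2 * e24_10000 - e04_00100
  have t_00020 : u (mk5 0 0 0 2 0) = 0 := by
    linear_combination -(1 / 2) * e04_00000 + (1 / 8) * e12_00000 - e13_10000 + (1 / 2) * e23_10000 - (1 / 4) * e03_01000 - (3 / 4) * e34_01000 + (3 / 4) * e12_20000 - (3 / 2) * e02_11000 - 6 * e24_11000 + 3 * e04_01100
  have t_00101 : u (mk5 0 0 1 0 1) = 0 := by
    linear_combination -e24_00000
  have t_00110 : u (mk5 0 0 1 1 0) = 0 := by
    linear_combination 3 * e24_01000 - e14_00100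
  have t_00200 : u (mk5 0 0 2 0 0) = 0 := by
    linear_combination -(1 / 2) * e04_00000 + (3 / 4) * e12_00000 - e13_10000 - (1 / 2) * e03_01000 - e34_01000 + e03_00100 + e12_20000 - 2 * e02_11000 - 8 * e24_11000 + 4 * e04_01100
  have t_01001 : u (mk5 0 1 0 0 1) = 0 := by
    linear_combination -(1 / 3) * e34_00001 - (8 / 3) * e24_10001 + (4 / 3) * e04_00101
  have t_01010 : u (mk5 0 1 0 1 0) = 0 := by
    linear_combination (1 / 2) * e12_10000 - e02_01000 + (3 / 2) * e24_01000 - (1 / 2) * e14_00100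
  have t_01100 : u (mk5 0 1 1 0 0) = 0 := by
    linear_combination -(1 / 2) * e12_00000
  have t_02000 : u (mk5 0 2 0 0 0) = 0 := by
    linear_combination -(1 / 2) * e34_01000 - 4 * e24_11000 + 2 * e04_01100
  have t_10001 : u (mk5 1 0 0 0 1) = 0 := by
    linear_combination -(1 / 2) * e04_00000
  have t_10010 : u (mk5 1 0 0 1 0) = 0 := by
    linear_combination -e14_10000 - 2 * e24_10000 + (3 / 2) * e04_01000 + e04_00100
  have t_10100 : u (mk5 1 0 1 0 0) = 0 := by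
    linear_combination -e02_00000 + e14_00000 - e34_00001 - 8 * e24_10001 + 4 * e04_00101
  have t_11000 : u (mk5 1 1 0 0 0) = 0 := by
    linear_combination e01_00000 + e14_00000 - e34_00001 - 8 * e24_10001 + 4 * e04_00101
  have t_20000 : u (mk5 2 0 0 0 0) = 0 := by
    linear_combination -(1 / 8) * e12_00000 + (1 / 2) * e23_10000 - (3 / 4) * e03_01000 - (3 / 4) * e34_01000 + (3 / 4) * e12_20000 - (3 / 2) * e02_11000 - 6 * e24_11000 + 3 * e04_01100
  have t_00003 : u (mk5 0 0 0 0 3) = 0 := by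
    linear_combination -(13 / 24) * e12_10000 + (13 / 12) * e02_01000 + (5 / 12) * e14_01000 - (13 / 8) * e24_01000 + (13 / 24) * e14_00100 - (1 / 2) * e34_00010 + (1 / 2) * e04_00001 - (3 / 4) * e34_01001 + e14_00011
  have t_00012 : u (mk5 0 0 0 1 2) = 0 := by
    linear_combination 2 * e24_10001 - e04_00101
  have t_00021 : u (mk5 0 0 0 2 1) = 0 := by
    linear_combination -(3 / 8) * e12_10000 + (3 / 4) * e02_01000 - (9 / 8) * e24_01000 + (3 / 8) * e14_00100 - (1 / 4) * e34_00010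
  have t_00030 : u (mk5 0 0 0 3 0) = 0 := by
    linear_combination (3 / 2) * e01_00000 - (1 / 2) * e02_00000 + 2 * e14_00000 - (1 / 2) * e03_10000 - 2 * e34_00001 + (2 / 3) * e23_10010 - 16 * e24_10001 + 7 * e24_02000 - (7 / 3) * e14_01100 + 6 * e24_01100 - 2 * e14_00200 - e03_00110 + 8 * e04_00101
  have t_00102 : u (mk5 0 0 1 0 2) = 0 := by
    linear_combination -e24_00001
  have t_00111 : u (mk5 0 0 1 1 1) = 0 := by
    linear_combination e24_10100 - (1 / 2) * e04_00200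
  have t_00120 : u (mk5 0 0 1 2 0) = 0 := by
    linear_combination e14_10000 + 2 * e24_10000 - (3 / 2) * e04_01000 - e04_00100 + (1 / 3) * e23_00010
  have t_00201 : u (mk5 0 0 2 0 1) = 0 := by
    linear_combination -e24_00100
  have t_00210 : u (mk5 0 0 2 1 0) = 0 := by
    linear_combination 3 * e24_01100 - e14_00200
  have t_00300 : u (mk5 0 0 3 0 0) = 0 := by
    linear_combination 2 * e14_10000 + 4 * e24_10000 - 3 * e04_01000 - 2 * e04_00100 + (2 / 3) * e12_00100 + (2 / 3) * e23_00010 - (2 / 3) * e23_10100 + e03_00200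
  have t_01002 : u (mk5 0 1 0 0 2) = 0 := by
    linear_combination -(4 / 3) * e24_10000 + (2 / 3) * e04_00100 - (1 / 3) * e14_00001
  have t_01011 : u (mk5 0 1 0 1 1) = 0 := by
    linear_combination 2 * e24_11000 - e04_01100
  have t_01020 : u (mk5 0 1 0 2 0) = 0 := by
    linear_combination 2 * e14_10000 - 3 * e04_01000 + e13_00010
  have t_01101 : u (mk5 0 1 1 0 1) = 0 := by
    linear_combination -e24_01000
  have t_01110 : u (mk5 0 1 1 1 0) = 0 := by
    linear_combination 3 * e24_02000 - e14_01100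
  have t_01200 : u (mk5 0 1 2 0 0) = 0 := by
    linear_combination -(1 / 2) * e12_00100
  have t_02001 : u (mk5 0 2 0 0 1) = 0 := by
    linear_combination -(1 / 6) * e12_10000 + (1 / 3) * e02_01000 - (1 / 3) * e14_01000 - (1 / 2) * e24_01000 + (1 / 6) * e14_00100
  have t_02010 : u (mk5 0 2 0 1 0) = 0 := by
    linear_combination -e01_00000 - e14_00000 + e13_01000 + (4 / 3) * e34_00001 + (32 / 3) * e24_10001 - (16 / 3) * e04_00101
  have t_02100 : u (mk5 0 2 1 0 0) = 0 := by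
    linear_combination -(1 / 2) * e12_01000
  have t_03000 : u (mk5 0 3 0 0 0) = 0 := by
    linear_combination 4 * e14_10000 + (8 / 3) * e24_10000 - 5 * e04_01000 - (4 / 3) * e04_00100 + 2 * e13_00010 + (2 / 3) * e14_00001 - (3 / 2) * e34_02000 + 2 * e14_01010
  have t_10002 : u (mk5 1 0 0 0 2) = 0 := by
    linear_combination -(1 / 2) * e04_00001
  have t_10011 : u (mk5 1 0 0 1 1) = 0 := by
    linear_combination 2 * e24_20000 - e04_10100
  have t_10020 : u (mk5 1 0 0 2 0) = 0 := by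
    linear_combination -(3 / 4) * e12_10000 + (3 / 2) * e02_01000 - (21 / 4) * e24_01000 + (7 / 4) * e14_00100 + (1 / 2) * e03_00010
  have t_10101 : u (mk5 1 0 1 0 1) = 0 := by
    linear_combination -e24_10000
  have t_10110 : u (mk5 1 0 1 1 0) = 0 := by
    linear_combination (1 / 4) * e12_00000 + (1 / 2) * e03_01000 + (1 / 2) * e34_01000 - (1 / 2) * e12_20000 + e02_11000 + 4 * e24_11000 - 2 * e04_01100
  have t_10200 : u (mk5 1 0 2 0 0) = 0 := by
    linear_combination -6 * e24_01000 - e02_00100 + 2 * e14_00100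
  have t_11001 : u (mk5 1 1 0 0 1) = 0 := by
    linear_combination -(1 / 2) * e04_01000
  have t_11010 : u (mk5 1 1 0 1 0) = 0 := by
    linear_combination (1 / 4) * e12_00000 + (1 / 2) * e03_01000 + (1 / 2) * e34_01000 + 4 * e24_11000 - 2 * e04_01100
  have t_11100 : u (mk5 1 1 1 0 0) = 0 := by
    linear_combination -(1 / 2) * e12_10000 - (3 / 2) * e24_01000 + (1 / 2) * e14_00100
  have t_12000 : u (mk5 1 2 0 0 0) = 0 := by
    linear_combination -(1 / 2) * e12_10000 + e01_01000 + e02_01000 - (3 / 2) * e24_01000 + (1 / 2) * e14_00100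
  have t_20001 : u (mk5 2 0 0 0 1) = 0 := by
    linear_combination -(1 / 2) * e04_10000
  have t_20010 : u (mk5 2 0 0 1 0) = 0 := by
    linear_combination -(3 / 2) * e01_00000 + (1 / 2) * e02_00000 - 2 * e14_00000 + (1 / 2) * e03_10000 + 2 * e34_00001 + 16 * e24_10001 - 8 * e04_00101
  have t_20100 : u (mk5 2 0 1 0 0) = 0 := by
    linear_combination -e02_10000 + e14_10000 + 2 * e24_10000 - (3 / 2) * e04_01000 - e04_00100
  have t_21000 : u (mk5 2 1 0 0 0) = 0 := by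
    linear_combination e01_10000 + 2 * e14_10000 + 4 * e24_10000 - 3 * e04_01000 - 2 * e04_00100
  have t_30000 : u (mk5 3 0 0 0 0) = 0 := by
    linear_combination -(1 / 4) * e12_10000 - (9 / 2) * e02_01000 - (39 / 4) * e24_01000 - 3 * e02_00100 + (13 / 4) * e14_00100 - (3 / 2) * e03_00010 + 2 * e23_20000 - 3 * e03_10100
  exact cover5 (P := fun a b c d e => u (mk5 a b c d e) = 0) t_10000 t_01000 t_00100 t_00010 t_00001 t_20000 t_11000 t_10100 t_10010 t_10001 t_02000 t_01100 t_01010 t_01001 t_00200 t_00110 t_00101 t_00020 t_00011 t_00002 t_30000 t_21000 t_20100 t_20010 t_20001 t_12000 t_11100 t_11010 t_11001 t_10200 t_10110 t_10101 t_10020 t_10011 t_10002 t_03000 t_02100 t_02010 t_02001 t_01200 t_01110 t_01101 t_01020 t_01011 t_01002 t_00300 t_00210 t_00201 t_00120 t_00111 t_00102 t_00030 t_00021 t_00012 t_00003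

lemma T5_kT (i j : Fin 5) (m : Multiset (Fin 5)) : kT T5 i j m =
    (T5.map fun t => t.1 * (Xop t.2.1 i (xj t.2.2 j) m + Xop t.2.2 i (xj t.2.1 j) m)).sum := by
  simp only [kT, mulJ_xj]

def lam5 : Fin 5 → ℝ := ![0, 1, -1, 2, -2]

lemma diag5 : Diag (kT T5) lam5 := by
  intro i j
  rw [T5_kT]
  fin_cases i <;> fin_cases j <;> simp [T5, Xop, xj, mulx, lam5] <;> norm_num

lemma lam5_inj : Function.Injective lam5 := by
  intro i j
  fin_cases i <;> fin_cases j <;> simp [lam5] <;> norm_num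

theorem low5_0 : Low 4 (kT T5) := by
  intro u hu m h0 hm
  rw [eq_mk5 m]
  have hc : card m = m.count 0 + m.count 1 + m.count 2 + m.count 3 + m.count 4 := by
    conv_lhs => rw [eq_mk5 m]
    exact mk5_card _ _ _ _ _
  have h1 : 1 ≤ card m := Multiset.card_pos.2 h0
  exact base5_low hu _ _ _ _ _ (by omega) (by omega)

lemma haan5 : Haan (kT T5) lam5 := by
  intro i
  have key : ∀ p q : Fin 5, kT T5 i p {q} = (T5.map fun t => t.1 *
      (Xop t.2.1 i (xj t.2.2 p) {q} + Xop t.2.2 i (xj t.2.1 p) {q})).sum := fun p q => T5_kT i p {q}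
  fin_cases i
  · refine ⟨1, 3, by decide, by decide, by decide, ?_⟩
    rw [key, key]
    simp [T5, Xop, xj, mulx, lam5]
    try norm_num
  · refine ⟨3, 4, by decide, by decide, by decide, ?_⟩
    rw [key, key]
    simp [T5, Xop, xj, mulx, lam5]
    try norm_num
  · refine ⟨0, 3, by decide, by decide, by decide, ?_⟩
    rw [key, key]
    simp [T5, Xop, xj, mulx, lam5]
    try norm_num
  · refine ⟨0, 1, by decide, by decide, by decide, ?_⟩
    rw [key, key]
    simp [T5, Xop, xj, mulx, lam5]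
    try norm_num
  · refine ⟨1, 3, by decide, by decide, by decide, ?_⟩
    rw [key, key]
    simp [T5, Xop, xj, mulx, lam5]
    try norm_num

theorem flat5 : FlatEx (Fin 5) := ⟨T5, lam5, lam5_inj, diag5, low_succ (by norm_num) diag5 lam5_inj haan5 (low_succ (by norm_num) diag5 lam5_inj haan5 (low_succ (by norm_num) diag5 lam5_inj haan5 (low5_0)))⟩

end

end Pool.Agent.K4H49.KT

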