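import Pool.Agent.K4H49.KT.Kernel

/-! Diagonal base point: mixed jets vanish, raising the order, block sums. -/

namespace Pool.Agent.K4H49.KT

noncomputable section

open Multiset

variable {ι : Type*} [Fintype ι] [DecidableEq ι]

/-- `K` is diagonal at the base point -/
def Diag (k : ι → ι → Jet ι) (lam : ι → ℝ) : Prop := ∀ i j, k i j 0 = if i = j then lam i else 0

lemma exists_pair {m : Multiset ι} (h0 : m ≠ 0) (h : ∀ i, m ≠ replicate (card m) i) :
    ∃ (i j : ι) (l : List ι), i ≠ j ∧ m = i ::ₘ j ::ₘ (l : Multiset ι) := by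
  obtain ⟨i, hi⟩ := Multiset.exists_mem_of_ne_zero h0
  by_cases hall : ∀ b ∈ m, b = i
  · exact absurd (Multiset.eq_replicate_card.2 hall) (h i)
  · push Not at hall
    obtain ⟨j, hj, hji⟩ := hall
    have hj' : j ∈ m.erase i := (Multiset.mem_erase_of_ne hji).2 hj
    refine ⟨i, j, ((m.erase i).erase j).toList, hji.symm, ?_⟩
    rw [Multiset.coe_toList, Multiset.cons_erase hj', Multiset.cons_erase hi]

/-- first part of the equation when all lower jets vanish -/
lemma sum_head {k : ι → ι → Jet ι} {lam : ι → ℝ} (hd : Diag k lam) (u : Jet ι) (i j : ι) (l : List ι)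
    (h : ∀ m : Multiset ι, m ≠ 0 → card m < l.length + 2 → u m = 0) :
    ∑ s, mulj (i :: l) (k s j) (sh s u) = lam j * u (i ::ₘ j ::ₘ (l : Multiset ι)) := by
  have h1 : ∀ s, mulj (i :: l) (k s j) (sh s u) = k s j 0 * u (s ::ₘ i ::ₘ (l : Multiset ι)) := by
    intro s
    rw [mulj_eq_head]
    · rfl
    · intro m hm
      apply h _ (by simp)
      have := Multiset.card_lt_card hm
      simp at this ⊢
      omega
  simp only [h1]
  rw [Finset.sum_eq_single j]
  · rw [hd j j, if_pos rfl, Multiset.cons_swap]
  · intro s _ hs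
    rw [hd s j, if_neg hs, zero_mul]
  · simp

lemma top_mixed {N : ℕ} {k : ι → ι → Jet ι} {lam : ι → ℝ} (hd : Diag k lam)
    (hl : Function.Injective lam) {u : Jet ι} (hu : Sol N k u)
    (hlow : ∀ m : Multiset ι, m ≠ 0 → card m < N → u m = 0) (m : Multiset ι) (h0 : m ≠ 0)
    (hm : card m = N) (hne : ∀ i, m ≠ replicate N i) : u m = 0 := by
  obtain ⟨i, j, l, hij, rfl⟩ := exists_pair h0 (by rw [hm]; exact hne)
  have hlen : l.length + 2 = N := by simpa using hm
  have h1 := hu i j l (by omega)
  unfold eqn at h1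
  rw [sum_head hd u i j l (by rw [hlen]; exact hlow), sum_head hd u j i l (by rw [hlen]; exact hlow),
    Multiset.cons_swap j i, ← sub_mul] at h1
  rcases mul_eq_zero.1 h1 with h | h
  · exact absurd (hl (sub_eq_zero.1 h)).symm hij
  · exact h

lemma good_of_low {N : ℕ} {k : ι → ι → Jet ι} {lam : ι → ℝ} (hd : Diag k lam)
    (hl : Function.Injective lam) (hL : Low N k) : Good N k := by
  refine ⟨{ toFun := fun u i => u (replicate N i), map_add' := fun _ _ => rfl, map_smul' := fun _ _ => rfl },
    ?_⟩
  intro u hu hπ m h0 hm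
  rcases lt_or_eq_of_le hm with h | h
  · exact hL u hu m h0 h
  · by_cases hne : ∀ i, m ≠ replicate N i
    · exact top_mixed hd hl hu (hL u hu) m h0 h hne
    · push Not at hne
      obtain ⟨i, rfl⟩ := hne
      exact congrFun hπ i

/-- the (first order) Haantjes type condition -/
def Haan (k : ι → ι → Jet ι) (lam : ι → ℝ) : Prop :=
  ∀ i, ∃ p q, p ≠ i ∧ q ≠ i ∧ p ≠ q ∧
    (lam q - lam i) * k i p {q} ≠ (lam p - lam i) * k i q {p}

omit [Fintype ι] [DecidableEq ι] in
lemma not_replicate_of_mem {m : Multiset ι} {a b : ι} (ha : a ∈ m) (hb : b ∈ m) (hab : a ≠ b) (r : ℕ)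
    (i : ι) : m ≠ replicate r i := by
  rintro rfl
  exact hab ((Multiset.eq_of_mem_replicate ha).trans (Multiset.eq_of_mem_replicate hb).symm)

lemma raise_aux {N : ℕ} (hN : 3 ≤ N) {k : ι → ι → Jet ι} {lam : ι → ℝ} (hd : Diag k lam)
    {u : Jet ι} (hu : Sol (N + 1) k u)
    (hlow : ∀ m : Multiset ι, m ≠ 0 → card m < N → u m = 0)
    (hmix : ∀ m : Multiset ι, m ≠ 0 → card m = N → (∀ i, m ≠ replicate N i) → u m = 0)
    (i p q : ι) (hp : p ≠ i) (hq : q ≠ i) (hpq : p ≠ q) :
    (lam p - lam i) * u (p ::ₘ q ::ₘ replicate (N - 1) i) + k i p {q} * u (replicate N i) = 0 := by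
  set l : List ι := q :: List.replicate (N - 2) i with hldef
  have hlen : l.length = N - 1 := by simp [hldef]; omega
  have hle : (l : Multiset ι) = q ::ₘ replicate (N - 2) i := by
    rw [hldef]; rfl
  have hsucc : i ::ₘ replicate (N - 2) i = replicate (N - 1) i := by
    rw [← Multiset.replicate_succ]; congr 1; omega
  have hsucc2 : i ::ₘ replicate (N - 1) i = replicate N i := by
    rw [← Multiset.replicate_succ]; congr 1; omega
  have himem : i ∈ replicate (N - 2) i := Multiset.mem_replicate.2 ⟨by omega, rfl⟩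
  have h1 := hu i p l (by omega)
  unfold eqn at h1
  have hexp : ∀ (a s : ι) (kk : Jet ι), mulj (a :: l) kk (sh s u) = kk 0 * u (s ::ₘ a ::ₘ (l : Multiset ι)) +
      ((a ::ₘ (l : Multiset ι)).map (fun t => kk {t} * u (s ::ₘ (a ::ₘ (l : Multiset ι)).erase t))).sum := by
    intro a s kk
    rw [mulj_eq_head_one]
    · rfl
    · intro m hm hc
      apply hlow _ (by simp)
      simp only [List.length_cons] at hc
      simp only [Multiset.card_cons]; omega
  -- the first order sums
  have hA : ∀ s, ((i ::ₘ (l : Multiset ι)).map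
      (fun t => k s p {t} * u (s ::ₘ (i ::ₘ (l : Multiset ι)).erase t))).sum =
      if s = i then k i p {q} * u (replicate N i) else 0 := by
    intro s
    rw [hle, Multiset.cons_swap, Multiset.map_cons, Multiset.sum_cons]
    rw [Multiset.erase_cons_head, hsucc]
    have hz : ((replicate (N - 1) i).map
        (fun t => k s p {t} * u (s ::ₘ (q ::ₘ replicate (N - 1) i).erase t))).sum = 0 := by
      apply Multiset.sum_eq_zero
      intro x hx
      rw [Multiset.mem_map] at hx
      obtain ⟨t, ht, rfl⟩ := hx
      have ht' : t = i := Multiset.eq_of_mem_replicate ht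
      subst ht'
      have : (q ::ₘ replicate (N - 1) t).erase t = q ::ₘ replicate (N - 2) t := by
        rw [← hsucc, Multiset.cons_swap, Multiset.erase_cons_head]
      rw [this, hmix, mul_zero]
      · simp
      · simp; omega
      · intro r
        exact not_replicate_of_mem (a := q) (b := t)
          (Multiset.mem_cons_of_mem (Multiset.mem_cons_self _ _))
          (Multiset.mem_cons_of_mem (Multiset.mem_cons_of_mem himem)) hq _ _
    rw [hz, add_zero]
    by_cases hs : s = i
    · subst hs; rw [if_pos rfl, hsucc2]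
    · rw [if_neg hs, hmix, mul_zero]
      · simp
      · simp; omega
      · intro r
        refine not_replicate_of_mem (a := s) (b := i) (Multiset.mem_cons_self _ _) ?_ hs _ _
        exact Multiset.mem_cons_of_mem (Multiset.mem_replicate.2 ⟨by omega, rfl⟩)
  have hB : ∀ s, ((p ::ₘ (l : Multiset ι)).map
      (fun t => k s i {t} * u (s ::ₘ (p ::ₘ (l : Multiset ι)).erase t))).sum = 0 := by
    intro s
    apply Multiset.sum_eq_zero
    intro x hx
    rw [Multiset.mem_map] at hx
    obtain ⟨t, ht, rfl⟩ := hx
    have hcard : card ((p ::ₘ (l : Multiset ι)).erase t) = N - 1 := by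
      rw [Multiset.card_erase_of_mem ht]; simp; omega
    rw [hmix, mul_zero]
    · simp
    · simp only [Multiset.card_cons, hcard]; omega
    · intro r
      rw [hle]
      by_cases htp : t = p
      · subst htp
        rw [Multiset.erase_cons_head]
        exact not_replicate_of_mem (a := q) (b := i)
          (Multiset.mem_cons_of_mem (Multiset.mem_cons_self _ _))
          (Multiset.mem_cons_of_mem (Multiset.mem_cons_of_mem himem)) hq _ _
      · by_cases htq : t = q
        · subst htq
          rw [Multiset.cons_swap, Multiset.erase_cons_head]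
          exact not_replicate_of_mem (a := p) (b := i)
            (Multiset.mem_cons_of_mem (Multiset.mem_cons_self _ _))
            (Multiset.mem_cons_of_mem (Multiset.mem_cons_of_mem himem)) hp _ _
        · have h3 : p ∈ (p ::ₘ q ::ₘ replicate (N - 2) i).erase t :=
            (Multiset.mem_erase_of_ne (Ne.symm htp)).2 (Multiset.mem_cons_self _ _)
          have h4 : q ∈ (p ::ₘ q ::ₘ replicate (N - 2) i).erase t :=
            (Multiset.mem_erase_of_ne (Ne.symm htq)).2
              (Multiset.mem_cons_of_mem (Multiset.mem_cons_self _ _))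
          exact not_replicate_of_mem (Multiset.mem_cons_of_mem h3) (Multiset.mem_cons_of_mem h4) hpq _ _
  simp only [hexp, hA, hB, add_zero, Finset.sum_add_distrib] at h1
  rw [Finset.sum_ite_eq' Finset.univ i, if_pos (Finset.mem_univ _)] at h1
  rw [Finset.sum_eq_single p (fun s _ hs => by rw [hd s p, if_neg hs, zero_mul]) (by simp),
    Finset.sum_eq_single i (fun s _ hs => by rw [hd s i, if_neg hs, zero_mul]) (by simp),
    hd p p, if_pos rfl, hd i i, if_pos rfl] at h1
  have e1 : p ::ₘ i ::ₘ (l : Multiset ι) = p ::ₘ q ::ₘ replicate (N - 1) i := by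
    rw [hle, Multiset.cons_swap i q, hsucc]
  have e2 : i ::ₘ p ::ₘ (l : Multiset ι) = p ::ₘ q ::ₘ replicate (N - 1) i := by
    rw [Multiset.cons_swap, e1]
  rw [e1, e2] at h1
  linear_combination h1

lemma low_succ {N : ℕ} (hN : 3 ≤ N) {k : ι → ι → Jet ι} {lam : ι → ℝ} (hd : Diag k lam)
    (hl : Function.Injective lam) (hH : Haan k lam) (hL : Low N k) : Low (N + 1) k := by
  intro u hu
  have huN : Sol N k u := fun i j l h => hu i j l (by omega)
  have hlow := hL u huN
  have hmix : ∀ m : Multiset ι, m ≠ 0 → card m = N → (∀ i, m ≠ replicate N i) → u m = 0 :=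
    fun m h0 hm hne => top_mixed hd hl huN hlow m h0 hm hne
  intro m h0 hm
  rcases lt_or_eq_of_le (Nat.lt_succ_iff.1 hm) with h | h
  · exact hlow m h0 h
  · by_cases hne : ∀ i, m ≠ replicate N i
    · exact hmix m h0 h hne
    · push Not at hne
      obtain ⟨i, rfl⟩ := hne
      obtain ⟨p, q, hp, hq, hpq, hne⟩ := hH i
      have h1 := raise_aux hN hd hu hlow hmix i p q hp hq hpq
      have h2 := raise_aux hN hd hu hlow hmix i q p hq hp hpq.symm
      rw [Multiset.cons_swap q p] at h2
      have h3 : ((lam q - lam i) * k i p {q} - (lam p - lam i) * k i q {p}) * u (replicate N i) = 0 := by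
        linear_combination (lam q - lam i) * h1 - (lam p - lam i) * h2
      rcases mul_eq_zero.1 h3 with h4 | h4
      · exact absurd (sub_eq_zero.1 h4) hne
      · exact h4

end

end Pool.Agent.K4H49.KT
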