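import Mathlib

/-! # Definitions: metrics of constant curvature, Killing tensors, conservation laws

Coordinates are `x : Fin n → ℝ`, momenta are `p : Fin n → ℝ`.
-/

namespace Pool.Agent.K4H49.KT

noncomputable section

open Matrix
open scoped ContDiff

section

variable {ι : Type*} [Fintype ι] [DecidableEq ι]

/-- the partial derivative `∂_i f` -/
def pd (i : ι) (f : (ι → ℝ) → ℝ) : (ι → ℝ) → ℝ := fun x => fderiv ℝ f x (Pi.single i 1)

/-- the quadratic form `Σ sᵢ xᵢ²` -/
def Qf (s x : ι → ℝ) : ℝ := ∑ i, s i * x i ^ 2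

/-- the function `ρ = 1 + (κ/4) Σ sᵢ xᵢ²` -/
def cf (s : ι → ℝ) (κ : ℝ) (x : ι → ℝ) : ℝ := 1 + κ / 4 * Qf s x

end

variable {n : ℕ}

/-- The metric `g = ρ⁻² Σ sᵢ dxᵢ²`, `ρ = 1 + (κ/4) Σ sᵢ xᵢ²`, as a matrix-valued function.  For
`sᵢ = ±1` and on the open set `ρ > 0` this is the standard form (in conformal coordinates) of a metric
of constant sectional curvature `κ` and of signature `s`. -/
def modelMetric (s : Fin n → ℝ) (κ : ℝ) (x : Fin n → ℝ) : Matrix (Fin n) (Fin n) ℝ :=
  Matrix.diagonal fun i => s i / (cf s κ x) ^ 2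

/-- the function `g⁻¹(p, p)` on the cotangent bundle -/
def cometric (g : (Fin n → ℝ) → Matrix (Fin n) (Fin n) ℝ) (x p : Fin n → ℝ) : ℝ :=
  p ⬝ᵥ ((g x)⁻¹ *ᵥ p)

/-- the function `g⁻¹(K p, p)` on the cotangent bundle, where `(K p)_j = Σ_i K^i_j p_i`
and `K^i_j = K x i j` -/
def quadratic (g K : (Fin n → ℝ) → Matrix (Fin n) (Fin n) ℝ) (x p : Fin n → ℝ) : ℝ :=
  ((K x)ᵀ *ᵥ p) ⬝ᵥ ((g x)⁻¹ *ᵥ p)

/-- the canonical Poisson bracket on the cotangent bundle -/
def poisson (F H : (Fin n → ℝ) → (Fin n → ℝ) → ℝ) (x p : Fin n → ℝ) : ℝ :=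
  ∑ i, (pd i (fun y => F y p) x * pd i (fun q => H x q) p -
    pd i (fun q => F x q) p * pd i (fun y => H y p) x)

/-- `K` is a real analytic `(1,1)`-Killing tensor of `g` on `W` (extended by `0` outside `W`): it is
`g`-self-adjoint and `g⁻¹(K p, p)` Poisson commutes with `g⁻¹(p, p)`. -/
def IsKilling (g : (Fin n → ℝ) → Matrix (Fin n) (Fin n) ℝ) (W : Set (Fin n → ℝ))
    (K : (Fin n → ℝ) → Matrix (Fin n) (Fin n) ℝ) : Prop :=
  (∀ x ∉ W, K x = 0) ∧
    (∀ i j, AnalyticOnNhd ℝ (fun x => K x i j) W) ∧
    (∀ p, AnalyticOnNhd ℝ (fun x => quadratic g K x p) W) ∧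
    (∀ x ∈ W, (g x * K x)ᵀ = g x * K x) ∧
    (∀ x ∈ W, ∀ p, poisson (quadratic g K) (cometric g) x p = 0)

lemma quadratic_add (g K K' : (Fin n → ℝ) → Matrix (Fin n) (Fin n) ℝ) (x p : Fin n → ℝ) :
    quadratic g (K + K') x p = quadratic g K x p + quadratic g K' x p := by
  simp [quadratic, Matrix.transpose_add, Matrix.add_mulVec, add_dotProduct]

lemma quadratic_smul (g K : (Fin n → ℝ) → Matrix (Fin n) (Fin n) ℝ) (c : ℝ) (x p : Fin n → ℝ) :
    quadratic g (c • K) x p = c * quadratic g K x p := by
  simp [quadratic, Matrix.transpose_smul, Matrix.smul_mulVec, smul_dotProduct]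

lemma differentiable_quadratic (g K : (Fin n → ℝ) → Matrix (Fin n) (Fin n) ℝ) (x : Fin n → ℝ) :
    Differentiable ℝ (fun q => quadratic g K x q) := by
  simp only [quadratic, dotProduct, Matrix.mulVec]
  fun_prop

lemma isKilling_zero (g : (Fin n → ℝ) → Matrix (Fin n) (Fin n) ℝ) (W : Set (Fin n → ℝ)) :
    IsKilling g W 0 := by
  refine ⟨fun _ _ => rfl, fun i j x _ => analyticAt_const, fun p x _ => ?_, fun x _ => by simp,
    fun x _ p => ?_⟩
  · have : (fun x => quadratic g (0 : (Fin n → ℝ) → Matrix (Fin n) (Fin n) ℝ) x p) = fun _ => 0 := by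
      funext x; simp [quadratic]
    rw [this]; exact analyticAt_const
  · have : quadratic g (0 : (Fin n → ℝ) → Matrix (Fin n) (Fin n) ℝ) = fun _ _ => 0 := by
      funext x p; simp [quadratic]
    rw [this]; simp [poisson, pd]

lemma isKilling_add {g : (Fin n → ℝ) → Matrix (Fin n) (Fin n) ℝ} {W : Set (Fin n → ℝ)}
    {K K' : (Fin n → ℝ) → Matrix (Fin n) (Fin n) ℝ} (hK : IsKilling g W K) (hK' : IsKilling g W K') :
    IsKilling g W (K + K') := by
  obtain ⟨h1, h2, h3, h4, h5⟩ := hK
  obtain ⟨h1', h2', h3', h4', h5'⟩ := hK'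
  refine ⟨fun x hx => ?_, fun i j x hx => ?_, fun p x hx => ?_, fun x hx => ?_, fun x hx p => ?_⟩
  · rw [Pi.add_apply, h1 x hx, h1' x hx, add_zero]
  · exact (h2 i j x hx).add (h2' i j x hx)
  · have : (fun x => quadratic g (K + K') x p) = fun x => quadratic g K x p + quadratic g K' x p := by
      funext x; exact quadratic_add g K K' x p
    rw [this]; exact (h3 p x hx).add (h3' p x hx)
  · rw [Pi.add_apply, Matrix.mul_add, Matrix.transpose_add, h4 x hx, h4' x hx]
  · have e1 : ∀ i, pd i (fun y => quadratic g (K + K') y p) x =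
        pd i (fun y => quadratic g K y p) x + pd i (fun y => quadratic g K' y p) x := by
      intro i
      have : (fun x => quadratic g (K + K') x p) = fun x => quadratic g K x p + quadratic g K' x p := by
        funext x; exact quadratic_add g K K' x p
      rw [this]
      unfold pd
      rw [fderiv_fun_add (h3 p x hx).differentiableAt (h3' p x hx).differentiableAt]
      rfl
    have e2 : ∀ i, pd i (fun q => quadratic g (K + K') x q) p =
        pd i (fun q => quadratic g K x q) p + pd i (fun q => quadratic g K' x q) p := by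
      intro i
      have : (fun q => quadratic g (K + K') x q) = fun q => quadratic g K x q + quadratic g K' x q := by
        funext q; exact quadratic_add g K K' x q
      rw [this]
      unfold pd
      rw [fderiv_fun_add (differentiable_quadratic g K x p) (differentiable_quadratic g K' x p)]
      rfl
    have := congrArg₂ (· + ·) (h5 x hx p) (h5' x hx p)
    simp only [poisson, add_zero] at this ⊢
    rw [← this, ← Finset.sum_add_distrib]
    refine Finset.sum_congr rfl fun i _ => ?_
    rw [e1, e2]; ring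

lemma isKilling_smul {g : (Fin n → ℝ) → Matrix (Fin n) (Fin n) ℝ} {W : Set (Fin n → ℝ)}
    (c : ℝ) {K : (Fin n → ℝ) → Matrix (Fin n) (Fin n) ℝ} (hK : IsKilling g W K) :
    IsKilling g W (c • K) := by
  obtain ⟨h1, h2, h3, h4, h5⟩ := hK
  refine ⟨fun x hx => ?_, fun i j x hx => ?_, fun p x hx => ?_, fun x hx => ?_, fun x hx p => ?_⟩
  · rw [Pi.smul_apply, h1 x hx, smul_zero]
  · exact analyticAt_const.mul (h2 i j x hx)
  · have : (fun x => quadratic g (c • K) x p) = fun x => c * quadratic g K x p := by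
      funext x; exact quadratic_smul g K c x p
    rw [this]; exact analyticAt_const.mul (h3 p x hx)
  · rw [Pi.smul_apply, Matrix.mul_smul, Matrix.transpose_smul, h4 x hx]
  · have e1 : ∀ i, pd i (fun y => quadratic g (c • K) y p) x = c * pd i (fun y => quadratic g K y p) x := by
      intro i
      have : (fun x => quadratic g (c • K) x p) = c • fun x => quadratic g K x p := by
        funext x; exact quadratic_smul g K c x p
      rw [this]
      unfold pd
      rw [fderiv_const_smul_field]
      simp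
    have e2 : ∀ i, pd i (fun q => quadratic g (c • K) x q) p = c * pd i (fun q => quadratic g K x q) p := by
      intro i
      have : (fun q => quadratic g (c • K) x q) = c • fun q => quadratic g K x q := by
        funext q; exact quadratic_smul g K c x q
      rw [this]
      unfold pd
      rw [fderiv_const_smul_field]
      simp
    have := congrArg (c * ·) (h5 x hx p)
    simp only [poisson, mul_zero] at this ⊢
    rw [← this, Finset.mul_sum]
    refine Finset.sum_congr rfl fun i _ => ?_
    rw [e1, e2]; ring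

/-- The real vector space `𝒦_g` of real analytic `(1,1)`-Killing tensors of `g` on `W`. -/
def killingTensors (g : (Fin n → ℝ) → Matrix (Fin n) (Fin n) ℝ) (W : Set (Fin n → ℝ)) :
    Submodule ℝ ((Fin n → ℝ) → Matrix (Fin n) (Fin n) ℝ) where
  carrier := {K | IsKilling g W K}
  zero_mem' := isKilling_zero g W
  add_mem' := isKilling_add
  smul_mem' := fun c _ hK => isKilling_smul c hK

/-- The algebra of real polynomial functions on a real vector space `V`: the functions `V → ℝ`
generated, by sums, products and constants, by the linear functionals. -/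
def polynomialFunctions (V : Type*) [AddCommGroup V] [Module ℝ V] : Subalgebra ℝ (V → ℝ) :=
  Algebra.adjoin ℝ {φ | ∃ ℓ : V →ₗ[ℝ] ℝ, φ = fun v => ℓ v}

/-- `f` is a (smooth) conservation law of `K` on the open set `U`: the 1-form `K^* df`, with components
`(K^* df)_j = Σ_s K^s_j ∂_s f`, is closed on `U`. -/
def IsConservationLaw (K : (Fin n → ℝ) → Matrix (Fin n) (Fin n) ℝ) (U : Set (Fin n → ℝ))
    (f : (Fin n → ℝ) → ℝ) : Prop :=
  ContDiffOn ℝ ∞ f U ∧ ∀ x ∈ U, ∀ i j,
    pd i (fun y => ∑ s, K y s j * pd s f y) x = pd j (fun y => ∑ s, K y s i * pd s f y) x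

/-- A property of the vectors of `V` holds generically: it holds outside a proper algebraic subset, namely
wherever some polynomial function `P`, not identically zero, does not vanish. -/
def HoldsGenerically {V : Type*} [AddCommGroup V] [Module ℝ V] (p : V → Prop) : Prop :=
  ∃ P ∈ polynomialFunctions V, (∃ v, P v ≠ 0) ∧ ∀ v, P v ≠ 0 → p v

/-- Every local conservation law of `K` on `W` is constant: each conservation law on a connected
(nonempty) open subset `U` of `W` is constant on `U`. -/
def OnlyConstantLaws (K : (Fin n → ℝ) → Matrix (Fin n) (Fin n) ℝ) (W : Set (Fin n → ℝ)) : Prop :=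
  ∀ U ⊆ W, IsOpen U → IsConnected U → ∀ f, IsConservationLaw K U f → ∃ c : ℝ, ∀ x ∈ U, f x = c

/-- Near every point of some open dense subset of `W` there is a non-constant conservation law of `K`. -/
def HasNontrivialLaws (K : (Fin n → ℝ) → Matrix (Fin n) (Fin n) ℝ) (W : Set (Fin n → ℝ)) : Prop :=
  ∃ G ⊆ W, IsOpen G ∧ W ⊆ closure G ∧ ∀ x ∈ G, ∃ V ⊆ W, x ∈ V ∧ IsOpen V ∧ IsConnected V ∧
    ∃ f, IsConservationLaw K V f ∧ ¬ ∃ c : ℝ, ∀ y ∈ V, f y = c

end

end Pool.Agent.K4H49.KT
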