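import Pool.Agent.K4H49.KT.Jets
import Pool.Agent.K4H49.KT.Defs

/-! Jets of smooth functions. -/

namespace Pool.Agent.K4H49.KT

noncomputable section

set_option linter.unusedSectionVars false

open Multiset
open scoped ContDiff Topology

variable {ι : Type*} [Fintype ι] [DecidableEq ι]

/-- iterated partial derivative -/
def pdl : List ι → ((ι → ℝ) → ℝ) → (ι → ℝ) → ℝ
  | [], f => f
  | i :: l, f => pdl l (pd i f)

/-- the jet of a function at a point -/
def jet (f : (ι → ℝ) → ℝ) (x : ι → ℝ) : Jet ι := fun m => pdl m.toList f x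

variable {U : Set (ι → ℝ)}

lemma contDiffOn_pd (hU : IsOpen U) {f : (ι → ℝ) → ℝ} (hf : ContDiffOn ℝ ∞ f U) (i : ι) :
    ContDiffOn ℝ ∞ (pd i f) U := by
  have := hf.fderiv_of_isOpen (m := ∞) hU (by simp)
  exact this.clm_apply contDiffOn_const

lemma pd_congr (hU : IsOpen U) {f g : (ι → ℝ) → ℝ} (h : Set.EqOn f g U) (i : ι) :
    Set.EqOn (pd i f) (pd i g) U := by
  intro x hx
  have : f =ᶠ[𝓝 x] g := Filter.eventuallyEq_of_mem (hU.mem_nhds hx) h
  simp only [pd, this.fderiv_eq]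

lemma pdl_congr (hU : IsOpen U) (l : List ι) : ∀ {f g : (ι → ℝ) → ℝ}, Set.EqOn f g U →
    Set.EqOn (pdl l f) (pdl l g) U := by
  induction l with
  | nil => intro f g h; exact h
  | cons i l ih => intro f g h; exact ih (pd_congr hU h i)

lemma differentiableAt_of (hU : IsOpen U) {f : (ι → ℝ) → ℝ} (hf : ContDiffOn ℝ ∞ f U) {x : ι → ℝ}
    (hx : x ∈ U) : DifferentiableAt ℝ f x :=
  (hf.contDiffAt (hU.mem_nhds hx)).differentiableAt (by simp)

lemma pd_add (hU : IsOpen U) {f g : (ι → ℝ) → ℝ} (hf : ContDiffOn ℝ ∞ f U) (hg : ContDiffOn ℝ ∞ g U)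
    (i : ι) : Set.EqOn (pd i (f + g)) (pd i f + pd i g) U := by
  intro x hx
  simp only [pd, Pi.add_apply]
  rw [fderiv_add (differentiableAt_of hU hf hx) (differentiableAt_of hU hg hx)]
  rfl

lemma pd_mul (hU : IsOpen U) {f g : (ι → ℝ) → ℝ} (hf : ContDiffOn ℝ ∞ f U) (hg : ContDiffOn ℝ ∞ g U)
    (i : ι) : Set.EqOn (pd i (f * g)) (pd i f * g + f * pd i g) U := by
  intro x hx
  simp only [pd, Pi.add_apply, Pi.mul_apply]
  rw [fderiv_mul (differentiableAt_of hU hf hx) (differentiableAt_of hU hg hx)]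
  simp [mul_comm]
  ring

lemma pd_comm (hU : IsOpen U) {f : (ι → ℝ) → ℝ} (hf : ContDiffOn ℝ ∞ f U) (i j : ι) :
    Set.EqOn (pd i (pd j f)) (pd j (pd i f)) U := by
  intro x hx
  have h1 : ContDiffAt ℝ ∞ f x := hf.contDiffAt (hU.mem_nhds hx)
  have hd : DifferentiableAt ℝ (fderiv ℝ f) x :=
    ((hf.fderiv_of_isOpen (m := ∞) hU (by simp)).contDiffAt (hU.mem_nhds hx)).differentiableAt (by simp)
  have hs := h1.isSymmSndFDerivAt (by
    rw [minSmoothness_of_isRCLikeNormedField]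
    exact WithTop.coe_le_coe.2 (le_top : (2 : ℕ∞) ≤ ⊤))
  have key : ∀ i j : ι, pd i (pd j f) x = fderiv ℝ (fderiv ℝ f) x (Pi.single i 1) (Pi.single j 1) := by
    intro i j
    unfold pd
    rw [fderiv_clm_apply hd (differentiableAt_const _)]
    simp
  rw [key, key]
  exact hs _ _

lemma contDiffOn_pdl (hU : IsOpen U) (l : List ι) : ∀ {f : (ι → ℝ) → ℝ}, ContDiffOn ℝ ∞ f U →
    ContDiffOn ℝ ∞ (pdl l f) U := by
  induction l with
  | nil => intro f h; exact h
  | cons i l ih => intro f h; exact ih (contDiffOn_pd hU h i)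

lemma pdl_perm (hU : IsOpen U) {l l' : List ι} (h : l.Perm l') : ∀ {f : (ι → ℝ) → ℝ},
    ContDiffOn ℝ ∞ f U → Set.EqOn (pdl l f) (pdl l' f) U := by
  induction h with
  | nil => intro f _ x _; rfl
  | cons i _ ih => intro f hf; exact ih (contDiffOn_pd hU hf i)
  | swap i j l => intro f hf; exact pdl_congr hU l (pd_comm hU hf i j)
  | trans _ _ ih1 ih2 => intro f hf; exact (ih1 hf).trans (ih2 hf)

lemma jet_coe (hU : IsOpen U) {f : (ι → ℝ) → ℝ} (hf : ContDiffOn ℝ ∞ f U) {x : ι → ℝ} (hx : x ∈ U)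
    (l : List ι) : jet f x (l : Multiset ι) = pdl l f x := by
  unfold jet
  exact pdl_perm hU (Multiset.coe_eq_coe.1 (by simp)) hf hx

lemma sh_jet (hU : IsOpen U) {f : (ι → ℝ) → ℝ} (hf : ContDiffOn ℝ ∞ f U) {x : ι → ℝ} (hx : x ∈ U)
    (i : ι) : sh i (jet f x) = jet (pd i f) x := by
  funext m
  induction m using Quotient.inductionOn with
  | _ l =>
    change jet f x (i ::ₘ (l : Multiset ι)) = jet (pd i f) x (l : Multiset ι)
    rw [jet_coe hU (contDiffOn_pd hU hf i) hx, Multiset.cons_coe, jet_coe hU hf hx]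
    rfl

lemma pdl_add (hU : IsOpen U) (l : List ι) : ∀ {f g : (ι → ℝ) → ℝ}, ContDiffOn ℝ ∞ f U →
    ContDiffOn ℝ ∞ g U → Set.EqOn (pdl l (f + g)) (pdl l f + pdl l g) U := by
  induction l with
  | nil => intro f g _ _ x _; rfl
  | cons i l ih =>
    intro f g hf hg
    exact (pdl_congr hU l (pd_add hU hf hg i)).trans (ih (contDiffOn_pd hU hf i) (contDiffOn_pd hU hg i))

lemma pdl_zero (l : List ι) : pdl l (0 : (ι → ℝ) → ℝ) = 0 := by
  induction l with
  | nil => rfl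
  | cons i l ih =>
    have : pd i (0 : (ι → ℝ) → ℝ) = 0 := by
      funext x; simp [pd]
    simp only [pdl, this, ih]

lemma pdl_smul (l : List ι) (c : ℝ) : ∀ (f : (ι → ℝ) → ℝ), pdl l (c • f) = c • pdl l f := by
  induction l with
  | nil => intro f; rfl
  | cons i l ih =>
    intro f
    have : pd i (c • f) = c • pd i f := by
      funext x; simp [pd, fderiv_const_smul_field]
    simp only [pdl, this, ih]

lemma pdl_sum (hU : IsOpen U) (l : List ι) {α : Type*} (s : Finset α) (f : α → (ι → ℝ) → ℝ)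
    (hf : ∀ a, ContDiffOn ℝ ∞ (f a) U) {x : ι → ℝ} (hx : x ∈ U) :
    pdl l (∑ a ∈ s, f a) x = ∑ a ∈ s, pdl l (f a) x := by
  classical
  induction s using Finset.induction_on with
  | empty => simp [pdl_zero]
  | insert a s ha ih =>
    rw [Finset.sum_insert ha, Finset.sum_insert ha, ← ih]
    have h2 : ContDiffOn ℝ ∞ (∑ a ∈ s, f a) U := by
      have : (∑ a ∈ s, f a) = fun x => ∑ a ∈ s, f a x := by funext x; simp
      rw [this]
      exact ContDiffOn.sum fun a _ => hf a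
    exact pdl_add hU l (hf a) h2 hx

lemma mulj_jet (hU : IsOpen U) (l : List ι) : ∀ {f g : (ι → ℝ) → ℝ}, ContDiffOn ℝ ∞ f U →
    ContDiffOn ℝ ∞ g U → ∀ {x : ι → ℝ}, x ∈ U → mulj l (jet f x) (jet g x) = pdl l (f * g) x := by
  induction l with
  | nil =>
    intro f g hf hg x hx
    simp [mulj, jet, pdl]
  | cons i l ih =>
    intro f g hf hg x hx
    have hf' := contDiffOn_pd hU hf i
    have hg' := contDiffOn_pd hU hg i
    simp only [mulj, pdl]
    have e1 : pdl l (pd i f * g + f * pd i g) x = (pdl l (pd i f * g) + pdl l (f * pd i g)) x :=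
      pdl_add (f := pd i f * g) (g := f * pd i g) hU l (hf'.mul hg) (hf.mul hg') hx
    rw [sh_jet hU hf hx, sh_jet hU hg hx, ih hf' hg hx, ih hf hg' hx, pdl_congr hU l (pd_mul hU hf hg i) hx,
      e1]
    rfl

/-- jets of solutions solve the jet equations -/
lemma eqn_jet (hU : IsOpen U) {K : (ι → ℝ) → Matrix ι ι ℝ} (hK : ∀ s j, ContDiffOn ℝ ∞ (fun y => K y s j) U)
    {f : (ι → ℝ) → ℝ} (hf : ContDiffOn ℝ ∞ f U)
    (h : ∀ i j, ∀ x ∈ U, pd i (fun y => ∑ s, K y s j * pd s f y) x = pd j (fun y => ∑ s, K y s i * pd s f y) x)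
    {x : ι → ℝ} (hx : x ∈ U) (i j : ι) (l : List ι) :
    eqn (fun s j => jet (fun y => K y s j) x) (jet f x) i j l = 0 := by
  have key : ∀ i j, ∑ s, mulj (i :: l) (jet (fun y => K y s j) x) (sh s (jet f x)) =
      pdl l (pd i (fun y => ∑ s, K y s j * pd s f y)) x := by
    intro i j
    have h1 : ∀ s, mulj (i :: l) (jet (fun y => K y s j) x) (sh s (jet f x)) =
        pdl (i :: l) ((fun y => K y s j) * pd s f) x := by
      intro s
      rw [sh_jet hU hf hx, mulj_jet hU _ (hK s j) (contDiffOn_pd hU hf s) hx]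
    simp only [h1]
    rw [← pdl_sum hU (i :: l) Finset.univ (fun s => (fun y => K y s j) * pd s f)
      (fun s => (hK s j).mul (contDiffOn_pd hU hf s)) hx]
    have e : (∑ s, (fun y => K y s j) * pd s f) = (fun y => ∑ s, K y s j * pd s f y) := by
      funext y; simp
    rw [e]; rfl
  unfold eqn
  rw [key, key, pdl_congr hU l (h i j) hx, sub_self]

lemma analyticOnNhd_pd {f : (ι → ℝ) → ℝ} (hf : AnalyticOnNhd ℝ f U) (i : ι) :
    AnalyticOnNhd ℝ (pd i f) U := by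
  intro x hx
  exact ((ContinuousLinearMap.apply ℝ ℝ (Pi.single i (1 : ℝ) : ι → ℝ)).analyticAt _).comp (hf x hx).fderiv

lemma analyticOnNhd_pdl (l : List ι) : ∀ {f : (ι → ℝ) → ℝ}, AnalyticOnNhd ℝ f U →
    AnalyticOnNhd ℝ (pdl l f) U := by
  induction l with
  | nil => intro f h; exact h
  | cons i l ih => intro f h; exact ih (analyticOnNhd_pd h i)

section param

/-- partial derivative in the second block of variables -/
def pdx (i : ι) (G : ℝ × (ι → ℝ) → ℝ) : ℝ × (ι → ℝ) → ℝ :=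
  fun z => fderiv ℝ G z (0, Pi.single i 1)

def pdxl : List ι → (ℝ × (ι → ℝ) → ℝ) → ℝ × (ι → ℝ) → ℝ
  | [], G => G
  | i :: l, G => pdxl l (pdx i G)

variable {O : Set (ℝ × (ι → ℝ))}

lemma analyticOnNhd_pdx {G : ℝ × (ι → ℝ) → ℝ} (h : AnalyticOnNhd ℝ G O) (i : ι) :
    AnalyticOnNhd ℝ (pdx i G) O := by
  intro z hz
  exact ((ContinuousLinearMap.apply ℝ ℝ ((0, Pi.single i (1 : ℝ)) : ℝ × (ι → ℝ))).analyticAt _).comp
    (h z hz).fderiv

lemma analyticOnNhd_pdxl (l : List ι) : ∀ {G : ℝ × (ι → ℝ) → ℝ}, AnalyticOnNhd ℝ G O →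
    AnalyticOnNhd ℝ (pdxl l G) O := by
  induction l with
  | nil => intro G h; exact h
  | cons i l ih => intro G h; exact ih (analyticOnNhd_pdx h i)

lemma pdx_eq {G : ℝ × (ι → ℝ) → ℝ} (hG : AnalyticOnNhd ℝ G O) {θ : ℝ} {x : ι → ℝ} (hx : (θ, x) ∈ O)
    (i : ι) : pd i (fun y => G (θ, y)) x = pdx i G (θ, x) := by
  unfold pd pdx
  have h1 : HasFDerivAt (fun y : ι → ℝ => ((θ, y) : ℝ × (ι → ℝ))) (ContinuousLinearMap.inr ℝ ℝ (ι → ℝ)) x :=
    hasFDerivAt_prodMk_right θ x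
  have h2 := (hG _ hx).differentiableAt.hasFDerivAt.comp x h1
  have h3 : fderiv ℝ (fun y => G (θ, y)) x = (fderiv ℝ G (θ, x)).comp (ContinuousLinearMap.inr ℝ ℝ (ι → ℝ)) :=
    h2.fderiv
  rw [h3]; simp

lemma pdl_slice (hO : IsOpen O) (l : List ι) : ∀ {G : ℝ × (ι → ℝ) → ℝ}, AnalyticOnNhd ℝ G O →
    ∀ {θ : ℝ} {x : ι → ℝ}, (θ, x) ∈ O → pdl l (fun y => G (θ, y)) x = pdxl l G (θ, x) := by
  induction l with
  | nil => intro G _ θ x _; rfl
  | cons i l ih =>
    intro G hG θ x hx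
    have hopen : IsOpen {y : ι → ℝ | (θ, y) ∈ O} := hO.preimage (by fun_prop)
    have h1 : Set.EqOn (pd i (fun y => G (θ, y))) (fun y => pdx i G (θ, y)) {y | (θ, y) ∈ O} :=
      fun y hy => pdx_eq hG hy i
    simp only [pdl, pdxl]
    rw [pdl_congr hopen l h1 hx]
    exact ih (analyticOnNhd_pdx hG i) hx

end param

end

end Pool.Agent.K4H49.KT
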