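import Pool.Agent.K4H49.KT.Base3
import Pool.Agent.K4H49.KT.Base4
import Pool.Agent.K4H49.KT.Base5

/-! Existence of a good flat Killing tensor in every dimension `n ≥ 3`. -/

namespace Pool.Agent.K4H49.KT

theorem flatEx_fin : ∀ n : ℕ, 3 ≤ n → FlatEx (Fin n) := by
  intro n
  induction n using Nat.strong_induction_on with
  | _ n ih =>
    intro hn
    by_cases h3 : n = 3
    · subst h3; exact flat3
    by_cases h4 : n = 4
    · subst h4; exact flat4
    by_cases h5 : n = 5
    · subst h5; exact flat5
    obtain ⟨r, rfl⟩ : ∃ r, n = r + 3 := ⟨n - 3, by omega⟩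
    exact FlatEx.equiv finSumFinEquiv (FlatEx.sum (ih r (by omega) (by omega)) flat3)

end Pool.Agent.K4H49.KT
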