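import Pool.Agent.K4H49.KT.Scale
import Pool.Agent.K4H49.KT.Flat

/-! Existence of a good Killing tensor for every model metric. -/

namespace Pool.Agent.K4H49.KT

noncomputable section

set_option linter.unusedSectionVars false

open Multiset
open scoped ContDiff Topology

/-- the subalgebra of functions analytic on `W` -/
def anSub {E : Type} [NormedAddCommGroup E] [NormedSpace ℝ E] (W : Set E) : Subalgebra ℝ (E → ℝ) where
  carrier := {f | AnalyticOnNhd ℝ f W}
  mul_mem' := fun hf hg x hx => (hf x hx).mul (hg x hx)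
  add_mem' := fun hf hg x hx => (hf x hx).add (hg x hx)
  algebraMap_mem' := fun _ _ _ => analyticAt_const

lemma mem_anSub {E : Type} [NormedAddCommGroup E] [NormedSpace ℝ E] {W : Set E} {f : E → ℝ} :
    f ∈ anSub W ↔ AnalyticOnNhd ℝ f W := Iff.rfl

section joint

variable {ι : Type} [Fintype ι] [DecidableEq ι] {E : Type} [NormedAddCommGroup E] [NormedSpace ℝ E]

lemma analyticAt_Qf {S X : E → ι → ℝ} {z : E} (hS : ∀ i, AnalyticAt ℝ (fun z => S z i) z)
    (hX : ∀ i, AnalyticAt ℝ (fun z => X z i) z) : AnalyticAt ℝ (fun z => Qf (S z) (X z)) z := by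
  unfold Qf
  apply Finset.analyticAt_fun_sum
  intro i _
  exact (hS i).mul ((hX i).pow 2)

lemma analyticAt_cf {S X : E → ι → ℝ} {κ : E → ℝ} {z : E} (hS : ∀ i, AnalyticAt ℝ (fun z => S z i) z)
    (hκ : AnalyticAt ℝ κ z) (hX : ∀ i, AnalyticAt ℝ (fun z => X z i) z) :
    AnalyticAt ℝ (fun z => cf (S z) (κ z) (X z)) z := by
  unfold cf
  exact analyticAt_const.add ((hκ.div_const).mul (analyticAt_Qf hS hX))

lemma analyticAt_Xv {S X : E → ι → ℝ} {κ : E → ℝ} {z : E} (hS : ∀ i, AnalyticAt ℝ (fun z => S z i) z)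
    (hκ : AnalyticAt ℝ κ z) (hX : ∀ i, AnalyticAt ℝ (fun z => X z i) z) (a : KV ι) (i : ι) :
    AnalyticAt ℝ (fun z => Xv (S z) (κ z) a (X z) i) z := by
  rcases a with ⟨_ | q, r⟩
  · simp only [Xv]
    exact ((analyticAt_const.sub (hκ.div_const.mul (analyticAt_Qf hS hX))).mul analyticAt_const).add
      (hκ.div_const.mul (((hS r).mul (hX r)).mul (hX i)))
  · simp only [Xv]
    exact (((hS q).mul (hX q)).mul analyticAt_const).sub (((hS r).mul (hX r)).mul analyticAt_const)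

lemma analyticAt_Kc {S X : E → ι → ℝ} {κ : E → ℝ} {z : E} (hS : ∀ i, AnalyticAt ℝ (fun z => S z i) z)
    (hκ : AnalyticAt ℝ κ z) (hX : ∀ i, AnalyticAt ℝ (fun z => X z i) z) (T : TL ι) (i j : ι) :
    AnalyticAt ℝ (fun z => Kc (S z) (κ z) T (X z) i j) z := by
  unfold Kc
  induction T with
  | nil => simp only [List.map_nil, List.sum_nil]; exact analyticAt_const
  | cons t T ih =>
    simp only [List.map_cons, List.sum_cons]
    exact (analyticAt_const.mul (((analyticAt_Xv hS hκ hX _ _).mul (analyticAt_Xv hS hκ hX _ _)).add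
      ((analyticAt_Xv hS hκ hX _ _).mul (analyticAt_Xv hS hκ hX _ _)))).add ih

lemma analyticAt_KF {S X : E → ι → ℝ} {κ : E → ℝ} {z : E} (hS : ∀ i, AnalyticAt ℝ (fun z => S z i) z)
    (hκ : AnalyticAt ℝ κ z) (hX : ∀ i, AnalyticAt ℝ (fun z => X z i) z) (T : TL ι) (i j : ι)
    (hc : cf (S z) (κ z) (X z) ≠ 0) :
    AnalyticAt ℝ (fun z => KF (S z) (κ z) T (X z) i j) z := by
  simp only [KF, Matrix.of_apply]
  exact (((analyticAt_cf hS hκ hX).inv hc).pow 2).mul (hS j) |>.mul (analyticAt_Kc hS hκ hX T i j)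

end joint

variable {n : ℕ}

lemma cycDet_diag {k : Fin n → Fin n → Jet (Fin n)} {lam : Fin n → ℝ} (hd : Diag k lam)
    (hl : Function.Injective lam) : cycDet (mat0 k) (fun _ => 1) ≠ 0 := by
  have hm : mat0 k = Matrix.diagonal lam := by
    funext i j
    simp only [mat0, Matrix.of_apply, Matrix.diagonal_apply]
    exact hd i j
  unfold cycDet
  have e : (Matrix.of fun (i r : Fin n) => ((mat0 k) ^ (r : ℕ)).mulVec (fun _ => 1) i) =
      Matrix.vandermonde lam := by
    ext i r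
    simp only [Matrix.of_apply]
    rw [hm, Matrix.diagonal_pow]
    simp [Matrix.mulVec_diagonal, Matrix.vandermonde_apply]
  rw [e]
  exact Matrix.det_vandermonde_ne_zero_iff.2 hl

theorem exists_good (hn : 3 ≤ n) (s' : Fin n → ℝ) (hs' : ∀ i, s' i = 1 ∨ s' i = -1) (κ' : ℝ) :
    ∃ (T : TL (Fin n)) (v : Fin n → ℝ),
      Good 7 (fun i j => jet (fun x => KF s' κ' T x i j) 0) ∧
      cycDet (mat0 (fun i j => jet (fun x => KF s' κ' T x i j) 0)) v ≠ 0 := by
  obtain ⟨T, lam, hinj, hd, hL⟩ := flatEx_fin n hn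
  obtain ⟨p, hp0, hp1, hp2⟩ := exists_poly 7 (by norm_num) (kT T) (good_of_low hd hinj hL) (fun _ => 1)
    (cycDet_diag hd hinj)
  let S : ℝ → Fin n → ℝ := fun θ i => (1 - θ) + θ * s' i
  let kf : ℝ → ℝ := fun θ => θ * κ'
  let kθ : ℝ → Fin n → Fin n → Jet (Fin n) := fun θ i j => jet (fun x => KF (S θ) (kf θ) T x i j) 0
  have h0 : kθ 0 = kT T := by
    funext i j
    have e1 : S 0 = fun _ => 1 := by funext i; simp [S]
    have e2 : kf 0 = 0 := by simp [kf]
    simp only [kθ, e1, e2]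
    exact jet_KF_flat T i j
  -- the joint domain
  let O : Set (ℝ × (Fin n → ℝ)) := {z | cf (S z.1) (kf z.1) z.2 ≠ 0}
  have hSan : ∀ (z : ℝ × (Fin n → ℝ)) i, AnalyticAt ℝ (fun z : ℝ × (Fin n → ℝ) => S z.1 i) z := by
    intro z i
    exact (analyticAt_const.sub analyticAt_fst).add (analyticAt_fst.mul analyticAt_const)
  have hkan : ∀ (z : ℝ × (Fin n → ℝ)), AnalyticAt ℝ (fun z : ℝ × (Fin n → ℝ) => kf z.1) z := by
    intro z
    exact analyticAt_fst.mul analyticAt_const
  have hXan : ∀ (z : ℝ × (Fin n → ℝ)) i, AnalyticAt ℝ (fun z : ℝ × (Fin n → ℝ) => z.2 i) z := by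
    intro z i
    exact ((ContinuousLinearMap.proj (R := ℝ) (φ := fun _ : Fin n => ℝ) i).analyticAt _).comp analyticAt_snd
  have hcont : Continuous (fun z : ℝ × (Fin n → ℝ) => cf (S z.1) (kf z.1) z.2) := by
    rw [continuous_iff_continuousAt]
    intro z
    exact (analyticAt_cf (hSan z) (hkan z) (hXan z)).continuousAt
  have hO : IsOpen O := isOpen_ne_fun hcont continuous_const
  have hOz : ∀ θ : ℝ, (θ, (0 : Fin n → ℝ)) ∈ O := by
    intro θ
    change cf (S θ) (kf θ) 0 ≠ 0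
    simp [cf, Qf]
  have hGan : ∀ i j, AnalyticOnNhd ℝ (fun z : ℝ × (Fin n → ℝ) => KF (S z.1) (kf z.1) T z.2 i j) O := by
    intro i j z hz
    exact analyticAt_KF (hSan z) (hkan z) (hXan z) T i j hz
  have hpan : (fun θ => p (kθ θ)) ∈ anSub (Set.univ : Set ℝ) := by
    apply hp2
    intro i j m
    rw [mem_anSub]
    intro θ _
    have e : (fun θ => kθ θ i j m) = fun θ => pdxl m.toList
        (fun z : ℝ × (Fin n → ℝ) => KF (S z.1) (kf z.1) T z.2 i j) (θ, 0) := by
      funext θ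
      exact pdl_slice hO m.toList (hGan i j) (hOz θ)
    rw [e]
    have h1 := analyticOnNhd_pdxl m.toList (hGan i j) (θ, 0) (hOz θ)
    exact AnalyticAt.comp (g := pdxl m.toList (fun z : ℝ × (Fin n → ℝ) => KF (S z.1) (kf z.1) T z.2 i j))
      (f := fun θ : ℝ => (θ, (0 : Fin n → ℝ))) h1 (AnalyticAt.prod analyticAt_id analyticAt_const)
  -- a good parameter
  obtain ⟨θ, hθ1, hθ2, hθ⟩ : ∃ θ : ℝ, 1 / 2 < θ ∧ θ < 1 ∧ p (kθ θ) ≠ 0 := by
    by_contra hcon
    push Not at hcon
    have hev : (fun θ => p (kθ θ)) =ᶠ[𝓝 (3/4 : ℝ)] 0 := by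
      filter_upwards [Ioo_mem_nhds (show (1/2 : ℝ) < 3/4 by norm_num) (show (3/4 : ℝ) < 1 by norm_num)] with θ hθ
      exact hcon θ hθ.1 hθ.2
    have := (mem_anSub.1 hpan).eqOn_zero_of_preconnected_of_eventuallyEq_zero isPreconnected_univ
      (Set.mem_univ _) hev (Set.mem_univ (0:ℝ))
    simp only [h0, Pi.zero_apply] at this
    exact hp0 this
  obtain ⟨hG, hcyc⟩ := hp1 _ hθ
  have hθ0 : 0 < θ := by linarith
  have hpos : ∀ i, 0 < s' i / (θ * S θ i) := by
    intro i
    rcases hs' i with h | h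
    · have : S θ i = 1 := by simp [S, h]
      rw [h, this]; positivity
    · have : S θ i = 1 - 2 * θ := by simp only [S, h]; ring
      rw [h, this]
      apply div_pos_of_neg_of_neg (by norm_num)
      nlinarith
  let t : Fin n → ℝ := fun i => Real.sqrt (s' i / (θ * S θ i))
  have ht : ∀ i, t i ≠ 0 := fun i => (Real.sqrt_pos.2 (hpos i)).ne'
  have hS0 : ∀ i, S θ i ≠ 0 := by
    intro i h
    have := hpos i
    rw [h, mul_zero, div_zero] at this
    exact lt_irrefl _ this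
  have hsc : ∀ i, s' i = θ * (t i) ^ 2 * S θ i := by
    intro i
    simp only [t]
    rw [Real.sq_sqrt (hpos i).le]
    have := hS0 i
    field_simp
  refine ⟨scaleT θ t T, fun i => (t i)⁻¹ * 1, ?_⟩
  have hj : (fun i j => jet (fun x => KF s' κ' (scaleT θ t T) x i j) 0) = scaleK θ t (kθ θ) := by
    funext i j m
    have e : (fun x => KF s' κ' (scaleT θ t T) x i j) = (θ * (t i)⁻¹ * t j) •
        fun x => (fun x => KF (S θ) (kf θ) T x i j) (t * x) := by
      funext x
      rw [KF_scale hθ0.ne' ht hsc rfl]; rfl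
    have hU : IsOpen {x : Fin n → ℝ | (θ, x) ∈ O} := hO.preimage (by fun_prop)
    have hsm : ContDiffOn ℝ ∞ (fun x => KF (S θ) (kf θ) T x i j) {x | (θ, x) ∈ O} := by
      have : AnalyticOnNhd ℝ (fun x => KF (S θ) (kf θ) T x i j) {x | (θ, x) ∈ O} := by
        intro x hx
        exact AnalyticAt.comp (g := fun z : ℝ × (Fin n → ℝ) => KF (S z.1) (kf z.1) T z.2 i j)
          (f := fun x : Fin n → ℝ => (θ, x)) (hGan i j _ hx) (AnalyticAt.prod analyticAt_const analyticAt_id)
      exact this.contDiffOn hU.uniqueDiffOn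
    have h1 := pdl_scale hU t m.toList hsm (y := 0) (by simpa using hOz θ)
    simp only [jet, scaleK, kθ]
    rw [e, pdl_smul, Pi.smul_apply, smul_eq_mul, h1, mul_zero, Multiset.coe_toList]
  rw [hj]
  exact ⟨good_scale hθ0.ne' ht hG, cycDet_scale hθ0.ne' ht _ _ hcyc⟩

end

end Pool.Agent.K4H49.KT
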