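import Pool.Agent.K4H49.KT.Model

/-! Metrics, Killing tensors, conservation laws: definitions, and the Killing property of the explicit fields. -/

namespace Pool.Agent.K4H49.KT

noncomputable section

set_option linter.unusedSectionVars false

open Matrix
open scoped ContDiff Topology

variable {n : ℕ}

section bracket

variable {x p : Fin n → ℝ}

lemma pd_coord' (l i : Fin n) (x : Fin n → ℝ) : pd l (fun y : Fin n → ℝ => y i) x = if i = l then 1 else 0 := by
  have : HasFDerivAt (fun x : Fin n → ℝ => x i) (ContinuousLinearMap.proj (R := ℝ) (φ := fun _ : Fin n => ℝ) i) x :=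
    (ContinuousLinearMap.proj (R := ℝ) (φ := fun _ : Fin n => ℝ) i).hasFDerivAt
  simp only [pd, this.fderiv, ContinuousLinearMap.proj_apply, Pi.single_apply]

lemma pd_fadd (l : Fin n) {f g : (Fin n → ℝ) → ℝ} (hf : DifferentiableAt ℝ f x) (hg : DifferentiableAt ℝ g x) :
    pd l (fun y => f y + g y) x = pd l f x + pd l g x := by
  unfold pd; rw [fderiv_fun_add hf hg]; rfl

lemma pd_fsub (l : Fin n) {f g : (Fin n → ℝ) → ℝ} (hf : DifferentiableAt ℝ f x) (hg : DifferentiableAt ℝ g x) :
    pd l (fun y => f y - g y) x = pd l f x - pd l g x := by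
  unfold pd; rw [fderiv_fun_sub hf hg]; rfl

lemma pd_fmul (l : Fin n) {f g : (Fin n → ℝ) → ℝ} (hf : DifferentiableAt ℝ f x) (hg : DifferentiableAt ℝ g x) :
    pd l (fun y => f y * g y) x = pd l f x * g x + f x * pd l g x := by
  unfold pd; rw [fderiv_fun_mul hf hg]; simp; ring

lemma pd_fconst (l : Fin n) (c : ℝ) : pd l (fun _ : Fin n → ℝ => c) x = 0 := by
  simp [pd]

lemma pd_fcmul (l : Fin n) (c : ℝ) (f : (Fin n → ℝ) → ℝ) :
    pd l (fun y => c * f y) x = c * pd l f x := by
  have : (fun y => c * f y) = c • f := rfl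
  unfold pd; rw [this, fderiv_const_smul_field]; simp

lemma pd_fsum (l : Fin n) {α : Type*} (u : Finset α) {f : α → (Fin n → ℝ) → ℝ}
    (hf : ∀ a ∈ u, DifferentiableAt ℝ (f a) x) :
    pd l (fun y => ∑ a ∈ u, f a y) x = ∑ a ∈ u, pd l (f a) x := by
  unfold pd
  rw [fderiv_fun_sum hf]
  simp

lemma pd_Qf (s : Fin n → ℝ) (l : Fin n) (x : Fin n → ℝ) : pd l (Qf s) x = 2 * s l * x l := by
  have : Qf s = fun y => ∑ i, s i * y i ^ 2 := rfl
  rw [this, pd_fsum l Finset.univ (fun a _ => by fun_prop)]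
  have h : ∀ i, pd l (fun y : Fin n → ℝ => s i * y i ^ 2) x = if i = l then 2 * s i * x i else 0 := by
    intro i
    rw [pd_fcmul]
    have e : (fun y : Fin n → ℝ => y i ^ 2) = fun y => y i * y i := by funext y; ring
    rw [e, pd_fmul l (by fun_prop) (by fun_prop), pd_coord']
    by_cases h : i = l <;> simp [h]; ring
  simp [h]

/-- the linear function of the momenta attached to a Killing vector -/
def Xp (s : Fin n → ℝ) (κ : ℝ) (a : KV (Fin n)) (x p : Fin n → ℝ) : ℝ := ∑ i, Xv s κ a x i * p i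

lemma Xp_none (s : Fin n → ℝ) (κ : ℝ) (r : Fin n) (x p : Fin n → ℝ) :
    Xp s κ (none, r) x p = (1 - κ / 4 * Qf s x) * p r + κ / 2 * s r * (x r * ∑ i, x i * p i) := by
  simp only [Xp, Xv, add_mul, Finset.sum_add_distrib, mul_ite, mul_one, mul_zero, ite_mul, zero_mul,
    Finset.sum_ite_eq', Finset.mem_univ, if_true]
  congr 1
  rw [Finset.mul_sum, Finset.mul_sum]
  exact Finset.sum_congr rfl fun i _ => by ring

lemma Xp_some (s : Fin n → ℝ) (κ : ℝ) (q r : Fin n) (x p : Fin n → ℝ) :
    Xp s κ (some q, r) x p = s q * x q * p r - s r * x r * p q := by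
  simp [Xp, Xv, sub_mul, Finset.sum_sub_distrib]

/-- the Hamiltonian near points where `ρ ≠ 0` -/
def H0 (s : Fin n → ℝ) (κ : ℝ) (x p : Fin n → ℝ) : ℝ := (cf s κ x * cf s κ x) * Qf s p

lemma diff_Qf (s : Fin n → ℝ) : Differentiable ℝ (Qf s) := by
  have : Qf s = fun y => ∑ i, s i * y i ^ 2 := rfl
  rw [this]; fun_prop

lemma diff_cf (s : Fin n → ℝ) (κ : ℝ) : Differentiable ℝ (cf s κ) := by
  have : cf s κ = fun y => 1 + κ / 4 * Qf s y := rfl
  have h := diff_Qf s
  rw [this]; fun_prop

lemma pd_cf (s : Fin n → ℝ) (κ : ℝ) (l : Fin n) (x : Fin n → ℝ) : pd l (cf s κ) x = κ / 2 * s l * x l := by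
  have : cf s κ = fun y => 1 + κ / 4 * Qf s y := rfl
  have h := diff_Qf s
  rw [this, pd_fadd l (by fun_prop) (by fun_prop), pd_fconst, pd_fcmul, pd_Qf]; ring

lemma pd_H0_x (s : Fin n → ℝ) (κ : ℝ) (l : Fin n) (x p : Fin n → ℝ) :
    pd l (fun y => H0 s κ y p) x = κ * s l * x l * cf s κ x * Qf s p := by
  have h := diff_cf s κ
  unfold H0
  rw [pd_fmul l (by fun_prop) (by fun_prop), pd_fmul l (h x) (h x), pd_cf, pd_fconst]; ring

lemma pd_H0_p (s : Fin n → ℝ) (κ : ℝ) (l : Fin n) (x p : Fin n → ℝ) :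
    pd l (fun q => H0 s κ x q) p = 2 * cf s κ x ^ 2 * s l * p l := by
  unfold H0
  rw [pd_fcmul, pd_Qf]; ring

lemma diff_Xp_x (s : Fin n → ℝ) (κ : ℝ) (a : KV (Fin n)) (p : Fin n → ℝ) :
    Differentiable ℝ (fun y => Xp s κ a y p) := by
  rcases a with ⟨_ | q, r⟩
  · simp only [Xp_none]; have := diff_Qf s; fun_prop
  · simp only [Xp_some]; fun_prop

lemma diff_Xp_p (s : Fin n → ℝ) (κ : ℝ) (a : KV (Fin n)) (x : Fin n → ℝ) :
    Differentiable ℝ (fun q => Xp s κ a x q) := by
  unfold Xp; fun_prop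

lemma poisson_Xp (s : Fin n → ℝ) (hs : ∀ i, s i = 1 ∨ s i = -1) (κ : ℝ) (a : KV (Fin n)) (x p : Fin n → ℝ) :
    poisson (Xp s κ a) (H0 s κ) x p = 0 := by
  have hs2 : ∀ i, s i * s i = 1 := by
    intro i; rcases hs i with h | h <;> rw [h] <;> norm_num
  unfold poisson
  simp only [pd_H0_x, pd_H0_p]
  rcases a with ⟨_ | q, r⟩
  · have h1 : ∀ l, pd l (fun y => Xp s κ (none, r) y p) x =
        -(κ / 2) * s l * x l * p r + κ / 2 * s r * ((if r = l then 1 else 0) * ∑ i, x i * p i + x r * p l) := by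
      intro l
      simp only [Xp_none]
      have hQ := diff_Qf s
      rw [pd_fadd l (by fun_prop) (by fun_prop), pd_fmul l (by fun_prop) (by fun_prop), pd_fconst,
        pd_fsub l (by fun_prop) (by fun_prop), pd_fconst, pd_fcmul, pd_Qf, pd_fcmul,
        pd_fmul l (by fun_prop) (by fun_prop), pd_coord', pd_fsum l Finset.univ (fun a _ => by fun_prop)]
      have h2 : ∀ i, pd l (fun y : Fin n → ℝ => y i * p i) x = if i = l then p l else 0 := by
        intro i
        rw [pd_fmul l (by fun_prop) (by fun_prop), pd_coord', pd_fconst]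
        by_cases h : i = l <;> simp [h]
      simp only [h2, Finset.sum_ite_eq', Finset.mem_univ, if_true]
      ring
    have h3 : ∀ l, pd l (fun q => Xp s κ (none, r) x q) p =
        (1 - κ / 4 * Qf s x) * (if r = l then 1 else 0) + κ / 2 * s r * (x r * x l) := by
      intro l
      simp only [Xp_none]
      rw [pd_fadd l (by fun_prop) (by fun_prop), pd_fcmul, pd_coord', pd_fcmul, pd_fcmul,
        pd_fsum l Finset.univ (fun a _ => by fun_prop)]
      have h2 : ∀ i, pd l (fun y : Fin n → ℝ => x i * y i) p = if i = l then x l else 0 := by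
        intro i
        rw [pd_fcmul, pd_coord']
        by_cases h : i = l <;> simp [h]
      simp only [h2, Finset.sum_ite_eq', Finset.mem_univ, if_true]
    simp only [h1, h3]
    have e : ∀ l, (-(κ / 2) * s l * x l * p r + κ / 2 * s r * ((if r = l then 1 else 0) * ∑ i, x i * p i + x r * p l)) *
        (2 * cf s κ x ^ 2 * s l * p l) -
        ((1 - κ / 4 * Qf s x) * (if r = l then 1 else 0) + κ / 2 * s r * (x r * x l)) *
        (κ * s l * x l * cf s κ x * Qf s p) =
        (-κ * p r * cf s κ x ^ 2) * (x l * p l) +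
        (if r = l then κ * (∑ i, x i * p i) * cf s κ x ^ 2 * p l - (1 - κ / 4 * Qf s x) * κ * s l * x l * cf s κ x * Qf s p else 0) +
        (κ * s r * x r * cf s κ x ^ 2) * (s l * p l ^ 2) -
        (κ ^ 2 / 2 * s r * x r * cf s κ x * Qf s p) * (s l * x l ^ 2) := by
      intro l
      by_cases h : r = l
      · subst h
        simp only [if_true]
        linear_combination (-κ * x r * p r * cf s κ x ^ 2 * p r + κ * (∑ i, x i * p i) * cf s κ x ^ 2 * p r) * hs2 r
      · simp only [h, if_false]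
        linear_combination (-κ * x l * p r * cf s κ x ^ 2 * p l) * hs2 l
    simp only [e]
    rw [Finset.sum_sub_distrib, Finset.sum_add_distrib, Finset.sum_add_distrib, ← Finset.mul_sum,
      ← Finset.mul_sum, ← Finset.mul_sum, Finset.sum_ite_eq Finset.univ r, if_pos (Finset.mem_univ _)]
    have eQ1 : ∑ i, s i * p i ^ 2 = Qf s p := rfl
    have eQ2 : ∑ i, s i * x i ^ 2 = Qf s x := rfl
    rw [eQ1, eQ2]
    have ec : cf s κ x = 1 + κ / 4 * Qf s x := rfl
    rw [ec]
    ring
  · have h1 : ∀ l, pd l (fun y => Xp s κ (some q, r) y p) x =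
        s q * p r * (if q = l then 1 else 0) - s r * p q * (if r = l then 1 else 0) := by
      intro l
      simp only [Xp_some]
      rw [pd_fsub l (by fun_prop) (by fun_prop)]
      have e1 : (fun y : Fin n → ℝ => s q * y q * p r) = fun y => (s q * p r) * y q := by funext y; ring
      have e2 : (fun y : Fin n → ℝ => s r * y r * p q) = fun y => (s r * p q) * y r := by funext y; ring
      rw [e1, e2, pd_fcmul, pd_fcmul, pd_coord', pd_coord']
    have h3 : ∀ l, pd l (fun z => Xp s κ (some q, r) x z) p =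
        s q * x q * (if r = l then 1 else 0) - s r * x r * (if q = l then 1 else 0) := by
      intro l
      simp only [Xp_some]
      rw [pd_fsub l (by fun_prop) (by fun_prop), pd_fcmul, pd_fcmul, pd_coord', pd_coord']
    simp only [h1, h3]
    have e : ∀ l, (s q * p r * (if q = l then 1 else 0) - s r * p q * (if r = l then 1 else 0)) *
        (2 * cf s κ x ^ 2 * s l * p l) -
        (s q * x q * (if r = l then 1 else 0) - s r * x r * (if q = l then 1 else 0)) *
        (κ * s l * x l * cf s κ x * Qf s p) =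
        (if q = l then s q * p r * (2 * cf s κ x ^ 2 * s l * p l) + s r * x r * (κ * s l * x l * cf s κ x * Qf s p) else 0) -
        (if r = l then s r * p q * (2 * cf s κ x ^ 2 * s l * p l) + s q * x q * (κ * s l * x l * cf s κ x * Qf s p) else 0) := by
      intro l
      split_ifs <;> ring
    simp only [e]
    rw [Finset.sum_sub_distrib, Finset.sum_ite_eq Finset.univ q, Finset.sum_ite_eq Finset.univ r,
      if_pos (Finset.mem_univ _), if_pos (Finset.mem_univ _)]
    linear_combination (p r * 2 * cf s κ x ^ 2 * p q) * hs2 q - (p q * 2 * cf s κ x ^ 2 * p r) * hs2 r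

end bracket

end

end Pool.Agent.K4H49.KT
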