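import Mathlib

/-! Formal jets (derivative coefficients indexed by multisets) and the conservation law equations. -/

namespace Pool.Agent.K4H49.KT

noncomputable section

open Multiset

variable {ι : Type*}

/-- A formal jet: `u m` plays the role of the partial derivative `∂^m u` at a point. -/
abbrev Jet (ι : Type*) := Multiset ι → ℝ

/-- partial derivative of a jet -/
def sh (i : ι) (u : Jet ι) : Jet ι := fun m => u (i ::ₘ m)

/-- derivative `∂^l` of a product, at the base point -/
def mulj : List ι → Jet ι → Jet ι → ℝ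
  | [], k, u => k 0 * u 0
  | i :: l, k, u => mulj l (sh i k) u + mulj l k (sh i u)

@[simp] lemma sh_apply (i : ι) (u : Jet ι) (m : Multiset ι) : sh i u m = u (i ::ₘ m) := rfl

lemma sh_comm (i j : ι) (u : Jet ι) : sh i (sh j u) = sh j (sh i u) := by
  funext m; simp [sh, Multiset.cons_swap]

@[simp] lemma sh_add (i : ι) (u v : Jet ι) : sh i (u + v) = sh i u + sh i v := rfl
@[simp] lemma sh_smul (i : ι) (c : ℝ) (u : Jet ι) : sh i (c • u) = c • sh i u := rfl
@[simp] lemma sh_zero (i : ι) : sh i (0 : Jet ι) = 0 := rfl
@[simp] lemma sh_neg (i : ι) (u : Jet ι) : sh i (-u) = -sh i u := rfl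
@[simp] lemma sh_sub (i : ι) (u v : Jet ι) : sh i (u - v) = sh i u - sh i v := rfl

lemma mulj_comm (l : List ι) : ∀ k u : Jet ι, mulj l k u = mulj l u k := by
  induction l with
  | nil => intro k u; simp [mulj, mul_comm]
  | cons i l ih => intro k u; simp only [mulj]; rw [ih, ih k, add_comm]

lemma mulj_add_right (l : List ι) : ∀ k u v : Jet ι, mulj l k (u + v) = mulj l k u + mulj l k v := by
  induction l with
  | nil => intro k u v; simp [mulj, mul_add]
  | cons i l ih => intro k u v; simp only [mulj, sh_add, ih]; ring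

lemma mulj_smul_right (l : List ι) (c : ℝ) : ∀ k u : Jet ι, mulj l k (c • u) = c * mulj l k u := by
  induction l with
  | nil => intro k u; simp [mulj]; ring
  | cons i l ih => intro k u; simp only [mulj, sh_smul, ih]; ring

lemma mulj_add_left (l : List ι) (k k' u : Jet ι) : mulj l (k + k') u = mulj l k u + mulj l k' u := by
  rw [mulj_comm, mulj_add_right, mulj_comm l u, mulj_comm l u]

lemma mulj_smul_left (l : List ι) (c : ℝ) (k u : Jet ι) : mulj l (c • k) u = c * mulj l k u := by
  rw [mulj_comm, mulj_smul_right, mulj_comm l u]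

@[simp] lemma mulj_zero_right (l : List ι) (k : Jet ι) : mulj l k 0 = 0 := by
  have := mulj_smul_right l 0 k 0
  simpa using this

@[simp] lemma mulj_zero_left (l : List ι) (u : Jet ι) : mulj l 0 u = 0 := by
  rw [mulj_comm]; simp

lemma mulj_neg_right (l : List ι) (k u : Jet ι) : mulj l k (-u) = -mulj l k u := by
  have := mulj_smul_right l (-1) k u
  simpa using this

lemma mulj_sub_right (l : List ι) (k u v : Jet ι) : mulj l k (u - v) = mulj l k u - mulj l k v := by
  rw [sub_eq_add_neg, mulj_add_right, mulj_neg_right]; ring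

/-- linear map version -/
def muljR (l : List ι) (k : Jet ι) : Jet ι →ₗ[ℝ] ℝ where
  toFun := mulj l k
  map_add' := mulj_add_right l k
  map_smul' := fun c u => by simpa using mulj_smul_right l c k u

lemma mulj_sum_right {α : Type*} (l : List ι) (k : Jet ι) (s : Finset α) (u : α → Jet ι) :
    mulj l k (∑ a ∈ s, u a) = ∑ a ∈ s, mulj l k (u a) :=
  map_sum (muljR l k) u s

lemma mulj_sum_left {α : Type*} (l : List ι) (k : α → Jet ι) (s : Finset α) (u : Jet ι) :
    mulj l (∑ a ∈ s, k a) u = ∑ a ∈ s, mulj l (k a) u := by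
  rw [mulj_comm, mulj_sum_right]; simp [mulj_comm l u]

lemma mulj_perm {l l' : List ι} (h : l.Perm l') : ∀ k u : Jet ι, mulj l k u = mulj l' k u := by
  induction h with
  | nil => intro k u; rfl
  | cons i _ ih => intro k u; simp only [mulj]; rw [ih, ih]
  | swap i j l =>
    intro k u; simp only [mulj]
    rw [sh_comm i j k, sh_comm i j u]; ring
  | trans _ _ ih1 ih2 => intro k u; rw [ih1, ih2]

/-- the value only depends on the entries below `l` -/
lemma mulj_congr (l : List ι) : ∀ k k' u u' : Jet ι, (∀ m, m ≤ (l : Multiset ι) → k m = k' m) →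
    (∀ m, m ≤ (l : Multiset ι) → u m = u' m) → mulj l k u = mulj l k' u' := by
  induction l with
  | nil => intro k k' u u' h h'; simp only [mulj]; rw [h 0 (by simp), h' 0 (by simp)]
  | cons i l ih =>
    intro k k' u u' h h'
    simp only [mulj]
    have e : ((i :: l : List ι) : Multiset ι) = i ::ₘ (l : Multiset ι) := rfl
    rw [ih (sh i k) (sh i k') u u', ih k k' (sh i u) (sh i u')]
    · intro m hm; exact h m (hm.trans (by rw [e]; exact Multiset.le_cons_self _ _))
    · intro m hm; exact h' _ (by rw [e]; exact Multiset.cons_le_cons _ hm)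
    · intro m hm; exact h _ (by rw [e]; exact Multiset.cons_le_cons _ hm)
    · intro m hm; exact h' m (hm.trans (by rw [e]; exact Multiset.le_cons_self _ _))

lemma mulj_eq_zero (l : List ι) (k u : Jet ι) (h : ∀ m, m ≤ (l : Multiset ι) → u m = 0) :
    mulj l k u = 0 := by
  rw [mulj_congr l k k u 0 (fun _ _ => rfl) (by simpa using h)]; simp

lemma mulj_eq_head (l : List ι) : ∀ (k u : Jet ι), (∀ m, m < (l : Multiset ι) → u m = 0) →
    mulj l k u = k 0 * u (l : Multiset ι) := by
  induction l with
  | nil => intro k u _; rfl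
  | cons i l ih =>
    intro k u h
    have e : ((i :: l : List ι) : Multiset ι) = i ::ₘ (l : Multiset ι) := rfl
    simp only [mulj]
    rw [mulj_eq_zero l (sh i k) u, ih k (sh i u), zero_add]
    · rfl
    · intro m hm
      exact h _ (by rw [e]; exact (Multiset.cons_lt_cons_iff).2 hm)
    · intro m hm
      exact h m (lt_of_le_of_lt hm (by rw [e]; exact Multiset.lt_cons_self _ _))

/-- head expansion with first order terms: `u` vanishes on all submultisets at least two smaller -/
lemma mulj_eq_head_one [DecidableEq ι] (l : List ι) : ∀ (k u : Jet ι),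
    (∀ m : Multiset ι, m ≤ (l : Multiset ι) → Multiset.card m + 2 ≤ l.length → u m = 0) →
    mulj l k u = k 0 * u (l : Multiset ι) +
      ((l : Multiset ι).map (fun t => k {t} * u ((l : Multiset ι).erase t))).sum := by
  induction l with
  | nil => intro k u _; simp [mulj]
  | cons i l ih =>
    intro k u h
    have e : ((i :: l : List ι) : Multiset ι) = i ::ₘ (l : Multiset ι) := rfl
    simp only [mulj]
    rw [ih k (sh i u), mulj_eq_head l (sh i k) u]
    · rw [e, Multiset.map_cons, Multiset.sum_cons]
      simp only [sh_apply, Multiset.erase_cons_head]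
      have : ((l : Multiset ι).map (fun t => k {t} * u (i ::ₘ (l : Multiset ι).erase t))) =
          ((l : Multiset ι).map (fun t => k {t} * u ((i ::ₘ (l : Multiset ι)).erase t))) := by
        apply Multiset.map_congr rfl
        intro t ht
        by_cases hti : t = i
        · subst hti
          rw [Multiset.erase_cons_head, Multiset.cons_erase ht]
        · rw [Multiset.erase_cons_tail_of_mem ht]
      rw [this]
      simp only [Multiset.cons_zero]
      ring_nf
    · intro m hm
      have hc : Multiset.card m < l.length := by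
        have := Multiset.card_lt_card hm
        simpa using this
      exact h m (by rw [e]; exact hm.le.trans (Multiset.le_cons_self _ _)) (by simp; omega)
    · intro m hm hc
      exact h _ (by rw [e]; exact Multiset.cons_le_cons _ hm) (by simp; omega)

/-- product of jets -/
def mulJ (k u : Jet ι) : Jet ι := fun m => mulj m.toList k u

lemma mulJ_coe (k u : Jet ι) (l : List ι) : mulJ k u (l : Multiset ι) = mulj l k u := by
  unfold mulJ
  apply mulj_perm
  exact Multiset.coe_eq_coe.1 (by simp)

lemma sh_mulJ (i : ι) (k u : Jet ι) : sh i (mulJ k u) = mulJ (sh i k) u + mulJ k (sh i u) := by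
  funext m
  induction m using Quotient.inductionOn with
  | _ l =>
    change mulJ k u (i ::ₘ (l : Multiset ι)) = mulJ (sh i k) u (l : Multiset ι) + mulJ k (sh i u) (l : Multiset ι)
    rw [mulJ_coe, mulJ_coe, show i ::ₘ (l : Multiset ι) = ((i :: l : List ι) : Multiset ι) from rfl, mulJ_coe]
    rfl

@[simp] lemma mulJ_zero_apply (k u : Jet ι) : mulJ k u 0 = k 0 * u 0 := by
  have := mulJ_coe k u []
  simpa [mulj] using this

lemma mulj_mulJ_assoc (l : List ι) : ∀ a b c : Jet ι, mulj l (mulJ a b) c = mulj l a (mulJ b c) := by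
  induction l with
  | nil => intro a b c; simp [mulj, mul_assoc]
  | cons i l ih =>
    intro a b c
    simp only [mulj, sh_mulJ, mulj_add_left, mulj_add_right, ih]
    ring

/-- the conservation law equation `∂^l (∂_i (K^* df)_j - ∂_j (K^* df)_i)` at the base point -/
def eqn [Fintype ι] (k : ι → ι → Jet ι) (u : Jet ι) (i j : ι) (l : List ι) : ℝ :=
  ∑ s, mulj (i :: l) (k s j) (sh s u) - ∑ s, mulj (j :: l) (k s i) (sh s u)

/-- `u` solves all the equations of order at most `N` -/
def Sol [Fintype ι] (N : ℕ) (k : ι → ι → Jet ι) (u : Jet ι) : Prop :=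
  ∀ i j (l : List ι), l.length + 2 ≤ N → eqn k u i j l = 0

lemma eqn_add [Fintype ι] (k : ι → ι → Jet ι) (u v : Jet ι) (i j : ι) (l : List ι) :
    eqn k (u + v) i j l = eqn k u i j l + eqn k v i j l := by
  simp only [eqn, sh_add, mulj_add_right, Finset.sum_add_distrib]; ring

lemma eqn_smul [Fintype ι] (k : ι → ι → Jet ι) (c : ℝ) (u : Jet ι) (i j : ι) (l : List ι) :
    eqn k (c • u) i j l = c * eqn k u i j l := by
  simp only [eqn, sh_smul, mulj_smul_right, ← Finset.mul_sum]; ring

lemma eqn_sub [Fintype ι] (k : ι → ι → Jet ι) (u v : Jet ι) (i j : ι) (l : List ι) :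
    eqn k (u - v) i j l = eqn k u i j l - eqn k v i j l := by
  simp only [eqn, sh_sub, mulj_sub_right, Finset.sum_sub_distrib]; ring

/-- linear map version -/
def eqnL [Fintype ι] (k : ι → ι → Jet ι) (i j : ι) (l : List ι) : Jet ι →ₗ[ℝ] ℝ where
  toFun := fun u => eqn k u i j l
  map_add' := fun u v => eqn_add k u v i j l
  map_smul' := fun c u => by simpa using eqn_smul k c u i j l

lemma eqn_congr [Fintype ι] (k : ι → ι → Jet ι) (u v : Jet ι) (i j : ι) (l : List ι)
    (h : ∀ m : Multiset ι, m ≠ 0 → Multiset.card m ≤ l.length + 2 → u m = v m) :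
    eqn k u i j l = eqn k v i j l := by
  unfold eqn
  have key : ∀ (i : ι) (s : ι) (kk : Jet ι), mulj (i :: l) kk (sh s u) = mulj (i :: l) kk (sh s v) := by
    intro i s kk
    apply mulj_congr _ _ _ _ _ (fun _ _ => rfl)
    intro m hm
    apply h _ (by simp)
    have := Multiset.card_le_card hm
    simp at this ⊢
    omega
  simp only [key]

end

end Pool.Agent.K4H49.KT
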