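import Pool.Agent.K4H49.KT.Jets

/-! The kernel lemma: top order solutions coming from a cyclic operator. -/

namespace Pool.Agent.K4H49.KT

noncomputable section

open Polynomial Matrix

variable {ι : Type*} [Fintype ι] [DecidableEq ι]

/-- `v` is a cyclic vector of `A` -/
def Cyc (A : Matrix ι ι ℝ) (v : ι → ℝ) : Prop :=
  ∃ φ : ι → ℝ[X], ∀ i, (aeval A (φ i)) *ᵥ v = Pi.single i 1

/-- all solutions of the equations of order `≤ N` have vanishing jet of order `1..N-1` -/
def Low (N : ℕ) (k : ι → ι → Jet ι) : Prop :=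
  ∀ u, Sol N k u → ∀ m : Multiset ι, m ≠ 0 → Multiset.card m < N → u m = 0

/-- the solution space of the equations of order `≤ N` has dimension at most `n` -/
def Good (N : ℕ) (k : ι → ι → Jet ι) : Prop :=
  ∃ π : Jet ι →ₗ[ℝ] (ι → ℝ), ∀ u, Sol N k u → π u = 0 →
    ∀ m : Multiset ι, m ≠ 0 → Multiset.card m ≤ N → u m = 0

/-- the matrix of `K` at the base point -/
def mat0 (k : ι → ι → Jet ι) : Matrix ι ι ℝ := Matrix.of fun s j => k s j 0

omit [DecidableEq ι] in
lemma Sol.add {N : ℕ} {k : ι → ι → Jet ι} {u v : Jet ι} (hu : Sol N k u) (hv : Sol N k v) :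
    Sol N k (u + v) := by
  intro i j l h; rw [eqn_add, hu i j l h, hv i j l h, add_zero]

omit [DecidableEq ι] in
lemma Sol.sub {N : ℕ} {k : ι → ι → Jet ι} {u v : Jet ι} (hu : Sol N k u) (hv : Sol N k v) :
    Sol N k (u - v) := by
  intro i j l h; rw [eqn_sub, hu i j l h, hv i j l h, sub_zero]

/-- the top order solutions -/
def wtop (N : ℕ) (A : Matrix ι ι ℝ) (v : ι → ℝ) (φ : ι → ℝ[X]) : (ι → ℝ) →ₗ[ℝ] Jet ι where
  toFun := fun θ m => if Multiset.card m = N then θ ⬝ᵥ ((aeval A ((m.map φ).prod)) *ᵥ v) else 0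
  map_add' := by
    intro θ θ'; funext m
    by_cases h : Multiset.card m = N <;> simp [h, add_dotProduct]
  map_smul' := by
    intro c θ; funext m
    by_cases h : Multiset.card m = N <;> simp [h, smul_dotProduct]

lemma wtop_apply (N : ℕ) (A : Matrix ι ι ℝ) (v : ι → ℝ) (φ : ι → ℝ[X]) (θ : ι → ℝ) (m : Multiset ι) :
    wtop N A v φ θ m = if Multiset.card m = N then θ ⬝ᵥ ((aeval A ((m.map φ).prod)) *ᵥ v) else 0 := rfl

lemma wtop_key (A : Matrix ι ι ℝ) (v : ι → ℝ) (φ : ι → ℝ[X])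
    (hφ : ∀ i, (aeval A (φ i)) *ᵥ v = Pi.single i 1) (θ : ι → ℝ) (ψ : ℝ[X]) (j : ι) :
    ∑ s, A s j * (θ ⬝ᵥ ((aeval A (φ s * ψ)) *ᵥ v)) = θ ⬝ᵥ ((aeval A (ψ * X * φ j)) *ᵥ v) := by
  have h1 : (aeval A (ψ * X * φ j)) *ᵥ v = (aeval A ψ) *ᵥ (A *ᵥ (Pi.single j 1)) := by
    rw [map_mul, map_mul, aeval_X, ← hφ j, Matrix.mulVec_mulVec, Matrix.mulVec_mulVec, mul_assoc]
  have h2 : A *ᵥ (Pi.single j 1) = ∑ s, A s j • (Pi.single s (1 : ℝ) : ι → ℝ) := by
    funext r
    simp [Matrix.mulVec_single, Finset.sum_apply, Pi.single_apply]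
  rw [h1, h2, Matrix.mulVec_sum, dotProduct_sum]
  refine Finset.sum_congr rfl fun s _ => ?_
  rw [Matrix.mulVec_smul, dotProduct_smul, smul_eq_mul, ← hφ s, Matrix.mulVec_mulVec, ← map_mul,
    mul_comm ψ]

lemma wtop_sol (N : ℕ) (k : ι → ι → Jet ι) (v : ι → ℝ) (φ : ι → ℝ[X])
    (hφ : ∀ i, (aeval (mat0 k) (φ i)) *ᵥ v = Pi.single i 1) (θ : ι → ℝ) :
    Sol N k (wtop N (mat0 k) v φ θ) := by
  intro i j l hl
  have key : ∀ (i : ι) (s : ι) (kk : Jet ι), mulj (i :: l) kk (sh s (wtop N (mat0 k) v φ θ)) =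
      kk 0 * wtop N (mat0 k) v φ θ (s ::ₘ i ::ₘ (l : Multiset ι)) := by
    intro i s kk
    rw [mulj_eq_head]
    · rfl
    · intro m hm
      have hc := Multiset.card_lt_card hm
      simp at hc
      rw [sh_apply, wtop_apply, if_neg]
      simp; omega
  unfold eqn
  simp only [key]
  by_cases hN : l.length + 2 = N
  · have h1 : ∀ i s, wtop N (mat0 k) v φ θ (s ::ₘ i ::ₘ (l : Multiset ι)) =
        θ ⬝ᵥ ((aeval (mat0 k) (φ s * (φ i * ((l : Multiset ι).map φ).prod))) *ᵥ v) := by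
      intro i s
      rw [wtop_apply, if_pos (by simp; omega)]
      simp
    simp only [h1]
    have h2 := wtop_key (mat0 k) v φ hφ θ (φ i * ((l : Multiset ι).map φ).prod) j
    have h3 := wtop_key (mat0 k) v φ hφ θ (φ j * ((l : Multiset ι).map φ).prod) i
    simp only [mat0, Matrix.of_apply] at h2 h3
    simp only [mat0]
    rw [h2, h3]
    have : φ i * ((l : Multiset ι).map φ).prod * X * φ j = φ j * ((l : Multiset ι).map φ).prod * X * φ i := by
      ring
    rw [this, sub_self]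
  · have h1 : ∀ i s, wtop N (mat0 k) v φ θ (s ::ₘ i ::ₘ (l : Multiset ι)) = 0 := by
      intro i s
      rw [wtop_apply, if_neg]
      simp; omega
    simp only [h1, mul_zero, Finset.sum_const_zero, sub_zero]

lemma wtop_inj (N : ℕ) (hN : 1 ≤ N) (A : Matrix ι ι ℝ) (v : ι → ℝ) (φ : ι → ℝ[X])
    (hφ : ∀ i, (aeval A (φ i)) *ᵥ v = Pi.single i 1) (θ : ι → ℝ)
    (h : ∀ m : Multiset ι, Multiset.card m = N → wtop N A v φ θ m = 0) : θ = 0 := by
  set η : ℝ[X] := ∑ i, C (v i) * φ i with hη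
  have hηv : (aeval A η) *ᵥ v = v := by
    rw [hη, map_sum, Matrix.sum_mulVec]
    have : ∀ i, (aeval A (C (v i) * φ i)) *ᵥ v = v i • (Pi.single i (1 : ℝ) : ι → ℝ) := by
      intro i
      rw [map_mul, aeval_C, ← Matrix.mulVec_mulVec, hφ i]
      rw [Algebra.algebraMap_eq_smul_one, Matrix.smul_mulVec, Matrix.one_mulVec]
    simp only [this]
    funext r
    simp [Finset.sum_apply, Pi.single_apply]
  have key : ∀ (r : ℕ) (m : Multiset ι), Multiset.card m + r = N →
      θ ⬝ᵥ ((aeval A (η ^ r * (m.map φ).prod)) *ᵥ v) = 0 := by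
    intro r
    induction r with
    | zero =>
      intro m hm
      have := h m (by omega)
      rw [wtop_apply, if_pos (by omega)] at this
      simpa using this
    | succ r ih =>
      intro m hm
      have e : η ^ (r + 1) * (m.map φ).prod = ∑ i, C (v i) * (η ^ r * ((i ::ₘ m).map φ).prod) := by
        rw [pow_succ, mul_assoc]
        conv_lhs => rw [hη, Finset.sum_mul, Finset.mul_sum]
        refine Finset.sum_congr rfl fun i _ => ?_
        rw [Multiset.map_cons, Multiset.prod_cons]; ring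
      rw [e, map_sum, Matrix.sum_mulVec, dotProduct_sum]
      refine Finset.sum_eq_zero fun i _ => ?_
      rw [map_mul, aeval_C, ← Matrix.mulVec_mulVec, Algebra.algebraMap_eq_smul_one, Matrix.smul_mulVec,
        Matrix.one_mulVec, dotProduct_smul, ih (i ::ₘ m) (by simp; omega), smul_zero]
  funext j
  have h1 := key (N - 1) {j} (by simp; omega)
  have h2 : ∀ r : ℕ, (aeval A (η ^ r * φ j)) *ᵥ v = Pi.single j 1 := by
    intro r
    have h3 : ∀ r : ℕ, (aeval A (η ^ r)) *ᵥ v = v := by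
      intro r
      induction r with
      | zero => simp
      | succ r ih => rw [pow_succ, map_mul, ← Matrix.mulVec_mulVec, hηv, ih]
    rw [mul_comm, map_mul, ← Matrix.mulVec_mulVec, h3 r, hφ j]
  simp only [Multiset.map_singleton, Multiset.prod_singleton] at h1
  rw [h2] at h1
  simpa using h1

theorem low_of_good {N : ℕ} (hN : 1 ≤ N) {k : ι → ι → Jet ι} (hG : Good N k) {v : ι → ℝ}
    (hc : Cyc (mat0 k) v) : Low N k := by
  obtain ⟨π, hπ⟩ := hG
  obtain ⟨φ, hφ⟩ := hc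
  have hinj : Function.Injective (π ∘ₗ wtop N (mat0 k) v φ) := by
    rw [← LinearMap.ker_eq_bot, LinearMap.ker_eq_bot']
    intro θ hθ
    apply wtop_inj N hN (mat0 k) v φ hφ θ
    intro m hm
    apply hπ _ (wtop_sol N k v φ hφ θ) hθ m
    · rintro rfl; simp at hm; omega
    · omega
  have hsurj : Function.Surjective (π ∘ₗ wtop N (mat0 k) v φ) :=
    LinearMap.injective_iff_surjective.1 hinj
  intro u hu m hm0 hm
  obtain ⟨θ, hθ⟩ := hsurj (π u)
  have h1 := hπ (u - wtop N (mat0 k) v φ θ) (hu.sub (wtop_sol N k v φ hφ θ))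
    (by rw [map_sub]; simp only [LinearMap.comp_apply] at hθ; rw [hθ, sub_self]) m hm0 hm.le
  have h2 : wtop N (mat0 k) v φ θ m = 0 := by rw [wtop_apply, if_neg (by omega)]
  have h3 : u m - wtop N (mat0 k) v φ θ m = 0 := h1
  rw [h2, sub_zero] at h3
  exact h3

end

end Pool.Agent.K4H49.KT
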