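import Pool.Agent.K4H49.KT.Member

/-! Main theorem. -/

namespace Pool.Agent.K4H49.KT

noncomputable section

set_option linter.unusedSectionVars false

open Matrix
open scoped ContDiff Topology

variable {n : ℕ}

lemma cf_star {s : Fin n → ℝ} {κ : ℝ} {x : Fin n → ℝ} (hx : 0 < cf s κ x) {a : ℝ} (h0 : 0 ≤ a) (h1 : a ≤ 1) :
    0 < cf s κ (a • x) := by
  have e : Qf s (a • x) = a ^ 2 * Qf s x := by
    unfold Qf
    rw [Finset.mul_sum]
    refine Finset.sum_congr rfl fun i _ => ?_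
    simp only [Pi.smul_apply, smul_eq_mul]; ring
  unfold cf at hx ⊢
  rw [e]
  have h2 : a ^ 2 ≤ 1 := by nlinarith
  have h3 : 0 ≤ a ^ 2 := sq_nonneg a
  have h4 : κ / 4 * (a ^ 2 * Qf s x) = a ^ 2 * (κ / 4 * Qf s x) := by ring
  rw [h4]
  rcases le_total 0 (κ / 4 * Qf s x) with h | h
  · have := mul_nonneg h3 h
    linarith
  · have := mul_nonneg (sub_nonneg.2 h2) (neg_nonneg.2 h)
    linarith

lemma isPreconnected_domain (s : Fin n → ℝ) (κ : ℝ) : IsPreconnected {x : Fin n → ℝ | 0 < cf s κ x} := by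
  have h : StarConvex ℝ (0 : Fin n → ℝ) {x : Fin n → ℝ | 0 < cf s κ x} := by
    rw [starConvex_zero_iff]
    intro x hx a h0 h1
    exact cf_star hx h0 h1
  have hne : (0 : Fin n → ℝ) ∈ {x : Fin n → ℝ | 0 < cf s κ x} := by simp [cf, Qf]
  exact (h.isPathConnected hne).isConnected.isPreconnected

/-- gradient vanishes at good points -/
lemma pd_eq_zero_of_good {U : Set (Fin n → ℝ)} (hU : IsOpen U)
    {K : (Fin n → ℝ) → Matrix (Fin n) (Fin n) ℝ}
    (hK : ∀ s j, ContDiffOn ℝ ∞ (fun y => K y s j) U) {f : (Fin n → ℝ) → ℝ} (hf : IsConservationLaw K U f)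
    {x : Fin n → ℝ} (hx : x ∈ U) (hG : Good 7 (fun s j => jet (fun y => K y s j) x)) {v : Fin n → ℝ}
    (hc : cycDet (mat0 (fun s j => jet (fun y => K y s j) x)) v ≠ 0) (i : Fin n) : pd i f x = 0 := by
  have hL := low_of_good (by norm_num) hG (cyc_of_cycDet _ _ hc)
  have h1 := hL (jet f x) (fun i j l _ => eqn_jet hU hK hf.1 (fun i j x hx => hf.2 x hx i j) hx i j l)
    {i} (by simp) (by simp)
  have h2 := jet_coe hU hf.1 hx [i]
  rw [Multiset.coe_singleton, h1] at h2
  exact h2.symm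

theorem main (n : ℕ) (hn : 3 ≤ n) (s : Fin n → ℝ) (hs : ∀ i, s i = 1 ∨ s i = -1) (κ : ℝ)
    (W : Set (Fin n → ℝ)) (hW : IsOpen W) (hWc : IsConnected W) (hWD : ∀ x ∈ W, 0 < cf s κ x) :
    ∃ P ∈ polynomialFunctions (killingTensors (modelMetric s κ) W), (∃ K, P K ≠ 0) ∧
      ∀ K, P K ≠ 0 → ∀ U ⊆ W, IsOpen U → IsConnected U → ∀ f : (Fin n → ℝ) → ℝ,
        IsConservationLaw (K : (Fin n → ℝ) → Matrix (Fin n) (Fin n) ℝ) U f → ∃ c : ℝ, ∀ x ∈ U, f x = c := by
  obtain ⟨T, v, hG, hcyc⟩ := exists_good hn s hs κ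
  obtain ⟨p, hp0, hp1, hp2⟩ := exists_poly 7 (by norm_num) _ hG v hcyc
  -- the analytic function on the whole domain
  set D : Set (Fin n → ℝ) := {x | 0 < cf s κ x} with hD
  have hjan : ∀ (W : Set (Fin n → ℝ)) (K : (Fin n → ℝ) → Matrix (Fin n) (Fin n) ℝ),
      (∀ i j, AnalyticOnNhd ℝ (fun x => K x i j) W) →
      AnalyticOnNhd ℝ (fun x => p (fun i j => jet (fun y => K y i j) x)) W := by
    intro W K hK
    have := hp2 (Fin n → ℝ) (anSub W) (fun x i j => jet (fun y => K y i j) x) ?_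
    · exact mem_anSub.1 this
    · intro i j m
      rw [mem_anSub]
      exact analyticOnNhd_pdl m.toList (hK i j)
  have hKF : ∀ i j, AnalyticOnNhd ℝ (fun x => KF s κ T x i j) D :=
    fun i j x hx => analyticAt_KF' s κ T i j x (ne_of_gt hx)
  obtain ⟨x0, hx0W, hx0⟩ : ∃ x0 ∈ W, p (fun i j => jet (fun y => KF s κ T y i j) x0) ≠ 0 := by
    by_contra hcon
    push Not at hcon
    obtain ⟨z, hz⟩ := hWc.nonempty
    have hev : (fun x => p (fun i j => jet (fun y => KF s κ T y i j) x)) =ᶠ[𝓝 z] 0 := by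
      filter_upwards [hW.mem_nhds hz] with y hy
      exact hcon y hy
    have := (hjan D (KF s κ T) hKF).eqOn_zero_of_preconnected_of_eventuallyEq_zero
      (isPreconnected_domain s κ) (hWD z hz) hev (show (0 : Fin n → ℝ) ∈ D by simp [hD, cf, Qf])
    exact hp0 this
  let P : killingTensors (modelMetric s κ) W → ℝ := fun K =>
    p (fun i j => jet (fun y => (K : (Fin n → ℝ) → Matrix (Fin n) (Fin n) ℝ) y i j) x0)
  have hKan : ∀ K : killingTensors (modelMetric s κ) W, ∀ i j,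
      AnalyticOnNhd ℝ (fun x => (K : (Fin n → ℝ) → Matrix (Fin n) (Fin n) ℝ) x i j) W := fun K => K.2.2.1
  have hKsm : ∀ K : killingTensors (modelMetric s κ) W, ∀ i j,
      ContDiffOn ℝ ∞ (fun x => (K : (Fin n → ℝ) → Matrix (Fin n) (Fin n) ℝ) x i j) W :=
    fun K i j => (hKan K i j).contDiffOn hW.uniqueDiffOn
  refine ⟨P, ?_, ⟨⟨KW s κ T W, KW_mem hs hW (fun x hx => (hWD x hx).ne') T⟩, ?_⟩, ?_⟩
  · apply hp2
    intro i j m
    apply Algebra.subset_adjoin
    refine ⟨{ toFun := fun K => jet (fun y => (K : (Fin n → ℝ) → Matrix (Fin n) (Fin n) ℝ) y i j) x0 m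
              map_add' := ?_, map_smul' := ?_ }, rfl⟩
    · intro K K'
      exact pdl_add hW m.toList (hKsm K i j) (hKsm K' i j) hx0W
    · intro c K
      exact congrFun (pdl_smul m.toList c (fun y => (K : (Fin n → ℝ) → Matrix (Fin n) (Fin n) ℝ) y i j)) x0
  · have e : (fun i j => jet (fun y => KW s κ T W y i j) x0) = fun i j => jet (fun y => KF s κ T y i j) x0 := by
      funext i j m
      exact pdl_congr hW m.toList (fun y hy => by rw [KW_eq hy]) hx0W
    change p (fun i j => jet (fun y => KW s κ T W y i j) x0) ≠ 0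
    rw [e]; exact hx0
  · intro K hK U hUW hU hUc f hf
    have han := hjan W K (hKan K)
    have hKU : ∀ i j, ContDiffOn ℝ ∞ (fun x => (K : (Fin n → ℝ) → Matrix (Fin n) (Fin n) ℝ) x i j) U :=
      fun i j => (hKsm K i j).mono hUW
    have hgood : ∀ x ∈ U, p (fun i j => jet (fun y => (K : (Fin n → ℝ) → Matrix (Fin n) (Fin n) ℝ) y i j) x) ≠ 0 →
        ∀ i, pd i f x = 0 := by
      intro x hx hpx i
      obtain ⟨h1, h2⟩ := hp1 _ hpx
      exact pd_eq_zero_of_good hU hKU hf hx h1 h2 i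
    have hall : ∀ x ∈ U, ∀ i, pd i f x = 0 := by
      intro x hx i
      by_contra hne
      have hcont : ContinuousAt (pd i f) x := ((contDiffOn_pd hU hf.1 i).continuousOn.continuousAt (hU.mem_nhds hx))
      have hev1 : ∀ᶠ y in 𝓝 x, pd i f y ≠ 0 := hcont.eventually_ne hne
      have hev2 : (fun x => p (fun i j => jet (fun y => (K : (Fin n → ℝ) → Matrix (Fin n) (Fin n) ℝ) y i j) x))
          =ᶠ[𝓝 x] 0 := by
        filter_upwards [hev1, hU.mem_nhds hx] with y hy hyU
        by_contra hpy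
        exact hy (hgood y hyU hpy i)
      have := han.eqOn_zero_of_preconnected_of_eventuallyEq_zero hWc.isPreconnected (hUW hx) hev2 hx0W
      exact hK this
    have hfd : Set.EqOn (fderiv ℝ f) 0 U := by
      intro x hx
      apply ContinuousLinearMap.coe_injective
      apply LinearMap.pi_ext
      intro i c
      have h1 : (Pi.single i c : Fin n → ℝ) = c • Pi.single i (1 : ℝ) := by
        rw [← Pi.single_smul]; simp
      have h2 := hall x hx i
      unfold pd at h2
      rw [h1, map_smul, map_smul]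
      simp [h2]
    obtain ⟨c, hc⟩ := hU.exists_is_const_of_fderiv_eq_zero hUc.isPreconnected
      (fun x hx => (differentiableAt_of hU hf.1 hx).differentiableWithinAt) hfd
    exact ⟨c, fun x hx => hc x hx⟩

end

end Pool.Agent.K4H49.KT
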