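import Pool.Agent.K4H49.KT.Geom
import Pool.Agent.K4H49.KT.Family

/-! The explicit fields are Killing tensors of the model metric. -/

namespace Pool.Agent.K4H49.KT

noncomputable section

set_option linter.unusedSectionVars false

open Matrix
open scoped ContDiff Topology

variable {n : ℕ}

section leib

variable {F G H : (Fin n → ℝ) → (Fin n → ℝ) → ℝ} {x p : Fin n → ℝ}

lemma poisson_add (h1 : DifferentiableAt ℝ (fun y => F y p) x) (h2 : DifferentiableAt ℝ (fun q => F x q) p)
    (h3 : DifferentiableAt ℝ (fun y => G y p) x) (h4 : DifferentiableAt ℝ (fun q => G x q) p) :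
    poisson (fun y q => F y q + G y q) H x p = poisson F H x p + poisson G H x p := by
  unfold poisson
  rw [← Finset.sum_add_distrib]
  refine Finset.sum_congr rfl fun i _ => ?_
  rw [pd_fadd i h1 h3, pd_fadd i h2 h4]; ring

lemma poisson_mul (h1 : DifferentiableAt ℝ (fun y => F y p) x) (h2 : DifferentiableAt ℝ (fun q => F x q) p)
    (h3 : DifferentiableAt ℝ (fun y => G y p) x) (h4 : DifferentiableAt ℝ (fun q => G x q) p) :
    poisson (fun y q => F y q * G y q) H x p = F x p * poisson G H x p + G x p * poisson F H x p := by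
  unfold poisson
  rw [Finset.mul_sum, Finset.mul_sum, ← Finset.sum_add_distrib]
  refine Finset.sum_congr rfl fun i _ => ?_
  rw [pd_fmul i h1 h3, pd_fmul i h2 h4]; ring

lemma poisson_cmul (c : ℝ) : poisson (fun y q => c * F y q) H x p = c * poisson F H x p := by
  unfold poisson
  rw [Finset.mul_sum]
  refine Finset.sum_congr rfl fun i _ => ?_
  rw [pd_fcmul, pd_fcmul]; ring

end leib

/-- the quadratic function of a list of terms -/
def F0 (s : Fin n → ℝ) (κ : ℝ) (T : TL (Fin n)) (x p : Fin n → ℝ) : ℝ :=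
  (T.map fun t => t.1 * (2 * (Xp s κ t.2.1 x p * Xp s κ t.2.2 x p))).sum

lemma F0_diff_x (s : Fin n → ℝ) (κ : ℝ) (T : TL (Fin n)) (p : Fin n → ℝ) :
    Differentiable ℝ (fun y => F0 s κ T y p) := by
  unfold F0
  induction T with
  | nil => simp only [List.map_nil, List.sum_nil]; exact differentiable_const _
  | cons t T ih =>
    simp only [List.map_cons, List.sum_cons]
    have h1 := diff_Xp_x s κ t.2.1 p
    have h2 := diff_Xp_x s κ t.2.2 p
    fun_prop

lemma F0_diff_p (s : Fin n → ℝ) (κ : ℝ) (T : TL (Fin n)) (x : Fin n → ℝ) :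
    Differentiable ℝ (fun q => F0 s κ T x q) := by
  unfold F0
  induction T with
  | nil => simp only [List.map_nil, List.sum_nil]; exact differentiable_const _
  | cons t T ih =>
    simp only [List.map_cons, List.sum_cons]
    have h1 := diff_Xp_p s κ t.2.1 x
    have h2 := diff_Xp_p s κ t.2.2 x
    fun_prop

lemma poisson_F0 (s : Fin n → ℝ) (hs : ∀ i, s i = 1 ∨ s i = -1) (κ : ℝ) (T : TL (Fin n)) (x p : Fin n → ℝ) :
    poisson (F0 s κ T) (H0 s κ) x p = 0 := by
  induction T with
  | nil =>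
    have : F0 s κ ([] : TL (Fin n)) = fun _ _ => 0 := by funext y q; simp [F0]
    rw [this]; simp [poisson, pd]
  | cons t T ih =>
    have e : F0 s κ (t :: T) = fun y q => t.1 * (2 * (Xp s κ t.2.1 y q * Xp s κ t.2.2 y q)) + F0 s κ T y q := by
      funext y q; simp [F0]
    have h1 := diff_Xp_x s κ t.2.1 p
    have h2 := diff_Xp_x s κ t.2.2 p
    have h3 := diff_Xp_p s κ t.2.1 x
    have h4 := diff_Xp_p s κ t.2.2 x
    rw [e, poisson_add (by fun_prop) (by fun_prop) (F0_diff_x s κ T p x) (F0_diff_p s κ T x p), ih,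
      poisson_cmul, poisson_cmul, poisson_mul (h1 x) (h3 p) (h2 x) (h4 p), poisson_Xp s hs, poisson_Xp s hs]
    ring

lemma modelMetric_inv {s : Fin n → ℝ} (hs : ∀ i, s i = 1 ∨ s i = -1) {κ : ℝ} {x : Fin n → ℝ}
    (hx : cf s κ x ≠ 0) : (modelMetric s κ x)⁻¹ = Matrix.diagonal fun i => s i * (cf s κ x) ^ 2 := by
  apply Matrix.inv_eq_right_inv
  rw [modelMetric, Matrix.diagonal_mul_diagonal, ← Matrix.diagonal_one]
  congr 1
  funext i
  have hs2 : s i * s i = 1 := by rcases hs i with h | h <;> rw [h] <;> norm_num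
  field_simp
  linear_combination hs2

lemma cometric_model {s : Fin n → ℝ} (hs : ∀ i, s i = 1 ∨ s i = -1) {κ : ℝ} {x : Fin n → ℝ}
    (hx : cf s κ x ≠ 0) (p : Fin n → ℝ) : cometric (modelMetric s κ) x p = H0 s κ x p := by
  unfold cometric H0 Qf
  rw [modelMetric_inv hs hx, dotProduct, Finset.mul_sum]
  refine Finset.sum_congr rfl fun i _ => ?_
  rw [Matrix.mulVec_diagonal]; ring

/-- the explicit Killing tensor restricted to `W` -/
def KW (s : Fin n → ℝ) (κ : ℝ) (T : TL (Fin n)) (W : Set (Fin n → ℝ)) :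
    (Fin n → ℝ) → Matrix (Fin n) (Fin n) ℝ := by
  classical exact fun x => if x ∈ W then KF s κ T x else 0

lemma KW_eq {s : Fin n → ℝ} {κ : ℝ} {T : TL (Fin n)} {W : Set (Fin n → ℝ)} {x : Fin n → ℝ} (hx : x ∈ W) :
    KW s κ T W x = KF s κ T x := by
  unfold KW; exact if_pos hx

lemma KW_eq_zero {s : Fin n → ℝ} {κ : ℝ} {T : TL (Fin n)} {W : Set (Fin n → ℝ)} {x : Fin n → ℝ} (hx : x ∉ W) :
    KW s κ T W x = 0 := by
  unfold KW; exact if_neg hx

lemma sum_sym (c : ℝ) (A B p : Fin n → ℝ) :
    ∑ j, ∑ i, c * (A i * B j + B i * A j) * (p i * p j) =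
      c * (2 * ((∑ i, A i * p i) * (∑ i, B i * p i))) := by
  have e1 : (∑ i, A i * p i) * (∑ j, B j * p j) = ∑ j, ∑ i, (A i * p i) * (B j * p j) := by
    rw [Finset.sum_mul_sum, Finset.sum_comm]
  have e2 : (∑ i, B i * p i) * (∑ j, A j * p j) = ∑ j, ∑ i, (B i * p i) * (A j * p j) := by
    rw [Finset.sum_mul_sum, Finset.sum_comm]
  have e3 : c * (2 * ((∑ i, A i * p i) * (∑ i, B i * p i))) =
      c * ((∑ i, A i * p i) * (∑ j, B j * p j)) + c * ((∑ i, B i * p i) * (∑ j, A j * p j)) := by ring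
  rw [e3, e1, e2, Finset.mul_sum, Finset.mul_sum, ← Finset.sum_add_distrib]
  refine Finset.sum_congr rfl fun j _ => ?_
  rw [Finset.mul_sum, Finset.mul_sum, ← Finset.sum_add_distrib]
  refine Finset.sum_congr rfl fun i _ => ?_
  ring

lemma sum_Kc (s : Fin n → ℝ) (κ : ℝ) (T : TL (Fin n)) (x p : Fin n → ℝ) :
    ∑ j, ∑ i, Kc s κ T x i j * (p i * p j) = F0 s κ T x p := by
  unfold Kc F0
  induction T with
  | nil => simp
  | cons t T ih =>
    have h := sum_sym t.1 (Xv s κ t.2.1 x) (Xv s κ t.2.2 x) p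
    simp only [List.map_cons, List.sum_cons, Xp] at ih ⊢
    rw [← ih, ← h, ← Finset.sum_add_distrib]
    refine Finset.sum_congr rfl fun j _ => ?_
    rw [← Finset.sum_add_distrib]
    refine Finset.sum_congr rfl fun i _ => ?_
    ring

lemma quadratic_KF {s : Fin n → ℝ} (hs : ∀ i, s i = 1 ∨ s i = -1) {κ : ℝ} {x : Fin n → ℝ}
    (hx : cf s κ x ≠ 0) (T : TL (Fin n)) (p : Fin n → ℝ) (K : (Fin n → ℝ) → Matrix (Fin n) (Fin n) ℝ)
    (hK : K x = KF s κ T x) : quadratic (modelMetric s κ) K x p = F0 s κ T x p := by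
  unfold quadratic
  rw [modelMetric_inv hs hx, hK, dotProduct, ← sum_Kc]
  refine Finset.sum_congr rfl fun j _ => ?_
  rw [Matrix.mulVec_diagonal, Matrix.mulVec, dotProduct, Finset.sum_mul]
  refine Finset.sum_congr rfl fun i _ => ?_
  rw [Matrix.transpose_apply]
  simp only [KF, Matrix.of_apply]
  have hs2 : s j * s j = 1 := by rcases hs j with h | h <;> rw [h] <;> norm_num
  have hcc : (cf s κ x)⁻¹ ^ 2 * (cf s κ x) ^ 2 = 1 := by
    field_simp
  linear_combination (Kc s κ T x i j * p i * p j) * (s j * s j) * hcc + (Kc s κ T x i j * p i * p j) * hs2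

lemma analytic_Xp_x (s : Fin n → ℝ) (κ : ℝ) (T : TL (Fin n)) (p x : Fin n → ℝ) :
    AnalyticAt ℝ (fun y => F0 s κ T y p) x := by
  have hX : ∀ i, AnalyticAt ℝ (fun y : Fin n → ℝ => y i) x := fun i =>
    (ContinuousLinearMap.proj (R := ℝ) (φ := fun _ : Fin n => ℝ) i).analyticAt _
  have e : (fun y => F0 s κ T y p) = fun y => ∑ j, ∑ i, Kc s κ T y i j * (p i * p j) := by
    funext y; exact (sum_Kc s κ T y p).symm
  rw [e]
  apply Finset.analyticAt_fun_sum
  intro j _
  apply Finset.analyticAt_fun_sum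
  intro i _
  exact (analyticAt_Kc (S := fun _ => s) (κ := fun _ => κ) (X := fun y => y) (fun i => analyticAt_const)
    analyticAt_const hX T i j).mul analyticAt_const

lemma analyticAt_KF' (s : Fin n → ℝ) (κ : ℝ) (T : TL (Fin n)) (i j : Fin n) (x : Fin n → ℝ)
    (hx : cf s κ x ≠ 0) : AnalyticAt ℝ (fun y => KF s κ T y i j) x := by
  have hX : ∀ i, AnalyticAt ℝ (fun y : Fin n → ℝ => y i) x := fun i =>
    (ContinuousLinearMap.proj (R := ℝ) (φ := fun _ : Fin n => ℝ) i).analyticAt _
  exact analyticAt_KF (S := fun _ => s) (κ := fun _ => κ) (X := fun y => y) (fun i => analyticAt_const)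
    analyticAt_const hX T i j hx

theorem KW_mem {s : Fin n → ℝ} (hs : ∀ i, s i = 1 ∨ s i = -1) {κ : ℝ} {W : Set (Fin n → ℝ)}
    (hW : IsOpen W) (hWD : ∀ x ∈ W, cf s κ x ≠ 0) (T : TL (Fin n)) :
    KW s κ T W ∈ killingTensors (modelMetric s κ) W := by
  have hev : ∀ x ∈ W, ∀ᶠ y in 𝓝 x, y ∈ W := fun x hx => hW.mem_nhds hx
  refine ⟨fun x hx => KW_eq_zero hx, fun i j x hx => ?_, fun p x hx => ?_, fun x hx => ?_, fun x hx p => ?_⟩
  · refine (analyticAt_KF' s κ T i j x (hWD x hx)).congr ?_
    filter_upwards [hev x hx] with y hy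
    rw [KW_eq hy]
  · refine (analytic_Xp_x s κ T p x).congr ?_
    filter_upwards [hev x hx] with y hy
    exact (quadratic_KF hs (hWD y hy) T p _ (KW_eq hy)).symm
  · rw [KW_eq hx]
    ext i j
    simp only [modelMetric, Matrix.transpose_apply, Matrix.diagonal_mul, KF, Matrix.of_apply]
    have hsym : Kc s κ T x i j = Kc s κ T x j i := by
      unfold Kc
      congr 1
      apply List.map_congr_left
      intro t _
      ring
    rw [hsym]; ring
  · have e1 : ∀ i, pd i (fun y => quadratic (modelMetric s κ) (KW s κ T W) y p) x =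
        pd i (fun y => F0 s κ T y p) x := by
      intro i
      unfold pd
      have : (fun y => quadratic (modelMetric s κ) (KW s κ T W) y p) =ᶠ[𝓝 x] fun y => F0 s κ T y p := by
        filter_upwards [hev x hx] with y hy
        exact quadratic_KF hs (hWD y hy) T p _ (KW_eq hy)
      rw [this.fderiv_eq]
    have e2 : (fun q => quadratic (modelMetric s κ) (KW s κ T W) x q) = fun q => F0 s κ T x q := by
      funext q
      exact quadratic_KF hs (hWD x hx) T q _ (KW_eq hx)
    have e3 : ∀ i, pd i (fun y => cometric (modelMetric s κ) y p) x = pd i (fun y => H0 s κ y p) x := by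
      intro i
      unfold pd
      have : (fun y => cometric (modelMetric s κ) y p) =ᶠ[𝓝 x] fun y => H0 s κ y p := by
        filter_upwards [hev x hx] with y hy
        exact cometric_model hs (hWD y hy) p
      rw [this.fderiv_eq]
    have e4 : (fun q => cometric (modelMetric s κ) x q) = fun q => H0 s κ x q := by
      funext q
      exact cometric_model hs (hWD x hx) q
    have := poisson_F0 s hs κ T x p
    unfold poisson at this ⊢
    rw [e2, e4]
    simp only [e1, e3]
    exact this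

end

end Pool.Agent.K4H49.KT
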