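import Pool.Agent.K4H49.KT.Kernel

/-! The polynomial certificate: nonvanishing of one polynomial in the jet of `K` is enough. -/

namespace Pool.Agent.K4H49.KT

noncomputable section

open Polynomial Matrix

/-- the determinant detecting that `v` is cyclic for `A` -/
def cycDet {n : ℕ} (A : Matrix (Fin n) (Fin n) ℝ) (v : Fin n → ℝ) : ℝ :=
  (Matrix.of fun (i k : Fin n) => ((A ^ (k : ℕ)) *ᵥ v) i).det

lemma cyc_of_cycDet {n : ℕ} (A : Matrix (Fin n) (Fin n) ℝ) (v : Fin n → ℝ) (h : cycDet A v ≠ 0) :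
    Cyc A v := by
  set C : Matrix (Fin n) (Fin n) ℝ := Matrix.of fun (i k : Fin n) => ((A ^ (k : ℕ)) *ᵥ v) i with hC
  have hu : IsUnit C.det := isUnit_iff_ne_zero.2 h
  refine ⟨fun i => ∑ k : Fin n, Polynomial.C (C⁻¹ k i) * X ^ (k : ℕ), fun i => ?_⟩
  rw [map_sum, Matrix.sum_mulVec]
  have h1 : ∀ k : Fin n, (aeval A (Polynomial.C (C⁻¹ k i) * X ^ (k : ℕ))) *ᵥ v =
      C⁻¹ k i • ((A ^ (k : ℕ)) *ᵥ v) := by
    intro k
    rw [map_mul, aeval_C, map_pow, aeval_X, Algebra.algebraMap_eq_smul_one, smul_mul_assoc, one_mul,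
      Matrix.smul_mulVec]
  simp only [h1]
  have h2 : C * C⁻¹ = 1 := Matrix.mul_nonsing_inv C hu
  funext r
  have h3 := congrFun (congrFun h2 r) i
  rw [Matrix.mul_apply] at h3
  rw [Finset.sum_apply]
  simp only [Pi.smul_apply, smul_eq_mul]
  have h4 : ∀ k, C r k = ((A ^ (k : ℕ)) *ᵥ v) r := fun k => rfl
  simp only [h4] at h3
  rw [Finset.sum_congr rfl (fun k _ => mul_comm (C⁻¹ k i) (((A ^ (k : ℕ)) *ᵥ v) r)), h3]
  simp [Matrix.one_apply, Pi.single_apply]

section closure

variable {Z : Type} (S : Subalgebra ℝ (Z → ℝ))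

lemma det_mem {J : Type*} [Fintype J] [DecidableEq J] (M : Z → Matrix J J ℝ)
    (h : ∀ a b, (fun z => M z a b) ∈ S) : (fun z => (M z).det) ∈ S := by
  have e : (fun z => (M z).det) = ∑ σ : Equiv.Perm J, (((Equiv.Perm.sign σ : ℤˣ) : ℤ) : ℝ) •
      ∏ i, (fun z => M z (σ i) i) := by
    funext z
    rw [Matrix.det_apply', Finset.sum_apply]
    refine Finset.sum_congr rfl fun σ _ => ?_
    simp
  rw [e]
  refine Subalgebra.sum_mem S fun σ _ => S.smul_mem ?_ _
  exact Subalgebra.prod_mem S fun i _ => h _ _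

lemma pow_entry_mem {J : Type*} [Fintype J] [DecidableEq J] (M : Z → Matrix J J ℝ)
    (h : ∀ a b, (fun z => M z a b) ∈ S) (r : ℕ) : ∀ a b, (fun z => ((M z) ^ r) a b) ∈ S := by
  induction r with
  | zero =>
    intro a b
    simp only [pow_zero]
    exact S.algebraMap_mem ((1 : Matrix J J ℝ) a b)
  | succ r ih =>
    intro a b
    have e : (fun z => ((M z) ^ (r + 1)) a b) = ∑ c, (fun z => ((M z) ^ r) a c) * (fun z => M z c b) := by
      funext z
      rw [pow_succ, Matrix.mul_apply, Finset.sum_apply]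
      rfl
    rw [e]
    exact Subalgebra.sum_mem S fun c _ => S.mul_mem (ih a c) (h c b)

lemma cycDet_mem {n : ℕ} (M : Z → Matrix (Fin n) (Fin n) ℝ) (v : Fin n → ℝ)
    (h : ∀ a b, (fun z => M z a b) ∈ S) : (fun z => cycDet (M z) v) ∈ S := by
  apply det_mem
  intro a b
  have e : (fun z => (Matrix.of fun (i k : Fin n) => (((M z) ^ (k : ℕ)) *ᵥ v) i) a b) =
      ∑ c, v c • (fun z => ((M z) ^ (b : ℕ)) a c) := by
    funext z
    rw [Finset.sum_apply]
    simp only [Matrix.of_apply, Matrix.mulVec, dotProduct, Pi.smul_apply, smul_eq_mul]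
    exact Finset.sum_congr rfl fun c _ => mul_comm _ _
  rw [e]
  exact Subalgebra.sum_mem S fun c _ => S.smul_mem (pow_entry_mem S M h b a c) _

variable {ι : Type*}

lemma mulj_mem (l : List ι) : ∀ (κ : Z → Jet ι) (u : Jet ι), (∀ m, (fun z => κ z m) ∈ S) →
    (fun z => mulj l (κ z) u) ∈ S := by
  induction l with
  | nil =>
    intro κ u h
    simp only [mulj]
    exact S.mul_mem (h 0) (S.algebraMap_mem (u 0))
  | cons i l ih =>
    intro κ u h
    simp only [mulj]
    exact S.add_mem (ih (fun z => sh i (κ z)) u fun m => h _) (ih κ (sh i u) h)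

lemma eqn_mem [Fintype ι] (κ : Z → ι → ι → Jet ι) (u : Jet ι) (i j : ι) (l : List ι)
    (h : ∀ s j m, (fun z => κ z s j m) ∈ S) : (fun z => eqn (κ z) u i j l) ∈ S := by
  have e : (fun z => eqn (κ z) u i j l) = ∑ s, (fun z => mulj (i :: l) (κ z s j) (sh s u)) -
      ∑ s, (fun z => mulj (j :: l) (κ z s i) (sh s u)) := by
    funext z
    simp [eqn, Finset.sum_apply]
  rw [e]
  exact S.sub_mem (Subalgebra.sum_mem S fun s _ => mulj_mem S _ _ _ (h s j))
    (Subalgebra.sum_mem S fun s _ => mulj_mem S _ _ _ (h s i))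

end closure

section finite

variable {n : ℕ}

/-- index type of the unknowns -/
abbrev JI (n N : ℕ) := {m : Multiset (Fin n) // m ≠ 0 ∧ Multiset.card m ≤ N}
/-- index type of the equations -/
abbrev YI (n N : ℕ) := Fin n × Fin n × {l : List (Fin n) // l.length ≤ N - 2}

instance (N : ℕ) : Finite (JI n N) := by
  have h : Set.Finite {l : List (Fin n) | l.length ≤ N} := List.finite_length_le (Fin n) N
  have h2 : Set.Finite {m : Multiset (Fin n) | m ≠ 0 ∧ Multiset.card m ≤ N} := by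
    apply (h.image (fun l : List (Fin n) => (l : Multiset (Fin n)))).subset
    rintro m ⟨_, hm⟩
    exact ⟨m.toList, by simpa using hm, by simp⟩
  exact h2.to_subtype

instance (N : ℕ) : Finite {l : List (Fin n) // l.length ≤ N} :=
  (List.finite_length_le (Fin n) N).to_subtype

instance (N : ℕ) : Fintype (JI n N) := Fintype.ofFinite _
instance (N : ℕ) : Fintype {l : List (Fin n) // l.length ≤ N} := Fintype.ofFinite _
instance (N : ℕ) : DecidableEq (JI n N) := Classical.decEq _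

/-- extension by zero -/
def extL (n N : ℕ) : (JI n N → ℝ) →ₗ[ℝ] Jet (Fin n) where
  toFun := fun w m => by
    classical exact if h : m ≠ 0 ∧ Multiset.card m ≤ N then w ⟨m, h⟩ else 0
  map_add' := by
    intro w w'; funext m
    by_cases h : m ≠ 0 ∧ Multiset.card m ≤ N
    · simp [h]
    · simp [h]
  map_smul' := by
    intro c w; funext m
    by_cases h : m ≠ 0 ∧ Multiset.card m ≤ N
    · simp [h]
    · simp [h]

lemma extL_apply_of_mem {N : ℕ} (w : JI n N → ℝ) (m : Multiset (Fin n)) (h : m ≠ 0 ∧ Multiset.card m ≤ N) :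
    extL n N w m = w ⟨m, h⟩ := by
  change dite _ _ _ = _
  rw [dif_pos h]

/-- restriction -/
def resL (n N : ℕ) : Jet (Fin n) →ₗ[ℝ] (JI n N → ℝ) where
  toFun := fun u m => u m.1
  map_add' := fun _ _ => rfl
  map_smul' := fun _ _ => rfl

/-- all equations together with the extra functionals -/
def Bmap (N : ℕ) (_hN : 2 ≤ N) (π : Jet (Fin n) →ₗ[ℝ] (Fin n → ℝ)) (k : Fin n → Fin n → Jet (Fin n)) :
    (JI n N → ℝ) →ₗ[ℝ] ((YI n N → ℝ) × (Fin n → ℝ)) :=
  LinearMap.prod
    (LinearMap.pi fun y => (eqnL k y.1 y.2.1 y.2.2.1) ∘ₗ extL n N)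
    (π ∘ₗ extL n N)

lemma Bmap_inj_iff (N : ℕ) (hN : 2 ≤ N) (π : Jet (Fin n) →ₗ[ℝ] (Fin n → ℝ))
    (k : Fin n → Fin n → Jet (Fin n)) :
    (∀ w, Bmap N hN π k w = 0 → w = 0) ↔
    (∀ u, Sol N k u → (π ∘ₗ extL n N ∘ₗ resL n N) u = 0 →
      ∀ m : Multiset (Fin n), m ≠ 0 → Multiset.card m ≤ N → u m = 0) := by
  have key : ∀ u : Jet (Fin n), ∀ m : Multiset (Fin n), m ≠ 0 → Multiset.card m ≤ N →
      u m = extL n N (resL n N u) m := by
    intro u m h0 hN
    rw [extL_apply_of_mem _ _ ⟨h0, hN⟩]; rfl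
  constructor
  · intro h u hu hπ m hm0 hm
    have h1 := h (resL n N u) ?_
    · have := congrFun h1 ⟨m, hm0, hm⟩
      exact this
    · refine Prod.ext ?_ ?_
      · funext y
        change eqn k (extL n N (resL n N u)) y.1 y.2.1 y.2.2.1 = 0
        rw [← eqn_congr k u _ y.1 y.2.1 y.2.2.1]
        · exact hu _ _ _ (by have := y.2.2.2; omega)
        · intro m h0 hc
          exact key u m h0 (by have := y.2.2.2; omega)
      · exact hπ
  · intro h w hw
    have hw1 : ∀ y : YI n N, eqn k (extL n N w) y.1 y.2.1 y.2.2.1 = 0 := fun y =>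
      congrFun (congrArg Prod.fst hw) y
    have hw2 : π (extL n N w) = 0 := congrArg Prod.snd hw
    have hr : resL n N (extL n N w) = w := by
      funext m
      exact extL_apply_of_mem w m.1 m.2
    funext m
    have := h (extL n N w) (fun i j l hl => hw1 ⟨i, j, l, by omega⟩)
      (by simp only [LinearMap.comp_apply]; rw [hr]; exact hw2) m.1 m.2.1 m.2.2
    rw [extL_apply_of_mem w m.1 m.2] at this
    exact this

theorem exists_poly (N : ℕ) (hN : 2 ≤ N) (k0 : Fin n → Fin n → Jet (Fin n)) (hG : Good N k0)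
    (v : Fin n → ℝ) (hv : cycDet (mat0 k0) v ≠ 0) :
    ∃ p : (Fin n → Fin n → Jet (Fin n)) → ℝ, p k0 ≠ 0 ∧
      (∀ k, p k ≠ 0 → Good N k ∧ cycDet (mat0 k) v ≠ 0) ∧
      ∀ (Z : Type) (S : Subalgebra ℝ (Z → ℝ)) (κ : Z → Fin n → Fin n → Jet (Fin n)),
        (∀ s j m, (fun z => κ z s j m) ∈ S) → (fun z => p (κ z)) ∈ S := by
  classical
  obtain ⟨π, hπ⟩ := hG
  have hinj : ∀ w, Bmap N hN π k0 w = 0 → w = 0 := by
    intro w hw
    have hw1 : ∀ y : YI n N, eqn k0 (extL n N w) y.1 y.2.1 y.2.2.1 = 0 := fun y =>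
      congrFun (congrArg Prod.fst hw) y
    have hw2 : π (extL n N w) = 0 := congrArg Prod.snd hw
    funext m
    have := hπ (extL n N w) (fun i j l hl => hw1 ⟨i, j, l, by omega⟩) hw2 m.1 m.2.1 m.2.2
    rw [extL_apply_of_mem w m.1 m.2] at this
    exact this
  obtain ⟨L, hL⟩ := (Bmap N hN π k0).exists_leftInverse_of_injective (LinearMap.ker_eq_bot'.2 hinj)
  -- the matrix
  let M : (Fin n → Fin n → Jet (Fin n)) → Matrix (JI n N) (JI n N) ℝ := fun k =>
    LinearMap.toMatrix' (L ∘ₗ Bmap N hN π k)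
  refine ⟨fun k => (M k).det * cycDet (mat0 k) v, ?_, ?_, ?_⟩
  · have : M k0 = 1 := by
      change LinearMap.toMatrix' (L ∘ₗ Bmap N hN π k0) = 1
      rw [hL]; exact LinearMap.toMatrix'_id
    simp only [this, Matrix.det_one, one_mul]
    exact hv
  · intro k hk
    refine ⟨?_, right_ne_zero_of_mul hk⟩
    have hdet : (M k).det ≠ 0 := left_ne_zero_of_mul hk
    refine ⟨π ∘ₗ extL n N ∘ₗ resL n N, (Bmap_inj_iff N hN π k).1 ?_⟩
    intro w hw
    apply Matrix.eq_zero_of_mulVec_eq_zero hdet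
    change (LinearMap.toMatrix' (L ∘ₗ Bmap N hN π k)) *ᵥ w = 0
    rw [LinearMap.toMatrix'_mulVec, LinearMap.comp_apply, hw, map_zero]
  · intro Z S κ h
    refine S.mul_mem (det_mem S _ fun a b => ?_) (cycDet_mem S _ v fun a b => h a b 0)
    -- entries
    have e1 : ∀ z, M (κ z) a b = L (Bmap N hN π (κ z) (Pi.single b 1)) a := by
      intro z
      change (LinearMap.toMatrix' (L ∘ₗ Bmap N hN π (κ z))) a b = _
      rw [LinearMap.toMatrix'_apply]; rfl
    have e2 : ∀ z, L (Bmap N hN π (κ z) (Pi.single b 1)) a =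
        (∑ y : YI n N, (L (Pi.single y 1, 0) a) * eqn (κ z) (extL n N (Pi.single b 1)) y.1 y.2.1 y.2.2.1)
          + L (0, π (extL n N (Pi.single b 1))) a := by
      intro z
      have e3 : Bmap N hN π (κ z) (Pi.single b 1) =
          (∑ y : YI n N, (eqn (κ z) (extL n N (Pi.single b 1)) y.1 y.2.1 y.2.2.1) •
            ((Pi.single y (1 : ℝ) : YI n N → ℝ), (0 : Fin n → ℝ))) + (0, π (extL n N (Pi.single b 1))) := by
        refine Prod.ext ?_ ?_
        · rw [Prod.fst_add, Prod.fst_sum]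
          funext y
          simp only [Pi.add_apply, Finset.sum_apply, Prod.smul_fst, Pi.smul_apply, smul_eq_mul,
            Pi.single_apply, mul_ite, mul_one, mul_zero, Finset.sum_ite_eq, Finset.mem_univ, if_true,
            Pi.zero_apply, add_zero]
          rfl
        · rw [Prod.snd_add, Prod.snd_sum]
          simp
          rfl
      rw [e3, map_add, map_sum, Pi.add_apply, Finset.sum_apply]
      congr 1
      refine Finset.sum_congr rfl fun y _ => ?_
      rw [map_smul, Pi.smul_apply, smul_eq_mul, mul_comm]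
    have e4 : (fun z => M (κ z) a b) = (∑ y : YI n N, (L (Pi.single y 1, 0) a) •
        (fun z => eqn (κ z) (extL n N (Pi.single b 1)) y.1 y.2.1 y.2.2.1)) +
          (fun _ => L (0, π (extL n N (Pi.single b 1))) a) := by
      funext z
      rw [e1, e2, Pi.add_apply, Finset.sum_apply]
      rfl
    rw [e4]
    refine S.add_mem (Subalgebra.sum_mem S fun y _ => S.smul_mem (eqn_mem S κ _ _ _ _ h) _) ?_
    exact S.algebraMap_mem (L (0, π (extL n N (Pi.single b 1))) a)

end finite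

end

end Pool.Agent.K4H49.KT
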