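import Pool.Agent.K4H49.KT.SumB
import Pool.Agent.K4H49.KT.Poly
import Pool.Agent.K4H49.KT.Calc

/-! Explicit Killing tensors of the model metrics. -/

namespace Pool.Agent.K4H49.KT

noncomputable section

set_option linter.unusedSectionVars false

open Multiset
open scoped ContDiff Topology

variable {ι : Type*} [Fintype ι] [DecidableEq ι]

/-- Killing vector fields -/
def Xv (s : ι → ℝ) (κ : ℝ) : KV ι → (ι → ℝ) → ι → ℝ
  | (none, r), x, i => (1 - κ / 4 * Qf s x) * (if i = r then 1 else 0) + κ / 2 * (s r * x r * x i)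
  | (some q, r), x, i => s q * x q * (if i = r then 1 else 0) - s r * x r * (if i = q then 1 else 0)

/-- contravariant components -/
def Kc (s : ι → ℝ) (κ : ℝ) (T : TL ι) (x : ι → ℝ) (i j : ι) : ℝ :=
  (T.map fun t => t.1 * (Xv s κ t.2.1 x i * Xv s κ t.2.2 x j + Xv s κ t.2.2 x i * Xv s κ t.2.1 x j)).sum

/-- the operator field -/
def KF (s : ι → ℝ) (κ : ℝ) (T : TL ι) (x : ι → ℝ) : Matrix ι ι ℝ :=
  Matrix.of fun i j => (cf s κ x)⁻¹ ^ 2 * s j * Kc s κ T x i j

section flatjets

lemma jet_const (c : ℝ) (x : ι → ℝ) : jet (fun _ => c) x = fun m => if m = 0 then c else 0 := by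
  funext m
  induction m using Multiset.induction with
  | empty => simp [jet, pdl]
  | cons i m ih =>
    have h1 : ContDiffOn ℝ ∞ (fun _ : ι → ℝ => c) Set.univ := contDiffOn_const
    have h2 := congrFun (sh_jet isOpen_univ h1 (Set.mem_univ x) i) m
    rw [sh_apply] at h2
    rw [h2]
    have h3 : pd i (fun _ : ι → ℝ => c) = 0 := by funext y; simp [pd]
    rw [h3]
    simp [jet, pdl_zero]

lemma jet_coord (q : ι) : jet (fun x : ι → ℝ => x q) 0 = fun m => if m = {q} then 1 else 0 := by
  funext m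
  induction m using Multiset.induction with
  | empty => simp [jet, pdl]
  | cons i m ih =>
    have h1 : ContDiffOn ℝ ∞ (fun x : ι → ℝ => x q) Set.univ := (contDiff_apply ℝ ℝ q).contDiffOn
    have h2 := congrFun (sh_jet isOpen_univ h1 (Set.mem_univ (0 : ι → ℝ)) i) m
    rw [sh_apply] at h2
    rw [h2]
    have h3 : pd i (fun x : ι → ℝ => x q) = fun _ => if q = i then 1 else 0 := by
      funext y
      have : HasFDerivAt (fun x : ι → ℝ => x q) (ContinuousLinearMap.proj (R := ℝ) (φ := fun _ : ι => ℝ) q) y :=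
        (ContinuousLinearMap.proj (R := ℝ) (φ := fun _ : ι => ℝ) q).hasFDerivAt
      simp only [pd, this.fderiv, ContinuousLinearMap.proj_apply, Pi.single_apply]
    rw [h3, jet_const]
    by_cases h : q = i
    · subst h
      simp only [if_true]
      congr 1
      rw [eq_iff_iff, ← Multiset.cons_zero, Multiset.cons_inj_right]
    · have : ¬ (i ::ₘ m = {q}) := by
        intro hm
        have := Multiset.mem_cons_self i m
        rw [hm] at this
        exact h (Multiset.mem_singleton.1 this).symm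
      simp [h, this]

lemma jet_add' {f g : (ι → ℝ) → ℝ} (hf : ContDiff ℝ ∞ f) (hg : ContDiff ℝ ∞ g) (x : ι → ℝ) :
    jet (fun y => f y + g y) x = jet f x + jet g x := by
  funext m
  exact pdl_add isOpen_univ m.toList hf.contDiffOn hg.contDiffOn (Set.mem_univ x)

lemma jet_smul' (c : ℝ) (f : (ι → ℝ) → ℝ) (x : ι → ℝ) :
    jet (fun y => c * f y) x = c • jet f x := by
  funext m
  exact congrFun (pdl_smul m.toList c f) x

lemma jet_mul' {f g : (ι → ℝ) → ℝ} (hf : ContDiff ℝ ∞ f) (hg : ContDiff ℝ ∞ g) (x : ι → ℝ) :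
    jet (fun y => f y * g y) x = mulJ (jet f x) (jet g x) := by
  funext m
  exact (mulj_jet isOpen_univ m.toList hf.contDiffOn hg.contDiffOn (Set.mem_univ x)).symm

lemma contDiff_Xv (s : ι → ℝ) (κ : ℝ) (a : KV ι) (i : ι) : ContDiff ℝ ∞ (fun x => Xv s κ a x i) := by
  rcases a with ⟨_ | q, r⟩
  · simp only [Xv, Qf]; fun_prop
  · simp only [Xv]; fun_prop

lemma jet_Xv_flat (a : KV ι) (i : ι) : jet (fun x => Xv (fun _ => 1) 0 a x i) 0 = xj a i := by
  rcases a with ⟨_ | q, r⟩
  · have : (fun x : ι → ℝ => Xv (fun _ => 1) 0 ((none, r) : KV ι) x i) = fun _ => if i = r then 1 else 0 := by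
      funext x; simp [Xv]
    rw [this, jet_const]
    funext m
    by_cases h : i = r <;> simp [xj, h]
  · have : (fun x : ι → ℝ => Xv (fun _ => 1) 0 ((some q, r) : KV ι) x i) =
        fun x => (if i = r then 1 else 0) * x q + (- if i = q then 1 else 0) * x r := by
      funext x; simp only [Xv]; ring
    rw [this, jet_add' (by fun_prop) (by fun_prop), jet_smul', jet_smul', jet_coord, jet_coord]
    funext m
    simp only [xj, Pi.add_apply, Pi.smul_apply, smul_eq_mul]
    have e1 : ∀ a b : ι, (if m = {a} ∧ i = b then (1:ℝ) else 0) =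
        (if i = b then 1 else 0) * (if m = {a} then 1 else 0) := by
      intro a b
      by_cases h : i = b <;> by_cases h' : m = {a} <;> simp [h, h']
    rw [e1, e1]; ring

lemma jet_KF_flat (T : TL ι) (i j : ι) : jet (fun x => KF (fun _ => 1) 0 T x i j) 0 = kT T i j := by
  have e : (fun x : ι → ℝ => KF (fun _ => 1) 0 T x i j) = fun x => Kc (fun _ => 1) 0 T x i j := by
    funext x; simp [KF, cf]
  rw [e]
  have hX := contDiff_Xv (fun _ : ι => (1:ℝ)) 0
  unfold Kc kT
  induction T with
  | nil => 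
    simp only [List.map_nil, List.sum_nil]
    rw [jet_const]; funext m; simp
  | cons t T ih =>
    simp only [List.map_cons, List.sum_cons]
    have hs : ContDiff ℝ ∞ (fun x : ι → ℝ => (T.map fun t => t.1 * (Xv (fun _ => 1) 0 t.2.1 x i *
        Xv (fun _ => 1) 0 t.2.2 x j + Xv (fun _ => 1) 0 t.2.2 x i * Xv (fun _ => 1) 0 t.2.1 x j)).sum) := by
      clear ih e
      induction T with
      | nil => simp only [List.map_nil, List.sum_nil]; exact contDiff_const
      | cons t T ih =>
        simp only [List.map_cons, List.sum_cons]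
        exact (contDiff_const.mul (((hX _ _).mul (hX _ _)).add ((hX _ _).mul (hX _ _)))).add ih
    rw [jet_add' (contDiff_const.mul (((hX _ _).mul (hX _ _)).add ((hX _ _).mul (hX _ _)))) hs, ih (by
      funext x; simp [KF, cf]), jet_smul', jet_add' ((hX _ _).mul (hX _ _)) ((hX _ _).mul (hX _ _)),
      jet_mul' (hX _ _) (hX _ _), jet_mul' (hX _ _) (hX _ _), jet_Xv_flat, jet_Xv_flat, jet_Xv_flat, jet_Xv_flat]
    rfl

end flatjets

end

end Pool.Agent.K4H49.KT
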