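import Pool.Agent.K4H49.KT.Model

/-! Diagonal scalings and analytic families. -/

namespace Pool.Agent.K4H49.KT

noncomputable section

set_option linter.unusedSectionVars false

open Multiset
open scoped ContDiff Topology

variable {ι : Type*} [Fintype ι] [DecidableEq ι]

section formal

/-- product of the scaling factors -/
def tp (t : ι → ℝ) (m : Multiset ι) : ℝ := (m.map t).prod

@[simp] lemma tp_zero (t : ι → ℝ) : tp t 0 = 1 := by simp [tp]

lemma tp_cons (t : ι → ℝ) (i : ι) (m : Multiset ι) : tp t (i ::ₘ m) = t i * tp t m := by simp [tp]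

lemma tp_ne_zero {t : ι → ℝ} (ht : ∀ i, t i ≠ 0) (m : Multiset ι) : tp t m ≠ 0 := by
  induction m using Multiset.induction with
  | empty => simp
  | cons i m ih => rw [tp_cons]; exact mul_ne_zero (ht i) ih

lemma sh_tp (t : ι → ℝ) (i : ι) (k : Jet ι) :
    sh i (fun m => tp t m * k m) = t i • fun m => tp t m * sh i k m := by
  funext m
  simp only [sh_apply, tp_cons, Pi.smul_apply, smul_eq_mul]; ring

lemma mulj_tp (t : ι → ℝ) (l : List ι) : ∀ k u : Jet ι,
    mulj l (fun m => tp t m * k m) (fun m => tp t m * u m) = tp t l * mulj l k u := by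
  induction l with
  | nil => intro k u; simp [mulj]
  | cons i l ih =>
    intro k u
    simp only [mulj]
    rw [sh_tp, sh_tp, mulj_smul_left, mulj_smul_right, ih, ih, ← Multiset.cons_coe, tp_cons]
    ring

/-- scaled jets of the operator field -/
def scaleK (c : ℝ) (t : ι → ℝ) (k : ι → ι → Jet ι) : ι → ι → Jet ι :=
  fun i j m => c * (t i)⁻¹ * t j * (tp t m * k i j m)

lemma eqn_scale (c : ℝ) {t : ι → ℝ} (ht : ∀ i, t i ≠ 0) (k : ι → ι → Jet ι) (u : Jet ι) (i j : ι)
    (l : List ι) : eqn (scaleK c t k) (fun m => tp t m * u m) i j l =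
      c * t i * t j * tp t l * eqn k u i j l := by
  have key : ∀ i j, ∑ s, mulj (i :: l) (scaleK c t k s j) (sh s (fun m => tp t m * u m)) =
      c * t i * t j * tp t l * ∑ s, mulj (i :: l) (k s j) (sh s u) := by
    intro i j
    rw [Finset.mul_sum]
    refine Finset.sum_congr rfl fun s _ => ?_
    have e1 : scaleK c t k s j = (c * (t s)⁻¹ * t j) • fun m => tp t m * k s j m := by
      funext m; simp [scaleK]
    rw [e1, sh_tp, mulj_smul_left, mulj_smul_right, mulj_tp, ← Multiset.cons_coe, tp_cons]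
    field_simp [ht s]
  unfold eqn
  rw [key, key]; ring

lemma good_scale {N : ℕ} {c : ℝ} (hc : c ≠ 0) {t : ι → ℝ} (ht : ∀ i, t i ≠ 0) {k : ι → ι → Jet ι}
    (h : Good N k) : Good N (scaleK c t k) := by
  obtain ⟨π, hπ⟩ := h
  let D : Jet ι →ₗ[ℝ] Jet ι :=
    { toFun := fun u m => (tp t m)⁻¹ * u m
      map_add' := fun u v => by funext m; simp [mul_add]
      map_smul' := fun a u => by funext m; simp; ring }
  refine ⟨π ∘ₗ D, ?_⟩
  intro u' hu' hπu m h0 hm
  have hrec : u' = fun m => tp t m * D u' m := by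
    funext m
    change u' m = tp t m * ((tp t m)⁻¹ * u' m)
    field_simp [tp_ne_zero ht m]
  have hsol : Sol N k (D u') := by
    intro i j l hl
    have h1 := hu' i j l hl
    rw [hrec, eqn_scale c ht] at h1
    rcases mul_eq_zero.1 h1 with h2 | h2
    · exact absurd h2 (mul_ne_zero (mul_ne_zero (mul_ne_zero hc (ht i)) (ht j)) (tp_ne_zero ht _))
    · exact h2
  have h3 := hπ (D u') hsol hπu m h0 hm
  have h4 := congrFun hrec m
  rw [h4, h3, mul_zero]

end formal

lemma cycDet_scale {n : ℕ} {c : ℝ} (hc : c ≠ 0) {t : Fin n → ℝ} (ht : ∀ i, t i ≠ 0)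
    (k : Fin n → Fin n → Jet (Fin n)) (v : Fin n → ℝ) (h : cycDet (mat0 k) v ≠ 0) :
    cycDet (mat0 (scaleK c t k)) (fun i => (t i)⁻¹ * v i) ≠ 0 := by
  have hm : mat0 (scaleK c t k) = Matrix.of fun i j => c * (t i)⁻¹ * t j * mat0 k i j := by
    funext i j; simp [mat0, scaleK]
  have hpow : ∀ r : ℕ, ((mat0 (scaleK c t k)) ^ r).mulVec (fun i => (t i)⁻¹ * v i) =
      fun i => (t i)⁻¹ * (c ^ r * ((mat0 k) ^ r).mulVec v i) := by
    intro r
    induction r with
    | zero => funext i; simp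
    | succ r ih =>
      rw [pow_succ', ← Matrix.mulVec_mulVec, ih, pow_succ' (mat0 k), ← Matrix.mulVec_mulVec, hm]
      funext i
      simp only [Matrix.mulVec, dotProduct, Matrix.of_apply]
      rw [Finset.mul_sum, Finset.mul_sum]
      refine Finset.sum_congr rfl fun j _ => ?_
      rw [pow_succ]
      field_simp [ht j]
  unfold cycDet
  have e : (Matrix.of fun (i r : Fin n) => ((mat0 (scaleK c t k)) ^ (r : ℕ)).mulVec (fun i => (t i)⁻¹ * v i) i) =
      Matrix.of fun i r => (t i)⁻¹ * (Matrix.of fun i (r : Fin n) => c ^ (r : ℕ) *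
        (Matrix.of fun i (r : Fin n) => ((mat0 k) ^ (r : ℕ)).mulVec v i) i r) i r := by
    funext i r
    simp only [Matrix.of_apply]
    rw [hpow]
  rw [e, Matrix.det_mul_column, Matrix.det_mul_row]
  refine mul_ne_zero ?_ (mul_ne_zero ?_ h)
  · exact Finset.prod_ne_zero_iff.2 fun i _ => inv_ne_zero (ht i)
  · exact Finset.prod_ne_zero_iff.2 fun i _ => pow_ne_zero _ hc

section functions

/-- chain rule for scalings -/
lemma pdl_scale {U : Set (ι → ℝ)} (hU : IsOpen U) (t : ι → ℝ) (l : List ι) : ∀ {F : (ι → ℝ) → ℝ},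
    ContDiffOn ℝ ∞ F U → ∀ {y : ι → ℝ}, (t * y) ∈ U →
      pdl l (fun y => F (t * y)) y = tp t l * pdl l F (t * y) := by
  have hlin : ∀ y : ι → ℝ, HasFDerivAt (fun y : ι → ℝ => t * y)
      (ContinuousLinearMap.mul ℝ (ι → ℝ) t) y := fun y => (ContinuousLinearMap.mul ℝ (ι → ℝ) t).hasFDerivAt
  have hU' : IsOpen {y : ι → ℝ | t * y ∈ U} := hU.preimage (by fun_prop)
  induction l with
  | nil => intro F _ y _; simp [pdl]
  | cons i l ih =>
    intro F hF y hy
    have h1 : Set.EqOn (pd i (fun y => F (t * y))) (fun y => t i * pd i F (t * y)) {y | t * y ∈ U} := by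
      intro y hy
      have h2 := ((differentiableAt_of hU hF hy).hasFDerivAt.comp y (hlin y)).fderiv
      simp only [pd]
      have h3 : fderiv ℝ (fun y => F (t * y)) y = (fderiv ℝ F (t * y)).comp (ContinuousLinearMap.mul ℝ (ι → ℝ) t) := h2
      rw [h3]
      have h4 : (ContinuousLinearMap.mul ℝ (ι → ℝ) t) (Pi.single i 1) = t i • (Pi.single i (1:ℝ) : ι → ℝ) := by
        funext r
        simp only [ContinuousLinearMap.mul_apply', Pi.mul_apply, Pi.smul_apply, smul_eq_mul, Pi.single_apply]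
        by_cases h : r = i <;> simp [h]
      rw [ContinuousLinearMap.comp_apply, h4, map_smul, smul_eq_mul]
    simp only [pdl]
    rw [pdl_congr hU' l h1 hy]
    have e : (fun y => t i * pd i F (t * y)) = t i • (fun y => pd i F (t * y)) := rfl
    rw [e, pdl_smul, Pi.smul_apply, smul_eq_mul, ih (contDiffOn_pd hU hF i) hy, ← Multiset.cons_coe, tp_cons]
    ring

variable {s s' t : ι → ℝ} {κ κ' c : ℝ}

lemma Qf_scale (hs : ∀ i, s' i = c * (t i) ^ 2 * s i) (y : ι → ℝ) : c * Qf s (t * y) = Qf s' y := by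
  unfold Qf
  rw [Finset.mul_sum]
  refine Finset.sum_congr rfl fun i _ => ?_
  rw [hs i, Pi.mul_apply]; ring

lemma cf_scale (hs : ∀ i, s' i = c * (t i) ^ 2 * s i) (hκ : κ = c * κ') (y : ι → ℝ) :
    cf s κ (t * y) = cf s' κ' y := by
  unfold cf
  rw [← Qf_scale hs y, hκ]; ring

/-- scaling factor of a Killing vector field -/
def tau (c : ℝ) (t : ι → ℝ) : KV ι → ℝ
  | (none, r) => (t r)⁻¹
  | (some q, r) => (c * t q * t r)⁻¹

lemma Xv_scale (hc : c ≠ 0) (ht : ∀ i, t i ≠ 0) (hs : ∀ i, s' i = c * (t i) ^ 2 * s i) (hκ : κ = c * κ')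
    (a : KV ι) (y : ι → ℝ) (i : ι) : Xv s κ a (t * y) i = t i * tau c t a * Xv s' κ' a y i := by
  rcases a with ⟨_ | q, r⟩
  · simp only [Xv, tau]
    have h1 : κ * Qf s (t * y) = κ' * Qf s' y := by rw [← Qf_scale hs y, hκ]; ring
    have h2 : 1 - κ / 4 * Qf s (t * y) = 1 - κ' / 4 * Qf s' y := by linear_combination (-1/4) * h1
    rw [h2]
    simp only [Pi.mul_apply, hs r, hκ]
    by_cases h : i = r
    · subst h
      have := ht i
      field_simp
    · simp only [h, if_false, mul_zero, zero_add]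
      have := ht r
      field_simp
  · simp only [Xv, tau, Pi.mul_apply, hs q, hs r]
    by_cases h : i = r
    · subst h
      by_cases h' : i = q
      · subst h'; simp
      · simp only [h', if_true, if_false, mul_zero, sub_zero, mul_one]
        have := ht i; have := ht q
        field_simp
    · by_cases h' : i = q
      · subst h'
        simp only [h, if_true, if_false, mul_zero, zero_sub, mul_one]
        have := ht i; have := ht r
        field_simp
      · simp [h, h']

/-- scaled list of terms -/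
def scaleT (c : ℝ) (t : ι → ℝ) (T : TL ι) : TL ι :=
  T.map fun a => (a.1 * tau c t a.2.1 * tau c t a.2.2, a.2.1, a.2.2)

lemma Kc_scale (hc : c ≠ 0) (ht : ∀ i, t i ≠ 0) (hs : ∀ i, s' i = c * (t i) ^ 2 * s i) (hκ : κ = c * κ')
    (T : TL ι) (y : ι → ℝ) (i j : ι) :
    Kc s κ T (t * y) i j = t i * t j * Kc s' κ' (scaleT c t T) y i j := by
  unfold Kc scaleT
  rw [List.map_map, ← List.sum_map_mul_left]
  congr 1
  apply List.map_congr_left
  intro a _
  simp only [Function.comp_apply, Xv_scale hc ht hs hκ]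
  ring

lemma KF_scale (hc : c ≠ 0) (ht : ∀ i, t i ≠ 0) (hs : ∀ i, s' i = c * (t i) ^ 2 * s i) (hκ : κ = c * κ')
    (T : TL ι) (y : ι → ℝ) (i j : ι) :
    KF s' κ' (scaleT c t T) y i j = c * (t i)⁻¹ * t j * KF s κ T (t * y) i j := by
  simp only [KF, Matrix.of_apply]
  rw [Kc_scale hc ht hs hκ, cf_scale hs hκ, hs j]
  have := ht i
  field_simp

end functions

end

end Pool.Agent.K4H49.KT
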