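import Pool.Agent.K4H49.KT.Terms

/-! Block sums. -/

namespace Pool.Agent.K4H49.KT

noncomputable section

set_option linter.unusedSectionVars false

open Multiset

variable {ι κ : Type*} [DecidableEq ι] [DecidableEq κ] [Fintype ι] [Fintype κ]

lemma exists_map_eq {α β : Type*} (φ : α → β) (m : Multiset β) (h : ∀ x ∈ m, ∃ y, x = φ y) :
    ∃ m' : Multiset α, m = m'.map φ := by
  induction m using Multiset.induction with
  | empty => exact ⟨0, rfl⟩
  | cons a m ih =>
    obtain ⟨m', hm'⟩ := ih fun x hx => h x (Multiset.mem_cons_of_mem hx)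
    obtain ⟨y, hy⟩ := h a (Multiset.mem_cons_self _ _)
    exact ⟨y ::ₘ m', by rw [Multiset.map_cons, ← hm', ← hy]⟩

lemma sol_embed {N : ℕ} (φ : ι → κ) (hφ : Function.Injective φ)
    {k : ι → ι → Jet ι} {K : κ → κ → Jet κ} (h1 : ∀ s j m, k s j m = K (φ s) (φ j) (m.map φ))
    (h2 : ∀ s' ∉ Set.range φ, ∀ j, K s' (φ j) = 0) {U : Jet κ} (hU : Sol N K U) :
    Sol N k (fun m => U (m.map φ)) := by
  intro i j l hl
  rw [eqn_embed φ hφ k K h1 h2]
  exact hU _ _ _ (by simpa using hl)

theorem low_sum {N : ℕ} {k1 : ι → ι → Jet ι} {k2 : κ → κ → Jet κ}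
    {K : (ι ⊕ κ) → (ι ⊕ κ) → Jet (ι ⊕ κ)} {lam : ι ⊕ κ → ℝ} (hd : Diag K lam)
    (hl : Function.Injective lam)
    (h11 : ∀ s j m, k1 s j m = K (Sum.inl s) (Sum.inl j) (m.map Sum.inl))
    (h22 : ∀ s j m, k2 s j m = K (Sum.inr s) (Sum.inr j) (m.map Sum.inr))
    (h12 : ∀ s j, K (Sum.inl s) (Sum.inr j) = 0) (h21 : ∀ s j, K (Sum.inr s) (Sum.inl j) = 0)
    (hx1 : ∀ s j x m, Sum.inr x ∈ m → K (Sum.inl s) (Sum.inl j) m = 0)
    (hx2 : ∀ s j x m, Sum.inl x ∈ m → K (Sum.inr s) (Sum.inr j) m = 0)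
    (L1 : Low N k1) (L2 : Low N k2) : Low N K := by
  intro u hu
  -- mixed jets
  have mixed : ∀ (c : ℕ), c ≤ N → ∀ (m : Multiset (ι ⊕ κ)) (a : ι) (b : κ), card m = c →
      Sum.inl a ∈ m → Sum.inr b ∈ m → u m = 0 := by
    intro c
    induction c using Nat.strong_induction_on with
    | _ c ih =>
      intro hc m a b hm ha hb
      have hb' : Sum.inr b ∈ m.erase (Sum.inl a) := (Multiset.mem_erase_of_ne (by simp)).2 hb
      obtain ⟨l, hl'⟩ : ∃ l : List (ι ⊕ κ), m = Sum.inl a ::ₘ Sum.inr b ::ₘ (l : Multiset (ι ⊕ κ)) :=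
        ⟨((m.erase (Sum.inl a)).erase (Sum.inr b)).toList, by
          rw [Multiset.coe_toList, Multiset.cons_erase hb', Multiset.cons_erase ha]⟩
      have hlen : l.length + 2 = c := by rw [← hm, hl']; simp
      have s1 : ∀ s, mulj (Sum.inl a :: l) (K s (Sum.inr b)) (sh s u) =
          K s (Sum.inr b) 0 * u (s ::ₘ Sum.inl a ::ₘ (l : Multiset (ι ⊕ κ))) := by
        rintro (s | s)
        · rw [h12, mulj_zero_left]; simp
        · simp only [mulj]
          have e1 : sh (Sum.inl a) (K (Sum.inr s) (Sum.inr b)) = 0 := by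
            funext m'; exact hx2 s b a _ (Multiset.mem_cons_self _ _)
          rw [e1, mulj_zero_left, zero_add, mulj_eq_head]
          · rfl
          · intro m' hm'
            have hcard := Multiset.card_lt_card hm'
            simp only [Multiset.coe_card] at hcard
            refine ih (card m' + 2) (by omega) (by omega) _ a s (by simp) ?_ ?_
            · exact Multiset.mem_cons_of_mem (Multiset.mem_cons_self _ _)
            · exact Multiset.mem_cons_self _ _
      have s2 : ∀ s, mulj (Sum.inr b :: l) (K s (Sum.inl a)) (sh s u) =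
          K s (Sum.inl a) 0 * u (s ::ₘ Sum.inr b ::ₘ (l : Multiset (ι ⊕ κ))) := by
        rintro (s | s)
        · simp only [mulj]
          have e1 : sh (Sum.inr b) (K (Sum.inl s) (Sum.inl a)) = 0 := by
            funext m'; exact hx1 s a b _ (Multiset.mem_cons_self _ _)
          rw [e1, mulj_zero_left, zero_add, mulj_eq_head]
          · rfl
          · intro m' hm'
            have hcard := Multiset.card_lt_card hm'
            simp only [Multiset.coe_card] at hcard
            refine ih (card m' + 2) (by omega) (by omega) _ s b (by simp) ?_ ?_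
            · exact Multiset.mem_cons_self _ _
            · exact Multiset.mem_cons_of_mem (Multiset.mem_cons_self _ _)
        · rw [h21, mulj_zero_left]; simp
      have h1 := hu (Sum.inl a) (Sum.inr b) l (by omega)
      unfold eqn at h1
      simp only [s1, s2] at h1
      rw [Finset.sum_eq_single (Sum.inr b) (fun s _ hs => by rw [hd s _, if_neg hs, zero_mul]) (by simp),
        Finset.sum_eq_single (Sum.inl a) (fun s _ hs => by rw [hd s _, if_neg hs, zero_mul]) (by simp),
        hd, if_pos rfl, hd, if_pos rfl, Multiset.cons_swap, ← hl', ← sub_mul] at h1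
      rcases mul_eq_zero.1 h1 with h | h
      · exact absurd (hl (sub_eq_zero.1 h)) (by simp)
      · exact h
  intro m h0 hm
  by_cases hall : ∀ x ∈ m, ∃ y : ι, x = Sum.inl y
  · obtain ⟨m', rfl⟩ := exists_map_eq Sum.inl m hall
    refine L1 _ (sol_embed Sum.inl Sum.inl_injective h11 ?_ hu) m' ?_ (by simpa using hm)
    · rintro (s' | s') hs' j
      · exact absurd ⟨s', rfl⟩ hs'
      · exact h21 s' j
    · rintro rfl; exact h0 rfl
  · by_cases hall' : ∀ x ∈ m, ∃ y : κ, x = Sum.inr y
    · obtain ⟨m', rfl⟩ := exists_map_eq Sum.inr m hall'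
      refine L2 _ (sol_embed Sum.inr Sum.inr_injective h22 ?_ hu) m' ?_ (by simpa using hm)
      · rintro (s' | s') hs' j
        · exact h12 s' j
        · exact absurd ⟨s', rfl⟩ hs'
      · rintro rfl; exact h0 rfl
    · push Not at hall hall'
      obtain ⟨x, hx, hx'⟩ := hall
      obtain ⟨y, hy, hy'⟩ := hall'
      rcases x with x | x
      · exact absurd rfl (hx' x)
      · rcases y with y | y
        · exact mixed (card m) hm.le m y x rfl hy hx
        · exact absurd rfl (hy' y)

/-- existence of a flat Killing tensor with the required properties -/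
def FlatEx (ι : Type*) [DecidableEq ι] [Fintype ι] : Prop :=
  ∃ (T : TL ι) (lam : ι → ℝ), Function.Injective lam ∧ Diag (kT T) lam ∧ Low 7 (kT T)

/-- adding a multiple of the identity -/
def shiftT (ι : Type*) [Fintype ι] (μ : ℝ) : TL ι :=
  (Finset.univ : Finset ι).toList.map fun i => (μ / 2, (none, i), (none, i))

lemma mulJ_xj_none (r : ι) (s j : ι) (m : Multiset ι) :
    mulJ (xj ((none, r) : KV ι) s) (xj ((none, r) : KV ι) j) m = if m = 0 ∧ s = r ∧ j = r then 1 else 0 := by
  rw [mulJ_xj]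
  simp only [Xop, xj]
  by_cases h : s = r
  · simp [h]
  · simp [h]

lemma kT_shift (μ : ℝ) (s j : ι) (m : Multiset ι) :
    kT (shiftT ι μ) s j m = if m = 0 ∧ s = j then μ else 0 := by
  unfold kT shiftT
  rw [List.map_map]
  have e : ((fun t : ℝ × KV ι × KV ι => t.1 * (mulJ (xj t.2.1 s) (xj t.2.2 j) m +
      mulJ (xj t.2.2 s) (xj t.2.1 j) m)) ∘ fun i => (μ / 2, ((none, i) : KV ι), ((none, i) : KV ι))) =
      fun i => if m = 0 ∧ s = i ∧ j = i then μ else 0 := by
    funext i
    simp only [Function.comp_apply, mulJ_xj_none]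
    split_ifs <;> ring
  rw [e, Finset.sum_map_toList]
  by_cases h0 : m = 0
  · by_cases hs : s = j
    · subst hs; simp [h0]
    · have : ∀ i : ι, ¬ (s = i ∧ j = i) := fun i h => hs (h.1.trans h.2.symm)
      simp [h0, hs, this]
  · simp [h0]

lemma eqn_shift (T : TL ι) (μ : ℝ) (u : Jet ι) (i j : ι) (l : List ι) :
    eqn (kT (T ++ shiftT ι μ)) u i j l = eqn (kT T) u i j l := by
  have key : ∀ i j, ∑ s, mulj (i :: l) (kT (T ++ shiftT ι μ) s j) (sh s u) =
      ∑ s, mulj (i :: l) (kT T s j) (sh s u) + μ * u (i ::ₘ j ::ₘ (l : Multiset ι)) := by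
    intro i j
    simp only [kT_append, mulj_add_left, Finset.sum_add_distrib]
    congr 1
    rw [Finset.sum_eq_single j]
    · have : kT (shiftT ι μ) j j = fun m => if m = 0 then μ else 0 := by
        funext m; rw [kT_shift]; simp
      rw [this, mulj_const]
      change μ * u (j ::ₘ ((i :: l : List ι) : Multiset ι)) = _
      rw [← Multiset.cons_coe, Multiset.cons_swap]
    · intro s _ hs
      have : kT (shiftT ι μ) s j = 0 := by
        funext m; rw [kT_shift]; simp [hs]
      rw [this, mulj_zero_left]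
    · simp
  unfold eqn
  rw [key, key, Multiset.cons_swap j i]
  ring

theorem FlatEx.sum (h1 : FlatEx ι) (h2 : FlatEx κ) : FlatEx (ι ⊕ κ) := by
  obtain ⟨T1, lam1, hi1, hd1, hL1⟩ := h1
  obtain ⟨T2, lam2, hi2, hd2, hL2⟩ := h2
  -- choose a large shift
  obtain ⟨μ, hμ⟩ : ∃ μ : ℝ, ∀ i j, lam1 i ≠ lam2 j + μ := by
    have hfin : Set.Finite (Set.range fun p : ι × κ => lam1 p.1 - lam2 p.2) := Set.finite_range _
    obtain ⟨μ, hμ⟩ := hfin.infinite_compl.nonempty
    refine ⟨μ, fun i j h => hμ ⟨(i, j), ?_⟩⟩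
    simp only
    linarith
  set T2' := T2 ++ shiftT κ μ with hT2'
  set lam2' : κ → ℝ := fun j => lam2 j + μ with hlam2'
  have hd2' : Diag (kT T2') lam2' := by
    intro i j
    rw [hT2', kT_append, Pi.add_apply, hd2 i j, kT_shift]
    by_cases h : i = j <;> simp [h, hlam2']
  have hL2' : Low 7 (kT T2') := by
    intro u hu
    apply hL2 u
    intro i j l hl
    rw [← eqn_shift T2 μ]
    exact hu i j l hl
  set K := kT (mapT Sum.inl T1 ++ mapT Sum.inr T2' : TL (ι ⊕ κ)) with hK
  have hnl : ∀ x : κ, (Sum.inr x : ι ⊕ κ) ∉ Set.range (Sum.inl : ι → ι ⊕ κ) := by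
    rintro x ⟨y, hy⟩; cases hy
  have hnr : ∀ x : ι, (Sum.inl x : ι ⊕ κ) ∉ Set.range (Sum.inr : κ → ι ⊕ κ) := by
    rintro x ⟨y, hy⟩; cases hy
  have e11 : ∀ s j, K (Sum.inl s) (Sum.inl j) = kT (mapT Sum.inl T1) (Sum.inl s) (Sum.inl j) := by
    intro s j
    rw [hK, kT_append, kT_map_notin_left (Sum.inr : κ → ι ⊕ κ) T2' _ _ (hnr s), add_zero]
  have e22 : ∀ s j, K (Sum.inr s) (Sum.inr j) = kT (mapT Sum.inr T2') (Sum.inr s) (Sum.inr j) := by
    intro s j
    rw [hK, kT_append, kT_map_notin_left (Sum.inl : ι → ι ⊕ κ) T1 _ _ (hnl s), zero_add]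
  have e12 : ∀ s j, K (Sum.inl s) (Sum.inr j) = 0 := by
    intro s j
    rw [hK, kT_append, kT_map_notin_right (Sum.inl : ι → ι ⊕ κ) T1 _ _ (hnl j),
      kT_map_notin_left (Sum.inr : κ → ι ⊕ κ) T2' _ _ (hnr s), add_zero]
  have e21 : ∀ s j, K (Sum.inr s) (Sum.inl j) = 0 := by
    intro s j
    rw [hK, kT_append, kT_map_notin_left (Sum.inl : ι → ι ⊕ κ) T1 _ _ (hnl s),
      kT_map_notin_right (Sum.inr : κ → ι ⊕ κ) T2' _ _ (hnr j), add_zero]
  have hinj : Function.Injective (Sum.elim lam1 lam2') := by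
    rintro (a | a) (b | b) h
    · exact congrArg _ (hi1 h)
    · exact absurd h (hμ a b)
    · exact absurd h.symm (hμ b a)
    · have : lam2 a = lam2 b := by simpa [hlam2'] using h
      exact congrArg _ (hi2 this)
  have hdK : Diag K (Sum.elim lam1 lam2') := by
    have hz1 := fun i j => kT_map (Sum.inl : ι → ι ⊕ κ) Sum.inl_injective T1 i j 0
    have hz2 := fun i j => kT_map (Sum.inr : κ → ι ⊕ κ) Sum.inr_injective T2' i j 0
    simp only [Multiset.map_zero] at hz1 hz2
    rintro (i | i) (j | j)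
    · rw [e11, hz1, hd1]; simp
    · rw [e12]; simp
    · rw [e21]; simp
    · rw [e22, hz2, hd2']; simp
  refine ⟨mapT Sum.inl T1 ++ mapT Sum.inr T2', Sum.elim lam1 lam2', hinj, hdK,
    low_sum (k1 := kT T1) (k2 := kT T2') hdK hinj ?_ ?_ e12 e21 ?_ ?_ hL1 hL2'⟩
  · intro s j m; rw [← hK, e11, kT_map _ Sum.inl_injective]
  · intro s j m; rw [← hK, e22, kT_map _ Sum.inr_injective]
  · intro s j x m hm; rw [← hK, e11]; exact kT_map_notin _ _ _ _ _ (hnl x) _ hm
  · intro s j x m hm; rw [← hK, e22]; exact kT_map_notin _ _ _ _ _ (hnr x) _ hm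

theorem FlatEx.equiv (e : ι ≃ κ) (h : FlatEx ι) : FlatEx κ := by
  obtain ⟨T, lam, hi, hd, hL⟩ := h
  refine ⟨mapT e T, lam ∘ e.symm, hi.comp e.symm.injective, ?_, ?_⟩
  · intro i j
    have := kT_map e e.injective T (e.symm i) (e.symm j) 0
    simp only [Equiv.apply_symm_apply, Multiset.map_zero] at this
    rw [this, hd]
    simp [e.symm.injective.eq_iff]
  · intro u hu m h0 hm
    have h1 := hL _ (sol_embed (k := kT T) (K := kT (mapT e T)) e e.injective
      (fun s j m => (kT_map e e.injective T s j m).symm)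
      (fun s' hs' => absurd ⟨e.symm s', by simp⟩ hs') hu) (m.map e.symm)
      (by intro h; apply h0; simpa using h) (by simpa using hm)
    simpa using h1

end

end Pool.Agent.K4H49.KT
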