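import Pool.Agent.K4H49.KT.Blocks

/-! Killing tensors given by lists of terms `c (X_a ⊙ X_b)`: formal flat jets, block sums. -/

namespace Pool.Agent.K4H49.KT

noncomputable section

set_option linter.unusedSectionVars false

open Multiset

/-- labels of Killing vector fields: `(none, r)` translations, `(some q, r)` rotations -/
abbrev KV (ι : Type*) := Option ι × ι

/-- a list of terms -/
abbrev TL (ι : Type*) := List (ℝ × KV ι × KV ι)

section basic

variable {ι : Type*} [DecidableEq ι]

/-- jet of the component `i` of the flat Killing vector field `a` -/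
def xj : KV ι → ι → Jet ι
  | (none, r), i => fun m => if m = 0 ∧ i = r then 1 else 0
  | (some q, r), i => fun m => (if m = {q} ∧ i = r then 1 else 0) - (if m = {r} ∧ i = q then 1 else 0)

/-- multiplication by the coordinate `q` on jets -/
def mulx (q : ι) (v : Jet ι) : Jet ι := fun m => (m.count q : ℝ) * v (m.erase q)

/-- multiplication by the component `i` of the flat Killing vector field `a` -/
def Xop : KV ι → ι → Jet ι → Jet ι
  | (none, r), i => fun v => if i = r then v else 0
  | (some q, r), i => fun v => (if i = r then mulx q v else 0) - (if i = q then mulx r v else 0)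

/-- flat jet of the Killing tensor -/
def kT (T : TL ι) (i j : ι) : Jet ι := fun m =>
  (T.map fun t => t.1 * (mulJ (xj t.2.1 i) (xj t.2.2 j) m + mulJ (xj t.2.2 i) (xj t.2.1 j) m)).sum

lemma mulj_const (c : ℝ) (l : List ι) : ∀ v : Jet ι, mulj l (fun m => if m = 0 then c else 0) v = c * v l := by
  induction l with
  | nil => intro v; simp [mulj]
  | cons i l ih =>
    intro v
    simp only [mulj]
    have : sh i (fun m : Multiset ι => if m = 0 then c else 0) = 0 := by
      funext m; simp [sh]
    rw [this, mulj_zero_left, ih, zero_add]; rfl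

lemma sh_mulx (i q : ι) (v : Jet ι) : sh i (mulx q v) = mulx q (sh i v) + (if i = q then v else 0) := by
  funext m
  simp only [sh_apply, mulx, Pi.add_apply]
  by_cases h : i = q
  · subst h
    rw [if_pos rfl, Multiset.count_cons_self, Multiset.erase_cons_head]
    by_cases hm : i ∈ m
    · rw [Multiset.cons_erase hm]; push_cast; ring
    · rw [Multiset.count_eq_zero_of_notMem hm]; simp
  · rw [if_neg h, Multiset.count_cons_of_ne (Ne.symm h), Multiset.erase_cons_tail _ h]; simp

lemma mulj_single (q : ι) (l : List ι) : ∀ v : Jet ι,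
    mulj l (fun m => if m = {q} then (1:ℝ) else 0) v = mulx q v l := by
  induction l with
  | nil => intro v; simp [mulj, mulx]
  | cons i l ih =>
    intro v
    simp only [mulj]
    rw [ih]
    change _ = sh i (mulx q v) l
    rw [sh_mulx, Pi.add_apply]
    by_cases h : i = q
    · subst h
      have : sh i (fun m : Multiset ι => if m = {i} then (1:ℝ) else 0) =
          (fun m => if m = 0 then (1:ℝ) else 0) := by
        funext m
        simp only [sh_apply]
        congr 1
        rw [eq_iff_iff, ← Multiset.cons_zero, Multiset.cons_inj_right]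
      rw [this, mulj_const]; simp; ring
    · have : sh i (fun m : Multiset ι => if m = {q} then (1:ℝ) else 0) = 0 := by
        funext m
        simp only [sh_apply, Pi.zero_apply, ite_eq_right_iff]
        intro hm
        have := Multiset.mem_cons_self i m
        rw [hm] at this
        exact absurd (Multiset.mem_singleton.1 this) h
      rw [this, mulj_zero_left]; simp [h]

lemma mulj_xj (a : KV ι) (i : ι) (l : List ι) (v : Jet ι) : mulj l (xj a i) v = Xop a i v l := by
  rcases a with ⟨_ | q, r⟩
  · by_cases h : i = r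
    · have : xj ((none, r) : KV ι) i = fun m => if m = 0 then (1:ℝ) else 0 := by
        funext m; simp [xj, h]
      rw [this, mulj_const]; simp [Xop, h]
    · have : xj ((none, r) : KV ι) i = 0 := by funext m; simp [xj, h]
      rw [this, mulj_zero_left]; simp [Xop, h]
  · have : xj ((some q, r) : KV ι) i = (if i = r then (fun m => if m = {q} then (1:ℝ) else 0 : Jet ι) else 0) -
        (if i = q then (fun m => if m = {r} then (1:ℝ) else 0 : Jet ι) else 0) := by
      funext m
      simp only [xj, Pi.sub_apply]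
      congr 1
      · by_cases h : i = r
        · rw [if_pos h]; simp [h]
        · rw [if_neg h]; simp [h]
      · by_cases h : i = q
        · rw [if_pos h]; simp [h]
        · rw [if_neg h]; simp [h]
    rw [this, mulj_comm, mulj_sub_right, mulj_comm, mulj_comm l v]
    simp only [Xop]
    rw [Pi.sub_apply]
    congr 1
    · by_cases h : i = r
      · rw [if_pos h, if_pos h, mulj_single]
      · rw [if_neg h, if_neg h, mulj_zero_left]; rfl
    · by_cases h : i = q
      · rw [if_pos h, if_pos h, mulj_single]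
      · rw [if_neg h, if_neg h, mulj_zero_left]; rfl

lemma mulJ_xj (a : KV ι) (i : ι) (v : Jet ι) : mulJ (xj a i) v = Xop a i v := by
  funext m
  induction m using Quotient.inductionOn with
  | _ l =>
    change mulJ (xj a i) v (l : Multiset ι) = _
    rw [mulJ_coe, mulj_xj]; rfl

/-- the operator of multiplication by `K^i_j` -/
def kop (T : TL ι) (i j : ι) (v : Jet ι) : Jet ι := fun m =>
  (T.map fun t => t.1 * (Xop t.2.1 i (Xop t.2.2 j v) m + Xop t.2.2 i (Xop t.2.1 j v) m)).sum

lemma mulj_kT (T : TL ι) (i j : ι) (l : List ι) (v : Jet ι) :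
    mulj l (kT T i j) v = kop T i j v l := by
  have h0 : kT T i j = (T.map fun t => t.1 • (mulJ (xj t.2.1 i) (xj t.2.2 j) +
      mulJ (xj t.2.2 i) (xj t.2.1 j))).sum := by
    funext m
    unfold kT
    induction T with
    | nil => simp
    | cons t T ih => simp only [List.map_cons, List.sum_cons, ih, Pi.add_apply, Pi.smul_apply, smul_eq_mul]
  rw [h0]
  unfold kop
  clear h0
  induction T with
  | nil => simp
  | cons t T ih =>
    simp only [List.map_cons, List.sum_cons]
    rw [mulj_add_left, ih, mulj_smul_left, mulj_add_left, mulj_mulJ_assoc, mulj_mulJ_assoc, mulj_xj, mulj_xj,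
      mulJ_xj, mulJ_xj]

lemma eqn_kT [Fintype ι] (T : TL ι) (u : Jet ι) (i j : ι) (l : List ι) :
    eqn (kT T) u i j l = ∑ s, kop T s j (sh s u) (i ::ₘ (l : Multiset ι)) -
      ∑ s, kop T s i (sh s u) (j ::ₘ (l : Multiset ι)) := by
  simp only [eqn, mulj_kT]; rfl

end basic

section embed

variable {ι κ : Type*} [DecidableEq ι] [DecidableEq κ]

lemma mulj_map (φ : ι → κ) (l : List ι) : ∀ (k u : Jet ι) (K U : Jet κ), (∀ m, k m = K (m.map φ)) →
    (∀ m, u m = U (m.map φ)) → mulj l k u = mulj (l.map φ) K U := by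
  induction l with
  | nil => intro k u K U h h'; simp only [mulj, List.map_nil]; rw [h 0, h' 0]; rfl
  | cons i l ih =>
    intro k u K U h h'
    simp only [mulj, List.map_cons]
    rw [ih (sh i k) u (sh (φ i) K) U (fun m => by simp [h]) h',
      ih k (sh i u) K (sh (φ i) U) h (fun m => by simp [h'])]

lemma eqn_embed [Fintype ι] [Fintype κ] (φ : ι → κ) (hφ : Function.Injective φ)
    (k : ι → ι → Jet ι) (K : κ → κ → Jet κ) (h1 : ∀ s j m, k s j m = K (φ s) (φ j) (m.map φ))
    (h2 : ∀ s' ∉ Set.range φ, ∀ j, K s' (φ j) = 0) (U : Jet κ) (i j : ι) (l : List ι) :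
    eqn k (fun m => U (m.map φ)) i j l = eqn K U (φ i) (φ j) (l.map φ) := by
  have key : ∀ i j, ∑ s, mulj (i :: l) (k s j) (sh s (fun m => U (m.map φ))) =
      ∑ s', mulj (φ i :: l.map φ) (K s' (φ j)) (sh s' U) := by
    intro i j
    apply Fintype.sum_of_injective φ hφ
    · intro s' hs'
      rw [h2 s' hs' j, mulj_zero_left]
    · intro s
      rw [show φ i :: l.map φ = (i :: l).map φ from rfl]
      apply mulj_map
      · exact h1 s j
      · intro m; simp
  unfold eqn
  rw [key, key]

/-- transport of terms -/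
def mapT (φ : ι → κ) (T : TL ι) : TL κ :=
  T.map fun t => (t.1, (t.2.1.1.map φ, φ t.2.1.2), (t.2.2.1.map φ, φ t.2.2.2))

lemma xj_map (φ : ι → κ) (hφ : Function.Injective φ) (a : KV ι) (i : ι) (m : Multiset ι) :
    xj (a.1.map φ, φ a.2) (φ i) (m.map φ) = xj a i m := by
  have hinj := Multiset.map_injective hφ
  rcases a with ⟨_ | q, r⟩
  · simp [xj, hφ.eq_iff]
  · simp only [xj, Option.map_some]
    have e1 : ∀ q : ι, (m.map φ = {φ q}) = (m = {q}) := by
      intro q
      rw [eq_iff_iff, ← Multiset.map_singleton]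
      exact hinj.eq_iff
    simp only [e1, hφ.eq_iff]

lemma xj_map_notin (φ : ι → κ) (a : KV ι) (i' : κ) (hi : i' ∉ Set.range φ) :
    xj (a.1.map φ, φ a.2) i' = 0 := by
  have : ∀ r, i' ≠ φ r := fun r h => hi ⟨r, h.symm⟩
  rcases a with ⟨_ | q, r⟩
  · funext m; simp [xj, this]
  · funext m; simp [xj, this]

lemma xj_map_notin' (φ : ι → κ) (a : KV ι) (i' : κ) (x : κ) (hx : x ∉ Set.range φ) (m : Multiset κ)
    (hm : x ∈ m) : xj (a.1.map φ, φ a.2) i' m = 0 := by
  have hxr : ∀ r, x ≠ φ r := fun r h => hx ⟨r, h.symm⟩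
  have h0 : m ≠ 0 := by rintro rfl; simp at hm
  have h1 : ∀ r, m ≠ {φ r} := by
    rintro r rfl
    exact hxr r (Multiset.mem_singleton.1 hm)
  rcases a with ⟨_ | q, r⟩
  · simp [xj, h0]
  · simp [xj, h1]

lemma mulj_eq_zero_of_mem (x : κ) (l : List κ) (hl : x ∈ l) : ∀ (k u : Jet κ),
    (∀ m, x ∈ m → k m = 0) → (∀ m, x ∈ m → u m = 0) → mulj l k u = 0 := by
  induction l with
  | nil => simp at hl
  | cons i l ih =>
    intro k u hk hu
    simp only [mulj]
    by_cases hx : x = i
    · subst hx
      have e1 : sh x k = 0 := by funext m; exact hk _ (Multiset.mem_cons_self _ _)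
      have e2 : sh x u = 0 := by funext m; exact hu _ (Multiset.mem_cons_self _ _)
      rw [e1, e2]; simp
    · have hl' : x ∈ l := by
        rcases List.mem_cons.1 hl with h | h
        · exact absurd h hx
        · exact h
      rw [ih hl' (sh i k) u (fun m hm => hk _ (Multiset.mem_cons_of_mem hm)) hu,
        ih hl' k (sh i u) hk (fun m hm => hu _ (Multiset.mem_cons_of_mem hm)), add_zero]

lemma mulJ_map (φ : ι → κ) (k u : Jet ι) (K U : Jet κ) (h : ∀ m, k m = K (m.map φ))
    (h' : ∀ m, u m = U (m.map φ)) (m : Multiset ι) : mulJ k u m = mulJ K U (m.map φ) := by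
  induction m using Quotient.inductionOn with
  | _ l =>
    change mulJ k u (l : Multiset ι) = mulJ K U ((l : Multiset ι).map φ)
    rw [Multiset.map_coe, mulJ_coe, mulJ_coe]
    exact mulj_map φ l k u K U h h'

lemma kT_map (φ : ι → κ) (hφ : Function.Injective φ) (T : TL ι) (i j : ι) (m : Multiset ι) :
    kT (mapT φ T) (φ i) (φ j) (m.map φ) = kT T i j m := by
  unfold kT mapT
  rw [List.map_map]
  congr 1
  apply List.map_congr_left
  intro t _
  simp only [Function.comp_apply]
  rw [← mulJ_map φ (xj t.2.1 i) (xj t.2.2 j) _ _ (fun m => (xj_map φ hφ _ _ m).symm)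
    (fun m => (xj_map φ hφ _ _ m).symm),
    ← mulJ_map φ (xj t.2.2 i) (xj t.2.1 j) _ _ (fun m => (xj_map φ hφ _ _ m).symm)
    (fun m => (xj_map φ hφ _ _ m).symm)]

lemma mulJ_zero_left (u : Jet κ) : mulJ 0 u = 0 := by
  funext m; simp [mulJ]

lemma mulJ_zero_right (u : Jet κ) : mulJ u 0 = 0 := by
  funext m; simp [mulJ]

lemma kT_map_notin_left (φ : ι → κ) (T : TL ι) (i' j' : κ) (hi : i' ∉ Set.range φ) :
    kT (mapT φ T) i' j' = 0 := by
  funext m
  unfold kT mapT
  rw [List.map_map]
  apply List.sum_eq_zero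
  intro x hx
  rw [List.mem_map] at hx
  obtain ⟨t, _, rfl⟩ := hx
  simp only [Function.comp_apply]
  rw [xj_map_notin φ t.2.1 i' hi, xj_map_notin φ t.2.2 i' hi, mulJ_zero_left, mulJ_zero_left]
  simp

lemma kT_map_notin_right (φ : ι → κ) (T : TL ι) (i' j' : κ) (hj : j' ∉ Set.range φ) :
    kT (mapT φ T) i' j' = 0 := by
  funext m
  unfold kT mapT
  rw [List.map_map]
  apply List.sum_eq_zero
  intro x hx
  rw [List.mem_map] at hx
  obtain ⟨t, _, rfl⟩ := hx
  simp only [Function.comp_apply]
  rw [xj_map_notin φ t.2.1 j' hj, xj_map_notin φ t.2.2 j' hj, mulJ_zero_right, mulJ_zero_right]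
  simp

lemma kT_map_notin (φ : ι → κ) (T : TL ι) (i' j' : κ) (x : κ) (hx : x ∉ Set.range φ) (m : Multiset κ)
    (hm : x ∈ m) : kT (mapT φ T) i' j' m = 0 := by
  unfold kT mapT
  rw [List.map_map]
  apply List.sum_eq_zero
  intro y hy
  rw [List.mem_map] at hy
  obtain ⟨t, _, rfl⟩ := hy
  simp only [Function.comp_apply, mulJ]
  rw [mulj_eq_zero_of_mem x _ (Multiset.mem_toList.2 hm) _ _ (xj_map_notin' φ _ _ x hx)
      (xj_map_notin' φ _ _ x hx),
    mulj_eq_zero_of_mem x _ (Multiset.mem_toList.2 hm) _ _ (xj_map_notin' φ _ _ x hx)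
      (xj_map_notin' φ _ _ x hx)]
  simp

lemma kT_append (T T' : TL κ) (i j : κ) : kT (T ++ T') i j = kT T i j + kT T' i j := by
  funext m; simp [kT]

end embed

end

end Pool.Agent.K4H49.KT
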