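import Pool.Agent.K4H49.KT.Main

/-! The two-dimensional case: `f = |disc K|^{-1/2}` is a conservation law. -/

namespace Pool.Agent.K4H49.KT

noncomputable section

set_option linter.unusedSectionVars false

open Matrix
open scoped ContDiff Topology

/-- discriminant of the characteristic polynomial -/
def dsc (K : (Fin 2 → ℝ) → Matrix (Fin 2) (Fin 2) ℝ) (y : Fin 2 → ℝ) : ℝ :=
  (K y 0 0 - K y 1 1) ^ 2 + 4 * (K y 0 1 * K y 1 0)

section local_identities

variable {s : Fin 2 → ℝ} {κ : ℝ} {W : Set (Fin 2 → ℝ)} {K : (Fin 2 → ℝ) → Matrix (Fin 2) (Fin 2) ℝ}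

lemma two_alg {s0 s1 a a0 a1 k00 k10 k11 x00 x10 x11 y00 y10 y11 : ℝ} (hs0 : s0 = 1 ∨ s0 = -1)
    (hs1 : s1 = 1 ∨ s1 = -1) (ha : a ≠ 0)
    (p10 : (a0 * (s0 * k00) + a * (s0 * x00)) * (a * (2 * s0)) - a * (s0 * k00 * 2) * (a0 * s0) +
      -(a * (2 * (s0 * k10)) * (a1 * s0)) = 0)
    (p01 : -(a * (2 * (s0 * k10)) * (a0 * s1)) +
      ((a1 * (s1 * k11) + a * (s1 * y11)) * (a * (2 * s1)) - a * (s1 * k11 * 2) * (a1 * s1)) = 0)
    (p11 : (a0 * (s0 * k00 + 2 * (s0 * k10) + s1 * k11) + a * (s0 * x00 + 2 * (s0 * x10) + s1 * x11)) *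
          (a * (2 * s0)) - a * (s0 * k00 * 2 + 2 * (s0 * k10)) * (a0 * (s0 + s1)) +
      ((a1 * (s0 * k00 + 2 * (s0 * k10) + s1 * k11) + a * (s0 * y00 + 2 * (s0 * y10) + s1 * y11)) *
          (a * (2 * s1)) - a * (2 * (s0 * k10) + s1 * k11 * 2) * (a1 * (s0 + s1))) = 0)
    (p1m : (a0 * (s0 * k00 + -(2 * (s0 * k10)) + s1 * k11) +
            a * (s0 * x00 + -(2 * (s0 * x10)) + s1 * x11)) * (a * (2 * s0)) -
        a * (s0 * k00 * 2 + -(2 * (s0 * k10))) * (a0 * (s0 + s1)) +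
      (-((a1 * (s0 * k00 + -(2 * (s0 * k10)) + s1 * k11) +
              a * (s0 * y00 + -(2 * (s0 * y10)) + s1 * y11)) * (a * (2 * s1))) -
        a * (2 * (s0 * k10) + -(s1 * k11 * 2)) * (a1 * (s0 + s1))) = 0) :
    a * x00 = k10 * a1 ∧ a * y11 = s0 * s1 * k10 * a0 ∧
      2 * a * (s0 * s1) * x10 + a * y00 = -(s0 * s1) * k10 * a0 - (k00 - k11) * a1 ∧
      a * x11 + 2 * a * y10 = (k00 - k11) * a0 - k10 * a1 := by
  have h2a : 2 * a ≠ 0 := mul_ne_zero two_ne_zero ha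
  rcases hs0 with rfl | rfl <;> rcases hs1 with rfl | rfl
  · refine ⟨?_, ?_, ?_, ?_⟩ <;> apply mul_left_cancel₀ h2a
    · linear_combination p10
    · linear_combination p01
    · linear_combination ((p11 - p1m) / 2 - p01)
    · linear_combination ((p11 + p1m) / 2 - p10)
  · refine ⟨?_, ?_, ?_, ?_⟩ <;> apply mul_left_cancel₀ h2a
    · linear_combination p10
    · linear_combination p01
    · linear_combination (-1) * ((p11 - p1m) / 2 - p01)
    · linear_combination (-1) * ((p11 + p1m) / 2 - p10)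
  · refine ⟨?_, ?_, ?_, ?_⟩ <;> apply mul_left_cancel₀ h2a
    · linear_combination p10
    · linear_combination p01
    · linear_combination (-1) * ((p11 - p1m) / 2 - p01)
    · linear_combination (-1) * ((p11 + p1m) / 2 - p10)
  · refine ⟨?_, ?_, ?_, ?_⟩ <;> apply mul_left_cancel₀ h2a
    · linear_combination p10
    · linear_combination p01
    · linear_combination ((p11 - p1m) / 2 - p01)
    · linear_combination ((p11 + p1m) / 2 - p10)

lemma two_symm (hs : ∀ i, s i = 1 ∨ s i = -1) (hWD : ∀ x ∈ W, 0 < cf s κ x)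
    (hK : IsKilling (modelMetric s κ) W K) {x : Fin 2 → ℝ} (hx : x ∈ W) :
    K x 0 1 = s 0 * s 1 * K x 1 0 := by
  have h1 := congrFun (congrFun (hK.2.2.2.1 x hx) 0) 1
  simp only [modelMetric, Matrix.transpose_apply, Matrix.diagonal_mul] at h1
  have hc := hWD x hx
  have h2 : s 1 * K x 1 0 = s 0 * K x 0 1 := by
    field_simp at h1
    linarith
  have hs2 : s 0 * s 0 = 1 := by rcases hs 0 with h | h <;> rw [h] <;> norm_num
  linear_combination (-s 0) * h2 + (-K x 0 1) * hs2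

lemma two_quadratic (hs : ∀ i, s i = 1 ∨ s i = -1) (hWD : ∀ x ∈ W, 0 < cf s κ x)
    (hK : IsKilling (modelMetric s κ) W K) {x : Fin 2 → ℝ} (hx : x ∈ W) (p : Fin 2 → ℝ) :
    quadratic (modelMetric s κ) K x p = (cf s κ x * cf s κ x) *
      (s 0 * K x 0 0 * p 0 ^ 2 + 2 * (s 0 * K x 1 0) * (p 0 * p 1) + s 1 * K x 1 1 * p 1 ^ 2) := by
  have hs2 : s 1 * s 1 = 1 := by rcases hs 1 with h | h <;> rw [h] <;> norm_num
  unfold quadratic
  rw [modelMetric_inv hs (hWD x hx).ne']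
  rw [dotProduct, Fin.sum_univ_two, Matrix.mulVec_diagonal, Matrix.mulVec_diagonal]
  simp only [Matrix.mulVec, dotProduct, Fin.sum_univ_two, Matrix.transpose_apply]
  rw [two_symm hs hWD hK hx]
  linear_combination (cf s κ x ^ 2 * s 0 * K x 1 0 * p 0 * p 1) * hs2

/-- the Killing equations in mixed components -/
lemma two_killing (hs : ∀ i, s i = 1 ∨ s i = -1) (hW : IsOpen W) (hWD : ∀ x ∈ W, 0 < cf s κ x)
    (hK : IsKilling (modelMetric s κ) W K) {x : Fin 2 → ℝ} (hx : x ∈ W) :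
    ∃ a a0 a1 : ℝ, a ≠ 0 ∧
      a * pd 0 (fun y => K y 0 0) x = K x 1 0 * a1 ∧
      a * pd 1 (fun y => K y 1 1) x = s 0 * s 1 * K x 1 0 * a0 ∧
      2 * a * (s 0 * s 1) * pd 0 (fun y => K y 1 0) x + a * pd 1 (fun y => K y 0 0) x =
        -(s 0 * s 1) * K x 1 0 * a0 - (K x 0 0 - K x 1 1) * a1 ∧
      a * pd 0 (fun y => K y 1 1) x + 2 * a * pd 1 (fun y => K y 1 0) x =
        (K x 0 0 - K x 1 1) * a0 - K x 1 0 * a1 := by
  have hs0 : s 0 * s 0 = 1 := by rcases hs 0 with h | h <;> rw [h] <;> norm_num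
  have hs1 : s 1 * s 1 = 1 := by rcases hs 1 with h | h <;> rw [h] <;> norm_num
  have hcf := diff_cf s κ
  have hd : ∀ i j, DifferentiableAt ℝ (fun y => K y i j) x := fun i j => (hK.2.1 i j x hx).differentiableAt
  set a : (Fin 2 → ℝ) → ℝ := fun y => cf s κ y * cf s κ y with ha
  have hda : DifferentiableAt ℝ a x := (hcf x).mul (hcf x)
  have ha0 : a x ≠ 0 := mul_ne_zero (hWD x hx).ne' (hWD x hx).ne'
  -- derivatives
  have hF : ∀ (l : Fin 2) (p : Fin 2 → ℝ), pd l (fun y => quadratic (modelMetric s κ) K y p) x =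
      pd l a x * (s 0 * K x 0 0 * p 0 ^ 2 + 2 * (s 0 * K x 1 0) * (p 0 * p 1) + s 1 * K x 1 1 * p 1 ^ 2) +
      a x * (s 0 * pd l (fun y => K y 0 0) x * p 0 ^ 2 + 2 * (s 0 * pd l (fun y => K y 1 0) x) * (p 0 * p 1) +
        s 1 * pd l (fun y => K y 1 1) x * p 1 ^ 2) := by
    intro l p
    have e : (fun y => quadratic (modelMetric s κ) K y p) =ᶠ[𝓝 x] fun y => a y *
        ((s 0 * p 0 ^ 2) * K y 0 0 + (2 * s 0 * (p 0 * p 1)) * K y 1 0 + (s 1 * p 1 ^ 2) * K y 1 1) := by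
      filter_upwards [hW.mem_nhds hx] with y hy
      rw [two_quadratic hs hWD hK hy p]; ring
    have e' : pd l (fun y => quadratic (modelMetric s κ) K y p) x = pd l (fun y => a y *
        ((s 0 * p 0 ^ 2) * K y 0 0 + (2 * s 0 * (p 0 * p 1)) * K y 1 0 + (s 1 * p 1 ^ 2) * K y 1 1)) x := by
      unfold pd; rw [e.fderiv_eq]
    have h00 := hd 0 0
    have h10 := hd 1 0
    have h11 := hd 1 1
    rw [e', pd_fmul l hda (by fun_prop), pd_fadd l (by fun_prop) (by fun_prop),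
      pd_fadd l (by fun_prop) (by fun_prop), pd_fcmul, pd_fcmul, pd_fcmul]
    ring
  have hFp : ∀ (l : Fin 2) (p : Fin 2 → ℝ), pd l (fun q => quadratic (modelMetric s κ) K x q) p =
      a x * (s 0 * K x 0 0 * (2 * p 0 * (if (0 : Fin 2) = l then 1 else 0)) +
        2 * (s 0 * K x 1 0) * ((if (0 : Fin 2) = l then 1 else 0) * p 1 + p 0 * (if (1 : Fin 2) = l then 1 else 0)) +
        s 1 * K x 1 1 * (2 * p 1 * (if (1 : Fin 2) = l then 1 else 0))) := by
    intro l p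
    have e : (fun q => quadratic (modelMetric s κ) K x q) = fun q => a x *
        ((s 0 * K x 0 0) * (q 0 * q 0) + (2 * (s 0 * K x 1 0)) * (q 0 * q 1) + (s 1 * K x 1 1) * (q 1 * q 1)) := by
      funext q
      rw [two_quadratic hs hWD hK hx q]; ring
    rw [e, pd_fcmul, pd_fadd l (by fun_prop) (by fun_prop), pd_fadd l (by fun_prop) (by fun_prop),
      pd_fcmul, pd_fcmul, pd_fcmul, pd_fmul l (by fun_prop) (by fun_prop), pd_fmul l (by fun_prop) (by fun_prop),
      pd_fmul l (by fun_prop) (by fun_prop), pd_coord', pd_coord']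
    ring
  have hH : ∀ (l : Fin 2) (p : Fin 2 → ℝ), pd l (fun y => cometric (modelMetric s κ) y p) x =
      pd l a x * (s 0 * p 0 ^ 2 + s 1 * p 1 ^ 2) := by
    intro l p
    have e : (fun y => cometric (modelMetric s κ) y p) =ᶠ[𝓝 x] fun y =>
        (s 0 * p 0 ^ 2 + s 1 * p 1 ^ 2) * a y := by
      filter_upwards [hW.mem_nhds hx] with y hy
      rw [cometric_model hs (hWD y hy).ne' p]
      simp only [H0, Qf, Fin.sum_univ_two, ha]; ring
    have e' : pd l (fun y => cometric (modelMetric s κ) y p) x =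
        pd l (fun y => (s 0 * p 0 ^ 2 + s 1 * p 1 ^ 2) * a y) x := by
      unfold pd; rw [e.fderiv_eq]
    rw [e', pd_fcmul]; ring
  have hHp : ∀ (l : Fin 2) (p : Fin 2 → ℝ), pd l (fun q => cometric (modelMetric s κ) x q) p =
      a x * (2 * s l * p l) := by
    intro l p
    have e : (fun q => cometric (modelMetric s κ) x q) = fun q => H0 s κ x q := by
      funext q; exact cometric_model hs (hWD x hx).ne' q
    rw [e, pd_H0_p]
    simp only [ha]; ring
  have hP : ∀ p : Fin 2 → ℝ, poisson (quadratic (modelMetric s κ) K) (cometric (modelMetric s κ)) x p = 0 :=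
    fun p => hK.2.2.2.2 x hx p
  simp only [poisson, Fin.sum_univ_two, hF, hFp, hH, hHp] at hP
  have p10 := hP ![1, 0]
  have p01 := hP ![0, 1]
  have p11 := hP ![1, 1]
  have p1m := hP ![1, -1]
  simp at p10 p01 p11 p1m
  exact ⟨a x, pd 0 a x, pd 1 a x, ha0, two_alg (hs 0) (hs 1) ha0 p10 p01 p11 p1m⟩

/-- the key identity: `K₀^* d(disc) = - disc d(tr)` -/
lemma two_key (hs : ∀ i, s i = 1 ∨ s i = -1) (hW : IsOpen W) (hWD : ∀ x ∈ W, 0 < cf s κ x)
    (hK : IsKilling (modelMetric s κ) W K) {x : Fin 2 → ℝ} (hx : x ∈ W) (j : Fin 2) :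
    ∑ r, K x r j * pd r (dsc K) x = (K x 0 0 + K x 1 1) / 2 * pd j (dsc K) x -
      dsc K x * pd j (fun y => K y 0 0 + K y 1 1) x := by
  obtain ⟨a, a0, a1, ha, e1, e2, e3, e4⟩ := two_killing hs hW hWD hK hx
  have hσ : (s 0 * s 1) * (s 0 * s 1) = 1 := by
    rcases hs 0 with h | h <;> rcases hs 1 with h' | h' <;> rw [h, h'] <;> norm_num
  have hd : ∀ i j, DifferentiableAt ℝ (fun y => K y i j) x := fun i j => (hK.2.1 i j x hx).differentiableAt
  have hsym : (fun y => K y 0 1) =ᶠ[𝓝 x] fun y => s 0 * s 1 * K y 1 0 := by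
    filter_upwards [hW.mem_nhds hx] with y hy
    exact two_symm hs hWD hK hy
  have h01 : ∀ l, pd l (fun y => K y 0 1) x = s 0 * s 1 * pd l (fun y => K y 1 0) x := by
    intro l
    have : pd l (fun y => K y 0 1) x = pd l (fun y => s 0 * s 1 * K y 1 0) x := by
      unfold pd; rw [hsym.fderiv_eq]
    rw [this, pd_fcmul]
  have hdisc : ∀ l, pd l (dsc K) x = 2 * (K x 0 0 - K x 1 1) *
      (pd l (fun y => K y 0 0) x - pd l (fun y => K y 1 1) x) +
      8 * (s 0 * s 1) * K x 1 0 * pd l (fun y => K y 1 0) x := by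
    intro l
    have h00 := hd 0 0
    have h10 := hd 1 0
    have h11 := hd 1 1
    have h01' := hd 0 1
    have e : dsc K = fun y => (K y 0 0 - K y 1 1) * (K y 0 0 - K y 1 1) + 4 * (K y 0 1 * K y 1 0) := by
      funext y; unfold dsc; ring
    rw [e, pd_fadd l (by fun_prop) (by fun_prop), pd_fmul l (by fun_prop) (by fun_prop),
      pd_fsub l (by fun_prop) (by fun_prop), pd_fcmul, pd_fmul l (by fun_prop) (by fun_prop), h01,
      two_symm hs hWD hK hx]
    ring
  have htr : ∀ l, pd l (fun y => K y 0 0 + K y 1 1) x =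
      pd l (fun y => K y 0 0) x + pd l (fun y => K y 1 1) x := fun l => pd_fadd l (hd 0 0) (hd 1 1)
  have hdx : dsc K x = (K x 0 0 - K x 1 1) ^ 2 + 4 * (s 0 * s 1) * K x 1 0 ^ 2 := by
    unfold dsc; rw [two_symm hs hWD hK hx]; ring
  have hK01 := two_symm hs hWD hK hx
  apply mul_left_cancel₀ ha
  fin_cases j
  · simp only [Fin.sum_univ_two, hdisc, htr, hdx, Fin.zero_eta, Fin.isValue]
    linear_combination (2 * (K x 0 0 - K x 1 1) ^ 2 + 4 * (s 0 * s 1) * K x 1 0 ^ 2) * e1 +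
      4 * (s 0 * s 1) * K x 1 0 ^ 2 * e4 + 2 * (K x 0 0 - K x 1 1) * K x 1 0 * e3 -
      2 * (K x 0 0 - K x 1 1) * K x 1 0 * e2
  · simp only [Fin.sum_univ_two, hdisc, htr, hdx, Fin.mk_one, Fin.isValue]
    linear_combination 2 * (s 0 * s 1) * (K x 0 0 - K x 1 1) * K x 1 0 * e1 -
      2 * (s 0 * s 1) * (K x 0 0 - K x 1 1) * K x 1 0 * e4 + 4 * (s 0 * s 1) * K x 1 0 ^ 2 * e3 +
      (2 * (K x 0 0 - K x 1 1) ^ 2 + 4 * (s 0 * s 1) * K x 1 0 ^ 2) * e2 +
      a * (2 * (K x 0 0 - K x 1 1) * (pd 0 (fun y => K y 0 0) x - pd 0 (fun y => K y 1 1) x) +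
      8 * (s 0 * s 1) * K x 1 0 * pd 0 (fun y => K y 1 0) x) * hK01

lemma analytic_dsc (hK : IsKilling (modelMetric s κ) W K) : AnalyticOnNhd ℝ (dsc K) W := by
  intro x hx
  have h := fun i j => hK.2.1 i j x hx
  exact (((h 0 0).sub (h 1 1)).pow 2).add (analyticAt_const.mul ((h 0 1).mul (h 1 0)))

/-- `f = |disc K|^{-1/2}` is a conservation law where `disc K` has a constant sign -/
lemma two_law (hs : ∀ i, s i = 1 ∨ s i = -1) (hW : IsOpen W) (hWD : ∀ x ∈ W, 0 < cf s κ x)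
    (hK : IsKilling (modelMetric s κ) W K) {V : Set (Fin 2 → ℝ)} (hV : IsOpen V) (hVW : V ⊆ W) {ε : ℝ}
    (hε : ∀ x ∈ V, 0 < ε * dsc K x) :
    IsConservationLaw K V (fun x => (Real.sqrt (ε * dsc K x))⁻¹) := by
  have hKs : ∀ i j, ContDiffOn ℝ ∞ (fun x => K x i j) V := fun i j =>
    AnalyticOnNhd.contDiffOn ((hK.2.1 i j).mono hVW) hV.uniqueDiffOn
  have hds : ContDiffOn ℝ ∞ (dsc K) V :=
    ((analytic_dsc hK).mono hVW).contDiffOn hV.uniqueDiffOn
  set f : (Fin 2 → ℝ) → ℝ := fun x => (Real.sqrt (ε * dsc K x))⁻¹ with hf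
  have hfs : ContDiffOn ℝ ∞ f V := by
    have h1 : ContDiffOn ℝ ∞ (fun x => ε * dsc K x) V := contDiffOn_const.mul hds
    have h2 : ContDiffOn ℝ ∞ (fun x => Real.sqrt (ε * dsc K x)) V := h1.sqrt fun x hx => (hε x hx).ne'
    exact h2.inv fun x hx => (Real.sqrt_pos.2 (hε x hx)).ne'
  have hpf : ∀ l, ∀ x ∈ V, pd l f x * (2 * dsc K x) = -(f x * pd l (dsc K) x) := by
    intro l x hx
    have hpos := hε x hx
    have hdd := differentiableAt_of hV hds hx
    have h1 : HasFDerivAt (fun x => ε * dsc K x) (ε • fderiv ℝ (dsc K) x) x :=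
      hdd.hasFDerivAt.const_mul ε
    have h2 := (h1.sqrt hpos.ne')
    have hsq : Real.sqrt (ε * dsc K x) ≠ 0 := (Real.sqrt_pos.2 hpos).ne'
    have h3 := (hasDerivAt_inv hsq).comp_hasFDerivAt x h2
    have h4 : fderiv ℝ f x = -(Real.sqrt (ε * dsc K x) ^ 2)⁻¹ •
        (1 / (2 * Real.sqrt (ε * dsc K x))) • (ε • fderiv ℝ (dsc K) x) := h3.fderiv
    have hss : Real.sqrt (ε * dsc K x) ^ 2 = ε * dsc K x := Real.sq_sqrt hpos.le
    simp only [pd, h4]
    simp only [_root_.smul_apply, smul_eq_mul, hf]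
    rw [hss]
    have hε0 : ε ≠ 0 := by rintro rfl; simp at hpos
    have hd0 : dsc K x ≠ 0 := by intro h; rw [h] at hpos; simp at hpos
    field_simp
  -- the 1-form is exact
  have hw : ∀ j, Set.EqOn (fun y => ∑ r, K y r j * pd r f y)
      (fun y => (1 / 2 : ℝ) * pd j (fun y => (K y 0 0 + K y 1 1) * f y) y) V := by
    intro j x hx
    have hd0 : dsc K x ≠ 0 := by intro h; have := hε x hx; rw [h] at this; simp at this
    have h1 := two_key hs hW hWD hK (hVW hx) j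
    have hdK : ∀ i j, DifferentiableAt ℝ (fun y => K y i j) x := fun i j => differentiableAt_of hV (hKs i j) hx
    have h00 := hdK 0 0
    have h11 := hdK 1 1
    have h2 : pd j (fun y => (K y 0 0 + K y 1 1) * f y) x =
        pd j (fun y => K y 0 0 + K y 1 1) x * f x + (K x 0 0 + K x 1 1) * pd j f x :=
      pd_fmul j (by fun_prop) (differentiableAt_of hV hfs hx)
    simp only
    rw [h2]
    apply mul_left_cancel₀ (mul_ne_zero two_ne_zero hd0)
    have h3 := hpf 0 x hx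
    have h4 := hpf 1 x hx
    have h5 := hpf j x hx
    simp only [Fin.sum_univ_two] at h1 ⊢
    linear_combination K x 0 j * h3 + K x 1 j * h4 - f x * h1 - (K x 0 0 + K x 1 1) / 2 * h5
  refine ⟨hfs, fun x hx i j => ?_⟩
  have hTs : ContDiffOn ℝ ∞ (fun y => (K y 0 0 + K y 1 1) * f y) V := ((hKs 0 0).add (hKs 1 1)).mul hfs
  rw [pd_congr hV (hw j) i hx, pd_congr hV (hw i) j hx, pd_fcmul, pd_fcmul]
  congr 1
  exact pd_comm hV hTs i j hx

end local_identities

section nonconst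

variable {s : Fin 2 → ℝ} {κ : ℝ} {W : Set (Fin 2 → ℝ)} {K : (Fin 2 → ℝ) → Matrix (Fin 2) (Fin 2) ℝ}

lemma eventually_pd_zero {f : (Fin 2 → ℝ) → ℝ} {V : Set (Fin 2 → ℝ)} (hV : IsOpen V) {c : ℝ}
    (h : ∀ x ∈ V, f x = c) (l : Fin 2) : ∀ x ∈ V, pd l f x = 0 := by
  intro x hx
  have : Set.EqOn f (fun _ => c) V := h
  rw [pd_congr hV this l hx]
  exact pd_fconst l c

/-- for `K` with a non-constant discriminant there are non-trivial laws -/
lemma two_nontrivial (hs : ∀ i, s i = 1 ∨ s i = -1) (hW : IsOpen W) (hWc : IsConnected W)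
    (hWD : ∀ x ∈ W, 0 < cf s κ x) (hK : IsKilling (modelMetric s κ) W K) {x0 : Fin 2 → ℝ} (hx0 : x0 ∈ W)
    {l : Fin 2} (hne : pd l (dsc K) x0 ≠ 0) : HasNontrivialLaws K W := by
  have han := analytic_dsc hK
  have hanl : AnalyticOnNhd ℝ (pd l (dsc K)) W := analyticOnNhd_pd han l
  refine ⟨{x | x ∈ W ∧ dsc K x ≠ 0}, fun x hx => hx.1, ?_, ?_, ?_⟩
  · rw [isOpen_iff_mem_nhds]
    rintro x ⟨hx, hdx⟩
    have h1 : ∀ᶠ y in 𝓝 x, dsc K y ≠ 0 := (han x hx).continuousAt.eventually_ne hdx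
    filter_upwards [h1, hW.mem_nhds hx] with y hy hyW
    exact ⟨hyW, hy⟩
  · intro x hx
    rw [mem_closure_iff_nhds]
    intro t ht
    by_contra hcon
    have hz : dsc K =ᶠ[𝓝 x] 0 := by
      filter_upwards [ht, hW.mem_nhds hx] with y hyt hyW
      by_contra hy
      exact hcon ⟨y, hyt, hyW, hy⟩
    have h0 := han.eqOn_zero_of_preconnected_of_eventuallyEq_zero hWc.isPreconnected hx hz
    exact hne (eventually_pd_zero hW (c := 0) (fun y hy => h0 hy) l x0 hx0)
  · rintro x ⟨hx, hdx⟩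
    -- sign
    obtain ⟨ε, hε⟩ : ∃ ε : ℝ, 0 < ε * dsc K x := ⟨dsc K x, by rw [← sq]; positivity⟩
    have h1 : ∀ᶠ y in 𝓝 x, 0 < ε * dsc K y :=
      (continuousAt_const.mul (han x hx).continuousAt).eventually (lt_mem_nhds hε)
    obtain ⟨r, hr, hball⟩ := Metric.mem_nhds_iff.1 (Filter.inter_mem h1 (hW.mem_nhds hx))
    have hVW : Metric.ball x r ⊆ W := fun y hy => (hball hy).2
    refine ⟨Metric.ball x r, hVW, Metric.mem_ball_self hr, Metric.isOpen_ball,
      (convex_ball x r).isPathConnected ⟨x, Metric.mem_ball_self hr⟩ |>.isConnected, _,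
      two_law hs hW hWD hK Metric.isOpen_ball hVW (fun y hy => (hball hy).1), ?_⟩
    rintro ⟨c, hc⟩
    have hconst : ∀ y ∈ Metric.ball x r, ε * dsc K y = (c⁻¹) ^ 2 := by
      intro y hy
      have h2 : (Real.sqrt (ε * dsc K y))⁻¹ = c := hc y hy
      have hpos : 0 < ε * dsc K y := (hball hy).1
      rw [← h2, inv_inv, Real.sq_sqrt hpos.le]
    have hpz : ∀ y ∈ Metric.ball x r, pd l (dsc K) y = 0 := by
      intro y hy
      have h3 := eventually_pd_zero Metric.isOpen_ball hconst l y hy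
      rw [pd_fcmul] at h3
      rcases mul_eq_zero.1 h3 with h4 | h4
      · exfalso; rw [h4] at hε; simp at hε
      · exact h4
    have hz : pd l (dsc K) =ᶠ[𝓝 x] 0 := by
      filter_upwards [Metric.ball_mem_nhds x hr] with y hy
      exact hpz y hy
    exact hne (hanl.eqOn_zero_of_preconnected_of_eventuallyEq_zero hWc.isPreconnected hx hz hx0)

/-- the explicit example -/
def TT : TL (Fin 2) := [(1 / 2, (some 0, 1), (some 0, 1))]

lemma dsc_TT (hs : ∀ i, s i = 1 ∨ s i = -1) (x : Fin 2 → ℝ) :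
    dsc (KF s κ TT) x = ((cf s κ x)⁻¹ ^ 2) ^ 2 * (s 0 * x 1 ^ 2 + s 1 * x 0 ^ 2) ^ 2 := by
  have hs0 : s 0 * s 0 = 1 := by rcases hs 0 with h | h <;> rw [h] <;> norm_num
  have hs1 : s 1 * s 1 = 1 := by rcases hs 1 with h | h <;> rw [h] <;> norm_num
  have e1 : s 0 * (s 1 * x 1) ^ 2 + s 1 * (s 0 * x 0) ^ 2 = s 0 * x 1 ^ 2 + s 1 * x 0 ^ 2 := by
    linear_combination s 0 * x 1 ^ 2 * hs1 + s 1 * x 0 ^ 2 * hs0
  rw [← e1]
  simp only [dsc, KF, Kc, TT, Xv, Matrix.of_apply, List.map_cons, List.map_nil, List.sum_cons, List.sum_nil]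
  simp
  ring

theorem main_two (s : Fin 2 → ℝ) (hs : ∀ i, s i = 1 ∨ s i = -1) (κ : ℝ)
    (W : Set (Fin 2 → ℝ)) (hW : IsOpen W) (hWc : IsConnected W) (hWD : ∀ x ∈ W, 0 < cf s κ x) :
    HoldsGenerically fun K : killingTensors (modelMetric s κ) W => HasNontrivialLaws K.1 W := by
  set D : Set (Fin 2 → ℝ) := {x | 0 < cf s κ x} with hD
  have hDan : AnalyticOnNhd ℝ (dsc (KF s κ TT)) D := by
    intro x hx
    have h := fun i j => analyticAt_KF' s κ TT i j x (ne_of_gt hx)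
    exact (((h 0 0).sub (h 1 1)).pow 2).add (analyticAt_const.mul ((h 0 1).mul (h 1 0)))
  have h0D : (0 : Fin 2 → ℝ) ∈ D := by simp [hD, cf, Qf]
  have hDo : IsOpen D := isOpen_lt continuous_const (diff_cf s κ).continuous
  obtain ⟨x0, hx0, l, hl⟩ : ∃ x0 ∈ W, ∃ l, pd l (dsc (KF s κ TT)) x0 ≠ 0 := by
    by_contra hcon
    push Not at hcon
    obtain ⟨z, hz⟩ := hWc.nonempty
    have hzero : ∀ l, Set.EqOn (pd l (dsc (KF s κ TT))) 0 D := by
      intro l
      have hev : pd l (dsc (KF s κ TT)) =ᶠ[𝓝 z] 0 := by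
        filter_upwards [hW.mem_nhds hz] with y hy
        exact hcon y hy l
      exact (analyticOnNhd_pd hDan l).eqOn_zero_of_preconnected_of_eventuallyEq_zero
        (isPreconnected_domain s κ) (hWD z hz) hev
    have hfd : Set.EqOn (fderiv ℝ (dsc (KF s κ TT))) 0 D := by
      intro x hx
      apply ContinuousLinearMap.coe_injective
      apply LinearMap.pi_ext
      intro i c
      have h1 : (Pi.single i c : Fin 2 → ℝ) = c • Pi.single i (1 : ℝ) := by
        rw [← Pi.single_smul]; simp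
      have h2 := hzero i hx
      unfold pd at h2
      rw [h1, map_smul, map_smul]
      simp only [ContinuousLinearMap.coe_coe, h2]
      simp
    obtain ⟨c, hc⟩ := hDo.exists_is_const_of_fderiv_eq_zero (isPreconnected_domain s κ)
      (fun x hx => (hDan x hx).differentiableAt.differentiableWithinAt) hfd
    -- a point where the discriminant is not zero
    have hc0 : c = 0 := by
      rw [← hc 0 h0D, dsc_TT hs]; simp
    obtain ⟨δ, hδ0, hδ⟩ : ∃ δ : ℝ, δ ≠ 0 ∧ 0 < 1 + κ / 4 * (s 0 * δ ^ 2) := by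
      have h1 : ∀ᶠ δ in 𝓝 (0:ℝ), 0 < 1 + κ / 4 * (s 0 * δ ^ 2) := by
        have : ContinuousAt (fun δ : ℝ => 1 + κ / 4 * (s 0 * δ ^ 2)) 0 := by fun_prop
        exact this.eventually (lt_mem_nhds (by simp))
      obtain ⟨δ, hδ, hδ0⟩ := ((h1.filter_mono nhdsWithin_le_nhds).and
        (self_mem_nhdsWithin : ∀ᶠ δ in 𝓝[≠] (0:ℝ), δ ∈ ({0}ᶜ : Set ℝ))).exists
      exact ⟨δ, hδ0, hδ⟩
    have hxD : (![δ, 0] : Fin 2 → ℝ) ∈ D := by
      change 0 < cf s κ ![δ, 0]
      unfold cf Qf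
      rw [Fin.sum_univ_two]
      simpa using hδ
    have h2 := hc _ hxD
    rw [hc0, dsc_TT hs] at h2
    have hcf : cf s κ ![δ, 0] ≠ 0 := ne_of_gt hxD
    have hs1 : s 1 ≠ 0 := by rcases hs 1 with h | h <;> rw [h] <;> norm_num
    simp at h2
    rcases h2 with h2 | h2
    · exact hcf h2
    · rcases h2 with h2 | h2
      · exact hs1 h2
      · exact hδ0 h2
  have hlin : ∀ (i j : Fin 2) (m : List (Fin 2)), (fun K : killingTensors (modelMetric s κ) W =>
      pdl m (fun y => (K : (Fin 2 → ℝ) → Matrix (Fin 2) (Fin 2) ℝ) y i j) x0) ∈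
        polynomialFunctions (killingTensors (modelMetric s κ) W) := by
    intro i j m
    apply Algebra.subset_adjoin
    have hKsm : ∀ K : killingTensors (modelMetric s κ) W,
        ContDiffOn ℝ ∞ (fun x => (K : (Fin 2 → ℝ) → Matrix (Fin 2) (Fin 2) ℝ) x i j) W :=
      fun K => (K.2.2.1 i j : AnalyticOnNhd ℝ _ W).contDiffOn hW.uniqueDiffOn
    refine ⟨{ toFun := fun K => pdl m (fun y => (K : (Fin 2 → ℝ) → Matrix (Fin 2) (Fin 2) ℝ) y i j) x0
              map_add' := ?_, map_smul' := ?_ }, rfl⟩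
    · intro K K'
      exact pdl_add hW m (hKsm K) (hKsm K') hx0
    · intro c K
      exact congrFun (pdl_smul m c (fun y => (K : (Fin 2 → ℝ) → Matrix (Fin 2) (Fin 2) ℝ) y i j)) x0
  have hpd : ∀ K : killingTensors (modelMetric s κ) W, pd l (dsc K.1) x0 =
      2 * ((K.1 x0 0 0 - K.1 x0 1 1) * (pd l (fun y => K.1 y 0 0) x0 - pd l (fun y => K.1 y 1 1) x0)) +
      4 * (pd l (fun y => K.1 y 0 1) x0 * K.1 x0 1 0 + K.1 x0 0 1 * pd l (fun y => K.1 y 1 0) x0) := by
    intro K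
    have hd : ∀ i j, DifferentiableAt ℝ (fun y => K.1 y i j) x0 := fun i j =>
      (K.2.2.1 i j x0 hx0).differentiableAt
    have h00 := hd 0 0
    have h10 := hd 1 0
    have h11 := hd 1 1
    have h01 := hd 0 1
    have e : dsc K.1 = fun y => (K.1 y 0 0 - K.1 y 1 1) * (K.1 y 0 0 - K.1 y 1 1) +
        4 * (K.1 y 0 1 * K.1 y 1 0) := by
      funext y; unfold dsc; ring
    rw [e, pd_fadd l (by fun_prop) (by fun_prop), pd_fmul l (by fun_prop) (by fun_prop),
      pd_fsub l (by fun_prop) (by fun_prop), pd_fcmul, pd_fmul l (by fun_prop) (by fun_prop)]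
    ring
  refine ⟨fun K => pd l (dsc K.1) x0, ?_, ⟨⟨KW s κ TT W, KW_mem hs hW (fun x hx => (hWD x hx).ne') TT⟩, ?_⟩, ?_⟩
  · have e : (fun K : killingTensors (modelMetric s κ) W => pd l (dsc K.1) x0) =
        (2 : ℝ) • (((fun K : killingTensors (modelMetric s κ) W => pdl [] (fun y => K.1 y 0 0) x0) -
          (fun K : killingTensors (modelMetric s κ) W => pdl [] (fun y => K.1 y 1 1) x0)) *
          ((fun K : killingTensors (modelMetric s κ) W => pdl [l] (fun y => K.1 y 0 0) x0) -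
          (fun K : killingTensors (modelMetric s κ) W => pdl [l] (fun y => K.1 y 1 1) x0))) +
        (4 : ℝ) • ((fun K : killingTensors (modelMetric s κ) W => pdl [l] (fun y => K.1 y 0 1) x0) *
          (fun K : killingTensors (modelMetric s κ) W => pdl [] (fun y => K.1 y 1 0) x0) +
          (fun K : killingTensors (modelMetric s κ) W => pdl [] (fun y => K.1 y 0 1) x0) *
          (fun K : killingTensors (modelMetric s κ) W => pdl [l] (fun y => K.1 y 1 0) x0)) := by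
      funext K
      rw [hpd K]
      rfl
    rw [e]
    have S := polynomialFunctions (killingTensors (modelMetric s κ) W)
    refine Subalgebra.add_mem _ (Subalgebra.smul_mem _ (Subalgebra.mul_mem _ (Subalgebra.sub_mem _ ?_ ?_)
      (Subalgebra.sub_mem _ ?_ ?_)) _) (Subalgebra.smul_mem _ (Subalgebra.add_mem _
      (Subalgebra.mul_mem _ ?_ ?_) (Subalgebra.mul_mem _ ?_ ?_)) _)
    all_goals exact hlin _ _ _
  · have e : Set.EqOn (dsc (KW s κ TT W)) (dsc (KF s κ TT)) W := by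
      intro y hy
      unfold dsc
      rw [KW_eq hy]
    change pd l (dsc (KW s κ TT W)) x0 ≠ 0
    rw [pd_congr hW e l hx0]
    exact hl
  · intro K hK
    exact two_nontrivial hs hW hWc hWD K.2 hx0 hK

end nonconst

end

end Pool.Agent.K4H49.KT
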